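import Mathlib

/-!
# The bound

For `a ≥ 1` let `s = ⌈a / (d - 1)⌉ = (a - 1) / (d - 1) + 1` and `b = s (d - 1) - a`. `LL d a` is
`#{monomials of degree d in s variables} - s + 1 - #{monomials of degree b in s variables}`, which is the
number of monomials of degree `d` dividing `x_1^(d-1) ⋯ x_(s-1)^(d-1) x_s^(a - (s-1)(d-1))`.
`BB d` is defined by the recursion
`BB d (a + 1) = min (LL d (a + 1)) (BB d a + ⌈(a + 1) / (d - 1)⌉ + [a = 2 (d - 1) or d - 1 divides a + 1])`.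

Paper proofs. `Nat.multichoose_eq`. `LL_two`: for `d ≥ 2`, `LL d (2 d - 2) = d - 1` (`s = 2`, `b = 0`).
For `d ≥ 4`: `LL d a = 0` for `a ≤ d - 1`, `LL d (d + j) = j + 1` for `j ≤ d - 2`, `LL d (2 d - 1) = 2 d - 1`,
`LL d (2 d) = 3 d - 2` (`s = 3`, `b = d - 2` resp. `d - 3`;
`(d + 2).choose 2 - 3 + 1 - d.choose 2 = 2 d - 1`, `(d + 2).choose 2 - 2 - (d - 1).choose 2 = 3 d - 2`), so
`BB d (d + j) = j + 1` for `j ≤ d - 2`, `BB d (2 d - 2) = d - 1`, `BB d (2 d - 1) = min (2 d - 1) (d + 3) = d + 3`,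
`BB d (2 d) = min (3 d - 2) (d + 6) = d + 6`.
Monotonicity: `LL d a ≤ LL d (a + 1)` (for `b ≥ 1` the term `multichoose s b` decreases; when `s` jumps,
`a = s (d - 1)`: `multichoose s d + 1 - s - 1 ≤ multichoose (s + 1) d + 1 - (s + 1) - multichoose (s + 1) (d - 2)`, since
`multichoose (s + 1) d = multichoose s d + multichoose (s + 1) (d - 1)` and
`multichoose (s + 1) (d - 1) = multichoose s (d - 1) + multichoose (s + 1) (d - 2)`, `multichoose s (d - 1) ≥ 1`),
hence `BB d a ≤ LL d a ≤ LL d (a + 1)` and `BB d a ≤ BB d (a + 1)`.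
-/

namespace VKB

/-- the number of monomials of degree `d` dividing `x_1^(d-1) ⋯ x_(s-1)^(d-1) x_s^r`, where
`a = (s - 1) (d - 1) + r`, `1 ≤ r ≤ d - 1` -/
def LL (d a : ℕ) : ℕ :=
  Nat.multichoose ((a - 1) / (d - 1) + 1) d + 1 - ((a - 1) / (d - 1) + 1) -
    Nat.multichoose ((a - 1) / (d - 1) + 1) (((a - 1) / (d - 1) + 1) * (d - 1) - a)

/-- the bound -/
def BB (d : ℕ) : ℕ → ℕ
  | 0 => 0
  | a + 1 => min (LL d (a + 1))
      (BB d a + (a / (d - 1) + 1) + if a = 2 * (d - 1) ∨ (d - 1) ∣ (a + 1) then 1 else 0)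

theorem BB_zero (d : ℕ) : BB d 0 = 0 := rfl

theorem BB_succ (d a : ℕ) : BB d (a + 1) =
    min (LL d (a + 1))
      (BB d a + (a / (d - 1) + 1) + if a = 2 * (d - 1) ∨ (d - 1) ∣ (a + 1) then 1 else 0) := rfl

theorem BB_le_LL {d : ℕ} (_hd : 2 ≤ d) (a : ℕ) : BB d a ≤ LL d a := by
  cases a with
  | zero => exact Nat.zero_le _
  | succ a =>
    rw [BB_succ]
    exact min_le_left _ _

/-- the form in which the bound is used -/
theorem LL_use {d a p : ℕ} (_hd : 2 ≤ d) (hp : p < LL d (a + 1)) :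
    p + Nat.multichoose (a / (d - 1) + 1) ((a / (d - 1) + 1) * (d - 1) - (a + 1)) +
      (a / (d - 1) + 1) ≤ Nat.multichoose (a / (d - 1) + 1) d := by
  unfold LL at hp
  rw [Nat.add_sub_cancel] at hp
  omega

theorem mc_pos (s k : ℕ) : 1 ≤ Nat.multichoose (s + 1) k := by
  rw [Nat.multichoose_eq]
  exact Nat.choose_pos (by omega)

theorem mc_mono (s k : ℕ) : Nat.multichoose (s + 1) k ≤ Nat.multichoose (s + 1) (k + 1) := by
  rw [Nat.multichoose_succ_succ]
  omega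

theorem mc_three (k : ℕ) : 2 * Nat.multichoose 3 k = (k + 1) * (k + 2) := by
  induction k with
  | zero => rw [Nat.multichoose_zero_right]
  | succ k ih =>
    rw [show (3 : ℕ) = 2 + 1 from rfl, Nat.multichoose_succ_succ, Nat.multichoose_two, mul_add,
      show (2 : ℕ) + 1 = 3 from rfl, ih]
    ring

/-- `LL` with quotient and remainder -/
theorem LL_eq {e q b : ℕ} (hb : b < e) :
    LL (e + 1) (q * e + (e - b)) =
      Nat.multichoose (q + 1) (e + 1) + 1 - (q + 1) - Nat.multichoose (q + 1) b := by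
  have h1 : (q * e + (e - b) - 1) / (e + 1 - 1) = q := by
    rw [Nat.add_sub_cancel, Nat.div_eq_of_lt_le]
    · rw [mul_comm]; rw [mul_comm]; omega
    · rw [Nat.succ_mul]; omega
  unfold LL
  rw [h1]
  have h2 : (q + 1) * (e + 1 - 1) - (q * e + (e - b)) = b := by
    rw [Nat.add_sub_cancel, Nat.succ_mul]; omega
  rw [h2]

theorem LL_zero {d : ℕ} (_hd : 2 ≤ d) : LL d 0 = 0 := by
  unfold LL
  rw [Nat.zero_sub, Nat.zero_div, Nat.zero_add, Nat.multichoose_one, Nat.multichoose_one]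

theorem LL_two {d : ℕ} (hd : 2 ≤ d) : LL d (2 * (d - 1)) = d - 1 := by
  obtain ⟨e, rfl⟩ : ∃ e, d = e + 1 := ⟨d - 1, by omega⟩
  have h := LL_eq (e := e) (q := 1) (b := 0) (by omega)
  rw [show 2 * (e + 1 - 1) = 1 * e + (e - 0) by omega, h, show (1 : ℕ) + 1 = 2 from rfl,
    Nat.multichoose_two, Nat.multichoose_zero_right]
  omega

theorem BB_two (_a : ℕ) : LL 2 3 = 3 := by
  norm_num [LL, Nat.multichoose_eq, Nat.choose]

theorem LL_mono {d : ℕ} (hd : 2 ≤ d) (a : ℕ) : LL d a ≤ LL d (a + 1) := by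
  rcases Nat.eq_zero_or_pos a with rfl | ha
  · rw [LL_zero hd]; exact Nat.zero_le _
  obtain ⟨e, rfl⟩ : ∃ e, d = e + 1 := ⟨d - 1, by omega⟩
  have he : 0 < e := by omega
  obtain ⟨q, b, hb, rfl⟩ : ∃ q b, b < e ∧ a = q * e + (e - b) := by
    refine ⟨(a - 1) / e, e - 1 - (a - 1) % e, by omega, ?_⟩
    have h1 := Nat.div_add_mod (a - 1) e
    have h2 := Nat.mod_lt (a - 1) he
    rw [mul_comm] at h1
    omega
  rw [LL_eq hb]
  rcases Nat.eq_zero_or_pos b with rfl | hb0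
  · have h := LL_eq (e := e) (q := q + 1) (b := e - 1) (by omega)
    have h3 : q * e + (e - 0) + 1 = (q + 1) * e + (e - (e - 1)) := by
      rw [Nat.succ_mul]; omega
    rw [h3, h, Nat.multichoose_zero_right, Nat.multichoose_succ_succ (q + 1) e]
    obtain ⟨f, rfl⟩ : ∃ f, e = f + 1 := ⟨e - 1, by omega⟩
    rw [Nat.multichoose_succ_succ (q + 1) f, Nat.add_sub_cancel]
    have := mc_pos q (f + 1)
    omega
  · obtain ⟨c, rfl⟩ : ∃ c, b = c + 1 := ⟨b - 1, by omega⟩
    have h := LL_eq (e := e) (q := q) (b := c) (by omega)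
    have h3 : q * e + (e - (c + 1)) + 1 = q * e + (e - c) := by omega
    rw [h3, h]
    have := mc_mono q c
    omega

theorem BB_mono {d : ℕ} (hd : 2 ≤ d) {a a' : ℕ} (h : a ≤ a') : BB d a ≤ BB d a' := by
  have key : ∀ a, BB d a ≤ BB d (a + 1) := by
    intro a
    rw [BB_succ]
    refine le_min ((BB_le_LL hd a).trans (LL_mono hd a)) ?_
    rw [add_assoc]
    exact Nat.le_add_right _ _
  exact monotone_nat_of_le_succ key h

theorem BB_four : BB 4 8 = 10 ∧ BB 4 7 = 7 ∧ BB 4 9 = 12 := by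
  refine ⟨?_, ?_, ?_⟩ <;> norm_num [BB, LL, Nat.multichoose_eq, Nat.choose]

theorem BB_three : BB 3 4 = 2 ∧ BB 3 5 = 5 ∧ BB 3 6 = 7 := by
  refine ⟨?_, ?_, ?_⟩ <;> norm_num [BB, LL, Nat.multichoose_eq, Nat.choose]

theorem BB_2d {d : ℕ} (hd : 4 ≤ d) : BB d (2 * d) = d + 6 := by
  obtain ⟨e, rfl⟩ : ∃ e, d = e + 1 := ⟨d - 1, by omega⟩
  -- small arguments
  have h0 : ∀ a, a ≤ e → BB (e + 1) a = 0 := by
    intro a ha
    have h1 := BB_le_LL (d := e + 1) (by omega) a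
    rcases Nat.eq_zero_or_pos a with rfl | ha0
    · rfl
    · have h2 := LL_eq (e := e) (q := 0) (b := e - a) (by omega)
      rw [show 0 * e + (e - (e - a)) = a by omega, Nat.zero_add, Nat.multichoose_one,
        Nat.multichoose_one] at h2
      omega
  have h1 : ∀ j, j + 1 ≤ e → BB (e + 1) (e + 1 + j) = j + 1 := by
    intro j
    induction j with
    | zero =>
      intro hj
      rw [Nat.add_zero, BB_succ, h0 e le_rfl]
      have h2 := LL_eq (e := e) (q := 1) (b := e - 1) (by omega)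
      rw [show 1 * e + (e - (e - 1)) = e + 1 by omega, show (1 : ℕ) + 1 = 2 from rfl,
        Nat.multichoose_two, Nat.multichoose_two] at h2
      rw [h2]
      have h9 : e / (e + 1 - 1) = 1 := by
        rw [Nat.add_sub_cancel]; exact Nat.div_self (by omega)
      rw [h9]
      split_ifs <;> omega
    | succ j ih =>
      intro hj
      have ih' := ih (by omega)
      rw [show e + 1 + (j + 1) = e + 1 + j + 1 from rfl, BB_succ, ih']
      have h2 := LL_eq (e := e) (q := 1) (b := e - (j + 2)) (by omega)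
      rw [show 1 * e + (e - (e - (j + 2))) = e + 1 + j + 1 by omega,
        show (1 : ℕ) + 1 = 2 from rfl, Nat.multichoose_two, Nat.multichoose_two] at h2
      rw [h2]
      have h9 : (e + 1 + j) / (e + 1 - 1) = 1 := by
        rw [Nat.add_sub_cancel, Nat.div_eq_of_lt_le] <;> omega
      rw [h9]
      split_ifs <;> omega
  have h2 : BB (e + 1) (2 * e) = e := by
    have := h1 (e - 1) (by omega)
    rw [show e + 1 + (e - 1) = 2 * e by omega] at this
    omega
  have h3 : BB (e + 1) (2 * e + 1) = e + 4 := by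
    rw [BB_succ, h2, Nat.add_sub_cancel, if_pos (Or.inl rfl), Nat.mul_div_cancel _ (by omega)]
    have h4 := LL_eq (e := e) (q := 2) (b := e - 1) (by omega)
    rw [show 2 * e + (e - (e - 1)) = 2 * e + 1 by omega, show (2 : ℕ) + 1 = 3 from rfl] at h4
    have h5 := mc_three (e + 1)
    have h6 := mc_three (e - 1)
    obtain ⟨f, rfl⟩ : ∃ f, e = f + 1 := ⟨e - 1, by omega⟩
    rw [Nat.add_sub_cancel] at h4 h6
    have h7 : (f + 1 + 1 + 1) * (f + 1 + 1 + 2) = (f + 1) * (f + 2) + 2 * (2 * f + 5) := by ring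
    rw [h4]
    omega
  rw [show 2 * (e + 1) = 2 * e + 1 + 1 by ring, BB_succ, h3, Nat.add_sub_cancel]
  have h8 : (2 * e + 1) / e = 2 := by
    rw [Nat.div_eq_of_lt_le] <;> omega
  have h8' : ¬ (2 * e + 1 = 2 * e ∨ e ∣ 2 * e + 1 + 1) := by
    rintro (h | h)
    · omega
    · have h9 : e ∣ 2 := (Nat.dvd_add_right (Dvd.intro_left 2 rfl : e ∣ 2 * e)).1 h
      have := Nat.le_of_dvd (by norm_num) h9
      omega
  rw [h8, if_neg h8']
  have h4 := LL_eq (e := e) (q := 2) (b := e - 2) (by omega)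
  rw [show 2 * e + (e - (e - 2)) = 2 * e + 1 + 1 by omega, show (2 : ℕ) + 1 = 3 from rfl] at h4
  have h5 := mc_three (e + 1)
  have h6 := mc_three (e - 2)
  obtain ⟨f, rfl⟩ : ∃ f, e = f + 2 := ⟨e - 2, by omega⟩
  rw [Nat.add_sub_cancel] at h4 h6
  have h7 : (f + 2 + 1 + 1) * (f + 2 + 1 + 2) = (f + 1) * (f + 2) + 2 * (3 * f + 9) := by ring
  rw [h4]
  omega

end VKB
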