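import Pool.Agent.VKB.Bound

/-!
# Sharpness of the numerical bound in small cases

Paper proofs. Write `LL` with `LL_eq` (in `Bound.lean`). `LL_small`: definition (`s = 1`: `multichoose 1 k = 1`). `BB_eq_LL`: induction on
`a ≤ 2 (d - 1)`: for `a ≤ d - 1` both are `0` (`BB_le_LL`), and for `a = d - 1 + r` with `1 ≤ r ≤ d - 1` one has `LL d a = r`
(`multichoose 2 k = k + 1`) and the second term in the definition of `BB d (a + 1)` is `≥ BB d a + 1 + 1` or `≥ BB d a + 1` there.
`BB_eq_LL_two`: for `d = 2`, `e = 1` the second term in `BB 2 (a + 1)` is `≥ BB 2 a + a`, and `LL 2 (a + 1) = LL 2 a + a`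
(`LL 2 a = multichoose a 2 - a = a (a - 1) / 2`). The last two: `decide`/`norm_num`/`simp` after `interval_cases` (see `BB_four`, `BB_three` in `Bound.lean`).
-/

namespace VKB

theorem LL_small {d : ℕ} (hd : 2 ≤ d) {a : ℕ} (ha : a ≤ d - 1) : LL d a = 0 := by
  obtain ⟨e, rfl⟩ : ∃ e, d = e + 1 := ⟨d - 1, by omega⟩
  rcases Nat.eq_zero_or_pos a with rfl | ha0
  · exact LL_zero hd
  · have h2 := LL_eq (e := e) (q := 0) (b := e - a) (by omega)
    rw [show 0 * e + (e - (e - a)) = a by omega, Nat.zero_add, Nat.multichoose_one,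
      Nat.multichoose_one] at h2
    omega

/-- the bound is sharp up to `2 (d - 1)` -/
theorem BB_eq_LL {d : ℕ} (hd : 2 ≤ d) {a : ℕ} (ha : a ≤ 2 * (d - 1)) : BB d a = LL d a := by
  rcases Nat.lt_or_ge (d - 1) a with h | h
  swap
  · have h1 := BB_le_LL hd a
    rw [LL_small hd h] at h1 ⊢
    omega
  obtain ⟨e, rfl⟩ : ∃ e, d = e + 1 := ⟨d - 1, by omega⟩
  have h0 : BB (e + 1) e = 0 := by
    have h1 := BB_le_LL hd e
    rw [LL_small hd (by omega)] at h1
    omega
  have h1 : ∀ j, j + 1 ≤ e → BB (e + 1) (e + 1 + j) = LL (e + 1) (e + 1 + j) ∧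
      LL (e + 1) (e + 1 + j) = j + 1 := by
    intro j
    induction j with
    | zero =>
      intro hj
      rw [Nat.add_zero, BB_succ, h0]
      have h2 := LL_eq (e := e) (q := 1) (b := e - 1) (by omega)
      rw [show 1 * e + (e - (e - 1)) = e + 1 by omega, show (1 : ℕ) + 1 = 2 from rfl,
        Nat.multichoose_two, Nat.multichoose_two] at h2
      rw [h2]
      have h9 : e / (e + 1 - 1) = 1 := by
        rw [Nat.add_sub_cancel]; exact Nat.div_self (by omega)
      rw [h9]
      constructor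
      · split_ifs <;> omega
      · omega
    | succ j ih =>
      intro hj
      have ih' := ih (by omega)
      rw [show e + 1 + (j + 1) = e + 1 + j + 1 from rfl, BB_succ, ih'.1, ih'.2]
      have h2 := LL_eq (e := e) (q := 1) (b := e - (j + 2)) (by omega)
      rw [show 1 * e + (e - (e - (j + 2))) = e + 1 + j + 1 by omega,
        show (1 : ℕ) + 1 = 2 from rfl, Nat.multichoose_two, Nat.multichoose_two] at h2
      rw [h2]
      have h9 : (e + 1 + j) / (e + 1 - 1) = 1 := by
        rw [Nat.add_sub_cancel, Nat.div_eq_of_lt_le] <;> omega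
      rw [h9]
      constructor
      · split_ifs <;> omega
      · omega
  have h2 := (h1 (a - (e + 1)) (by omega)).1
  rwa [show e + 1 + (a - (e + 1)) = a by omega] at h2

/-- for `d = 2` the bound is always sharp (`BB 2 a = a (a - 1) / 2`) -/
theorem BB_eq_LL_two (a : ℕ) : BB 2 a = LL 2 a := by
  induction a with
  | zero => rw [BB_zero, LL_zero le_rfl]
  | succ a ih =>
    rw [BB_succ, ih]
    apply min_eq_left
    rcases Nat.eq_zero_or_pos a with rfl | ha
    · rw [LL_small le_rfl (by omega)]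
      exact Nat.zero_le _
    · obtain ⟨c, rfl⟩ : ∃ c, a = c + 1 := ⟨a - 1, by omega⟩
      have h1 := LL_eq (e := 1) (q := c) (b := 0) (by omega)
      have h2 := LL_eq (e := 1) (q := c + 1) (b := 0) (by omega)
      rw [show c * 1 + (1 - 0) = c + 1 by omega, show (1 : ℕ) + 1 = 2 from rfl,
        Nat.multichoose_zero_right] at h1
      rw [show (c + 1) * 1 + (1 - 0) = c + 1 + 1 by omega, show (1 : ℕ) + 1 = 2 from rfl,
        Nat.multichoose_zero_right, Nat.multichoose_succ_succ (c + 1) 1,
        Nat.multichoose_one_right] at h2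
      rw [h1, h2, show (2 : ℕ) - 1 = 1 from rfl, Nat.div_one, show (1 : ℕ) + 1 = 2 from rfl]
      omega

theorem BB_eq_LL_three {a : ℕ} (ha : a ≤ 6) : BB 3 a = LL 3 a := by
  interval_cases a <;> norm_num [BB, LL, Nat.multichoose_eq, Nat.choose]

theorem BB_eq_LL_four {a : ℕ} (ha : a ≤ 9) : BB 4 a = LL 4 a := by
  interval_cases a <;> norm_num [BB, LL, Nat.multichoose_eq, Nat.choose]

end VKB
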