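import Pool.Agent.VKB.NonR
import Pool.Agent.VKB.Sharp

/-!
# Comparison with the quadratic bound of `Pool/Agent/VK`

`Bnd d a = ∑_{i < a} ⌊i / (d - 1)⌋ ≤ BB d a`: the vanishing range of `VKB.vanishing2` contains the one of `VK.vanishing`.
`Bnd d a ≤ LL d a` since `K_{p,q} ≠ 0` at `p = LL d a` (`nonvanish`) and `K_{p,q} = 0` for `p < Bnd d a`.
-/

namespace VKB
open VK

theorem Bnd_le_LL {d : ℕ} (hd : 2 ≤ d) (a : ℕ) : Bnd d a ≤ LL d a := by
  by_contra hlt
  rw [not_le] at hlt
  have hd1 : 0 < d - 1 := by omega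
  obtain ⟨m, hm⟩ : ∃ m, (a - 1) / (d - 1) = m := ⟨_, rfl⟩
  have hm1 : m * (d - 1) ≤ a - 1 := hm ▸ Nat.div_mul_le_self (a - 1) (d - 1)
  have hm2 : a - 1 < (m + 1) * (d - 1) := by
    rw [← hm, Nat.mul_comm]
    exact Nat.lt_mul_div_succ (a - 1) hd1
  have hm3 : (m + 1) * (d - 1) = m * (d - 1) + (d - 1) := by ring
  have hLL : LL d a = Nat.multichoose (m + 1) d + 1 - (m + 1) -
      Nat.multichoose (m + 1) ((m + 1) * (d - 1) - a) := by
    unfold LL
    rw [hm]
  have hpos := mc_pos m ((m + 1) * (d - 1) - a)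
  have hz : LL d ((m + 1) * (d - 1) - a) = 0 := by
    apply LL_small hd
    rcases Nat.eq_zero_or_pos a with rfl | ha
    · have : m = 0 := by
        rw [← hm]; simp
      subst this
      omega
    · omega
  have hbig : m + 1 ≤ Nat.multichoose (m + 1) d := by
    have h1 : ∀ e, Nat.multichoose (m + 1) 1 ≤ Nat.multichoose (m + 1) (e + 1) := by
      intro e
      induction e with
      | zero => exact le_rfl
      | succ e ih => exact ih.trans (mc_mono m (e + 1))
    replace h1 := h1 (d - 1)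
    rw [show d - 1 + 1 = d by omega] at h1
    rwa [Nat.multichoose_one_right] at h1
  refine nonvanish m (a : ℤ) d (LL d a) 0 hd (a := a) (by ring) ?_ le_rfl ?_
    (VK.vanishing m (a : ℤ) d (LL d a) 0 ?_)
  · omega
  · rw [hz, hLL]
    omega
  · have h0 : ((0 : ℤ) * (d : ℤ) + (a : ℤ)).toNat = a := by simp
    rw [h0]
    exact hlt

theorem Bnd_le_BB {d : ℕ} (hd : 2 ≤ d) (a : ℕ) : Bnd d a ≤ BB d a := by
  induction a with
  | zero => exact Nat.zero_le _
  | succ a ih =>
    rw [BB_succ]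
    refine le_min (Bnd_le_LL hd (a + 1)) ?_
    rw [Bnd_succ]
    omega

end VKB
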