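import Pool.Agent.VKB.Kap

/-!
# Chains modulo pure powers: definitions

`RCh d J F μ p z`: chains of multidegree `μ` of the Koszul complex of the monomials `x^b`, `b ∈ F`,
with coefficients in `S / (x_i^d : i ∈ J)`. Cycles and boundaries only refer to lists `l` with
`l.sum ≤ μ` whose remainder `μ - l.sum` is `< d` in the coordinates of `J`.
-/

namespace VKB
open VK

variable {k : Type*} [Field k] [CharZero k] {σ : Type*} [DecidableEq σ]

/-- `ν` is smaller than `d` in the coordinates of `J` -/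
def Low (d : ℕ) (J : Finset σ) (ν : σ →₀ ℕ) : Prop := ∀ i ∈ J, ν i < d

/-- chains with coefficients in `S / (x_i^d : i ∈ J)` -/
def RCh (d : ℕ) (J : Finset σ) (F : Finset (σ →₀ ℕ)) (μ : σ →₀ ℕ) (p : ℕ)
    (z : List (σ →₀ ℕ) → k) : Prop :=
  ECh F μ p z ∧ ∀ l, z l ≠ 0 → Low d J (μ - l.sum)

/-- the cycle condition -/
def RCyc (d : ℕ) (J : Finset σ) (F : Finset (σ →₀ ℕ)) (μ : σ →₀ ℕ)
    (z : List (σ →₀ ℕ) → k) : Prop :=
  ∀ l : List (σ →₀ ℕ), l.sum ≤ μ → Low d J (μ - l.sum) → bd F z l = 0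

open Classical in
/-- the part of `z` on the lists of elements of `F` with low remainder -/
noncomputable def cut (d : ℕ) (J : Finset σ) (F : Finset (σ →₀ ℕ)) (μ : σ →₀ ℕ)
    (z : List (σ →₀ ℕ) → k) (l : List (σ →₀ ℕ)) : k :=
  if (∀ b ∈ l, b ∈ F) ∧ Low d J (μ - l.sum) then z l else 0

/-- the pure powers -/
noncomputable def pure (d : ℕ) (I : Finset σ) : Finset (σ →₀ ℕ) := by
  classical exact I.image fun i => Finsupp.single i d

end VKB
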