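import Pool.Agent.VKB.Bound
import Pool.Agent.VKB.QDef

/-!
# Counting divisors

`ff d J i r`: the monomial `(∏_{j ∈ J} x_j)^(d-1) x_i^r` (`i ∉ J`, `r ≤ d - 1`).

Paper proofs.
* `card_div`: the monomials of degree `d` dividing it are the monomials of degree `d` on `insert i J`
  (`multichoose (J.card + 1) d` of them, `Finset.card_finsuppAntidiag_nat_eq_multichoose`) except the `J.card` pure powers
  `x_j^d`, `j ∈ J`, and except the ones with exponent `≥ r + 1` at `i` (`multichoose (J.card + 1) (d - r - 1)` of
  them: divide by `x_i^(r+1)`), and these two exceptional sets are disjoint. With `s = J.card + 1` and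
  `a = J.card (d - 1) + r` this is `LL d a`: for `r ≥ 1` directly from the definition, for `r = 0` use
  `multichoose (s) d = multichoose (s - 1) d + multichoose s (d - 1)` (`a = 0` if also `J = ∅`).
* `div_ann`: `m ≤ ff` of degree `d` has an exponent `≥ 1` at some `j ∈ J` (as `r < d`), and `m j + (d - 1) ≥ d`.
* `card_ann`: the elements `m` of `F \ pure d I` for which no exponent of `m + ff` is `≥ d` are the monomials of degree `d`
  dividing `ff d (I \ insert i J) i (d - 1 - r)`.
-/

namespace VKB

variable {σ : Type*} [DecidableEq σ]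

/-- the monomial `(∏_{j ∈ J} x_j)^(d-1) x_i^r` -/
noncomputable def ff (d : ℕ) (J : Finset σ) (i : σ) (r : ℕ) : σ →₀ ℕ :=
  (∑ j ∈ J, Finsupp.single j (d - 1)) + Finsupp.single i r

theorem ff_apply (d : ℕ) (J : Finset σ) {i : σ} (hi : i ∉ J) (r : ℕ) (j : σ) :
    ff d J i r j = if j ∈ J then d - 1 else if j = i then r else 0 := by
  unfold ff
  rw [Finsupp.add_apply, Finsupp.finset_sum_apply]
  by_cases hj : j ∈ J
  · rw [if_pos hj, Finset.sum_eq_single j]
    · rw [Finsupp.single_eq_same, Finsupp.single_apply, if_neg (by rintro rfl; exact hi hj)]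
      rfl
    · intro b _ hb
      rw [Finsupp.single_apply, if_neg hb]
    · intro h; exact absurd hj h
  · rw [if_neg hj, Finset.sum_eq_zero]
    · rw [Finsupp.single_apply, zero_add]
      by_cases h : j = i
      · rw [if_pos h, if_pos h.symm]
      · rw [if_neg h, if_neg (fun h' => h h'.symm)]
    · intro b hb
      rw [Finsupp.single_apply, if_neg (by rintro rfl; exact hj hb)]

theorem degree_of_support_subset {S : Finset σ} {m : σ →₀ ℕ} (h : m.support ⊆ S) :
    m.degree = ∑ j ∈ S, m j := by
  rw [Finsupp.degree_apply]
  exact Finset.sum_subset h (fun j _ hj => Finsupp.notMem_support_iff.1 hj)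

theorem le_degree' (m : σ →₀ ℕ) (j : σ) : m j ≤ m.degree := by
  by_cases hj : j ∈ m.support
  · rw [Finsupp.degree_apply]
    exact Finset.single_le_sum (f := fun i => m i) (fun _ _ => Nat.zero_le _) hj
  · rw [Finsupp.notMem_support_iff.1 hj]; exact Nat.zero_le _

/-- a monomial with an exponent at least its degree is a pure power -/
theorem eq_single_of_le {m : σ →₀ ℕ} {d : ℕ} (hm : m.degree = d) {j : σ} (hj : d ≤ m j) :
    m = Finsupp.single j d := by
  have h1 : m j = d := le_antisymm (hm ▸ le_degree' m j) hj
  have h2 : Finsupp.single j d ≤ m := by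
    intro t
    rw [Finsupp.single_apply]
    split_ifs with h
    · subst h; exact hj
    · exact Nat.zero_le _
  obtain ⟨g, hg⟩ := exists_add_of_le h2
  have h3 : m.degree = d + g.degree := by
    conv_lhs => rw [hg]
    rw [map_add, Finsupp.degree_single]
  have h4 : g.degree = 0 := by omega
  rw [Finsupp.degree_eq_zero_iff] at h4
  rw [hg, h4, add_zero]

/-- the monomials of degree `d` on `S` -/
theorem mem_anti {S : Finset σ} {d : ℕ} {m : σ →₀ ℕ} :
    m ∈ Finset.finsuppAntidiag S d ↔ m.support ⊆ S ∧ m.degree = d := by
  rw [Finset.mem_finsuppAntidiag]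
  constructor
  · rintro ⟨h1, h2⟩
    exact ⟨h2, by rw [degree_of_support_subset h2]; exact h1⟩
  · rintro ⟨h1, h2⟩
    exact ⟨by rw [← h2, degree_of_support_subset h1], h1⟩

/-- the monomials with exponent at least `t` at `i` -/
theorem card_ge {S : Finset σ} {i : σ} (hi : i ∈ S) {d t : ℕ} (ht : t ≤ d) :
    ((Finset.finsuppAntidiag S d).filter fun m => t ≤ m i).card =
      Nat.multichoose S.card (d - t) := by
  rw [← Finset.card_finsuppAntidiag_nat_eq_multichoose]
  symm
  refine Finset.card_bij (fun m _ => m + Finsupp.single i t) ?_ ?_ ?_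
  · intro m hm
    rw [mem_anti] at hm
    rw [Finset.mem_filter, mem_anti]
    refine ⟨⟨?_, ?_⟩, ?_⟩
    · refine Finsupp.support_add.trans (Finset.union_subset hm.1 ?_)
      exact Finsupp.support_single_subset.trans (Finset.singleton_subset_iff.2 hi)
    · rw [map_add, Finsupp.degree_single, hm.2]; omega
    · rw [Finsupp.add_apply, Finsupp.single_eq_same]; omega
  · intro a _ b _ h
    exact add_right_cancel h
  · intro m hm
    rw [Finset.mem_filter, mem_anti] at hm
    have h2 : Finsupp.single i t ≤ m := by
      intro j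
      rw [Finsupp.single_apply]
      split_ifs with h
      · subst h; exact hm.2
      · exact Nat.zero_le _
    refine ⟨m - Finsupp.single i t, ?_, tsub_add_cancel_of_le h2⟩
    rw [mem_anti]
    refine ⟨(Finsupp.support_mono tsub_le_self).trans hm.1.1, ?_⟩
    have h3 : (m - Finsupp.single i t + Finsupp.single i t).degree = d := by
      rw [tsub_add_cancel_of_le h2, hm.1.2]
    rw [map_add, Finsupp.degree_single] at h3
    omega

theorem card_aux {d : ℕ} (hd : 2 ≤ d) {I J : Finset σ} {i : σ} (hi : i ∉ J)
    (hI : insert i J ⊆ I) {r : ℕ} (hr : r ≤ d - 1) {F : Finset (σ →₀ ℕ)}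
    (hF : ∀ m, m ∈ F ↔ m.support ⊆ I ∧ m.degree = d) [DecidablePred fun m => m ≤ ff d J i r] :
    (F.filter fun m => m ≤ ff d J i r).card + J.card + Nat.multichoose (J.card + 1) (d - (r + 1)) =
      Nat.multichoose (J.card + 1) d := by
  set S := insert i J with hS
  have hSc : S.card = J.card + 1 := Finset.card_insert_of_notMem hi
  have h1 : (J.image fun j => Finsupp.single j d).card = J.card := by
    refine Finset.card_image_of_injective _ ?_
    intro a b h
    have h' : (Finsupp.single a d : σ →₀ ℕ) a = (Finsupp.single b d : σ →₀ ℕ) a := by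
      rw [show Finsupp.single a d = (Finsupp.single b d : σ →₀ ℕ) from h]
    rw [Finsupp.single_eq_same, Finsupp.single_apply] at h'
    by_contra hne
    rw [if_neg (fun h => hne h.symm)] at h'
    omega
  have h2 := card_ge (S := S) (i := i) (Finset.mem_insert_self _ _) (d := d) (t := r + 1) (by omega)
  rw [hSc] at h2
  rw [← h2, ← hSc, ← Finset.card_finsuppAntidiag_nat_eq_multichoose, ← h1]
  rw [← Finset.card_union_of_disjoint, ← Finset.card_union_of_disjoint]
  · congr 1
    ext m
    rw [Finset.mem_union, Finset.mem_union, Finset.mem_filter, Finset.mem_filter, mem_anti, hF,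
      Finset.mem_image]
    constructor
    · rintro ((⟨⟨ha, hb⟩, hc⟩ | ⟨j, hj, rfl⟩) | ⟨h, _⟩)
      · refine ⟨?_, hb⟩
        intro j hj
        rw [Finsupp.mem_support_iff] at hj
        have h3 := hc j
        rw [ff_apply d J hi] at h3
        rw [hS, Finset.mem_insert]
        by_contra h4
        rw [not_or] at h4
        rw [if_neg h4.2, if_neg h4.1] at h3
        exact hj (Nat.le_zero.1 h3)
      · refine ⟨?_, Finsupp.degree_single _ _⟩
        exact Finsupp.support_single_subset.trans (Finset.singleton_subset_iff.2
          (Finset.mem_insert_of_mem hj))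
      · exact h
    · rintro ⟨ha, hb⟩
      by_cases hc : r + 1 ≤ m i
      · exact Or.inr ⟨⟨ha, hb⟩, hc⟩
      · left
        by_cases hd' : ∃ j ∈ J, d ≤ m j
        · obtain ⟨j, hj, hj'⟩ := hd'
          exact Or.inr ⟨j, hj, (eq_single_of_le hb hj').symm⟩
        · left
          push Not at hd'
          refine ⟨⟨ha.trans hI, hb⟩, ?_⟩
          intro j
          rw [ff_apply d J hi]
          split_ifs with h3 h4
          · have := hd' j h3
            omega
          · subst h4; omega
          · have h5 : j ∉ m.support := by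
              intro h6
              have := ha h6
              rw [hS, Finset.mem_insert] at this
              tauto
            rw [Finsupp.notMem_support_iff.1 h5]
  · rw [Finset.disjoint_left]
    intro m hm hm'
    rw [Finset.mem_filter] at hm'
    rw [Finset.mem_union, Finset.mem_filter, Finset.mem_image] at hm
    rcases hm with ⟨_, hm⟩ | ⟨j, hj, rfl⟩
    · have h3 := hm i
      rw [ff_apply d J hi, if_neg hi, if_pos rfl] at h3
      omega
    · have h3 := hm'.2
      rw [Finsupp.single_apply, if_neg (by rintro rfl; exact hi hj)] at h3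
      omega
  · rw [Finset.disjoint_left]
    intro m hm hm'
    rw [Finset.mem_filter] at hm
    rw [Finset.mem_image] at hm'
    obtain ⟨j, hj, rfl⟩ := hm'
    have h3 := hm.2 j
    rw [ff_apply d J hi, if_pos hj, Finsupp.single_eq_same] at h3
    omega

theorem card_div {d : ℕ} (hd : 2 ≤ d) {I J : Finset σ} {i : σ} (hi : i ∉ J) (hI : insert i J ⊆ I)
    {r : ℕ} (hr : r ≤ d - 1) {F : Finset (σ →₀ ℕ)}
    (hF : ∀ m, m ∈ F ↔ m.support ⊆ I ∧ m.degree = d) [DecidablePred fun m => m ≤ ff d J i r] :
    (F.filter fun m => m ≤ ff d J i r).card = LL d (J.card * (d - 1) + r) := by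
  have h := card_aux hd hi hI hr hF
  obtain ⟨e, rfl⟩ : ∃ e, d = e + 1 := ⟨d - 1, by omega⟩
  rw [Nat.add_sub_cancel] at hr ⊢
  set q := J.card
  rcases Nat.eq_zero_or_pos r with rfl | hr0
  · rw [add_zero]
    rcases Nat.eq_zero_or_pos q with hq | hq
    · rw [hq] at h ⊢
      rw [zero_mul, LL_zero hd]
      rw [Nat.zero_add, Nat.multichoose_one, Nat.multichoose_one] at h
      omega
    · obtain ⟨t, ht⟩ : ∃ t, q = t + 1 := ⟨q - 1, by omega⟩
      rw [ht] at h ⊢
      have h2 := LL_eq (e := e) (q := t) (b := 0) (by omega)
      rw [show (t + 1) * e = t * e + (e - 0) by rw [Nat.succ_mul]; rfl, h2,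
        Nat.multichoose_zero_right]
      rw [show e + 1 - (0 + 1) = e by omega, Nat.multichoose_succ_succ (t + 1) e] at h
      omega
  · have h2 := LL_eq (e := e) (q := q) (b := e - r) (by omega)
    rw [show e - (e - r) = r by omega] at h2
    rw [h2]
    rw [show e + 1 - (r + 1) = e - r by omega] at h
    omega

theorem div_ann {d : ℕ} (hd : 2 ≤ d) {I J : Finset σ} {i : σ} (hi : i ∉ J) (hI : insert i J ⊆ I)
    {r : ℕ} (hr : r ≤ d - 1) {m : σ →₀ ℕ} (hm : m.degree = d) (hle : m ≤ ff d J i r) :
    ∃ j ∈ I, d ≤ m j + ff d J i r j := by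
  by_contra hcon
  push Not at hcon
  have h1 : ∀ j, j ≠ i → m j = 0 := by
    intro j hj
    by_contra hne
    have h2 := hle j
    rw [ff_apply d J hi] at h2
    by_cases hJ : j ∈ J
    · have h3 := hcon j (hI (Finset.mem_insert_of_mem hJ))
      rw [ff_apply d J hi, if_pos hJ] at h3
      omega
    · rw [if_neg hJ, if_neg hj] at h2
      exact hne (Nat.le_zero.1 h2)
  have h2 : m.degree = m i := by
    have : m.support ⊆ {i} := by
      intro j hj
      rw [Finset.mem_singleton]
      by_contra hne
      exact (Finsupp.mem_support_iff.1 hj) (h1 j hne)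
    rw [degree_of_support_subset this, Finset.sum_singleton]
  have h3 := hle i
  rw [ff_apply d J hi, if_neg hi, if_pos rfl] at h3
  omega

theorem card_ann {d : ℕ} (hd : 2 ≤ d) {I J : Finset σ} {i : σ} (hi : i ∉ J) (hI : insert i J ⊆ I)
    {r : ℕ} (hr : r ≤ d - 1) {F : Finset (σ →₀ ℕ)}
    (hF : ∀ m, m ∈ F ↔ m.support ⊆ I ∧ m.degree = d)
    [DecidablePred fun m : σ →₀ ℕ => ∃ j ∈ I, d ≤ m j + ff d J i r j] :
    ((F \ pure d I).filter fun m => ∃ j ∈ I, d ≤ m j + ff d J i r j).card +
      LL d (I.card * (d - 1) - (J.card * (d - 1) + r)) + I.card = F.card := by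
  classical
  have hpure : pure d I = I.image fun j => Finsupp.single j d := by
    unfold pure
    congr
  have hpc : (pure d I).card = I.card := by
    rw [hpure]
    refine Finset.card_image_of_injective _ ?_
    intro a b h
    have h' : (Finsupp.single a d : σ →₀ ℕ) a = (Finsupp.single b d : σ →₀ ℕ) a := by
      rw [show Finsupp.single a d = (Finsupp.single b d : σ →₀ ℕ) from h]
    rw [Finsupp.single_eq_same, Finsupp.single_apply] at h'
    by_contra hne
    rw [if_neg (fun h => hne h.symm)] at h'
    omega
  have hpF : pure d I ⊆ F := by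
    intro m hm
    rw [hpure, Finset.mem_image] at hm
    obtain ⟨j, hj, rfl⟩ := hm
    rw [hF]
    exact ⟨Finsupp.support_single_subset.trans (Finset.singleton_subset_iff.2 hj),
      Finsupp.degree_single _ _⟩
  have hi' : i ∉ I \ insert i J := by
    rw [Finset.mem_sdiff]
    exact fun h => h.2 (Finset.mem_insert_self _ _)
  have hI' : insert i (I \ insert i J) ⊆ I := by
    refine Finset.insert_subset (hI (Finset.mem_insert_self _ _)) Finset.sdiff_subset
  have hcount := card_div hd hi' hI' (r := d - 1 - r) (by omega) hF
  have harith : (I \ insert i J).card * (d - 1) + (d - 1 - r) =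
      I.card * (d - 1) - (J.card * (d - 1) + r) := by
    have h1 : (I \ insert i J).card + (J.card + 1) = I.card := by
      rw [← Finset.card_insert_of_notMem hi]
      exact Finset.card_sdiff_add_card_eq_card hI
    rw [← h1, add_mul, add_mul, one_mul]
    omega
  rw [harith] at hcount
  have hcompl : ((F \ pure d I).filter fun m => ¬ ∃ j ∈ I, d ≤ m j + ff d J i r j) =
      F.filter fun m => m ≤ ff d (I \ insert i J) i (d - 1 - r) := by
    ext m
    rw [Finset.mem_filter, Finset.mem_filter, Finset.mem_sdiff]
    constructor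
    · rintro ⟨⟨h1, h2⟩, h3⟩
      refine ⟨h1, ?_⟩
      push Not at h3
      intro j
      rw [ff_apply d _ hi']
      by_cases hj : j ∈ I
      · have h4 := h3 j hj
        rw [ff_apply d J hi] at h4
        by_cases hji : j = i
        · subst hji
          rw [if_neg hi, if_pos rfl] at h4
          rw [if_neg hi', if_pos rfl]
          omega
        · by_cases hjJ : j ∈ J
          · rw [if_pos hjJ] at h4
            omega
          · rw [if_pos]
            · rw [if_neg hjJ, if_neg hji] at h4
              omega
            · rw [Finset.mem_sdiff, Finset.mem_insert]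
              tauto
      · have h5 : j ∉ m.support := fun h6 => hj (((hF m).1 h1).1 h6)
        rw [Finsupp.notMem_support_iff.1 h5]
        exact Nat.zero_le _
    · rintro ⟨h1, h2⟩
      have h3 : ∀ j, m j < d := by
        intro j
        have h4 := h2 j
        rw [ff_apply d _ hi'] at h4
        split_ifs at h4 <;> omega
      refine ⟨⟨h1, ?_⟩, ?_⟩
      · intro h4
        rw [hpure, Finset.mem_image] at h4
        obtain ⟨j, _, rfl⟩ := h4
        have h5 := h3 j
        rw [Finsupp.single_eq_same] at h5
        exact lt_irrefl _ h5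
      · push Not
        intro j hj
        have h4 := h2 j
        have h5 := h3 j
        rw [ff_apply d _ hi'] at h4
        rw [ff_apply d J hi]
        by_cases hjJ : j ∈ J
        · have h6 : j ≠ i := by rintro rfl; exact hi hjJ
          have h7 : j ∉ I \ insert i J := by
            rw [Finset.mem_sdiff, Finset.mem_insert]
            tauto
          rw [if_neg h7, if_neg h6] at h4
          rw [if_pos hjJ]
          omega
        · rw [if_neg hjJ]
          by_cases hji : j = i
          · subst hji
            rw [if_neg hi', if_pos rfl] at h4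
            rw [if_pos rfl]
            omega
          · rw [if_neg hji]
            omega
  have hsplit := Finset.card_filter_add_card_filter_not (s := F \ pure d I)
    (fun m => ∃ j ∈ I, d ≤ m j + ff d J i r j)
  rw [hcompl, hcount, Finset.card_sdiff_of_subset hpF, hpc] at hsplit
  have hle : I.card ≤ F.card := by
    rw [← hpc]; exact Finset.card_le_card hpF
  omega

end VKB
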