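import Pool.Agent.VKB.Quot

/-!
# Duality

`F` is a finite set of exponents, `P = F.card`, `T = ∑ m ∈ F, m`, `top i = d - 1` on `I` and `0` outside.
The complex of chains with low remainder in multidegree `μ` is dual to the same complex in multidegree
`T + top - μ` (complement of the set of factors, complement of the remainder in `top`).

Paper proof of `surj_of_inj`. Let `M` be a list of all elements of `F` (`F.toList`) and `κ = kap k M`.
If `μ ≤ T + top` fails then there is no `z ≠ 0` (a list `l` with `z l ≠ 0` is duplicate free, `l.sum ≤ T`,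
`μ - l.sum ≤ top`). So let `μ' = T + top - μ`. For a list `l'` put `E l' l = κ (l' ++ l)`: alternating in
`l` and in `l'`. If `l' ++ l` is a permutation of `M` then `l.sum + l'.sum = T` and
`(l'.sum ≤ μ'` and `Low (μ' - l'.sum))` iff `(l.sum ≤ μ` and `Low (μ - l.sum))`: both say that
`μ i - l.sum i` is between `0` and `d - 1` for `i ∈ I` and `0` for `i ∉ I`; here all supports are in `I`.
Let `C p` be the space of all `RCh d I F μ p`, `R` the image of `C (p + 1)` in `C p` under
`cut ∘ bd F`. Let `φ` be a linear form on `C p` (or on all functions, `Submodule.exists_le_ker_of_notMem`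
or `Submodule.exists_dual_map_eq_bot...`) which vanishes on `R`. Put `ψ l' = φ (E l')` if `l'.sum ≤ μ'`,
`Low d I (μ' - l'.sum)` and `l'.length = q`, all entries in `F`, and `0` otherwise; it is an
`RCh d I F μ' q`. It is a cycle: for an allowed `l''` of length `q - 1`,
`∑ c ∈ F, ψ (c :: l'') = φ (∑ E (c :: l''))` over the allowed `c :: l''`, and
`∑ E (c :: l'') l = ± bd F (E l'') l` for allowed `l` (`Alt.middle`), so the sum is `± φ (cut (bd F (E l''))) = 0`.
By hypothesis `ψ = 0`. Every `z ∈ C p` is a linear combination of the `E l'` with `l'` allowed (for every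
`p`-subset `S` of `F` take `l = S.toList`, `l' = (F \ S).toList` and the coefficient `z l / κ (l' ++ l)`;
compare at all lists with `Alt.perm_eq`). So `φ = 0` on `C p`, hence `R = C p`.
-/

namespace VKB
open VK

variable {k : Type*} [Field k] [CharZero k] {σ : Type*} [DecidableEq σ]

/-- `d - 1` in the coordinates of `I` -/
noncomputable def topE (d : ℕ) (I : Finset σ) : σ →₀ ℕ := ∑ i ∈ I, Finsupp.single i (d - 1)

/-- the sum of a list of elements of `F` vanishes outside `I` -/
theorem helper80_sum_zero {I : Finset σ} {F : Finset (σ →₀ ℕ)}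
    (hF : ∀ m ∈ F, m.support ⊆ I) {i : σ} (hi : i ∉ I) :
    ∀ l : List (σ →₀ ℕ), (∀ b ∈ l, b ∈ F) → l.sum i = 0 := by
  intro l
  induction l with
  | nil => intro _; rfl
  | cons b l ih =>
    intro h
    have h1 : b i = 0 := by
      by_contra h2
      exact hi (hF b (h b List.mem_cons_self) (Finsupp.mem_support_iff.2 h2))
    rw [List.sum_cons, Finsupp.add_apply, h1, ih fun b hb => h b (List.mem_cons_of_mem _ hb)]

theorem helper80_topE_mem {d : ℕ} {I : Finset σ} {i : σ} (hi : i ∈ I) : topE d I i = d - 1 := by
  unfold topE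
  rw [Finsupp.finsetSum_apply, Finset.sum_eq_single i]
  · rw [Finsupp.single_eq_same]
  · intro j _ hj
    rw [Finsupp.single_eq_of_ne (Ne.symm hj)]
  · intro h
    exact absurd hi h

theorem helper80_topE_notMem {d : ℕ} {I : Finset σ} {i : σ} (hi : i ∉ I) : topE d I i = 0 := by
  unfold topE
  rw [Finsupp.finsetSum_apply]
  refine Finset.sum_eq_zero fun j hj => ?_
  rw [Finsupp.single_eq_of_ne]
  rintro rfl
  exact hi hj

/-- complementary lists are allowed in complementary multidegrees -/
theorem helper80_dual {d : ℕ} (hd : 0 < d) (I : Finset σ) {F : Finset (σ →₀ ℕ)}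
    (hF : ∀ m ∈ F, m.support ⊆ I) {μ : σ →₀ ℕ} (hμ : μ.support ⊆ I)
    (hle : μ ≤ (∑ m ∈ F, m) + topE d I) {l l' : List (σ →₀ ℕ)}
    (h : (l' ++ l).Perm F.toList) :
    (l'.sum ≤ (∑ m ∈ F, m) + topE d I - μ ∧
      Low d I ((∑ m ∈ F, m) + topE d I - μ - l'.sum)) ↔
    (l.sum ≤ μ ∧ Low d I (μ - l.sum)) := by
  have hmem : ∀ b ∈ l' ++ l, b ∈ F := fun b hb => by
    rw [h.mem_iff, Finset.mem_toList] at hb
    exact hb
  have hl : ∀ b ∈ l, b ∈ F := fun b hb => hmem b (List.mem_append_right _ hb)
  have hl' : ∀ b ∈ l', b ∈ F := fun b hb => hmem b (List.mem_append_left _ hb)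
  have hT : (∑ m ∈ F, m) = l'.sum + l.sum := by
    rw [← List.sum_append, h.sum_eq, Finset.sum_toList]
  have hTi : ∀ i, (∑ m ∈ F, m) i = l'.sum i + l.sum i := fun i => by
    rw [hT, Finsupp.add_apply]
  have hlei : ∀ i, μ i ≤ l'.sum i + l.sum i + topE d I i := fun i => by
    have := hle i
    rwa [Finsupp.add_apply, hTi] at this
  have key : ∀ i ∈ I, (l'.sum i ≤ l'.sum i + l.sum i + (d - 1) - μ i ∧
      l'.sum i + l.sum i + (d - 1) - μ i - l'.sum i < d) ↔ (l.sum i ≤ μ i ∧ μ i - l.sum i < d) := by
    intro i hi
    have := hlei i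
    rw [helper80_topE_mem hi] at this
    omega
  constructor
  · rintro ⟨h1, h2⟩
    have h3 : ∀ i ∈ I, (l.sum i ≤ μ i ∧ μ i - l.sum i < d) := by
      intro i hi
      refine (key i hi).1 ⟨?_, ?_⟩
      · have := h1 i
        rwa [Finsupp.tsub_apply, Finsupp.add_apply, hTi, helper80_topE_mem hi] at this
      · have := h2 i hi
        rwa [Finsupp.tsub_apply, Finsupp.tsub_apply, Finsupp.add_apply, hTi,
          helper80_topE_mem hi] at this
    refine ⟨fun i => ?_, fun i hi => ?_⟩
    · by_cases hi : i ∈ I
      · exact (h3 i hi).1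
      · rw [helper80_sum_zero hF hi l hl]
        exact Nat.zero_le _
    · rw [Finsupp.tsub_apply]
      exact (h3 i hi).2
  · rintro ⟨h1, h2⟩
    have h3 : ∀ i ∈ I, (l'.sum i ≤ l'.sum i + l.sum i + (d - 1) - μ i ∧
      l'.sum i + l.sum i + (d - 1) - μ i - l'.sum i < d) := by
      intro i hi
      refine (key i hi).2 ⟨h1 i, ?_⟩
      have := h2 i hi
      rwa [Finsupp.tsub_apply] at this
    refine ⟨fun i => ?_, fun i hi => ?_⟩
    · by_cases hi : i ∈ I
      · rw [Finsupp.tsub_apply, Finsupp.add_apply, hTi, helper80_topE_mem hi]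
        exact (h3 i hi).1
      · rw [helper80_sum_zero hF hi l' hl']
        exact Nat.zero_le _
    · rw [Finsupp.tsub_apply, Finsupp.tsub_apply, Finsupp.add_apply, hTi, helper80_topE_mem hi]
      exact (h3 i hi).2

/-- the basic chain `l ↦ κ (l' ++ l)` -/
noncomputable def helper80_E (k : Type*) [Field k] {σ : Type*} (M l' : List (σ →₀ ℕ)) :
    List (σ →₀ ℕ) → k := fun l => kap k M (l' ++ l)

theorem helper80_E_alt (M l' : List (σ →₀ ℕ)) : Alt (helper80_E k M l') := by
  intro l₁ a b l₂
  unfold helper80_E
  rw [← List.append_assoc, ← List.append_assoc]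
  exact kap_alt M (l' ++ l₁) a b l₂

theorem helper80_E_swap (M l₁ : List (σ →₀ ℕ)) (a b : σ →₀ ℕ) (l₂ : List (σ →₀ ℕ)) :
    helper80_E k M (l₁ ++ a :: b :: l₂) = - helper80_E k M (l₁ ++ b :: a :: l₂) := by
  funext l
  rw [Pi.neg_apply]
  unfold helper80_E
  rw [List.append_assoc, List.append_assoc]
  exact kap_alt M l₁ a b (l₂ ++ l)

/-- every chain is a combination of the basic ones -/
theorem helper80_expand [DecidableEq (σ →₀ ℕ)] {F : Finset (σ →₀ ℕ)} {p : ℕ}
    {z : List (σ →₀ ℕ) → k}
    (hz : Alt z) (hz2 : ∀ l, z l ≠ 0 → (∀ b ∈ l, b ∈ F) ∧ l.length = p) :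
    z = ∑ S ∈ F.powersetCard p,
      (z S.toList / kap k F.toList ((F \ S).toList ++ S.toList)) •
        helper80_E k F.toList (F \ S).toList := by
  have hperm : ∀ S : Finset (σ →₀ ℕ), S ⊆ F → ((F \ S).toList ++ S.toList).Perm F.toList := by
    intro S hS
    refine (List.perm_ext_iff_of_nodup ?_ (Finset.nodup_toList F)).2 fun b => ?_
    · rw [List.nodup_append]
      refine ⟨Finset.nodup_toList _, Finset.nodup_toList _, ?_⟩
      intro a ha b hb
      rw [Finset.mem_toList, Finset.mem_sdiff] at ha
      rw [Finset.mem_toList] at hb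
      rintro rfl
      exact ha.2 hb
    · rw [List.mem_append, Finset.mem_toList, Finset.mem_toList, Finset.mem_toList,
        Finset.mem_sdiff]
      constructor
      · rintro (h | h)
        · exact h.1
        · exact hS h
      · intro h
        by_cases hb : b ∈ S
        · exact Or.inr hb
        · exact Or.inl ⟨h, hb⟩
  funext l
  rw [Finset.sum_apply]
  by_cases hl : l.Nodup ∧ (∀ b ∈ l, b ∈ F) ∧ l.length = p
  · obtain ⟨hnd, hlF, hlp⟩ := hl
    have hS0F : l.toFinset ⊆ F := fun b hb => hlF b (List.mem_toFinset.1 hb)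
    have hS0p : l.toFinset.card = p := by rw [List.toFinset_card_of_nodup hnd, hlp]
    have hpl : l.toFinset.toList.Perm l := by
      refine (List.perm_ext_iff_of_nodup (Finset.nodup_toList _) hnd).2 fun b => ?_
      rw [Finset.mem_toList, List.mem_toFinset]
    rw [Finset.sum_eq_single l.toFinset]
    · rw [Pi.smul_apply, smul_eq_mul]
      refine Alt.perm_eq hz ((helper80_E_alt (k := k) F.toList
        (F \ l.toFinset).toList).mul _) hpl ?_
      have h1 : kap k F.toList ((F \ l.toFinset).toList ++ l.toFinset.toList) ≠ 0 :=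
        kap_perm_ne (Finset.nodup_toList F) (hperm _ hS0F)
      unfold helper80_E
      field_simp
    · intro S hS hne
      rw [Finset.mem_powersetCard] at hS
      have h1 : helper80_E k F.toList (F \ S).toList l = 0 := by
        by_contra h
        have h2 := kap_ne_zero h
        apply hne
        have h3 : ((F \ S).toList ++ l).Perm ((F \ S).toList ++ S.toList) := h2.trans (hperm S hS.1).symm
        have h4 := (List.perm_append_left_iff _).1 h3
        ext b
        rw [List.mem_toFinset, h4.mem_iff, Finset.mem_toList]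
      rw [Pi.smul_apply, h1, smul_zero]
    · intro h
      exact absurd (Finset.mem_powersetCard.2 ⟨hS0F, hS0p⟩) h
  · have h1 : z l = 0 := by
      by_contra h
      refine hl ⟨?_, hz2 l h⟩
      by_contra h'
      exact h (hz.dup h')
    rw [h1]
    symm
    refine Finset.sum_eq_zero fun S hS => ?_
    rw [Finset.mem_powersetCard] at hS
    have h1 : helper80_E k F.toList (F \ S).toList l = 0 := by
      by_contra h
      have h2 := kap_ne_zero h
      apply hl
      have h3 : ((F \ S).toList ++ l).Perm ((F \ S).toList ++ S.toList) := h2.trans (hperm S hS.1).symm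
      have h4 := (List.perm_append_left_iff _).1 h3
      refine ⟨h4.nodup_iff.2 (Finset.nodup_toList S), ?_, ?_⟩
      · intro b hb
        rw [h4.mem_iff, Finset.mem_toList] at hb
        exact hS.1 hb
      · rw [h4.length_eq, Finset.length_toList, hS.2]
    rw [Pi.smul_apply, h1, smul_zero]

theorem surj_of_inj {d : ℕ} (hd : 0 < d) (I : Finset σ) {F : Finset (σ →₀ ℕ)}
    (hF : ∀ m ∈ F, m.support ⊆ I) {μ : σ →₀ ℕ} (hμ : μ.support ⊆ I) {p q : ℕ}
    (hpq : p + q = F.card)
    (hinj : μ ≤ (∑ m ∈ F, m) + topE d I → ∀ z : List (σ →₀ ℕ) → k,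
      RCh d I F ((∑ m ∈ F, m) + topE d I - μ) q z →
      RCyc d I F ((∑ m ∈ F, m) + topE d I - μ) z → ∀ l, z l = 0)
    {z : List (σ →₀ ℕ) → k} (hz : RCh d I F μ p z) :
    ∃ w : List (σ →₀ ℕ) → k, RCh d I F μ (p + 1) w ∧
      ∀ l : List (σ →₀ ℕ), l.sum ≤ μ → Low d I (μ - l.sum) → bd F w l = z l := by
  classical
  by_cases hz0 : ∀ l, z l = 0
  · refine ⟨fun _ => 0, ⟨⟨Alt.zero, fun l hl => absurd rfl hl⟩, fun l hl => absurd rfl hl⟩, ?_⟩
    intro l _ _
    rw [bd_zero, hz0]
  push Not at hz0
  obtain ⟨l0, hl0⟩ := hz0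
  set M := F.toList with hM
  set T : σ →₀ ℕ := ∑ m ∈ F, m with hT
  -- `μ ≤ T + top`
  have hle : μ ≤ T + topE d I := by
    have h1 := hz.1.2 l0 hl0
    have h2 := hz.2 l0 hl0
    have hnd : l0.Nodup := by
      by_contra h
      exact hl0 (hz.1.1.dup h)
    have h3 : l0.sum ≤ T := by
      have h4 : l0.toFinset ⊆ F := fun b hb => h1.1 b (List.mem_toFinset.1 hb)
      have h5 : l0.sum = ∑ m ∈ l0.toFinset, m := by
        rw [List.sum_toFinset _ hnd, List.map_id']
      rw [h5]
      exact Finset.sum_le_sum_of_subset h4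
    intro i
    rw [Finsupp.add_apply]
    by_cases hi : i ∈ I
    · have h4 := h2 i hi
      rw [Finsupp.tsub_apply] at h4
      have h5 := h3 i
      rw [helper80_topE_mem hi]
      omega
    · have h4 : μ i = 0 := by
        by_contra h
        exact hi (hμ (Finsupp.mem_support_iff.2 h))
      rw [h4]
      exact Nat.zero_le _
  set μ' : σ →₀ ℕ := T + topE d I - μ with hμ'
  have hdual : ∀ {l l' : List (σ →₀ ℕ)}, (l' ++ l).Perm M →
      ((l'.sum ≤ μ' ∧ Low d I (μ' - l'.sum)) ↔ (l.sum ≤ μ ∧ Low d I (μ - l.sum))) :=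
    fun h => helper80_dual hd I hF hμ hle h
  -- the image
  let R : Submodule k (List (σ →₀ ℕ) → k) :=
    { carrier := {y | ∃ w : List (σ →₀ ℕ) → k, RCh d I F μ (p + 1) w ∧
        ∀ l, y l = if l.sum ≤ μ ∧ Low d I (μ - l.sum) then bd F w l else 0}
      zero_mem' := ⟨fun _ => 0, ⟨⟨Alt.zero, fun l hl => absurd rfl hl⟩,
        fun l hl => absurd rfl hl⟩, fun l => by rw [bd_zero, ite_self]; rfl⟩
      add_mem' := by
        rintro y y' ⟨w, hw, hy⟩ ⟨w', hw', hy'⟩
        refine ⟨fun l => w l + w' l, ⟨⟨hw.1.1.add hw'.1.1, ?_⟩, ?_⟩, ?_⟩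
        · intro l hl
          by_cases h : w l = 0
          · apply hw'.1.2
            intro h'
            apply hl
            change w l + w' l = 0
            rw [h, h', add_zero]
          · exact hw.1.2 l h
        · intro l hl
          by_cases h : w l = 0
          · apply hw'.2
            intro h'
            apply hl
            change w l + w' l = 0
            rw [h, h', add_zero]
          · exact hw.2 l h
        · intro l
          rw [Pi.add_apply, hy, hy', bd_add]
          split_ifs
          · rfl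
          · rw [add_zero]
      smul_mem' := by
        rintro c y ⟨w, hw, hy⟩
        refine ⟨fun l => c * w l, ⟨⟨hw.1.1.mul c, ?_⟩, ?_⟩, ?_⟩
        · intro l hl
          exact hw.1.2 l (right_ne_zero_of_mul hl)
        · intro l hl
          exact hw.2 l (right_ne_zero_of_mul hl)
        · intro l
          rw [Pi.smul_apply, hy, bd_mul, smul_eq_mul]
          split_ifs
          · rfl
          · rw [mul_zero] }
  have hzR : z ∈ R := by
    by_contra hzR
    obtain ⟨φ, hφz, hφR⟩ := Submodule.exists_le_ker_of_notMem hzR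
    let A' : List (σ →₀ ℕ) → Prop := fun l' =>
      (∀ b ∈ l', b ∈ F) ∧ l'.sum ≤ μ' ∧ l'.length = q ∧ Low d I (μ' - l'.sum)
    have hA'perm : ∀ {l l' : List (σ →₀ ℕ)}, l.Perm l' → (A' l ↔ A' l') := by
      intro l l' h
      change ((∀ b ∈ l, b ∈ F) ∧ l.sum ≤ μ' ∧ l.length = q ∧ Low d I (μ' - l.sum)) ↔
        ((∀ b ∈ l', b ∈ F) ∧ l'.sum ≤ μ' ∧ l'.length = q ∧ Low d I (μ' - l'.sum))
      rw [h.sum_eq, h.length_eq]
      refine and_congr_left fun _ => ?_
      exact ⟨fun h1 b hb => h1 b (h.mem_iff.2 hb), fun h1 b hb => h1 b (h.mem_iff.1 hb)⟩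
    let ψ : List (σ →₀ ℕ) → k := fun l' => if A' l' then φ (helper80_E k M l') else 0
    have hψalt : Alt ψ := by
      have h1 : Alt (fun l' => φ (helper80_E k M l')) := by
        intro l₁ a b l₂
        change φ _ = - φ _
        rw [helper80_E_swap, map_neg]
      exact h1.ite A' fun l₁ a b l₂ => hA'perm (perm_swap l₁ a b l₂)
    have hψne : ∀ l', ψ l' ≠ 0 → A' l' := by
      intro l' h
      by_contra h'
      exact h (if_neg h')
    have hψ : RCh d I F μ' q ψ := by
      refine ⟨⟨hψalt, fun l hl => ?_⟩, fun l hl => (hψne l hl).2.2.2⟩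
      exact ⟨(hψne l hl).1, (hψne l hl).2.1, (hψne l hl).2.2.1⟩
    have hψcyc : RCyc d I F μ' ψ := by
      intro l'' h1 h2
      by_cases h3 : (∀ b ∈ l'', b ∈ F) ∧ l''.length + 1 = q
      · obtain ⟨h3, h4⟩ := h3
        have hE : ∀ l, helper80_E k M l'' l ≠ 0 → (l'' ++ l).Perm M := fun l hl => kap_ne_zero hl
        have hw : RCh d I F μ (p + 1) (helper80_E k M l'') := by
          refine ⟨⟨helper80_E_alt M l'', fun l hl => ?_⟩, fun l hl => ?_⟩
          · have h5 := hE l hl
            refine ⟨fun b hb => ?_, ((hdual h5).1 ⟨h1, h2⟩).1, ?_⟩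
            · have h6 : b ∈ l'' ++ l := List.mem_append_right _ hb
              rw [h5.mem_iff, hM, Finset.mem_toList] at h6
              exact h6
            · have h6 := h5.length_eq
              rw [List.length_append, hM, Finset.length_toList] at h6
              omega
          · exact ((hdual (hE l hl)).1 ⟨h1, h2⟩).2
        have h5 : (fun l => if l.sum ≤ μ ∧ Low d I (μ - l.sum) then
            bd F (helper80_E k M l'') l else 0) ∈ R := ⟨_, hw, fun l => rfl⟩
        have h6 : φ (fun l => if l.sum ≤ μ ∧ Low d I (μ - l.sum) then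
            bd F (helper80_E k M l'') l else 0) = 0 := hφR h5
        have h7 : bd F ψ l'' = φ (∑ c ∈ F, if A' (c :: l'') then
            helper80_E k M (c :: l'') else 0) := by
          unfold bd
          rw [map_sum]
          refine Finset.sum_congr rfl fun c _ => ?_
          change (if A' (c :: l'') then φ (helper80_E k M (c :: l'')) else 0) = _
          split_ifs
          · rfl
          · rw [map_zero]
        have h8 : (∑ c ∈ F, if A' (c :: l'') then helper80_E k M (c :: l'') else 0) =
            ((-1 : k) ^ l''.length) • (fun l => if l.sum ≤ μ ∧ Low d I (μ - l.sum) then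
            bd F (helper80_E k M l'') l else 0) := by
          funext l
          rw [Finset.sum_apply, Pi.smul_apply, smul_eq_mul]
          have h9 : (if l.sum ≤ μ ∧ Low d I (μ - l.sum) then
            bd F (helper80_E k M l'') l else 0) = ∑ c ∈ F,
              if l.sum ≤ μ ∧ Low d I (μ - l.sum) then helper80_E k M l'' (c :: l) else 0 := by
            split_ifs
            · rfl
            · rw [Finset.sum_const_zero]
          rw [h9, Finset.mul_sum]
          refine Finset.sum_congr rfl fun c hc => ?_
          have h10 : helper80_E k M l'' (c :: l) =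
              (-1 : k) ^ l''.length * helper80_E k M (c :: l'') l :=
            (kap_alt M).middle l'' c l
          have h11 : ((-1 : k) ^ l''.length) * ((-1 : k) ^ l''.length) = 1 := by
            rw [← mul_pow, neg_one_mul, neg_neg, one_pow]
          by_cases h12 : helper80_E k M (c :: l'') l = 0
          · rw [h10, h12, mul_zero, ite_self, mul_zero]
            split_ifs
            · exact h12
            · rfl
          · have h13 : ((c :: l'') ++ l).Perm M := kap_ne_zero h12
            have h14 := hdual h13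
            have h15 : A' (c :: l'') ↔ (l.sum ≤ μ ∧ Low d I (μ - l.sum)) := by
              rw [← h14]
              constructor
              · intro h
                exact ⟨h.2.1, h.2.2.2⟩
              · intro h
                refine ⟨fun b hb => ?_, h.1, ?_, h.2⟩
                · rw [List.mem_cons] at hb
                  rcases hb with hb | hb
                  · rw [hb]; exact hc
                  · exact h3 b hb
                · rw [List.length_cons, h4]
            by_cases h16 : A' (c :: l'')
            · rw [if_pos h16, if_pos (h15.1 h16), h10, ← mul_assoc, h11, one_mul]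
            · rw [if_neg h16, if_neg (fun h => h16 (h15.2 h)), mul_zero]
              rfl
        rw [h7, h8, map_smul, h6, smul_zero]
      · unfold bd
        refine Finset.sum_eq_zero fun c hc => ?_
        by_contra h
        have h4 := hψne _ h
        apply h3
        refine ⟨fun b hb => h4.1 b (List.mem_cons_of_mem _ hb), ?_⟩
        have := h4.2.2.1
        rwa [List.length_cons] at this
    have hψ0 := hinj hle ψ hψ hψcyc
    apply hφz
    have hexp := helper80_expand (F := F) (p := p) hz.1.1
      (fun l hl => ⟨(hz.1.2 l hl).1, (hz.1.2 l hl).2.2⟩)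
    rw [hexp, map_sum]
    refine Finset.sum_eq_zero fun S hS => ?_
    rw [map_smul]
    rw [Finset.mem_powersetCard] at hS
    by_cases h1 : z S.toList = 0
    · rw [h1, zero_div, zero_smul]
    · have h2 := hz.1.2 _ h1
      have h3 := hz.2 _ h1
      have hperm : ((F \ S).toList ++ S.toList).Perm M := by
        refine (List.perm_ext_iff_of_nodup ?_ (Finset.nodup_toList F)).2 fun b => ?_
        · rw [List.nodup_append]
          refine ⟨Finset.nodup_toList _, Finset.nodup_toList _, ?_⟩
          intro a ha b hb
          rw [Finset.mem_toList, Finset.mem_sdiff] at ha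
          rw [Finset.mem_toList] at hb
          rintro rfl
          exact ha.2 hb
        · rw [List.mem_append, Finset.mem_toList, Finset.mem_toList, Finset.mem_toList,
            Finset.mem_sdiff]
          constructor
          · rintro (h | h)
            · exact h.1
            · exact hS.1 h
          · intro h
            by_cases hb : b ∈ S
            · exact Or.inr hb
            · exact Or.inl ⟨h, hb⟩
      have h4 := (hdual hperm).2 ⟨h2.2.1, h3⟩
      have h5 : A' (F \ S).toList := by
        refine ⟨fun b hb => ?_, h4.1, ?_, h4.2⟩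
        · rw [Finset.mem_toList, Finset.mem_sdiff] at hb
          exact hb.1
        · have h6 := hperm.length_eq
          rw [List.length_append, Finset.length_toList S, hM, Finset.length_toList F, hS.2] at h6
          omega
      have h6 : φ (helper80_E k M (F \ S).toList) = 0 := by
        have h7 := hψ0 (F \ S).toList
        change (if A' (F \ S).toList then φ (helper80_E k M (F \ S).toList) else 0) = 0 at h7
        rwa [if_pos h5] at h7
      rw [h6, smul_zero]
  obtain ⟨w, hw, hzw⟩ := hzR
  refine ⟨w, hw, fun l h1 h2 => ?_⟩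
  rw [hzw l, if_pos ⟨h1, h2⟩]

end VKB
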