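import Pool.Agent.VKB.Dual

/-!
# Duality of exactness

Same situation as in `Dual.lean`: the complex of chains with low remainder in multidegree `μ`, at `p`, is dual to
the one in multidegree `μ' = (∑ m ∈ F, m) + topE d I - μ`, at `q = F.card - p`.

Paper proof. As in the proof of `surj_of_inj` (reuse its lemmas): let `φ` be a linear form vanishing on the
boundaries in `C p`, `ψ l' = φ (E l')` for the allowed `l'` of length `q`; it is a cycle, so by
hypothesis `ψ = bd θ` on the allowed lists, with `θ` in `C' (q + 1)`. For `z ∈ C p` we have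
`φ z = ∑ over the p-subsets S of F, z (l_S) ψ (l'_S) / κ (l'_S ++ l_S)` (`l_S = S.toList`, `l'_S = (F \ S).toList`). Insert
`ψ (l'_S) = ∑ c, θ (c :: l'_S)`; only `c ∈ S` contribute. Reordering the sum by `S' = S.erase c` gives, up to a sign
not depending on `S'`, `∑ S', (∑ c, z (c :: l_{S'})) θ (l'_{S'}) / κ (l'_{S'} ++ l_{S'})`, i.e. the pairing of `bd z` with `θ`
(for `c ∉ F \ S'` the terms vanish), which is `0` if `z` is a cycle; `S'` runs over the sets for which `l'_{S'}` is
allowed, equivalently `l_{S'}` is allowed. So `φ z = 0` for all such `φ`, and `z` is a boundary.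
(If `μ ≤ (∑ m ∈ F, m) + topE d I` fails there is no nonzero chain.)
-/

namespace VKB
open VK

variable {k : Type*} [Field k] [CharZero k] {σ : Type*} [DecidableEq σ]

omit [CharZero k] [DecidableEq σ] in
theorem dualB_swap {z : List (σ →₀ ℕ) → k} (hz : Alt z) (l₁ l₂ : List (σ →₀ ℕ)) :
    z (l₁ ++ l₂) = (-1) ^ (l₁.length * l₂.length) * z (l₂ ++ l₁) := by
  induction l₁ generalizing z with
  | nil => simp
  | cons a l₁ ih =>
    have h1 : z (a :: (l₁ ++ l₂)) = (-1) ^ (l₁.length * l₂.length) * z (a :: (l₂ ++ l₁)) :=
      ih (hz.cons a)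
    rw [List.cons_append, h1, hz.middle, ← mul_assoc, List.length_cons]
    congr 1
    have h2 : ((-1 : k) ^ l₂.length) * (-1) ^ l₂.length = 1 := by
      rw [← mul_pow, neg_one_mul, neg_neg, one_pow]
    rw [add_mul, one_mul, pow_add, mul_assoc, h2, mul_one]

omit [DecidableEq σ] in
theorem dualB_perm [DecidableEq (σ →₀ ℕ)] {F S : Finset (σ →₀ ℕ)} (hS : S ⊆ F) :
    ((F \ S).toList ++ S.toList).Perm F.toList := by
  refine (List.perm_ext_iff_of_nodup ?_ (Finset.nodup_toList F)).2 fun b => ?_
  · rw [List.nodup_append]
    refine ⟨Finset.nodup_toList _, Finset.nodup_toList _, ?_⟩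
    intro a ha b hb
    rw [Finset.mem_toList, Finset.mem_sdiff] at ha
    rw [Finset.mem_toList] at hb
    rintro rfl
    exact ha.2 hb
  · rw [List.mem_append, Finset.mem_toList, Finset.mem_toList, Finset.mem_toList,
      Finset.mem_sdiff]
    constructor
    · rintro (h | h)
      · exact h.1
      · exact hS h
    · intro h
      by_cases hb : b ∈ S
      · exact Or.inr hb
      · exact Or.inl ⟨h, hb⟩

theorem exact_of_exact {d : ℕ} (hd : 0 < d) (I : Finset σ) {F : Finset (σ →₀ ℕ)}
    (hF : ∀ m ∈ F, m.support ⊆ I) {μ : σ →₀ ℕ} (hμ : μ.support ⊆ I) {p q : ℕ}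
    (hpq : p + q = F.card)
    (hex : μ ≤ (∑ m ∈ F, m) + topE d I → ∀ z : List (σ →₀ ℕ) → k,
      RCh d I F ((∑ m ∈ F, m) + topE d I - μ) q z →
      RCyc d I F ((∑ m ∈ F, m) + topE d I - μ) z →
      ∃ w : List (σ →₀ ℕ) → k, RCh d I F ((∑ m ∈ F, m) + topE d I - μ) (q + 1) w ∧
        ∀ l : List (σ →₀ ℕ), l.sum ≤ (∑ m ∈ F, m) + topE d I - μ →
          Low d I ((∑ m ∈ F, m) + topE d I - μ - l.sum) → bd F w l = z l)
    {z : List (σ →₀ ℕ) → k} (hz : RCh d I F μ p z) (hcyc : RCyc d I F μ z) :
    ∃ w : List (σ →₀ ℕ) → k, RCh d I F μ (p + 1) w ∧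
      ∀ l : List (σ →₀ ℕ), l.sum ≤ μ → Low d I (μ - l.sum) → bd F w l = z l := by
  classical
  by_cases hz0 : ∀ l, z l = 0
  · refine ⟨fun _ => 0, ⟨⟨Alt.zero, fun l hl => absurd rfl hl⟩, fun l hl => absurd rfl hl⟩, ?_⟩
    intro l _ _
    rw [bd_zero, hz0]
  push Not at hz0
  obtain ⟨l0, hl0⟩ := hz0
  set M := F.toList with hM
  set T : σ →₀ ℕ := ∑ m ∈ F, m with hT
  -- `μ ≤ T + top`
  have hle : μ ≤ T + topE d I := by
    have h1 := hz.1.2 l0 hl0
    have h2 := hz.2 l0 hl0
    have hnd : l0.Nodup := by
      by_contra h
      exact hl0 (hz.1.1.dup h)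
    have h3 : l0.sum ≤ T := by
      have h4 : l0.toFinset ⊆ F := fun b hb => h1.1 b (List.mem_toFinset.1 hb)
      have h5 : l0.sum = ∑ m ∈ l0.toFinset, m := by
        rw [List.sum_toFinset _ hnd, List.map_id']
      rw [h5]
      exact Finset.sum_le_sum_of_subset h4
    intro i
    rw [Finsupp.add_apply]
    by_cases hi : i ∈ I
    · have h4 := h2 i hi
      rw [Finsupp.tsub_apply] at h4
      have h5 := h3 i
      rw [helper80_topE_mem hi]
      omega
    · have h4 : μ i = 0 := by
        by_contra h
        exact hi (hμ (Finsupp.mem_support_iff.2 h))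
      rw [h4]
      exact Nat.zero_le _
  set μ' : σ →₀ ℕ := T + topE d I - μ with hμ'
  have hdual : ∀ {l l' : List (σ →₀ ℕ)}, (l' ++ l).Perm M →
      ((l'.sum ≤ μ' ∧ Low d I (μ' - l'.sum)) ↔ (l.sum ≤ μ ∧ Low d I (μ - l.sum))) :=
    fun h => helper80_dual hd I hF hμ hle h
  -- the image
  let R : Submodule k (List (σ →₀ ℕ) → k) :=
    { carrier := {y | ∃ w : List (σ →₀ ℕ) → k, RCh d I F μ (p + 1) w ∧
        ∀ l, y l = if l.sum ≤ μ ∧ Low d I (μ - l.sum) then bd F w l else 0}
      zero_mem' := ⟨fun _ => 0, ⟨⟨Alt.zero, fun l hl => absurd rfl hl⟩,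
        fun l hl => absurd rfl hl⟩, fun l => by rw [bd_zero, ite_self]; rfl⟩
      add_mem' := by
        rintro y y' ⟨w, hw, hy⟩ ⟨w', hw', hy'⟩
        refine ⟨fun l => w l + w' l, ⟨⟨hw.1.1.add hw'.1.1, ?_⟩, ?_⟩, ?_⟩
        · intro l hl
          by_cases h : w l = 0
          · apply hw'.1.2
            intro h'
            apply hl
            change w l + w' l = 0
            rw [h, h', add_zero]
          · exact hw.1.2 l h
        · intro l hl
          by_cases h : w l = 0
          · apply hw'.2
            intro h'
            apply hl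
            change w l + w' l = 0
            rw [h, h', add_zero]
          · exact hw.2 l h
        · intro l
          rw [Pi.add_apply, hy, hy', bd_add]
          split_ifs
          · rfl
          · rw [add_zero]
      smul_mem' := by
        rintro c y ⟨w, hw, hy⟩
        refine ⟨fun l => c * w l, ⟨⟨hw.1.1.mul c, ?_⟩, ?_⟩, ?_⟩
        · intro l hl
          exact hw.1.2 l (right_ne_zero_of_mul hl)
        · intro l hl
          exact hw.2 l (right_ne_zero_of_mul hl)
        · intro l
          rw [Pi.smul_apply, hy, bd_mul, smul_eq_mul]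
          split_ifs
          · rfl
          · rw [mul_zero] }
  have hzR : z ∈ R := by
    by_contra hzR
    obtain ⟨φ, hφz, hφR⟩ := Submodule.exists_le_ker_of_notMem hzR
    let A' : List (σ →₀ ℕ) → Prop := fun l' =>
      (∀ b ∈ l', b ∈ F) ∧ l'.sum ≤ μ' ∧ l'.length = q ∧ Low d I (μ' - l'.sum)
    have hA'perm : ∀ {l l' : List (σ →₀ ℕ)}, l.Perm l' → (A' l ↔ A' l') := by
      intro l l' h
      change ((∀ b ∈ l, b ∈ F) ∧ l.sum ≤ μ' ∧ l.length = q ∧ Low d I (μ' - l.sum)) ↔
        ((∀ b ∈ l', b ∈ F) ∧ l'.sum ≤ μ' ∧ l'.length = q ∧ Low d I (μ' - l'.sum))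
      rw [h.sum_eq, h.length_eq]
      refine and_congr_left fun _ => ?_
      exact ⟨fun h1 b hb => h1 b (h.mem_iff.2 hb), fun h1 b hb => h1 b (h.mem_iff.1 hb)⟩
    let ψ : List (σ →₀ ℕ) → k := fun l' => if A' l' then φ (helper80_E k M l') else 0
    have hψalt : Alt ψ := by
      have h1 : Alt (fun l' => φ (helper80_E k M l')) := by
        intro l₁ a b l₂
        change φ _ = - φ _
        rw [helper80_E_swap, map_neg]
      exact h1.ite A' fun l₁ a b l₂ => hA'perm (perm_swap l₁ a b l₂)
    have hψne : ∀ l', ψ l' ≠ 0 → A' l' := by
      intro l' h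
      by_contra h'
      exact h (if_neg h')
    have hψ : RCh d I F μ' q ψ := by
      refine ⟨⟨hψalt, fun l hl => ?_⟩, fun l hl => (hψne l hl).2.2.2⟩
      exact ⟨(hψne l hl).1, (hψne l hl).2.1, (hψne l hl).2.2.1⟩
    have hψcyc : RCyc d I F μ' ψ := by
      intro l'' h1 h2
      by_cases h3 : (∀ b ∈ l'', b ∈ F) ∧ l''.length + 1 = q
      · obtain ⟨h3, h4⟩ := h3
        have hE : ∀ l, helper80_E k M l'' l ≠ 0 → (l'' ++ l).Perm M := fun l hl => kap_ne_zero hl
        have hw : RCh d I F μ (p + 1) (helper80_E k M l'') := by
          refine ⟨⟨helper80_E_alt M l'', fun l hl => ?_⟩, fun l hl => ?_⟩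
          · have h5 := hE l hl
            refine ⟨fun b hb => ?_, ((hdual h5).1 ⟨h1, h2⟩).1, ?_⟩
            · have h6 : b ∈ l'' ++ l := List.mem_append_right _ hb
              rw [h5.mem_iff, hM, Finset.mem_toList] at h6
              exact h6
            · have h6 := h5.length_eq
              rw [List.length_append, hM, Finset.length_toList] at h6
              omega
          · exact ((hdual (hE l hl)).1 ⟨h1, h2⟩).2
        have h5 : (fun l => if l.sum ≤ μ ∧ Low d I (μ - l.sum) then
            bd F (helper80_E k M l'') l else 0) ∈ R := ⟨_, hw, fun l => rfl⟩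
        have h6 : φ (fun l => if l.sum ≤ μ ∧ Low d I (μ - l.sum) then
            bd F (helper80_E k M l'') l else 0) = 0 := hφR h5
        have h7 : bd F ψ l'' = φ (∑ c ∈ F, if A' (c :: l'') then
            helper80_E k M (c :: l'') else 0) := by
          unfold bd
          rw [map_sum]
          refine Finset.sum_congr rfl fun c _ => ?_
          change (if A' (c :: l'') then φ (helper80_E k M (c :: l'')) else 0) = _
          split_ifs
          · rfl
          · rw [map_zero]
        have h8 : (∑ c ∈ F, if A' (c :: l'') then helper80_E k M (c :: l'') else 0) =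
            ((-1 : k) ^ l''.length) • (fun l => if l.sum ≤ μ ∧ Low d I (μ - l.sum) then
            bd F (helper80_E k M l'') l else 0) := by
          funext l
          rw [Finset.sum_apply, Pi.smul_apply, smul_eq_mul]
          have h9 : (if l.sum ≤ μ ∧ Low d I (μ - l.sum) then
            bd F (helper80_E k M l'') l else 0) = ∑ c ∈ F,
              if l.sum ≤ μ ∧ Low d I (μ - l.sum) then helper80_E k M l'' (c :: l) else 0 := by
            split_ifs
            · rfl
            · rw [Finset.sum_const_zero]
          rw [h9, Finset.mul_sum]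
          refine Finset.sum_congr rfl fun c hc => ?_
          have h10 : helper80_E k M l'' (c :: l) =
              (-1 : k) ^ l''.length * helper80_E k M (c :: l'') l :=
            (kap_alt M).middle l'' c l
          have h11 : ((-1 : k) ^ l''.length) * ((-1 : k) ^ l''.length) = 1 := by
            rw [← mul_pow, neg_one_mul, neg_neg, one_pow]
          by_cases h12 : helper80_E k M (c :: l'') l = 0
          · rw [h10, h12, mul_zero, ite_self, mul_zero]
            split_ifs
            · exact h12
            · rfl
          · have h13 : ((c :: l'') ++ l).Perm M := kap_ne_zero h12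
            have h14 := hdual h13
            have h15 : A' (c :: l'') ↔ (l.sum ≤ μ ∧ Low d I (μ - l.sum)) := by
              rw [← h14]
              constructor
              · intro h
                exact ⟨h.2.1, h.2.2.2⟩
              · intro h
                refine ⟨fun b hb => ?_, h.1, ?_, h.2⟩
                · rw [List.mem_cons] at hb
                  rcases hb with hb | hb
                  · rw [hb]; exact hc
                  · exact h3 b hb
                · rw [List.length_cons, h4]
            by_cases h16 : A' (c :: l'')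
            · rw [if_pos h16, if_pos (h15.1 h16), h10, ← mul_assoc, h11, one_mul]
            · rw [if_neg h16, if_neg (fun h => h16 (h15.2 h)), mul_zero]
              rfl
        rw [h7, h8, map_smul, h6, smul_zero]
      · unfold bd
        refine Finset.sum_eq_zero fun c hc => ?_
        by_contra h
        have h4 := hψne _ h
        apply h3
        refine ⟨fun b hb => h4.1 b (List.mem_cons_of_mem _ hb), ?_⟩
        have := h4.2.2.1
        rwa [List.length_cons] at this
    obtain ⟨θ, hθ, hθbd⟩ := hex hle ψ hψ hψcyc
    apply hφz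
    have hexp := helper80_expand (F := F) (p := p) hz.1.1
      (fun l hl => ⟨(hz.1.2 l hl).1, (hz.1.2 l hl).2.2⟩)
    have hθexp := helper80_expand (F := F) (p := q + 1) hθ.1.1
      (fun l hl => ⟨(hθ.1.2 l hl).1, (hθ.1.2 l hl).2.2⟩)
    -- first step
    have hstep1 : φ z = ∑ S ∈ F.powersetCard p,
        (z S.toList / kap k M ((F \ S).toList ++ S.toList)) * bd F θ (F \ S).toList := by
      conv_lhs => rw [hexp]
      rw [map_sum]
      refine Finset.sum_congr rfl fun S hS => ?_
      rw [map_smul, smul_eq_mul]
      rw [Finset.mem_powersetCard] at hS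
      by_cases h1 : z S.toList = 0
      · rw [h1, zero_div, zero_mul, zero_mul]
      · have h2 := hz.1.2 _ h1
        have h3 := hz.2 _ h1
        have hperm := dualB_perm hS.1
        have h4 := (hdual hperm).2 ⟨h2.2.1, h3⟩
        have h5 : A' (F \ S).toList := by
          refine ⟨fun b hb => ?_, h4.1, ?_, h4.2⟩
          · rw [Finset.mem_toList, Finset.mem_sdiff] at hb
            exact hb.1
          · have h6 := hperm.length_eq
            rw [List.length_append, Finset.length_toList S, Finset.length_toList F, hS.2] at h6
            omega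
        rw [hθbd _ h4.1 h4.2]
        change _ = _ * (if A' (F \ S).toList then φ (helper80_E k M (F \ S).toList) else 0)
        rw [if_pos h5]
    rw [hstep1]
    -- second step
    have hstep2 : ∀ l', bd F θ l' = ∑ T' ∈ F.powersetCard (q + 1),
        (θ T'.toList / kap k M ((F \ T').toList ++ T'.toList)) *
          ∑ c ∈ F, kap k M ((F \ T').toList ++ c :: l') := by
      intro l'
      unfold bd
      have h1 : ∀ c, θ (c :: l') = ∑ T' ∈ F.powersetCard (q + 1),
          (θ T'.toList / kap k M ((F \ T').toList ++ T'.toList)) *
            kap k M ((F \ T').toList ++ c :: l') := by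
        intro c
        conv_lhs => rw [hθexp]
        rw [Finset.sum_apply]
        rfl
      rw [Finset.sum_congr rfl fun c _ => h1 c, Finset.sum_comm]
      refine Finset.sum_congr rfl fun T' _ => ?_
      rw [Finset.mul_sum]
    simp only [hstep2]
    simp only [Finset.mul_sum]
    rw [Finset.sum_comm]
    refine Finset.sum_eq_zero fun T' hT' => ?_
    rw [Finset.mem_powersetCard] at hT'
    rw [Finset.sum_comm]
    have h0card : (F \ T').card + (q + 1) = F.card := by
      rw [Finset.card_sdiff_of_subset hT'.1, hT'.2]
      have := Finset.card_le_card hT'.1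
      rw [hT'.2] at this
      omega
    have hone : ∀ c ∈ F, ∑ S ∈ F.powersetCard p,
        (z S.toList / kap k M ((F \ S).toList ++ S.toList)) *
          ((θ T'.toList / kap k M ((F \ T').toList ++ T'.toList)) *
            kap k M ((F \ T').toList ++ c :: (F \ S).toList)) =
        (θ T'.toList / kap k M ((F \ T').toList ++ T'.toList)) *
          (((-1) ^ (F \ T').card * (-1) ^ (((F \ T').card + 1) * q)) * z (c :: (F \ T').toList)) := by
      intro c hc
      have h1 : ∀ S ∈ F.powersetCard p, (z S.toList / kap k M ((F \ S).toList ++ S.toList)) *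
          ((θ T'.toList / kap k M ((F \ T').toList ++ T'.toList)) *
            kap k M ((F \ T').toList ++ c :: (F \ S).toList)) =
          (θ T'.toList / kap k M ((F \ T').toList ++ T'.toList)) *
          ((z S.toList / kap k M ((F \ S).toList ++ S.toList)) *
            kap k M ((F \ T').toList ++ c :: (F \ S).toList)) := fun S _ => by ring
      rw [Finset.sum_congr rfl h1, ← Finset.mul_sum]
      congr 1
      by_cases hcT : c ∈ F \ T'
      · have h2 : z (c :: (F \ T').toList) = 0 := by
          apply hz.1.1.dup
          rw [List.nodup_cons, Finset.mem_toList]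
          exact fun h => h.1 hcT
        rw [h2, mul_zero]
        refine Finset.sum_eq_zero fun S _ => ?_
        have h3 : kap k M ((F \ T').toList ++ c :: (F \ S).toList) = 0 := by
          apply (kap_alt M).dup
          intro h
          rw [List.nodup_append] at h
          exact h.2.2 c (Finset.mem_toList.2 hcT) c List.mem_cons_self rfl
        rw [h3, mul_zero]
      · have hS0F : insert c (F \ T') ⊆ F := Finset.insert_subset hc Finset.sdiff_subset
        have hS0p : (insert c (F \ T')).card = p := by
          rw [Finset.card_insert_of_notMem hcT]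
          omega
        have hpl : (insert c (F \ T')).toList.Perm (c :: (F \ T').toList) :=
          Finset.toList_insert hcT
        rw [Finset.sum_eq_single (insert c (F \ T'))]
        · have hq : (F \ insert c (F \ T')).toList.length = q := by
            rw [Finset.length_toList, Finset.card_sdiff_of_subset hS0F, hS0p]
            omega
          rw [(kap_alt M).middle, ← List.cons_append,
            dualB_swap (kap_alt M) (c :: (F \ T').toList) (F \ insert c (F \ T')).toList, hq,
            List.length_cons, Finset.length_toList (F \ T')]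
          have h4 : z (c :: (F \ T').toList) =
              (z (insert c (F \ T')).toList /
                kap k M ((F \ insert c (F \ T')).toList ++ (insert c (F \ T')).toList)) *
                kap k M ((F \ insert c (F \ T')).toList ++ (c :: (F \ T').toList)) := by
            refine Alt.perm_eq hz.1.1 ((helper80_E_alt (k := k) M
              (F \ insert c (F \ T')).toList).mul _) hpl ?_
            have h1 : kap k M ((F \ insert c (F \ T')).toList ++ (insert c (F \ T')).toList) ≠ 0 :=
              kap_perm_ne (Finset.nodup_toList F) (dualB_perm hS0F)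
            unfold helper80_E
            field_simp
          rw [h4]
          ring
        · intro S hS hne
          rw [Finset.mem_powersetCard] at hS
          have h3 : kap k M ((F \ T').toList ++ c :: (F \ S).toList) = 0 := by
            by_contra h
            have h4 := kap_ne_zero h
            apply hne
            have h5 := h4.trans (dualB_perm hS.1).symm
            have h6 : ((F \ T').toList ++ c :: (F \ S).toList).Perm
                ((F \ S).toList ++ (c :: (F \ T').toList)) := by
              refine List.perm_middle.trans ?_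
              rw [← List.cons_append]
              exact List.perm_append_comm
            have h7 := (List.perm_append_left_iff _).1 (h6.symm.trans h5)
            ext b
            rw [Finset.mem_insert, ← Finset.mem_toList (s := S), ← h7.mem_iff, List.mem_cons,
              Finset.mem_toList]
          rw [h3, mul_zero]
        · intro h
          exact absurd (Finset.mem_powersetCard.2 ⟨hS0F, hS0p⟩) h
    rw [Finset.sum_congr rfl hone, ← Finset.mul_sum, ← Finset.mul_sum]
    change _ * (_ * bd F z (F \ T').toList) = 0
    by_cases h1 : θ T'.toList = 0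
    · rw [h1, zero_div, zero_mul]
    · have h2 := hθ.1.2 _ h1
      have h3 := hθ.2 _ h1
      have hperm : (T'.toList ++ (F \ T').toList).Perm M :=
        List.perm_append_comm.trans (dualB_perm hT'.1)
      have h4 := (hdual hperm).1 ⟨h2.2.1, h3⟩
      rw [hcyc _ h4.1 h4.2, mul_zero, mul_zero]
  obtain ⟨w, hw, hzw⟩ := hzR
  refine ⟨w, hw, fun l h1 h2 => ?_⟩
  rw [hzw l, if_pos ⟨h1, h2⟩]

end VKB
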