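import Pool.Agent.VKB.Few
import Pool.Agent.VKB.DualB

/-!
# Duality for the Koszul complex of all monomials of degree `d`

`F` all monomials of degree `d` on `I`, `F' = F \ pure d I`, `F'.card = F.card - I.card`, `q = F'.card - p`.

Paper proofs.
* `EEx_dual`: let `z` be a cycle in multidegree `μ`. `cut d I F' μ z` is an `RCh` and an `RCyc`; it is a boundary
  modulo pure powers by `exact_of_exact`, and `quot_all` finishes. The hypothesis of `exact_of_exact`: an
  `RCyc` `ψ` in multidegree `μ'` lifts to a cycle (`lift_all`), which is `bd F w`; `cut d I F' μ' w` has boundary `ψ` on the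
  low lists of elements of `F'` (for a low list `l` the pure powers do not fit: `(e_i :: l).sum ≤ μ'` fails). See `Few.lean`
  for similar arguments.
* `EEx_large`: for `p > F'.card` there are no nonzero `RCh d I F' μ p` (lists are duplicate free), so `quot_all` with
  `w' = 0` applies.
-/

namespace VKB
open VK

variable {k : Type*} [Field k] [CharZero k] {σ : Type*} [DecidableEq σ]

/-- one variable, lifting cycles, with control of all lists without the new element -/
private theorem helper23_lift_step {d : ℕ} (hd : 0 < d) {J : Finset σ} {i : σ} (hi : i ∉ J)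
    {F : Finset (σ →₀ ℕ)} (hF : Finsupp.single i d ∈ F) {μ : σ →₀ ℕ} {p : ℕ}
    {z : List (σ →₀ ℕ) → k} (hz : RCh d (insert i J) (F.erase (Finsupp.single i d)) μ p z)
    (hcyc : RCyc d (insert i J) (F.erase (Finsupp.single i d)) μ z) :
    ∃ z' : List (σ →₀ ℕ) → k, RCh d J F μ p z' ∧ RCyc d J F μ z' ∧
      ∀ l, Finsupp.single i d ∉ l → z' l = z l := by
  classical
  set e : σ →₀ ℕ := Finsupp.single i d with he
  obtain ⟨⟨hzA, hzS⟩, hzL⟩ := hz
  -- `e` has no coordinate in `J`
  have hej : ∀ j ∈ J, e j = 0 := by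
    intro j hj
    have hij : j ≠ i := fun h => hi (h ▸ hj)
    rw [he, Finsupp.single_eq_of_ne hij]
  -- `z` vanishes on the lists containing `e`
  have hze : ∀ l : List (σ →₀ ℕ), e ∈ l → z l = 0 := by
    intro l hl
    by_contra h
    exact Finset.notMem_erase e F ((hzS l h).1 e hl)
  set g : List (σ →₀ ℕ) → k := fun l =>
    if l.sum ≤ μ ∧ Low d J (μ - l.sum) then bd (F.erase e) z l else 0 with hg
  have hgA : Alt g := by
    refine (hzA.bd (F.erase e)).ite (fun l => l.sum ≤ μ ∧ Low d J (μ - l.sum)) ?_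
    intro l₁ a b l₂
    simp only [(perm_swap l₁ a b l₂).sum_eq]
  have hbe : ∀ l, bd F z l = bd (F.erase e) z l := by
    intro l
    unfold bd
    rw [← Finset.add_sum_erase F _ hF, hze (e :: l) List.mem_cons_self, zero_add]
  -- the support of `g`
  have hgs : ∀ l, g l ≠ 0 → (∀ b ∈ l, b ∈ F.erase e) ∧ l.length + 1 = p ∧ e + l.sum ≤ μ ∧
      Low d J (μ - (e + l.sum)) := by
    intro l hl
    have h1 : l.sum ≤ μ ∧ Low d J (μ - l.sum) := by
      by_contra h
      exact hl (if_neg h)
    have h2 : bd (F.erase e) z l ≠ 0 := by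
      intro h
      apply hl
      simp only [hg, if_pos h1, h]
    obtain ⟨b, hb, h3⟩ : ∃ b ∈ F.erase e, z (b :: l) ≠ 0 := by
      by_contra h
      push Not at h
      exact h2 (Finset.sum_eq_zero h)
    have h4 := hzS _ h3
    have h5 : ¬ Low d (insert i J) (μ - l.sum) := fun h => h2 (hcyc l h1.1 h)
    have h6 : d ≤ (μ - l.sum) i := by
      by_contra h
      apply h5
      intro j hj
      rcases Finset.mem_insert.1 hj with h' | h'
      · rw [h']; omega
      · exact h1.2 j h'
    refine ⟨fun c hc => h4.1 c (List.mem_cons_of_mem _ hc), by simpa using h4.2.2, ?_, ?_⟩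
    · intro j
      have h7 := h1.1 j
      rw [Finsupp.add_apply]
      by_cases hj : j = i
      · rw [hj, he, Finsupp.single_eq_same]
        rw [Finsupp.tsub_apply] at h6
        rw [hj] at h7
        omega
      · rw [he, Finsupp.single_eq_of_ne hj, zero_add]
        exact h7
    · intro j hj
      have h7 := h1.2 j hj
      rw [Finsupp.tsub_apply] at h7
      rw [Finsupp.tsub_apply, Finsupp.add_apply, hej j hj, zero_add]
      exact h7
  have hws : ∀ l, wd e g l ≠ 0 → (∀ b ∈ l, b ∈ F) ∧ l.sum ≤ μ ∧ l.length = p ∧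
      Low d J (μ - l.sum) ∧ e ∈ l := by
    intro l hl
    obtain ⟨l₁, l₂, rfl, h2⟩ := wd_ne_zero hl
    obtain ⟨h3, h4, h5, h6⟩ := hgs _ h2
    have hp : (l₁ ++ e :: l₂).Perm (e :: (l₁ ++ l₂)) := List.perm_middle
    have hs : (l₁ ++ e :: l₂).sum = e + (l₁ ++ l₂).sum := by rw [hp.sum_eq, List.sum_cons]
    refine ⟨?_, ?_, ?_, ?_, ?_⟩
    · intro b hb
      rw [hp.mem_iff, List.mem_cons] at hb
      rcases hb with h | h
      · rw [h]; exact hF
      · exact Finset.mem_of_mem_erase (h3 b h)
    · rw [hs]; exact h5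
    · rw [hp.length_eq, List.length_cons, h4]
    · rw [hs]; exact h6
    · rw [hp.mem_iff]; exact List.mem_cons_self
  refine ⟨fun l => z l - wd e g l, ⟨⟨hzA.sub (wd_alt hgA), ?_⟩, ?_⟩, ?_, ?_⟩
  · intro l hl
    by_cases h : wd e g l = 0
    · have h1 : z l ≠ 0 := by
        intro h'
        apply hl
        simp only [h, h', sub_zero]
      have h2 := hzS l h1
      exact ⟨fun b hb => Finset.mem_of_mem_erase (h2.1 b hb), h2.2⟩
    · have h2 := hws l h
      exact ⟨h2.1, h2.2.1, h2.2.2.1⟩
  · intro l hl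
    by_cases h : wd e g l = 0
    · have h1 : z l ≠ 0 := by
        intro h'
        apply hl
        simp only [h, h', sub_zero]
      exact fun j hj => hzL l h1 j (Finset.mem_insert_of_mem hj)
    · exact (hws l h).2.2.2.1
  · intro l hls hlow
    have h1 : g l = bd (F.erase e) z l := if_pos ⟨hls, hlow⟩
    have h2 : wd e (bd F g) l = 0 := by
      by_contra h
      obtain ⟨l₁, l₂, rfl, h3⟩ := wd_ne_zero h
      apply h3
      have hp : (l₁ ++ e :: l₂).Perm (e :: (l₁ ++ l₂)) := List.perm_middle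
      have hs : (l₁ ++ e :: l₂).sum = e + (l₁ ++ l₂).sum := by rw [hp.sum_eq, List.sum_cons]
      set l' := l₁ ++ l₂ with hl'
      rw [hs] at hls hlow
      -- low remainder of `l'`
      have hlow' : ∀ b : σ →₀ ℕ, Low d J (μ - (b + l'.sum)) := by
        intro b j hj
        have h4 := hlow j hj
        rw [Finsupp.tsub_apply, Finsupp.add_apply, hej j hj, zero_add] at h4
        rw [Finsupp.tsub_apply, Finsupp.add_apply]
        omega
      have h5 : ∀ b, g (b :: l') = bd (F.erase e) z (b :: l') := by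
        intro b
        by_cases hb : (b :: l').sum ≤ μ
        · refine if_pos ⟨hb, ?_⟩
          rw [List.sum_cons]
          exact hlow' b
        · have h6 : g (b :: l') = 0 := if_neg fun h => hb h.1
          rw [h6]
          symm
          refine Finset.sum_eq_zero fun c _ => ?_
          by_contra h7
          apply hb
          have h8 := (hzS _ h7).2.1
          rw [List.sum_cons] at h8
          exact le_trans (le_add_of_nonneg_left bot_le) h8
      have h9 : g (e :: l') = 0 := by
        rw [h5]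
        exact Finset.sum_eq_zero fun c _ =>
          hze _ (List.mem_cons_of_mem _ List.mem_cons_self)
      have h10 : bd F g l' = bd (F.erase e) (bd (F.erase e) z) l' := by
        have h11 : bd F g l' = g (e :: l') + ∑ b ∈ F.erase e, g (b :: l') := by
          unfold bd
          rw [← Finset.add_sum_erase F _ hF]
        rw [h11, h9, zero_add]
        exact Finset.sum_congr rfl fun b _ => h5 b
      rw [h10]
      exact bd_bd hzA _ _
    rw [bd_sub, bd_wd hF, h2, sub_zero, hbe, h1, sub_self]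
  · intro l hl
    have h1 : wd e g l = 0 := by
      by_contra h
      exact hl (hws l h).2.2.2.2
    simp only [h1, sub_zero]

private theorem helper23_mem_pure {d : ℕ} {I : Finset σ} {b : σ →₀ ℕ} :
    b ∈ pure d I ↔ ∃ i ∈ I, Finsupp.single i d = b := by
  simp [pure]

private theorem helper23_pure_empty (d : ℕ) : pure d (∅ : Finset σ) = ∅ := by
  simp [pure]

private theorem helper23_sdiff_pure_insert {d : ℕ} {J : Finset σ} {i : σ}
    {F : Finset (σ →₀ ℕ)} :
    F \ pure d (insert i J) = (F \ pure d J).erase (Finsupp.single i d) := by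
  ext b
  simp only [Finset.mem_sdiff, Finset.mem_erase, helper23_mem_pure, Finset.mem_insert]
  constructor
  · rintro ⟨h1, h2⟩
    refine ⟨fun h => h2 ⟨i, Or.inl rfl, h.symm⟩, h1, ?_⟩
    rintro ⟨j, hj, h⟩
    exact h2 ⟨j, Or.inr hj, h⟩
  · rintro ⟨h1, h2, h3⟩
    refine ⟨h2, ?_⟩
    rintro ⟨j, rfl | hj, h⟩
    · exact h1 h.symm
    · exact h3 ⟨j, hj, h⟩

private theorem helper23_single_mem_sdiff {d : ℕ} (hd : 0 < d) {J : Finset σ} {i : σ}
    (hi : i ∉ J) {F : Finset (σ →₀ ℕ)} (hF : Finsupp.single i d ∈ F) :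
    Finsupp.single i d ∈ F \ pure d J := by
  rw [Finset.mem_sdiff, helper23_mem_pure]
  refine ⟨hF, ?_⟩
  rintro ⟨j, hj, h⟩
  have := (Finsupp.single_eq_single_iff j i d d).1 h
  rcases this with h1 | h1
  · exact hi (h1.1 ▸ hj)
  · exact hd.ne' h1.1

/-- a cycle modulo all pure powers lifts to a cycle with the same values on the lists without
pure powers -/
private theorem helper23_lift_all {d : ℕ} (hd : 0 < d) (I : Finset σ) {F : Finset (σ →₀ ℕ)}
    (hF : ∀ i ∈ I, Finsupp.single i d ∈ F) {μ : σ →₀ ℕ} {p : ℕ}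
    {z : List (σ →₀ ℕ) → k} (hz : RCh d I (F \ pure d I) μ p z)
    (hcyc : RCyc d I (F \ pure d I) μ z) :
    ∃ z' : List (σ →₀ ℕ) → k, ECh F μ p z' ∧ (∀ l, bd F z' l = 0) ∧
      ∀ l, (∀ b ∈ l, b ∉ pure d I) → z' l = z l := by
  classical
  induction I using Finset.induction_on generalizing z with
  | empty =>
    rw [helper23_pure_empty, Finset.sdiff_empty] at hz hcyc
    refine ⟨z, hz.1, fun l => ?_, fun l _ => rfl⟩
    by_cases h1 : l.sum ≤ μ
    · exact hcyc l h1 fun i hi => absurd hi (Finset.notMem_empty i)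
    · refine Finset.sum_eq_zero fun b _ => ?_
      by_contra hne
      obtain ⟨-, h3, -⟩ := hz.1.2 _ hne
      refine h1 (le_trans ?_ h3)
      rw [List.sum_cons]
      exact le_add_self
  | insert i J hi ih =>
    have he := helper23_single_mem_sdiff hd hi (hF i (Finset.mem_insert_self i J))
    rw [helper23_sdiff_pure_insert] at hz hcyc
    obtain ⟨z1, h1, h2, h3⟩ := helper23_lift_step hd hi he hz hcyc
    obtain ⟨z2, h4, h5, h6⟩ := ih (fun j hj => hF j (Finset.mem_insert_of_mem hj)) h1 h2
    refine ⟨z2, h4, h5, fun l hl => ?_⟩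
    rw [h6 l fun b hb h => hl b hb ?_, h3 l fun h => hl _ h ?_]
    · rw [helper23_mem_pure]
      exact ⟨i, Finset.mem_insert_self i J, rfl⟩
    · rw [helper23_mem_pure] at h ⊢
      obtain ⟨j, hj, h⟩ := h
      exact ⟨j, Finset.mem_insert_of_mem hj, h⟩

omit [CharZero k] in
/-- the boundary of the low part at a low list without pure powers -/
private theorem helper23_bd_cut {d : ℕ} (I : Finset σ) {F : Finset (σ →₀ ℕ)} {μ : σ →₀ ℕ}
    {p : ℕ} {w : List (σ →₀ ℕ) → k} (hw : ECh F μ p w) {l : List (σ →₀ ℕ)}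
    (hl : ∀ b ∈ l, b ∈ F \ pure d I) (hlow : Low d I (μ - l.sum)) :
    bd (F \ pure d I) (cut d I (F \ pure d I) μ w) l = bd F w l := by
  classical
  rw [bd, bd]
  rw [← Finset.sum_sdiff (Finset.sdiff_subset : F \ pure d I ⊆ F)]
  have h0 : ∑ b ∈ F \ (F \ pure d I), w (b :: l) = 0 := by
    refine Finset.sum_eq_zero fun b hb => ?_
    rw [Finset.mem_sdiff, Finset.mem_sdiff, not_and, not_not] at hb
    obtain ⟨j, hj, rfl⟩ := helper23_mem_pure.1 (hb.2 hb.1)
    by_contra hne
    have h1 := (hw.2 _ hne).2.1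
    rw [List.sum_cons] at h1
    have h2 := h1 j
    have h3 := hlow j hj
    rw [Finsupp.add_apply, Finsupp.single_eq_same] at h2
    rw [Finsupp.tsub_apply] at h3
    omega
  rw [h0, zero_add]
  refine Finset.sum_congr rfl fun b hb => ?_
  rw [cut, if_pos]
  refine ⟨?_, ?_⟩
  · intro x hx
    rcases List.mem_cons.1 hx with rfl | hx
    · exact hb
    · exact hl x hx
  · intro j hj
    have h3 := hlow j hj
    rw [List.sum_cons, Finsupp.tsub_apply, Finsupp.add_apply]
    rw [Finsupp.tsub_apply] at h3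
    omega

omit [CharZero k] in
/-- the boundary of the low part at a list with an entry outside -/
private theorem helper23_bd_cut_zero {d : ℕ} (I : Finset σ) {F' : Finset (σ →₀ ℕ)} {μ : σ →₀ ℕ}
    {w : List (σ →₀ ℕ) → k} {l : List (σ →₀ ℕ)}
    (hl : ¬ ∀ b ∈ l, b ∈ F') :
    bd F' (cut d I F' μ w) l = 0 := by
  classical
  rw [bd]
  refine Finset.sum_eq_zero fun b _ => ?_
  rw [cut, if_neg]
  intro h
  exact hl fun x hx => h.1 x (List.mem_cons_of_mem _ hx)

private theorem helper23_pure_sub (I : Finset σ) {d : ℕ} {F : Finset (σ →₀ ℕ)}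
    (hF : ∀ m, m ∈ F ↔ m.support ⊆ I ∧ m.degree = d) : pure d I ⊆ F := by
  classical
  intro m hm
  unfold pure at hm
  obtain ⟨i, hi, rfl⟩ := Finset.mem_image.1 hm
  rw [hF]
  refine ⟨?_, ?_⟩
  · intro j hj
    have := Finsupp.support_single_subset hj
    rw [Finset.mem_singleton] at this
    rw [this]; exact hi
  · exact Finsupp.degree_single i d

private theorem helper23_card (I : Finset σ) {d : ℕ} (hd : 0 < d) {F : Finset (σ →₀ ℕ)}
    (hF : ∀ m, m ∈ F ↔ m.support ⊆ I ∧ m.degree = d) :
    (F \ pure d I).card + I.card = F.card := by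
  classical
  have hpc : (pure d I).card = I.card := by
    unfold pure
    apply Finset.card_image_of_injOn
    intro i _ j _ hij
    have : Finsupp.single i d = Finsupp.single j d := hij
    exact (Finsupp.single_left_injective (by omega : d ≠ 0)) this
  rw [← hpc]
  exact Finset.card_sdiff_add_card_eq_card (helper23_pure_sub I hF)

private theorem helper23_single_mem (I : Finset σ) {d : ℕ} {F : Finset (σ →₀ ℕ)}
    (hF : ∀ m, m ∈ F ↔ m.support ⊆ I ∧ m.degree = d) : ∀ i ∈ I, Finsupp.single i d ∈ F :=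
  fun i hi => helper23_pure_sub I hF (by
    unfold pure
    exact Finset.mem_image_of_mem _ hi)

theorem EEx_dual (I : Finset σ) {d p q : ℕ} (hd : 2 ≤ d) {F : Finset (σ →₀ ℕ)}
    (hF : ∀ m, m ∈ F ↔ m.support ⊆ I ∧ m.degree = d) {μ : σ →₀ ℕ} (hμ : μ.support ⊆ I)
    (hpq : p + q + I.card = F.card)
    (hex : μ ≤ (∑ m ∈ F \ pure d I, m) + topE d I →
      EEx k F ((∑ m ∈ F \ pure d I, m) + topE d I - μ) q) : EEx k F μ p := by
  classical
  have hcard := helper23_card I (by omega : 0 < d) hF
  have hsing := helper23_single_mem I hF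
  have hF'I : ∀ m ∈ F \ pure d I, m.support ⊆ I := fun m hm =>
    ((hF m).1 (Finset.mem_sdiff.1 hm).1).1
  intro z hz hcyc
  have hcyc' : RCyc d I (F \ pure d I) μ (cut d I (F \ pure d I) μ z) := by
    intro l _ hlow
    by_cases hm : ∀ b ∈ l, b ∈ F \ pure d I
    · rw [helper23_bd_cut I hz hm hlow, hcyc]
    · exact helper23_bd_cut_zero I hm
  obtain ⟨w', hw', hbd'⟩ := exact_of_exact (k := k) (d := d) (by omega) I hF'I hμ
    (by omega : p + q = (F \ pure d I).card) (by
      intro hle ψ hψ hψc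
      obtain ⟨z'', h1, h2, h3⟩ := helper23_lift_all (by omega) I hsing hψ hψc
      obtain ⟨w, h4, h5⟩ := hex hle z'' h1 h2
      refine ⟨cut d I (F \ pure d I) _ w, cut_RCh I h4, fun l _ hlow => ?_⟩
      by_cases hm : ∀ b ∈ l, b ∈ F \ pure d I
      · rw [helper23_bd_cut I h4 hm hlow, h5, h3 l fun b hb => (Finset.mem_sdiff.1 (hm b hb)).2]
      · rw [helper23_bd_cut_zero I hm]
        by_contra h6
        exact hm (hψ.1.2 l (Ne.symm h6)).1) (cut_RCh I hz) hcyc'
  refine quot_all (by omega) I hsing hz hcyc hw' ?_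
  intro l hl hsum hlow
  rw [hbd' l hsum hlow]
  unfold cut
  rw [if_pos ⟨hl, hlow⟩]

theorem EEx_large (I : Finset σ) {d p : ℕ} (hd : 2 ≤ d) {F : Finset (σ →₀ ℕ)}
    (hF : ∀ m, m ∈ F ↔ m.support ⊆ I ∧ m.degree = d) {μ : σ →₀ ℕ} (hμ : μ.support ⊆ I)
    (hp : F.card < p + I.card) : EEx k F μ p := by
  classical
  have hcard := helper23_card I (by omega : 0 < d) hF
  intro z hz hcyc
  refine quot_all (by omega) I (helper23_single_mem I hF) hz hcyc (w' := fun _ => 0)
    ⟨⟨Alt.zero, fun l hl => absurd rfl hl⟩, fun l hl => absurd rfl hl⟩ ?_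
  intro l hl _ _
  rw [bd_zero]
  symm
  by_contra h
  have h1 := (hz.2 l h).2.2
  have h2 : l.Nodup := by
    by_contra h'
    exact h (hz.1.dup h')
  have h3 : l.toFinset ⊆ F \ pure d I := fun b hb => hl b (List.mem_toFinset.1 hb)
  have h4 := Finset.card_le_card h3
  rw [List.toFinset_card_of_nodup h2] at h4
  omega

/-- the degree of the dual multidegree -/
theorem degree_dual (I : Finset σ) {d p q a : ℕ} (hd : 2 ≤ d) {F : Finset (σ →₀ ℕ)}
    (hF : ∀ m, m ∈ F ↔ m.support ⊆ I ∧ m.degree = d) {μ : σ →₀ ℕ}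
    (hpq : p + q + I.card = F.card) (hdeg : μ.degree = p * d + a) (ha : a ≤ I.card * (d - 1))
    (hle : μ ≤ (∑ m ∈ F \ pure d I, m) + topE d I) :
    ((∑ m ∈ F \ pure d I, m) + topE d I - μ).degree = q * d + (I.card * (d - 1) - a) ∧
      ((∑ m ∈ F \ pure d I, m) + topE d I - μ).support ⊆ I := by
  classical
  have hcard := helper23_card I (by omega : 0 < d) hF
  have hF'I : ∀ m ∈ F \ pure d I, m.support ⊆ I := fun m hm =>
    ((hF m).1 (Finset.mem_sdiff.1 hm).1).1
  have hTI : ((∑ m ∈ F \ pure d I, m) + topE d I).support ⊆ I := by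
    intro j hj
    by_contra hjI
    rw [Finsupp.mem_support_iff] at hj
    apply hj
    rw [Finsupp.add_apply, Finsupp.finsetSum_apply]
    have h1 : ∀ m ∈ F \ pure d I, m j = 0 := fun m hm => by
      by_contra h
      exact hjI (hF'I m hm (Finsupp.mem_support_iff.2 h))
    rw [Finset.sum_eq_zero h1, helper80_topE_notMem hjI, add_zero]
  have hTdeg : ((∑ m ∈ F \ pure d I, m) + topE d I).degree =
      (F \ pure d I).card * d + I.card * (d - 1) := by
    rw [map_add, map_sum]
    congr 1
    · rw [Finset.sum_congr rfl (fun m hm => ((hF m).1 (Finset.mem_sdiff.1 hm).1).2)]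
      rw [Finset.sum_const, smul_eq_mul]
    · unfold topE
      rw [map_sum, Finset.sum_congr rfl (fun i _ => Finsupp.degree_single i (d - 1)),
        Finset.sum_const, smul_eq_mul]
  refine ⟨?_, ?_⟩
  · have h4 : ((∑ m ∈ F \ pure d I, m) + topE d I - μ) + μ =
        (∑ m ∈ F \ pure d I, m) + topE d I := tsub_add_cancel_of_le hle
    have h5 := congrArg Finsupp.degree h4
    rw [map_add, hTdeg, hdeg] at h5
    have h6 : (F \ pure d I).card * d = q * d + p * d := by
      rw [← Nat.add_mul]
      congr 1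
      omega
    omega
  · intro j hj
    apply hTI
    rw [Finsupp.mem_support_iff] at hj ⊢
    rw [Finsupp.tsub_apply] at hj
    omega

end VKB
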