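import Pool.Agent.VKB.Two

/-!
# Invariant cycles with two colours

Paper proof: like `inv_boundary` in `Pool/Agent/VK/Transfer.lean` (push to two variables, `content_col`).
`A.card ≠ cc d`: `inv_boundary` with `two_exact`. `A.card = cc d`: `two_cycle` for the push-forward `u` of `z`
gives `c`, `w` with `bd w = u - c zet`; then `bdL (lift w)` and `z - c • WW k d X A` have the same
push-forward and both are invariant and supported on valid lists, so they are equal (`push_inj`).
`col_iff` translates the invariance.
-/

namespace VKB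
open VK Equiv

variable {k : Type*} [Field k] [CharZero k] {α : Type*} [Fintype α] [DecidableEq α]

omit [Fintype α] in
theorem inv_two_F {d : ℕ} (X A : Finset α) :
    ∀ B ∈ X.powersetCard d, content (col A) B ∈ Finset.finsuppAntidiag ({0, 1} : Finset ℕ) d := by
  intro B hB
  have hB2 := (Finset.mem_powersetCard.1 hB).2
  have hsup : (content (col A) B).support ⊆ ({0, 1} : Finset ℕ) := by
    intro i hi
    obtain ⟨x, _, hx⟩ := Finset.mem_image.1 (content_support _ _ hi)
    rw [← hx]
    unfold col
    split_ifs <;> simp
  refine Finset.mem_finsuppAntidiag.2 ⟨?_, hsup⟩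
  rw [← hB2, ← degree_content (col A) B, Finsupp.degree_apply]
  exact (Finset.sum_subset hsup fun i _ hi => Finsupp.notMem_support_iff.1 hi).symm

theorem inv_two_deg {d : ℕ} :
    ∀ b ∈ Finset.finsuppAntidiag ({0, 1} : Finset ℕ) d, b.degree = d := by
  intro b hb
  obtain ⟨h1, h2⟩ := Finset.mem_finsuppAntidiag.1 hb
  rw [← h1, Finsupp.degree_apply]
  exact Finset.sum_subset h2 fun i _ hi => Finsupp.notMem_support_iff.1 hi

omit [Fintype α] in
theorem inv_two_supp (X A : Finset α) :
    (content (col A) X).support ⊆ ({0, 1} : Finset ℕ) := by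
  intro i hi
  obtain ⟨x, _, hx⟩ := Finset.mem_image.1 (content_support _ _ hi)
  rw [← hx]
  unfold col
  split_ifs <;> simp

/-- invariant cycles for a colouring with two colours, wrong sizes -/
theorem inv_two_ne {d : ℕ} (hd : 2 ≤ d) {X A : Finset α} (hAX : A ⊆ X) (hX : X.card = 2 * cc d)
    (hA : A.card ≠ cc d) {z : List (Finset α) → k} (hz : z ∈ ChS k d X (d - 1))
    (hbd : bdL (X.powersetCard d) z = 0) (hinv : ∀ g ∈ ST X, mv g A = A → rho k α g z = z) :
    z ∈ (ChS k d X d).map (bdL (X.powersetCard d)) := by
  have hne : content (col A) X ≠ mon2 (0 : ℕ) 1 (cc d) (cc d) := by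
    rw [content_col hAX]
    intro h
    apply hA
    have h1 := DFunLike.congr_fun h 0
    simpa [mon2] using h1
  have hex : EEx k (Finset.finsuppAntidiag ({0, 1} : Finset ℕ) d) (content (col A) X) (d - 1) :=
    two_exact hd (by decide) (inv_two_supp X A) (by rw [degree_content, hX]) hne
  obtain ⟨w, hw, hwz⟩ := inv_boundary (col A) (inv_two_F X A) inv_two_deg hex hz hbd
    (fun g hg hgc => hinv g hg (col_iff.1 hgc))
  rw [show d - 1 + 1 = d by omega] at hw
  exact ⟨w, hw, hwz⟩

/-- invariant cycles for a colouring with two colours, sizes `cc`, `cc` -/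
theorem inv_two_eq {d : ℕ} (hd : 2 ≤ d) {X A : Finset α} (hAX : A ⊆ X) (hX : X.card = 2 * cc d)
    (hA : A.card = cc d) {z : List (Finset α) → k} (hz : z ∈ ChS k d X (d - 1))
    (hbd : bdL (X.powersetCard d) z = 0) (hinv : ∀ g ∈ ST X, mv g A = A → rho k α g z = z) :
    ∃ c : k, z - c • WW k d X A ∈ (ChS k d X d).map (bdL (X.powersetCard d)) := by
  set P := X.powersetCard d with hP
  have hXA : (X \ A).card = cc d := by
    rw [Finset.card_sdiff_of_subset hAX, hX, hA]; omega
  have hXA' : cc d - (d - 1) ≤ (X \ A).card := by rw [hXA]; omega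
  have hcon : content (col A) X = mon2 (0 : ℕ) 1 (cc d) (cc d) := by
    rw [content_col hAX, hA, hXA]
  have hF := inv_two_F (d := d) X A
  have h1 : ∀ L, bd (Finset.finsuppAntidiag ({0, 1} : Finset ℕ) d) (push P (col A) z) L = 0 := by
    intro L
    rw [bd_push (col A) hF]
    have h2 : bd P z = fun _ => 0 := hbd
    rw [h2]
    exact Finset.sum_const_zero
  have hu : ECh (Finset.finsuppAntidiag ({0, 1} : Finset ℕ) d) (mon2 (0 : ℕ) 1 (cc d) (cc d))
      (d - 1) (push P (col A) z) := by
    rw [← hcon]
    exact ECh_push (col A) hF hz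
  obtain ⟨c, w, hw, hwbd⟩ := two_cycle hd (by decide) hu h1
  have hw' : ECh (Finset.finsuppAntidiag ({0, 1} : Finset ℕ) d) (content (col A) X) d w := by
    rw [hcon]; exact hw
  have hwl : lift k d X (col A) w ∈ ChS k d X d := Ch_lift hw'
  refine ⟨c, lift k d X (col A) w, hwl, ?_⟩
  have h3 : ∀ l, (bdL P (lift k d X (col A) w) - (z - c • WW k d X A)) l = 0 := by
    apply push_inj (d := d) (col A)
    · intro l hl
      by_cases h4 : z l = 0
      · by_cases h5 : WW k d X A l = 0
        · have h6 : bd P (lift k d X (col A) w) l ≠ 0 := by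
            intro h6
            apply hl
            change bd P (lift k d X (col A) w) l - (z l - c * WW k d X A l) = 0
            rw [h6, h4, h5]; simp
          obtain ⟨B, _, hB⟩ := Finset.exists_ne_zero_of_sum_ne_zero h6
          have h7 := (hwl.2 _ hB).1
          rw [valid_cons] at h7
          exact h7.2.mono Finset.sdiff_subset
        · exact (lift_ne_zero h5).1
      · exact (hz.2 l h4).1
    · intro g hg hgc
      rw [map_sub, map_sub, map_smul, hinv g hg (col_iff.1 hgc), hP, ← bdL_rho hg,
        lift_inv w hg hgc]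
      unfold WW
      rw [lift_inv _ hg hgc]
    · intro L
      have h4 : (bdL P (lift k d X (col A) w) - (z - c • WW k d X A)) =
          fun l => bdL P (lift k d X (col A) w) l - (fun l => z l - (fun l => c * WW k d X A l) l) l :=
        rfl
      rw [h4, push_sub, push_sub, push_mul]
      have h5 : push P (col A) (bdL P (lift k d X (col A) w)) L =
          bd (Finset.finsuppAntidiag ({0, 1} : Finset ℕ) d)
            (push P (col A) (lift k d X (col A) w)) L := by
        rw [bd_push (col A) hF]
        rfl
      have h6 : push P (col A) (lift k d X (col A) w) = w := by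
        funext L
        exact push_lift inv_two_deg hw' L
      rw [h5, h6, hwbd, push_WW hd hAX (Finset.Subset.refl X) hA hXA']
      ring
  funext l
  exact sub_eq_zero.1 (h3 l)

end VKB
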