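import Pool.Agent.VK.Main
import Pool.Agent.VKB.TwoB

/-!
# The cycles on `2 cc` points with `d - 1` blocks

Paper proof of `span_WW`: `rep_lemma` with `n = 3`, `Z` the cycles, and `span (W A) ⊔ B` in place of `B`.
For (hb): `T` with three elements, `altT T z ∈ B` by `anti_boundary` and `qex` as in `VK.set_exact`; needed:
`Ex k d Y q` for `q + 3 = d - 1`, `Y.card = q d + (2 d - 2)` and for `q + 2 = d - 1`,
`Y.card = q d + (2 d - 3)`; both from `set_exact` (`Bnd d (2 d - 3) = d - 2`, `Bnd d (2 d - 2) = d - 1`).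
For (ha): a colouring `c` with at most two colours on `X`; put `A = {x ∈ X : c x = γ}` for a colour `γ` of `X`;
for `g ∈ ST X` preserving `c` is the same as `mv g A = A`. Replace `z` by its average over these `g` (as in
`few_colours` of `Pool/Agent/VK/Main.lean`; the difference lies in `span (W A) ⊔ B`), then use `inv_two_ne` or
`inv_two_eq`. `WW_rho` shows that the span is stable.
-/

namespace VKB
open VK Equiv

variable {k : Type*} [Field k] [CharZero k] {α : Type*} [Fintype α] [DecidableEq α]

omit [Fintype α] [DecidableEq α] [CharZero k] in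
theorem helper4_Bnd_ge {e : ℕ} (he : 0 < e) (j : ℕ) : j ≤ Bnd (e + 1) (e + j) := by
  induction j with
  | zero => exact Nat.zero_le _
  | succ j ih =>
    rw [← add_assoc, Bnd_succ]
    have h1 : 1 ≤ (e + j) / (e + 1 - 1) := by
      rw [Nat.add_sub_cancel, Nat.one_le_div_iff he]
      omega
    omega

theorem helper4_span_rho {d : ℕ} {X : Finset α} {g : Perm α} (hg : g ∈ ST X)
    {v : List (Finset α) → k}
    (hv : v ∈ Submodule.span k {v | ∃ A, A ⊆ X ∧ A.card = cc d ∧ v = WW k d X A}) :
    rho k α g v ∈ Submodule.span k {v | ∃ A, A ⊆ X ∧ A.card = cc d ∧ v = WW k d X A} := by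
  induction hv using Submodule.span_induction with
  | mem v hv =>
    obtain ⟨A, hAX, hA, rfl⟩ := hv
    refine Submodule.subset_span ⟨mv g A, mv_subset hg hAX, ?_, WW_rho hg⟩
    rw [mv_card, hA]
  | zero => rw [map_zero]; exact Submodule.zero_mem _
  | add v w _ _ h1 h2 => rw [map_add]; exact Submodule.add_mem _ h1 h2
  | smul a v _ h1 => rw [map_smul]; exact Submodule.smul_mem _ _ h1

/-- averaging over the stabiliser of `A` -/
theorem helper4_avg {d : ℕ} (hd : 2 ≤ d) {X A : Finset α} (hAX : A ⊆ X)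
    (hX : X.card = 2 * cc d) {z : List (Finset α) → k} (hz : z ∈ ChS k d X (d - 1))
    (hbd : bdL (X.powersetCard d) z = 0)
    (hinv : ∀ g ∈ ST X, mv g A = A → rho k α g z - z ∈
      Submodule.span k {v | ∃ A, A ⊆ X ∧ A.card = cc d ∧ v = WW k d X A} ⊔
        (ChS k d X d).map (bdL (X.powersetCard d))) :
    z ∈ Submodule.span k {v | ∃ A, A ⊆ X ∧ A.card = cc d ∧ v = WW k d X A} ⊔
        (ChS k d X d).map (bdL (X.powersetCard d)) := by
  classical
  set Bd := Submodule.span k {v | ∃ A, A ⊆ X ∧ A.card = cc d ∧ v = WW k d X A} ⊔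
        (ChS k d X d).map (bdL (X.powersetCard d)) with hBd
  set G := (ST X).filter fun g => mv g A = A with hG
  have hGX : ∀ g ∈ G, g ∈ ST X := fun g hg => (Finset.mem_filter.1 hg).1
  have hGc : ∀ g ∈ G, mv g A = A := fun g hg => (Finset.mem_filter.1 hg).2
  have hG0 : (G.card : k) ≠ 0 := by
    rw [Nat.cast_ne_zero]
    refine (Finset.card_pos.2 ⟨1, ?_⟩).ne'
    rw [hG, Finset.mem_filter]
    exact ⟨one_mem_ST X, mv_one A⟩
  set zb := (G.card : k)⁻¹ • ∑ g ∈ G, rho k α g z with hzb
  have h1 : zb - z ∈ Bd := by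
    have h2 : zb - z = (G.card : k)⁻¹ • ∑ g ∈ G, (rho k α g z - z) := by
      rw [Finset.sum_sub_distrib, Finset.sum_const, smul_sub, ← Nat.cast_smul_eq_nsmul k,
        smul_smul, inv_mul_cancel₀ hG0, one_smul]
    rw [h2]
    exact Submodule.smul_mem _ _ (Submodule.sum_mem _ fun g hg => hinv g (hGX g hg) (hGc g hg))
  have hzb1 : zb ∈ ChS k d X (d - 1) :=
    Submodule.smul_mem _ _ (Submodule.sum_mem _ fun g hg => ChS_rho (hGX g hg) hz)
  have hzb2 : bdL (X.powersetCard d) zb = 0 := by
    rw [hzb, map_smul, map_sum]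
    have h3 : ∀ g ∈ G, bdL (X.powersetCard d) (rho k α g z) = 0 := by
      intro g hg
      rw [bdL_rho (hGX g hg), hbd, map_zero]
    rw [Finset.sum_congr rfl h3, Finset.sum_const_zero, smul_zero]
  have hzb3 : ∀ h ∈ ST X, mv h A = A → rho k α h zb = zb := by
    intro h hh hhc
    rw [hzb, map_smul, map_sum]
    congr 1
    refine Finset.sum_nbij' (fun g => h * g) (fun g => h⁻¹ * g) ?_ ?_ ?_ ?_ ?_
    · intro g hg
      rw [hG, Finset.mem_filter] at hg ⊢
      refine ⟨mul_mem_ST hh hg.1, ?_⟩
      rw [mv_mul, hg.2, hhc]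
    · intro g hg
      rw [hG, Finset.mem_filter] at hg ⊢
      refine ⟨mul_mem_ST (inv_mem_ST hh) hg.1, ?_⟩
      rw [mv_mul, hg.2]
      conv_lhs => rw [← hhc]
      rw [mv_inv_mv]
    · intro g _; simp
    · intro g _; simp
    · intro g _
      exact (rho_mul (rho k α) h g z).symm
  have h2 : zb ∈ Bd := by
    by_cases hA : A.card = cc d
    · obtain ⟨c, hc⟩ := inv_two_eq hd hAX hX hA hzb1 hzb2 hzb3
      have h3 : zb = c • WW k d X A + (zb - c • WW k d X A) := by abel
      rw [h3]
      refine Submodule.add_mem _ ?_ ?_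
      · exact Submodule.mem_sup_left
          (Submodule.smul_mem _ _ (Submodule.subset_span ⟨A, hAX, hA, rfl⟩))
      · exact Submodule.mem_sup_right hc
    · exact Submodule.mem_sup_right (inv_two_ne hd hAX hX hA hzb1 hzb2 hzb3)
  have h3 : z = zb - (zb - z) := by abel
  rw [h3]
  exact Submodule.sub_mem _ h2 h1

theorem span_WW {d : ℕ} (hd : 2 ≤ d) {X : Finset α} (hX : X.card = 2 * cc d)
    {z : List (Finset α) → k} (hz : z ∈ ChS k d X (d - 1)) (hbd : bdL (X.powersetCard d) z = 0) :
    z ∈ Submodule.span k {v | ∃ A, A ⊆ X ∧ A.card = cc d ∧ v = WW k d X A} ⊔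
      (ChS k d X d).map (bdL (X.powersetCard d)) := by
  classical
  set P := X.powersetCard d with hP
  set W := Submodule.span k {v | ∃ A, A ⊆ X ∧ A.card = cc d ∧ v = WW k d X A} with hW
  set Bd := (ChS k d X d).map (bdL P) with hBd
  set Z := ChS k d X (d - 1) ⊓ LinearMap.ker (bdL P) with hZ
  have hzZ : z ∈ Z := ⟨hz, hbd⟩
  have hXc : X.card = (d - 1) * d + 2 * (d - 1) := by rw [hX, two_cc]
  refine rep_lemma (rho k α) (Z := Z) (B := W ⊔ Bd) (X := X) ?_ ?_ 3 ?_ ?_ z hzZ
  · rintro g hg z ⟨h1, h2⟩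
    refine ⟨ChS_rho hg h1, ?_⟩
    rw [SetLike.mem_coe, LinearMap.mem_ker] at h2 ⊢
    rw [hP, bdL_rho hg, ← hP, h2, map_zero]
  · intro g hg z hz
    obtain ⟨v, hv, b, hb, rfl⟩ := Submodule.mem_sup.1 hz
    rw [map_add]
    refine Submodule.add_mem _ (Submodule.mem_sup_left (helper4_span_rho hg hv))
      (Submodule.mem_sup_right ?_)
    obtain ⟨w, hw, rfl⟩ := hb
    refine ⟨rho k α g w, ChS_rho hg hw, ?_⟩
    rw [hP, bdL_rho hg]
  · rintro c hc z ⟨h1, h2⟩ hinv
    rw [SetLike.mem_coe, LinearMap.mem_ker] at h2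
    have hXne : X.Nonempty := by
      rw [← Finset.card_pos, hXc]
      have : 0 < 2 * (d - 1) := by omega
      omega
    obtain ⟨x0, hx0⟩ := hXne
    set A := X.filter fun x => c x = c x0 with hA
    refine helper4_avg hd (A := A) (Finset.filter_subset _ _) hX h1 h2 ?_
    intro g hg hgA
    apply hinv g hg
    intro x
    by_cases hx : x ∈ X
    · have hgx : g x ∈ X := apply_mem_of_ST hg hx
      have hiff : c (g x) = c x0 ↔ c x = c x0 := by
        have h3 : g x ∈ mv g A ↔ x ∈ A := by rw [mem_mv]; simp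
        rw [hgA, hA, Finset.mem_filter, Finset.mem_filter] at h3
        constructor
        · intro h4; exact (h3.1 ⟨hgx, h4⟩).2
        · intro h4; exact (h3.2 ⟨hx, h4⟩).2
      by_cases h4 : c x = c x0
      · rw [h4, hiff.2 h4]
      · have h5 : c (g x) ≠ c x0 := fun h => h4 (hiff.1 h)
        by_contra h6
        have h7 : ({c x0, c x, c (g x)} : Finset ℕ) ⊆ X.image c := by
          intro y hy
          simp only [Finset.mem_insert, Finset.mem_singleton] at hy
          rcases hy with rfl | rfl | rfl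
          · exact Finset.mem_image_of_mem _ hx0
          · exact Finset.mem_image_of_mem _ hx
          · exact Finset.mem_image_of_mem _ hgx
        have h8 : ({c x0, c x, c (g x)} : Finset ℕ).card = 3 := by
          rw [Finset.card_eq_three]
          exact ⟨_, _, _, fun h => h4 h.symm, fun h => h5 h.symm, fun h => h6 h.symm, rfl⟩
        have h9 := Finset.card_le_card h7
        omega
    · rw [mem_ST.1 hg x hx]
  · rintro T hTX hT z ⟨h1, h2⟩
    rw [SetLike.mem_coe, LinearMap.mem_ker] at h2
    apply Submodule.mem_sup_right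
    obtain ⟨e, rfl⟩ : ∃ e, d = e + 1 := ⟨d - 1, by omega⟩
    have he : 0 < e := by omega
    rw [Nat.add_sub_cancel] at hXc h1
    have hTne : T.Nonempty := Finset.card_pos.1 (by omega)
    refine Submodule.mem_map.2 (anti_boundary (k := k) (d := e + 1) (p := e) hTX hTne ?_ ?_
      (z := altT (rho k α) T z) (ChS_altT hTX h1) ?_ (fun g hg => rho_altT (rho k α) hg z))
    · apply qex T X e hTX
      intro Y hY hYc q hq
      rw [hT] at hYc hq
      have h4 := helper4_Bnd_ge he e
      apply set_exact (e + 1) (e + e) q (by omega)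
      have h3 : e * (e + 1) = q * (e + 1) + 3 * (e + 1) := by rw [← hq]; ring
      omega
    · intro t ht
      have hTt : (T.erase t).card = 2 := by
        rw [Finset.card_erase_of_mem ht, hT]
      have hXt : (X.erase t).card + 1 = X.card := Finset.card_erase_add_one (hTX ht)
      apply qex (T.erase t) (X.erase t) e (Finset.erase_subset_erase t hTX)
      intro Y hY hYc q hq
      rw [hTt] at hYc hq
      have h4 := helper4_Bnd_ge he (e - 1)
      apply set_exact (e + 1) (e + (e - 1)) q (by omega)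
      have h3 : e * (e + 1) = q * (e + 1) + 2 * (e + 1) := by rw [← hq]; ring
      omega
    · rw [bdL_altT hTX, ← hP, h2]
      unfold altT
      exact Finset.sum_eq_zero fun g _ => by rw [map_zero, smul_zero]

end VKB
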