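import Pool.Agent.VKB.KeyA
import Pool.Agent.VKB.KeyB

/-!
# The key lemma

Notation as in `KeyA.lean`.
* `inv_one`: write `z = ∑ a_i W (A_i)` modulo `B` (`span_WW`), apply `∑ g ∈ ST A, rho g`: the left side is
  `(ST A).card • z` modulo `B`, the right side is a multiple of `W A` modulo `B` by `avg`.
* `keyK`: `Z = WW k d (A ∪ H) A` is a cycle on `X`, invariant under `ST A`, so `Z - c • W A ∈ B` for some `c`
  (`inv_one`). Average over the permutations in `ST X` which preserve `A`: the average of `Z` is invariant and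
  has the push-forward `zet` (`push_WW`; `rho g Z = WW k d (mv g (A ∪ H)) A` for such `g`), so it is `W A` by
  `push_inj`; hence `(1 - c) • W A ∈ B`, and `Z - W A = (Z - c • W A) - (1 - c) • W A ∈ B`.
-/

namespace VKB
open VK Equiv

variable {k : Type*} [Field k] [CharZero k] {α : Type*} [Fintype α] [DecidableEq α]

omit [CharZero k] in
/-- the boundaries are stable under the permutations of `X` -/
theorem keyK_bdry_rho {d : ℕ} {X : Finset α} {g : Perm α} (hg : g ∈ ST X) {z : List (Finset α) → k}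
    (hz : z ∈ (ChS k d X d).map (bdL (X.powersetCard d))) :
    rho k α g z ∈ (ChS k d X d).map (bdL (X.powersetCard d)) := by
  obtain ⟨w, hw, rfl⟩ := Submodule.mem_map.1 hz
  exact Submodule.mem_map.2 ⟨rho k α g w, ChS_rho hg hw, bdL_rho hg w⟩

theorem inv_one {d : ℕ} (hd : 2 ≤ d) {X A : Finset α} (hAX : A ⊆ X) (hX : X.card = 2 * cc d)
    (hA : A.card = cc d) {z : List (Finset α) → k} (hz : z ∈ ChS k d X (d - 1))
    (hbd : bdL (X.powersetCard d) z = 0) (hinv : ∀ g ∈ ST A, rho k α g z = z) :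
    ∃ c : k, z - c • WW k d X A ∈ (ChS k d X d).map (bdL (X.powersetCard d)) := by
  set B := (ChS k d X d).map (bdL (X.powersetCard d)) with hB
  set S : Submodule k (List (Finset α) → k) := Submodule.span k {WW k d X A} ⊔ B with hS
  set Φ : Module.End k (List (Finset α) → k) := ∑ g ∈ ST A, rho k α g with hΦ
  have hΦa : ∀ y, Φ y = ∑ g ∈ ST A, rho k α g y := by
    intro y
    rw [hΦ, LinearMap.sum_apply]
  have h1 := span_WW hd hX hz hbd
  have h2 : Submodule.span k {v | ∃ A, A ⊆ X ∧ A.card = cc d ∧ v = WW k d X A} ⊔ B ≤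
      S.comap Φ := by
    apply sup_le
    · rw [Submodule.span_le]
      rintro v ⟨A', hA'X, hA'c, rfl⟩
      obtain ⟨c, hc⟩ := avg (k := k) hd hAX hX hA _ A' hA'X hA'c rfl
      change Φ (WW k d X A') ∈ S
      rw [hΦa]
      have h3 : ∑ g ∈ ST A, rho k α g (WW k d X A') = c • WW k d X A +
          (∑ g ∈ ST A, rho k α g (WW k d X A') - c • WW k d X A) := by abel
      rw [h3]
      exact Submodule.add_mem _
        (Submodule.mem_sup_left (Submodule.smul_mem _ _ (Submodule.mem_span_singleton_self _)))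
        (Submodule.mem_sup_right hc)
    · intro y hy
      change Φ y ∈ S
      rw [hΦa]
      exact Submodule.mem_sup_right
        (Submodule.sum_mem _ fun g hg => keyK_bdry_rho (ST_mono hAX hg) hy)
  have h3 : Φ z ∈ S := h2 h1
  have hN : ((ST A).card : k) ≠ 0 := by
    rw [Nat.cast_ne_zero]
    exact (Finset.card_pos.2 ⟨1, one_mem_ST A⟩).ne'
  have h4 : Φ z = ((ST A).card : k) • z := by
    rw [hΦa, Finset.sum_congr rfl hinv, Finset.sum_const, Nat.cast_smul_eq_nsmul]
  have h5 : z ∈ S := by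
    have h6 : z = ((ST A).card : k)⁻¹ • Φ z := by
      rw [h4, smul_smul, inv_mul_cancel₀ hN, one_smul]
    rw [h6]
    exact Submodule.smul_mem _ _ h3
  obtain ⟨a, ha, b, hb, hab⟩ := Submodule.mem_sup.1 h5
  obtain ⟨c, rfl⟩ := Submodule.mem_span_singleton.1 ha
  refine ⟨c, ?_⟩
  rw [← hab, add_sub_cancel_left]
  exact hb

/-- **the key lemma**: the class of `WW k d (A ∪ H) A` does not depend on `H` -/
theorem keyK {d : ℕ} (hd : 2 ≤ d) {X A H : Finset α} (hAX : A ⊆ X) (hX : X.card = 2 * cc d)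
    (hA : A.card = cc d) (hH : H ⊆ X \ A) (hHc : H.card = cc d - (d - 1)) :
    WW k d (A ∪ H) A - WW k d X A ∈ (ChS k d X d).map (bdL (X.powersetCard d)) := by
  classical
  have hdis : Disjoint A H := by
    rw [Finset.disjoint_left]
    intro x hx hxH
    exact (Finset.mem_sdiff.1 (hH hxH)).2 hx
  have hHX : H ⊆ X := hH.trans Finset.sdiff_subset
  have hAHX : A ∪ H ⊆ X := Finset.union_subset hAX hHX
  have hAAH : A ⊆ A ∪ H := Finset.subset_union_left
  have hsd : (A ∪ H) \ A = H := Finset.union_sdiff_cancel_left hdis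
  have hXA : (X \ A).card = cc d := by
    have h1 := Finset.card_sdiff_add_card_eq_card hAX
    omega
  have hXA' : cc d - (d - 1) ≤ (X \ A).card := by omega
  have hc1 : cc d - (d - 1) ≤ ((A ∪ H) \ A).card := by rw [hsd, hHc]
  have hZ : WW k d (A ∪ H) A ∈ ChS k d X (d - 1) := WW_mem' hd hAAH hAHX hA hc1
  have hZb : bdL (X.powersetCard d) (WW k d (A ∪ H) A) = 0 := WW_cycle hd hAAH hAHX hA hc1
  have hfix : ∀ g ∈ ST A, mv g A = A := by
    intro g hg
    ext x
    rw [mem_mv]
    constructor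
    · intro h
      have h1 := apply_mem_of_ST hg h
      simpa using h1
    · intro h
      exact apply_mem_of_ST (inv_mem_ST hg) h
  have hfixH : ∀ g ∈ ST A, mv g (A ∪ H) = A ∪ H := by
    intro g hg
    ext x
    rw [mem_mv, Finset.mem_union, Finset.mem_union]
    by_cases hx : x ∈ A
    · have h1 := apply_mem_of_ST (inv_mem_ST hg) hx
      exact ⟨fun _ => Or.inl hx, fun _ => Or.inl h1⟩
    · rw [(mem_ST.1 (inv_mem_ST hg)) x hx]
  have hZinv : ∀ g ∈ ST A, rho k α g (WW k d (A ∪ H) A) = WW k d (A ∪ H) A := by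
    intro g hg
    rw [WW_rho' g, hfix g hg, hfixH g hg]
  obtain ⟨c, hc⟩ := inv_one hd hAX hX hA hZ hZb hZinv
  set B := (ChS k d X d).map (bdL (X.powersetCard d)) with hB
  set Z := WW k d (A ∪ H) A with hZdef
  set W := WW k d X A with hWdef
  -- the group
  set G := (ST X).filter fun g => mv g A = A with hG
  have hGX : ∀ g ∈ G, g ∈ ST X := fun g hg => (Finset.mem_filter.1 hg).1
  have hGA : ∀ g ∈ G, mv g A = A := fun g hg => (Finset.mem_filter.1 hg).2
  have hG0 : (G.card : k) ≠ 0 := by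
    rw [Nat.cast_ne_zero]
    refine (Finset.card_pos.2 ⟨1, ?_⟩).ne'
    rw [hG, Finset.mem_filter]
    exact ⟨one_mem_ST X, mv_one A⟩
  have hWm : W ∈ ChS k d X (d - 1) := WW_mem hd hAX hA hXA'
  have hWG : ∀ g ∈ G, rho k α g W = W := by
    intro g hg
    rw [hWdef, WW_rho (hGX g hg), hGA g hg]
  set Zb := (G.card : k)⁻¹ • ∑ g ∈ G, rho k α g Z with hZbdef
  have hZbm : Zb ∈ ChS k d X (d - 1) :=
    Submodule.smul_mem _ _ (Submodule.sum_mem _ fun g hg => ChS_rho (hGX g hg) hZ)
  have hZbG : ∀ h ∈ ST X, mv h A = A → rho k α h Zb = Zb := by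
    intro h hh hhA
    rw [hZbdef, map_smul, map_sum]
    congr 1
    refine Finset.sum_nbij' (fun g => h * g) (fun g => h⁻¹ * g) ?_ ?_ ?_ ?_ ?_
    · intro g hg
      rw [hG, Finset.mem_filter] at hg ⊢
      refine ⟨mul_mem_ST hh hg.1, ?_⟩
      rw [mv_mul, hg.2, hhA]
    · intro g hg
      rw [hG, Finset.mem_filter] at hg ⊢
      refine ⟨mul_mem_ST (inv_mem_ST hh) hg.1, ?_⟩
      rw [mv_mul, hg.2]
      conv_lhs => rw [← hhA]
      exact mv_inv_mv h A
    · intro g _; simp
    · intro g _; simp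
    · intro g _
      exact (rho_mul (rho k α) h g Z).symm
  -- the push-forwards
  have hpW : push (X.powersetCard d) (col A) W = zet k d (0 : ℕ) 1 :=
    push_WW hd hAX (Finset.Subset.refl X) hA hXA'
  have hpg : ∀ g ∈ G, push (X.powersetCard d) (col A) (rho k α g Z) = zet k d (0 : ℕ) 1 := by
    intro g hg
    have h1 : A ⊆ mv g (A ∪ H) := by
      intro x hx
      rw [mem_mv, Finset.mem_union]
      left
      rw [← mem_mv, hGA g hg]
      exact hx
    have h2 : mv g (A ∪ H) ⊆ X := mv_subset (hGX g hg) hAHX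
    have h3 : cc d - (d - 1) ≤ (mv g (A ∪ H) \ A).card := by
      have h4 := Finset.card_sdiff_add_card_eq_card h1
      have h5 := Finset.card_sdiff_add_card_eq_card hAAH
      rw [mv_card] at h4
      omega
    rw [hZdef, WW_rho' g, hGA g hg]
    exact push_WW hd h1 h2 hA h3
  have hpush : ∀ L, push (X.powersetCard d) (col A) (Zb - W) L = 0 := by
    intro L
    have h1 : push (X.powersetCard d) (col A) (Zb - W) L =
        push (X.powersetCard d) (col A) Zb L - push (X.powersetCard d) (col A) W L :=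
      push_sub _ _ Zb W L
    have h2 : push (X.powersetCard d) (col A) Zb L =
        (G.card : k)⁻¹ * ∑ g ∈ G, push (X.powersetCard d) (col A) (rho k α g Z) L := by
      unfold push
      rw [Finset.sum_comm, Finset.mul_sum]
      refine Finset.sum_congr rfl fun l _ => ?_
      rw [hZbdef, Pi.smul_apply, Finset.sum_apply, smul_eq_mul]
    have h3 : ∑ g ∈ G, push (X.powersetCard d) (col A) (rho k α g Z) L =
        (G.card : k) * zet k d (0 : ℕ) 1 L := by
      rw [← nsmul_eq_mul, ← Finset.sum_const]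
      exact Finset.sum_congr rfl fun g hg => congrFun (hpg g hg) L
    rw [h1, h2, h3, congrFun hpW L, ← mul_assoc, inv_mul_cancel₀ hG0, one_mul, sub_self]
  have hval : ∀ l, (Zb - W) l ≠ 0 → Valid d X l := by
    intro l hl
    have h1 : Zb - W ∈ ChS k d X (d - 1) := Submodule.sub_mem _ hZbm hWm
    exact ((mem_ChS.1 h1).2 l hl).1
  have hinvs : ∀ g ∈ ST X, (∀ x, col A (g x) = col A x) →
      rho k α g (Zb - W) = Zb - W := by
    intro g hg hgc
    have h1 : mv g A = A := col_iff.1 hgc
    rw [map_sub, hZbG g hg h1, hWG g (by rw [hG, Finset.mem_filter]; exact ⟨hg, h1⟩)]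
  have hZbW : Zb = W := by
    funext l
    have h1 := push_inj (col A) hval hinvs hpush l
    rw [Pi.sub_apply, sub_eq_zero] at h1
    exact h1
  -- the average of `Z - c • W`
  have h1 : (G.card : k)⁻¹ • ∑ g ∈ G, rho k α g (Z - c • W) = (1 - c) • W := by
    have h2 : ∀ g ∈ G, rho k α g (Z - c • W) = rho k α g Z - c • W := by
      intro g hg
      rw [map_sub, map_smul, hWG g hg]
    rw [Finset.sum_congr rfl h2, Finset.sum_sub_distrib, smul_sub, ← hZbdef, hZbW,
      Finset.sum_const, ← Nat.cast_smul_eq_nsmul k, smul_smul, inv_mul_cancel₀ hG0, one_smul,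
      sub_smul, one_smul]
  have h2 : (1 - c) • W ∈ B := by
    rw [← h1]
    exact Submodule.smul_mem _ _ (Submodule.sum_mem _ fun g hg => keyK_bdry_rho (hGX g hg) hc)
  have h3 : Z - W = (Z - c • W) - (1 - c) • W := by
    rw [sub_smul, one_smul]; abel
  rw [h3]
  exact Submodule.sub_mem _ hc h2

end VKB
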