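import Pool.Agent.VK.Expo

/-!
# The basic alternating functions

`wd m z = e_m ∧ z`, `kap M` is the alternating function supported on the permutations of the list `M`
with value `1` at `M`.

Paper proofs.
* `Alt.perm_eq`: two alternating functions which agree at `l` agree at every permutation of `l`
  (induction on `List.Perm`; the `cons` step uses `Alt.cons`, the `swap` step `Alt.head`).
* `kap`: induction on `M` with `ins_ne_zero` (support), `ins_cons`, `ins_zero` (value at `M`; `m ∉ M`).
* `alt_front`: move `m` to the front, `Alt.middle`.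
-/

namespace VKB
open VK

variable {k : Type*} [Field k] {β : Type*}

open Classical in
/-- `e_m ∧ z` -/
noncomputable def wd (m : β) (z : List β → k) : List β → k :=
  ins fun c l => if c = m then z l else 0

/-- `e_{m_1} ∧ … ∧ e_{m_r} ∧ z` -/
noncomputable def wds (cs : List β) (z : List β → k) : List β → k := cs.foldr wd z

theorem wds_nil (z : List β → k) : wds [] z = z := rfl

theorem wds_cons (c : β) (cs : List β) (z : List β → k) : wds (c :: cs) z = wd c (wds cs z) := rfl

open Classical in
theorem wd_eq (m : β) (z : List β → k) (l : List β) :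
    wd m z l = ins (fun c l => if c = m then z l else 0) l := rfl

theorem wd_nil (m : β) (z : List β → k) : wd m z [] = 0 := ins_nil _

open Classical in
theorem wd_cons (m : β) (z : List β → k) (x : β) (l : List β) :
    wd m z (x :: l) = (if x = m then z l else 0) - wd m (fun l' => z (x :: l')) l := by
  rw [wd_eq, ins_cons, wd_eq]

theorem wd_zero (m : β) : wd m (fun _ => (0 : k)) = fun _ => 0 := by
  classical
  funext l
  rw [wd_eq]
  simp only [ite_self]
  exact ins_zero l

theorem wd_alt {m : β} {z : List β → k} (hz : Alt z) : Alt (wd m z) := by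
  classical
  unfold wd
  apply Alt.ins
  intro c
  by_cases hc : c = m
  · simp only [if_pos hc]; exact hz
  · simp only [if_neg hc]; exact Alt.zero

theorem wds_alt {z : List β → k} (hz : Alt z) (cs : List β) : Alt (wds cs z) := by
  induction cs with
  | nil => exact hz
  | cons c cs ih =>
    rw [wds_cons]
    exact wd_alt ih

theorem wd_ne_zero {m : β} {z : List β → k} {l : List β} (h : wd m z l ≠ 0) :
    ∃ l₁ l₂, l = l₁ ++ m :: l₂ ∧ z (l₁ ++ l₂) ≠ 0 := by
  classical
  unfold wd at h
  obtain ⟨l₁, c, l₂, h1, h2⟩ := ins_ne_zero h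
  by_cases hc : c = m
  · rw [if_pos hc] at h2
    exact ⟨l₁, l₂, by rw [h1, hc], h2⟩
  · rw [if_neg hc] at h2
    exact absurd rfl h2

/-- the support of `e_{c_1} ∧ … ∧ e_{c_r} ∧ z` -/
theorem wds_ne_zero {cs : List β} {z : List β → k} {l : List β} (h : wds cs z l ≠ 0) :
    ∃ l', z l' ≠ 0 ∧ l.Perm (cs ++ l') := by
  induction cs generalizing l with
  | nil => exact ⟨l, h, List.Perm.refl _⟩
  | cons c cs ih =>
    rw [wds_cons] at h
    obtain ⟨l₁, l₂, rfl, h2⟩ := wd_ne_zero h
    obtain ⟨l', h3, h4⟩ := ih h2
    refine ⟨l', h3, ?_⟩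
    rw [List.cons_append]
    exact List.perm_middle.trans (h4.cons c)

theorem wd_add (m : β) (z z' : List β → k) : wd m (z + z') = wd m z + wd m z' := by
  classical
  funext l
  rw [Pi.add_apply, wd_eq, wd_eq, wd_eq, ← ins_add]
  congr 1
  funext c l
  by_cases hc : c = m
  · simp only [if_pos hc, Pi.add_apply]
  · simp only [if_neg hc, add_zero]

theorem wd_smul (m : β) (a : k) (z : List β → k) : wd m (a • z) = a • wd m z := by
  classical
  funext l
  rw [Pi.smul_apply, smul_eq_mul, wd_eq, wd_eq, ← ins_mul]
  congr 1
  funext c l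
  by_cases hc : c = m
  · simp only [if_pos hc, Pi.smul_apply, smul_eq_mul]
  · simp only [if_neg hc, mul_zero]

theorem wd_sum {ι : Type*} (m : β) (s : Finset ι) (z : ι → List β → k) :
    wd m (∑ i ∈ s, z i) = ∑ i ∈ s, wd m (z i) := by
  classical
  induction s using Finset.induction with
  | empty =>
    rw [Finset.sum_empty, Finset.sum_empty]
    exact wd_zero m
  | insert a s ha ih => rw [Finset.sum_insert ha, Finset.sum_insert ha, wd_add, ih]

theorem wds_add (cs : List β) (z z' : List β → k) : wds cs (z + z') = wds cs z + wds cs z' := by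
  induction cs with
  | nil => rfl
  | cons c cs ih => rw [wds_cons, wds_cons, wds_cons, ih, wd_add]

theorem wds_smul (cs : List β) (a : k) (z : List β → k) : wds cs (a • z) = a • wds cs z := by
  induction cs with
  | nil => rfl
  | cons c cs ih => rw [wds_cons, wds_cons, ih, wd_smul]

theorem wds_sub (cs : List β) (z z' : List β → k) : wds cs (z - z') = wds cs z - wds cs z' := by
  have h1 : z - z' = z + (-1 : k) • z' := by
    rw [neg_one_smul, sub_eq_add_neg]
  rw [h1, wds_add, wds_smul, neg_one_smul, ← sub_eq_add_neg]

/-- exchanging two neighbouring factors changes the sign -/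
theorem wd_wd_swap {z : List β → k} (hz : Alt z) (a b : β) : wd a (wd b z) = - wd b (wd a z) := by
  classical
  have key : ∀ (l : List β) (z : List β → k), wd a (wd b z) l = - wd b (wd a z) l := by
    intro l
    induction l with
    | nil => intro z; rw [wd_nil, wd_nil, neg_zero]
    | cons x l ih =>
      intro z
      have h1 : ∀ (m n : β), wd m (fun l' => wd n z (x :: l')) l
          = (if x = n then wd m z l else 0) - wd m (wd n (fun l' => z (x :: l'))) l := by
        intro m n
        have h2 : (fun l' => wd n z (x :: l')) =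
            (if x = n then z else (fun _ => 0)) + (-1 : k) • wd n (fun l' => z (x :: l')) := by
          funext l'
          rw [wd_cons, Pi.add_apply, Pi.smul_apply, smul_eq_mul]
          by_cases h : x = n
          · rw [if_pos h, if_pos h]; ring
          · rw [if_neg h, if_neg h]; ring
        rw [h2, wd_add, wd_smul, Pi.add_apply, Pi.smul_apply, smul_eq_mul]
        by_cases h : x = n
        · rw [if_pos h, if_pos h]; ring
        · rw [if_neg h, if_neg h, wd_zero]; ring
      rw [wd_cons, wd_cons, h1, h1, ih]
      ring
  funext l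
  rw [Pi.neg_apply]
  exact key l z

theorem bd_wd {F : Finset β} {m : β} (hm : m ∈ F) (z : List β → k) (l : List β) :
    bd F (wd m z) l = z l - wd m (bd F z) l := by
  classical
  unfold wd
  rw [bd_ins]
  congr 1
  · rw [Finset.sum_eq_single m]
    · rw [if_pos rfl]
    · intro b _ hb
      rw [if_neg hb]
    · intro h
      exact absurd hm h
  · congr 1
    funext c l
    by_cases hc : c = m
    · simp only [if_pos hc]
    · simp only [if_neg hc]; exact bd_zero F l

/-- the boundary of `e_{c_1} ∧ … ∧ e_{c_r} ∧ z` -/
theorem bd_wds {F : Finset β} : ∀ (cs : List β) (_ : ∀ c ∈ cs, c ∈ F) (z : List β → k),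
    bd F (wds cs z) = (∑ i ∈ Finset.range cs.length, (-1 : k) ^ i • wds (cs.eraseIdx i) z) +
      (-1 : k) ^ cs.length • wds cs (bd F z) := by
  intro cs
  induction cs with
  | nil =>
    intro _ z
    simp [wds_nil]
  | cons c cs ih =>
    intro hc z
    have h1 := ih (fun x hx => hc x (List.mem_cons_of_mem _ hx)) z
    have h2 : bd F (wds (c :: cs) z) = wds cs z - wd c (bd F (wds cs z)) := by
      funext l
      rw [wds_cons, bd_wd (hc c List.mem_cons_self), Pi.sub_apply]
    rw [h2, h1, wd_add, wd_sum, wd_smul, List.length_cons, Finset.sum_range_succ', List.eraseIdx_zero,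
      List.tail_cons, pow_zero, one_smul]
    have h3 : ∑ i ∈ Finset.range cs.length, wd c ((-1 : k) ^ i • wds (cs.eraseIdx i) z)
        = - ∑ i ∈ Finset.range cs.length, (-1 : k) ^ (i + 1) • wds ((c :: cs).eraseIdx (i + 1)) z := by
      rw [← Finset.sum_neg_distrib]
      refine Finset.sum_congr rfl (fun i _ => ?_)
      rw [wd_smul, List.eraseIdx_cons_succ, wds_cons, pow_succ, mul_neg_one, neg_smul, neg_neg]
    rw [h3, wds_cons, pow_succ, mul_neg_one, neg_smul]
    abel

/-- two alternating functions which agree at `l` agree at all permutations of `l` -/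
theorem _root_.VK.Alt.perm_eq {z z' : List β → k} (hz : Alt z) (hz' : Alt z') {l l' : List β}
    (hl : l.Perm l') (h : z l = z' l) : z l' = z' l' := by
  induction hl generalizing z z' with
  | nil => exact h
  | cons x _ ih => exact ih (hz.cons x) (hz'.cons x) h
  | swap x y l =>
    rw [hz.head, hz'.head, h]
  | trans _ _ ih1 ih2 => exact ih2 hz hz' (ih1 hz hz' h)

/-- an alternating function is nonzero at `l` iff it is nonzero at a permutation of `l` -/
theorem _root_.VK.Alt.perm_ne {z : List β → k} (hz : Alt z) {l l' : List β} (hl : l.Perm l') :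
    z l ≠ 0 ↔ z l' ≠ 0 := by
  refine not_congr ⟨fun h => ?_, fun h => ?_⟩
  · exact hz.perm_eq (z' := fun _ => 0) Alt.zero hl h
  · exact hz.perm_eq (z' := fun _ => 0) Alt.zero hl.symm h

open Classical in
/-- the alternating function supported on the permutations of `M`, with value `1` at `M` -/
noncomputable def kap (k : Type*) [Field k] {β : Type*} (M : List β) : List β → k :=
  wds M (fun l => if l = [] then 1 else 0)

theorem kap_alt (M : List β) : Alt (kap k M) := by
  classical
  unfold kap
  apply wds_alt
  intro l₁ a b l₂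
  simp

theorem kap_cons (m : β) (M : List β) : kap k (m :: M) = wd m (kap k M) := rfl

private theorem kap_ne_zero_aux {M l : List β} (h : kap k M l ≠ 0) : l.Perm M := by
  classical
  unfold kap at h
  obtain ⟨l', h1, h2⟩ := wds_ne_zero h
  have h3 : l' = [] := by
    by_contra hl
    rw [if_neg hl] at h1
    exact h1 rfl
  rw [h3, List.append_nil] at h2
  exact h2

theorem kap_self {M : List β} (hM : M.Nodup) : kap k M M = 1 := by
  classical
  induction M with
  | nil =>
    unfold kap
    rw [wds_nil, if_pos rfl]
  | cons m M ih =>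
    rw [List.nodup_cons] at hM
    rw [kap_cons, wd_cons, if_pos rfl, ih hM.2]
    have h1 : (fun l' => kap k M (m :: l')) = fun _ => (0 : k) := by
      funext l'
      by_contra h
      exact hM.1 ((kap_ne_zero_aux h).mem_iff.1 List.mem_cons_self)
    rw [h1, wd_zero, sub_zero]

theorem kap_ne_zero {M l : List β} (h : kap k M l ≠ 0) : l.Perm M := kap_ne_zero_aux h

theorem kap_perm_ne {M l : List β} (hM : M.Nodup) (h : l.Perm M) : kap k M l ≠ 0 := by
  rw [(kap_alt M).perm_ne h, kap_self hM]
  exact one_ne_zero

end VKB
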