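import Pool.Agent.VK.Anti
import Pool.Agent.VKB.Kap

/-!
# Cycles covering `T`, generators

`qgen` is the version of `VK.qex` (file `Pool/Agent/VK/SetModel.lean`) where the cycles on the small sets are
only boundaries up to the span of given chains `S Y`: then the cycles covering `T` are boundaries up
to the span of the `e_{t_1 ∪ u_1} ∧ … ∧ e_{t_r ∪ u_r} ∧ y` with `y ∈ S (X \ T \ (u_1 ∪ … ∪ u_r))`.

Paper proof: copy the induction of `VK.qex` over the list `ts` (peel off its first element `t`). For the
blocks `c ∋ t` disjoint from the rest write `z (c :: ·) = bd w_c + s_c` by the induction hypothesis for `X \ c`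
(`c = insert t u`, `X \ c \ ts = X \ (t :: ts) \ u`), and put `w = - ins w_c`, `s = ins s_c = ∑_c wd c s_c`, which
is in the span because `wd c (wds (zipWith insert ts us) y) = wds (zipWith insert (t :: ts) (u :: us)) y`.
-/

namespace VKB
open VK Equiv

variable {k : Type*} [Field k] [CharZero k] {α : Type*} [Fintype α] [DecidableEq α]

/-- the union of a list of finite sets -/
def un (us : List (Finset α)) : Finset α := us.foldr (· ∪ ·) ∅

/-- the chains generated by `S` over the points `ts` -/
def Gen (k : Type*) [Field k] {α : Type*} [DecidableEq α] (d : ℕ)
    (S : Finset α → Set (List (Finset α) → k)) (ts : List α) (X : Finset α) :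
    Submodule k (List (Finset α) → k) :=
  Submodule.span k {v | ∃ us : List (Finset α), us.length = ts.length ∧
    Valid (d - 1) (X \ ts.toFinset) us ∧ ∃ y ∈ S ((X \ ts.toFinset) \ un us),
      v = wds (List.zipWith insert ts us) y}

/-- `wd c` as a linear map -/
noncomputable def wdLin (c : Finset α) :
    (List (Finset α) → k) →ₗ[k] (List (Finset α) → k) where
  toFun := wd c
  map_add' := wd_add c
  map_smul' := fun a z => wd_smul c a z

theorem qgen_sdiff (X T : Finset α) {t : α} {c : Finset α} (ht : t ∈ c) :
    (X \ insert t T) \ c.erase t = (X \ c) \ T := by
  ext x
  simp only [Finset.mem_sdiff, Finset.mem_insert, Finset.mem_erase]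
  by_cases hx : x = t
  · subst hx
    simp [ht]
  · tauto

theorem qgen_step {d : ℕ} {S : Finset α → Set (List (Finset α) → k)} {t : α} {ts : List α}
    {X c : Finset α} (hcX : c ⊆ X) (hcd : c.card = d) (htc : t ∈ c)
    (hcT : Disjoint c ts.toFinset) {v : List (Finset α) → k}
    (hv : v ∈ Gen k d S ts (X \ c)) : wd c v ∈ Gen k d S (t :: ts) X := by
  have h : Gen k d S ts (X \ c) ≤ (Gen k d S (t :: ts) X).comap (wdLin c) := by
    unfold Gen
    rw [Submodule.span_le]
    rintro v ⟨us, hlen, hval, y, hy, rfl⟩
    apply Submodule.subset_span
    have h1 := qgen_sdiff X ts.toFinset htc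
    refine ⟨c.erase t :: us, by simp [hlen], ?_, y, ?_, ?_⟩
    · rw [List.toFinset_cons, valid_cons, h1]
      refine ⟨⟨?_, ?_⟩, hval⟩
      · intro x hx
        rw [Finset.mem_erase] at hx
        rw [Finset.mem_sdiff, Finset.mem_insert]
        refine ⟨hcX hx.2, ?_⟩
        rintro (h2 | h2)
        · exact hx.1 h2
        · exact (Finset.disjoint_left.1 hcT) hx.2 h2
      · rw [Finset.card_erase_of_mem htc, hcd]
    · have h2 : (X \ (t :: ts).toFinset) \ un (c.erase t :: us) =
          ((X \ c) \ ts.toFinset) \ un us := by
        rw [List.toFinset_cons, ← h1]
        ext x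
        simp only [un, List.foldr_cons, Finset.mem_sdiff, Finset.mem_union, not_or]
        tauto
      rw [h2]
      exact hy
    · rw [List.zipWith_cons_cons, Finset.insert_erase htc, wds_cons]
      rfl
  exact h hv

theorem qgen {d : ℕ} (hd : 0 < d) (S : Finset α → Set (List (Finset α) → k)) :
    ∀ (ts : List α) (X : Finset α) (p : ℕ), ts.Nodup → (∀ t ∈ ts, t ∈ X) →
    (∀ Y, Y ⊆ X → Y.card + ts.length * d = X.card → ∀ q, q + ts.length = p →
      ∀ z ∈ ChS k d Y q, bdL (Y.powersetCard d) z = 0 →
        z ∈ Submodule.span k (S Y) ⊔ (ChS k d Y (q + 1)).map (bdL (Y.powersetCard d))) →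
    ∀ z, QCh d X ts.toFinset p z →
      (∀ l, bd ((X \ ts.toFinset).powersetCard d) z l = 0) →
      ∃ w s : List (Finset α) → k, QCh d X ts.toFinset (p + 1) w ∧ s ∈ Gen k d S ts X ∧
        ∀ l, bd ((X \ ts.toFinset).powersetCard d) w l = z l - s l := by
  intro ts
  induction ts with
  | nil =>
    intro X p _ _ h z hz hbd
    have hX : X \ ([] : List α).toFinset = X := by simp
    rw [hX] at hbd ⊢
    have h1 := h X (Finset.Subset.refl X) (by simp) p (by simp) z hz.1
      (by funext l; exact hbd l)
    obtain ⟨s, hs, b, hb, hsb⟩ := Submodule.mem_sup.1 h1
    obtain ⟨w, hw, hwb⟩ := hb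
    refine ⟨w, s, ⟨hw, fun l _ => ⟨fun t ht => ?_, fun B _ => ?_⟩⟩, ?_, ?_⟩
    · simp at ht
    · simp
    · have h2 : S X ⊆ {v | ∃ us : List (Finset α), us.length = ([] : List α).length ∧
          Valid (d - 1) (X \ ([] : List α).toFinset) us ∧
          ∃ y ∈ S ((X \ ([] : List α).toFinset) \ un us),
          v = wds (List.zipWith insert ([] : List α) us) y} := by
        intro v hv
        refine ⟨[], rfl, valid_nil _ _, v, ?_, ?_⟩
        · have h3 : (X \ ([] : List α).toFinset) \ un ([] : List (Finset α)) = X := by
            simp [un]
          rw [h3]
          exact hv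
        · rfl
      exact Submodule.span_mono h2 hs
    · intro l
      have h2 : bd (X.powersetCard d) w l = b l := by
        rw [← hwb]
        rfl
      rw [h2, ← hsb]
      simp
  | cons t ts ih =>
    intro X p hnd htX h z hz hbd
    obtain ⟨⟨hzA, hzs⟩, hzc⟩ := hz
    rw [List.nodup_cons] at hnd
    have ht : t ∉ ts.toFinset := by simpa using hnd.1
    rw [List.toFinset_cons] at hbd hzc ⊢
    set T := ts.toFinset with hT
    have htX' : t ∈ X := htX t (by simp)
    have hT'X : T ⊆ X := by
      intro x hx
      rw [hT, List.mem_toFinset] at hx
      exact htX x (by simp [hx])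
    cases p with
    | zero =>
      refine ⟨fun _ => 0, 0, ⟨⟨Alt.zero, fun l hl => absurd rfl hl⟩, fun l hl => absurd rfl hl⟩,
        Submodule.zero_mem _, ?_⟩
      intro l
      rw [bd_zero]
      have hz0 : z l = 0 := by
        by_contra h0
        have h1 := (hzs l h0).2
        have h2 := (hzc l h0).1 t (Finset.mem_insert_self t T)
        rw [List.length_eq_zero_iff.1 h1] at h2
        obtain ⟨B, hB, _⟩ := h2
        exact absurd hB List.not_mem_nil
      rw [hz0]
      simp
    | succ p =>
      -- good blocks
      let good : Finset α → Prop := fun c => c ⊆ X ∧ c.card = d ∧ t ∈ c ∧ Disjoint c T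
      have key : ∀ c, good c → ∃ w s : List (Finset α) → k, QCh d (X \ c) T (p + 1) w ∧
          s ∈ Gen k d S ts (X \ c) ∧
          ∀ l, bd (((X \ c) \ T).powersetCard d) w l = z (c :: l) - s l := by
        intro c hc
        obtain ⟨hcX, hcd, htc, hcT⟩ := hc
        have hTXc : ∀ x ∈ ts, x ∈ X \ c := by
          intro x hx
          rw [Finset.mem_sdiff]
          have hxT : x ∈ T := by rw [hT, List.mem_toFinset]; exact hx
          exact ⟨hT'X hxT, fun hxc => (Finset.disjoint_left.1 hcT) hxc hxT⟩
        have hcard : (X \ c).card + d = X.card := by
          rw [← hcd]
          exact Finset.card_sdiff_add_card_eq_card hcX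
        apply ih (X \ c) p hnd.2 hTXc
        · intro Y hY hYc q hq
          apply h Y (hY.trans Finset.sdiff_subset)
          · rw [List.length_cons, add_mul, one_mul]; omega
          · rw [List.length_cons]; omega
        · refine ⟨⟨hzA.cons c, ?_⟩, ?_⟩
          · intro l hl
            have h2 := hzs _ hl
            refine ⟨(valid_cons.1 h2.1).2, ?_⟩
            have h3 := h2.2
            rw [List.length_cons] at h3
            omega
          · intro l hl
            have h2 := hzc _ hl
            constructor
            · intro s hs
              obtain ⟨B, hB, hsB⟩ := h2.1 s (Finset.mem_insert_of_mem hs)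
              rcases List.mem_cons.1 hB with h3 | h3
              · rw [h3] at hsB
                exact absurd hs ((Finset.disjoint_left.1 hcT) hsB)
              · exact ⟨B, h3, hsB⟩
            · intro B hB
              refine le_trans (Finset.card_le_card ?_) (h2.2 B (List.mem_cons_of_mem _ hB))
              exact Finset.inter_subset_inter_left (Finset.subset_insert t T)
        · intro l
          have h2 : bd (((X \ c) \ T).powersetCard d) (fun l => z (c :: l)) l =
              bd ((X \ insert t T).powersetCard d) (fun l => z (c :: l)) l := by
            apply bd_subset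
            · intro B hB
              rw [Finset.mem_powersetCard] at hB ⊢
              refine ⟨fun x hx => ?_, hB.2⟩
              have h3 := hB.1 hx
              rw [Finset.mem_sdiff, Finset.mem_sdiff] at h3
              rw [Finset.mem_sdiff, Finset.mem_insert]
              refine ⟨h3.1.1, ?_⟩
              rintro (h4 | h4)
              · rw [h4] at h3; exact h3.1.2 htc
              · exact h3.2 h4
            · intro B hB hB'
              by_contra h3
              have h4 := (hzs _ h3).1
              rw [valid_cons, valid_cons] at h4
              apply hB'
              rw [Finset.mem_powersetCard] at hB ⊢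
              refine ⟨fun x hx => ?_, hB.2⟩
              rw [Finset.mem_sdiff]
              refine ⟨h4.2.1.1 hx, ?_⟩
              have h5 := hB.1 hx
              rw [Finset.mem_sdiff, Finset.mem_insert] at h5
              tauto
          have h3 : bd ((X \ insert t T).powersetCard d) (fun l => z (c :: l)) l =
              - bd ((X \ insert t T).powersetCard d) z (c :: l) := by
            unfold bd
            rw [← Finset.sum_neg_distrib]
            exact Finset.sum_congr rfl fun B _ => hzA.head c B l
          refine h2.trans (h3.trans ?_)
          rw [hbd, neg_zero]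
      choose! W Sc hW hSc hW' using key
      classical
      let w : Finset α → List (Finset α) → k := fun c l => if good c then W c l else 0
      let s : Finset α → List (Finset α) → k := fun c l => if good c then Sc c l else 0
      have hwA : ∀ c, Alt (w c) := by
        intro c
        by_cases hc : good c
        · have h1 : w c = W c := by
            funext l
            exact if_pos hc
          rw [h1]
          exact (hW c hc).1.1
        · have h1 : w c = fun _ => 0 := by
            funext l
            exact if_neg hc
          rw [h1]
          exact Alt.zero
      refine ⟨fun l => - ins w l, ins s, ⟨⟨(Alt.ins hwA).neg, ?_⟩, ?_⟩, ?_, ?_⟩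
      · intro l hl
        rw [neg_ne_zero] at hl
        obtain ⟨l₁, c, l₂, rfl, hc⟩ := ins_ne_zero hl
        have hgc : good c := by
          by_contra h1
          exact hc (if_neg h1)
        have hc' : W c (l₁ ++ l₂) ≠ 0 := by
          have h1 : w c (l₁ ++ l₂) = W c (l₁ ++ l₂) := if_pos hgc
          rwa [h1] at hc
        have h1 := (hW c hgc).1.2 _ hc'
        constructor
        · refine Valid.perm ?_ (List.perm_middle (l₁ := l₁) (a := c) (l₂ := l₂)).symm
          rw [valid_cons]
          exact ⟨⟨hgc.1, hgc.2.1⟩, h1.1⟩
        · have h2 := h1.2
          rw [List.length_append] at h2 ⊢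
          rw [List.length_cons]
          omega
      · intro l hl
        rw [neg_ne_zero] at hl
        obtain ⟨l₁, c, l₂, rfl, hc⟩ := ins_ne_zero hl
        have hgc : good c := by
          by_contra h1
          exact hc (if_neg h1)
        have hc' : W c (l₁ ++ l₂) ≠ 0 := by
          have h1 : w c (l₁ ++ l₂) = W c (l₁ ++ l₂) := if_pos hgc
          rwa [h1] at hc
        have h1 := (hW c hgc).2 _ hc'
        have h1v := ((hW c hgc).1.2 _ hc').1
        refine Cov.perm ?_ (List.perm_middle (l₁ := l₁) (a := c) (l₂ := l₂)).symm
        constructor
        · intro s hs
          rcases Finset.mem_insert.1 hs with h2 | h2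
          · exact ⟨c, List.mem_cons_self, h2 ▸ hgc.2.2.1⟩
          · obtain ⟨B, hB, hsB⟩ := h1.1 s h2
            exact ⟨B, List.mem_cons_of_mem _ hB, hsB⟩
        · intro B hB
          rcases List.mem_cons.1 hB with h2 | h2
          · rw [h2, Finset.card_le_one]
            have h3 : ∀ x ∈ c ∩ insert t T, x = t := by
              intro x hx
              rw [Finset.mem_inter, Finset.mem_insert] at hx
              rcases hx.2 with h4 | h4
              · exact h4
              · exact absurd h4 ((Finset.disjoint_left.1 hgc.2.2.2) hx.1)
            intro x hx y hy
            rw [h3 x hx, h3 y hy]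
          · have h3 : B ∩ insert t T = B ∩ T := by
              apply Finset.inter_insert_of_notMem
              intro htB
              have h4 := (h1v.1 B h2).1 htB
              rw [Finset.mem_sdiff] at h4
              exact h4.2 hgc.2.2.1
            rw [h3]
            exact h1.2 B h2
      · -- `ins s` is in the span
        have h1 : ins s = ∑ c ∈ (X.powersetCard d).filter good, wd c (Sc c) := by
          funext l
          rw [Finset.sum_apply]
          unfold wd
          rw [← ins_sum]
          congr 1
          funext c' l'
          by_cases hc : good c'
          · rw [Finset.sum_eq_single c']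
            · rw [if_pos rfl]
              exact if_pos hc
            · intro b _ hb
              exact if_neg hb.symm
            · intro hn
              exact absurd (Finset.mem_filter.2
                ⟨Finset.mem_powersetCard.2 ⟨hc.1, hc.2.1⟩, hc⟩) hn
          · have h2 : s c' l' = 0 := if_neg hc
            rw [h2]
            symm
            apply Finset.sum_eq_zero
            intro b hb
            apply if_neg
            intro hbc
            rw [hbc] at hc
            exact hc (Finset.mem_filter.1 hb).2
        rw [h1]
        apply Submodule.sum_mem
        intro c hc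
        have hg := (Finset.mem_filter.1 hc).2
        exact qgen_step hg.1 hg.2.1 hg.2.2.1 hg.2.2.2 (hSc c hg)
      · intro l
        rw [bd_neg, bd_ins]
        have h1 : ∑ B ∈ (X \ insert t T).powersetCard d, w B l = 0 := by
          apply Finset.sum_eq_zero
          intro B hB
          rw [Finset.mem_powersetCard] at hB
          refine if_neg ?_
          intro hg
          have h2 := hB.1 hg.2.2.1
          rw [Finset.mem_sdiff] at h2
          exact h2.2 (Finset.mem_insert_self t T)
        rw [h1, zero_sub, neg_neg]
        have h2 : (fun c => bd ((X \ insert t T).powersetCard d) (w c)) =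
            fun c l => (fun c l => if t ∈ c then z (c :: l) else 0) c l + (-1) * s c l := by
          funext c l
          show bd ((X \ insert t T).powersetCard d) (w c) l =
            (if t ∈ c then z (c :: l) else 0) + (-1) * s c l
          by_cases hc : good c
          · have h3 : w c = W c := by
              funext l
              exact if_pos hc
            have h3' : s c l = Sc c l := if_pos hc
            have h4 : bd ((X \ insert t T).powersetCard d) (W c) l =
                bd (((X \ c) \ T).powersetCard d) (W c) l := by
              symm
              apply bd_subset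
              · intro B hB
                rw [Finset.mem_powersetCard] at hB ⊢
                refine ⟨fun x hx => ?_, hB.2⟩
                have h3 := hB.1 hx
                rw [Finset.mem_sdiff, Finset.mem_sdiff] at h3
                rw [Finset.mem_sdiff, Finset.mem_insert]
                refine ⟨h3.1.1, ?_⟩
                rintro (h4 | h4)
                · rw [h4] at h3; exact h3.1.2 hc.2.2.1
                · exact h3.2 h4
              · intro B hB hB'
                by_contra h3
                have h4 := ((hW c hc).1.2 _ h3).1
                rw [valid_cons] at h4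
                apply hB'
                rw [Finset.mem_powersetCard] at hB ⊢
                refine ⟨fun x hx => ?_, hB.2⟩
                rw [Finset.mem_sdiff]
                refine ⟨h4.1.1 hx, ?_⟩
                have h5 := hB.1 hx
                rw [Finset.mem_sdiff, Finset.mem_insert] at h5
                tauto
            rw [h3, if_pos hc.2.2.1, h3', h4, hW' c hc l]
            ring
          · have h3 : w c = fun _ => 0 := by
              funext l
              exact if_neg hc
            have h3' : s c l = 0 := if_neg hc
            rw [h3, bd_zero, h3', mul_zero, add_zero]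
            split_ifs with htc
            · by_contra h4
              apply hc
              have h5 := (hzs _ (Ne.symm h4)).1
              have h6 := (hzc _ (Ne.symm h4)).2 c List.mem_cons_self
              rw [valid_cons] at h5
              refine ⟨h5.1.1, h5.1.2, htc, ?_⟩
              rw [Finset.disjoint_left]
              intro x hx hxT
              have h7 : x = t := by
                rw [Finset.card_le_one] at h6
                apply h6
                · rw [Finset.mem_inter]
                  exact ⟨hx, Finset.mem_insert_of_mem hxT⟩
                · rw [Finset.mem_inter]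
                  exact ⟨htc, Finset.mem_insert_self t T⟩
              exact ht (h7 ▸ hxT)
            · rfl
        rw [h2, ins_add, ins_mul]
        have h8 : ins (fun c l => if t ∈ c then z (c :: l) else 0) l = z l := by
          apply ins_marked (fun c => t ∈ c) hzA
          intro l hl
          -- exactly one block contains `t`
          have h3 := (hzs _ hl).1.2
          obtain ⟨B, hB, htB⟩ := (hzc _ hl).1 t (Finset.mem_insert_self t T)
          obtain ⟨l₁, l₂, rfl⟩ := List.append_of_mem hB
          have h4 := (List.perm_middle (l₁ := l₁) (a := B) (l₂ := l₂)).pairwise_iff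
            (R := fun a b : Finset α => Disjoint a b) (fun hab => hab.symm)
          have h5 := h4.1 h3
          rw [List.pairwise_cons] at h5
          rw [(List.perm_middle (l₁ := l₁) (a := B) (l₂ := l₂)).countP_eq, List.countP_cons,
            if_pos (by simpa using htB)]
          rw [List.countP_eq_zero.2]
          intro C hC
          have h6 := h5.1 C hC
          simpa using (Finset.disjoint_left.1 h6) htB
        rw [h8]
        ring

theorem gen_valid {d : ℕ} (hd : 0 < d) : ∀ (ts : List α) (us l : List (Finset α))
    (X T : Finset α), ts.Nodup → (∀ t ∈ ts, t ∈ T) → T ⊆ X → us.length = ts.length →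
    Valid (d - 1) (X \ T) us → Valid d ((X \ T) \ un us) l →
    Valid d X (List.zipWith insert ts us ++ l) := by
  intro ts
  induction ts with
  | nil =>
    intro us l X T _ _ _ _ _ hl
    simp only [List.zipWith_nil_left, List.nil_append]
    exact hl.mono (Finset.sdiff_subset.trans Finset.sdiff_subset)
  | cons t ts ih =>
    intro us l X T hnd htT hTX hlen hus hl
    cases us with
    | nil => simp at hlen
    | cons u us =>
      rw [List.nodup_cons] at hnd
      rw [List.length_cons, List.length_cons] at hlen
      rw [valid_cons] at hus
      obtain ⟨⟨huX, hud⟩, hus⟩ := hus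
      have htT' : t ∈ T := htT t (by simp)
      have htu : t ∉ u := by
        intro h
        have h1 := huX h
        rw [Finset.mem_sdiff] at h1
        exact h1.2 htT'
      rw [List.zipWith_cons_cons, List.cons_append, valid_cons]
      have hset : (X \ insert t u) \ T.erase t = (X \ T) \ u := by
        ext x
        simp only [Finset.mem_sdiff, Finset.mem_insert, Finset.mem_erase]
        by_cases hx : x = t
        · subst hx
          simp [htT']
        · tauto
      refine ⟨⟨?_, ?_⟩, ?_⟩
      · intro x hx
        rcases Finset.mem_insert.1 hx with h | h
        · rw [h]; exact hTX htT'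
        · have h1 := huX h
          rw [Finset.mem_sdiff] at h1
          exact h1.1
      · rw [Finset.card_insert_of_notMem htu, hud]
        omega
      · apply ih us l (X \ insert t u) (T.erase t) hnd.2
        · intro x hx
          rw [Finset.mem_erase]
          refine ⟨?_, htT x (by simp [hx])⟩
          intro h
          rw [h] at hx
          exact hnd.1 hx
        · intro x hx
          rw [Finset.mem_erase] at hx
          rw [Finset.mem_sdiff, Finset.mem_insert]
          refine ⟨hTX hx.2, ?_⟩
          rintro (h | h)
          · exact hx.1 h
          · have h1 := huX h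
            rw [Finset.mem_sdiff] at h1
            exact h1.2 hx.2
        · omega
        · rw [hset]; exact hus
        · rw [hset]
          have h1 : (X \ T) \ un (u :: us) = ((X \ T) \ u) \ un us := by
            ext x
            simp only [un, List.foldr_cons, Finset.mem_sdiff, Finset.mem_union, not_or]
            tauto
          rw [← h1]
          exact hl

/-- a generator is a chain -/
theorem Gen_chain {d : ℕ} (hd : 0 < d) {ts : List α} {us : List (Finset α)} {X Y : Finset α}
    (hts : ts.Nodup) (htX : ∀ t ∈ ts, t ∈ X) (hlen : us.length = ts.length)
    (hus : Valid (d - 1) (X \ ts.toFinset) us) (hY : Y ⊆ (X \ ts.toFinset) \ un us) {q : ℕ}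
    {y : List (Finset α) → k} (hy : y ∈ ChS k d Y q) :
    wds (List.zipWith insert ts us) y ∈ ChS k d X (q + ts.length) := by
  rw [mem_ChS] at hy ⊢
  refine ⟨wds_alt hy.1 _, ?_⟩
  intro l hl
  obtain ⟨l', hl', hp⟩ := wds_ne_zero hl
  obtain ⟨h1, h2⟩ := hy.2 l' hl'
  constructor
  · refine Valid.perm ?_ hp.symm
    refine gen_valid hd ts us l' X ts.toFinset hts (fun t ht => by simpa using ht) ?_ hlen hus
      (h1.mono hY)
    intro x hx
    rw [List.mem_toFinset] at hx
    exact htX x hx
  · rw [hp.length_eq, List.length_append, List.length_zipWith, hlen, h2]
    omega

end VKB
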