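import Pool.Agent.VK.Anti
import Pool.Agent.VKB.Kap

/-!
# Permutations and wedge products

Paper proofs. `rho_wds`: unfold, `ins` commutes with reindexing by the injective map `mv g`. `altT_rho`: reindex
the sum. `altT_zero`: by `altT_rho` with `g = swap s t`, `altT T z = - altT T z`. `rho_fix`: on the support all
blocks are subsets of `Y`, fixed by `mv g` (also `g⁻¹ x = x` on `Y`).
-/

namespace VKB
open VK Equiv

variable {k : Type*} [Field k] [CharZero k] {α : Type*} [Fintype α] [DecidableEq α]

omit [CharZero k] in
/-- `ins` commutes with reindexing of the list -/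
theorem ins_map {β γ : Type*} (f : β → γ) (w : γ → List γ → k) (l : List β) :
    ins w (l.map f) = ins (fun c l' => w (f c) (l'.map f)) l := by
  induction l generalizing w with
  | nil => rw [List.map_nil, ins_nil, ins_nil]
  | cons b l ih =>
    rw [List.map_cons, ins_cons, ins_cons, ih]
    rfl

omit [CharZero k] [Fintype α] [DecidableEq α] in
theorem rho_wd (g : Perm α) (c : Finset α) (y : List (Finset α) → k) :
    rho k α g (wd c y) = wd (mv g c) (rho k α g y) := by
  funext l
  rw [rho_apply]
  unfold wd
  rw [ins_map]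
  congr 1
  funext e l'
  rw [rho_apply]
  have h : mv g⁻¹ e = c ↔ e = mv g c := by
    constructor
    · intro h
      rw [← h, mv_mv_inv]
    · intro h
      rw [h, mv_inv_mv]
  by_cases h1 : e = mv g c
  · rw [if_pos h1, if_pos (h.2 h1)]
  · rw [if_neg h1, if_neg fun h2 => h1 (h.1 h2)]

omit [CharZero k] [Fintype α] [DecidableEq α] in
/-- permutations act on generators -/
theorem rho_wds (g : Perm α) (cs : List (Finset α)) (y : List (Finset α) → k) :
    rho k α g (wds cs y) = wds (cs.map (mv g)) (rho k α g y) := by
  induction cs with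
  | nil => rfl
  | cons c cs ih => rw [List.map_cons, wds_cons, wds_cons, rho_wd, ih]

omit [CharZero k] in
theorem altT_rho {T : Finset α} {g : Perm α} (hg : g ∈ ST T) (z : List (Finset α) → k) :
    altT (rho k α) T (rho k α g z) = sg k g • altT (rho k α) T z := by
  unfold altT
  rw [Finset.smul_sum]
  refine Finset.sum_nbij' (fun h => h * g) (fun h => h * g⁻¹) ?_ ?_ ?_ ?_ ?_
  · exact fun h hh => mul_mem_ST hh hg
  · exact fun h hh => mul_mem_ST hh (inv_mem_ST hg)
  · intro h _; simp
  · intro h _; simp
  · intro h _
    rw [rho_mul, sg_mul, smul_smul, mul_comm (sg k h), ← mul_assoc, sg_mul_self, one_mul]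

theorem altT_zero {T : Finset α} {s t : α} (hs : s ∈ T) (ht : t ∈ T) (hst : s ≠ t)
    {z : List (Finset α) → k} (hz : rho k α (swap s t) z = z) : altT (rho k α) T z = 0 := by
  have h := altT_rho (swap_mem_ST hs ht) z
  rw [hz, sg_swap hst, neg_one_smul] at h
  funext l
  have h1 : altT (rho k α) T z l = - altT (rho k α) T z l := congrFun h l
  exact CharZero.eq_neg_self_iff.1 h1

omit [CharZero k] in
/-- a chain on a set avoiding the moved points is fixed -/
theorem rho_fix {g : Perm α} {d q : ℕ} {Y : Finset α} (hg : ∀ x ∈ Y, g x = x)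
    {y : List (Finset α) → k} (hy : y ∈ ChS k d Y q) : rho k α g y = y := by
  have hfix : ∀ B ⊆ Y, mv g B = B := by
    intro B hB
    ext x
    rw [mem_mv]
    constructor
    · intro h
      have h1 := hg _ (hB h)
      rw [← Perm.mul_apply, mul_inv_cancel, Perm.one_apply] at h1
      rw [h1]
      exact h
    · intro h
      have h1 : g⁻¹ x = x := by
        rw [Perm.inv_eq_iff_eq]
        exact (hg x (hB h)).symm
      rw [h1]
      exact h
  have hmap : ∀ l : List (Finset α), (∀ B ∈ l, B ⊆ Y) → l.map (mv g⁻¹) = l := by
    intro l hl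
    conv_rhs => rw [← List.map_id l]
    refine List.map_congr_left fun B hB => ?_
    conv_lhs => rw [← hfix B (hl B hB), mv_inv_mv]
    rfl
  funext l
  rw [rho_apply]
  by_cases h : y l = 0
  · by_cases h' : y (l.map (mv g⁻¹)) = 0
    · rw [h, h']
    · exfalso
      have h1 := (hy.2 _ h').1.1
      have h2 : l = l.map (mv g⁻¹) := by
        have h3 : ∀ B ∈ l, B ⊆ Y := by
          intro B hB
          have h4 := (h1 _ (List.mem_map_of_mem hB)).1
          have h5 := hfix _ h4
          rw [mv_mv_inv] at h5
          rw [h5]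
          exact h4
        exact (hmap l h3).symm
      rw [← h2] at h'
      exact h' h
  · rw [hmap l fun B hB => ((hy.2 _ h).1.1 B hB).1]

end VKB
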