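import Pool.Agent.VKB.LemR
import Pool.Agent.VKB.KeyK
import Pool.Agent.VKB.QGen
import Pool.Agent.VKB.RhoW

/-!
# The generators are killed

Paper proof of `elem_boundary`. Let `T = {a, b, c, e}`, `Ω = (X \ T) \ A` (so `Ω.card = 3 (d - 1) + cc d`), `Q` the
quotient of the space of functions by the boundaries on `X`, and for a list `us` of three blocks
`E us = class of altT T (wds [a ∪ u1, b ∪ u2, c ∪ u3] (WW k d ((X \ T) \ un us) A))`. `E` is symmetric on valid
lists: exchanging `u1` and `u2` and the points `a` and `b` changes `wds` only by the sign of `wd_wd_swap` and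
`altT T` by the sign of the transposition (`altT_rho`, `rho_wds`, `rho_fix`).
The relation of `lemR` (`e := d - 1`, `m := 3`): for four disjoint blocks `us` in `Ω` let
`H = Ω \ un us` (`H.card = cc d - (d - 1)`) and `Z = WW k d (A ∪ H) A`, a cycle (`WW_cycle`). Apply `altT T ∘ bdL F`,
`F = X.powersetCard d`, to `wds [a ∪ u1, b ∪ u2, c ∪ u3, e ∪ u4] Z` (`bd_wds`): it is a boundary
(`bdL_altT`), and equal to `∑ i, (-1)^i altT T (wds (without the i-th block) Z)`. A permutation of `T` brings the
three points to `a, b, c` (for `i = 3, 2, 1, 0`: the identity, `swap c e`, a 3-cycle, a 4-cycle); the signs combine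
to `-1` for all `i`. Finally `Z - WW k d (A ∪ H ∪ u_i) A` is a boundary `bdL w` on `A ∪ H ∪ u_i` (`keyK`), and
`altT T (wds cs (bdL w))` is a boundary on `X` for the three blocks `cs`: by `bd_wds` it is up to sign the boundary
of `altT T (wds cs w)` minus terms in which a block with a point of `T` was removed; those miss two points of
`T` and are killed by `altT_zero`.
-/

namespace VKB
open VK Equiv

variable {k : Type*} [Field k] [CharZero k] {α : Type*} [Fintype α] [DecidableEq α]

omit [Fintype α] [CharZero k] in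
theorem un_nil : un ([] : List (Finset α)) = ∅ := rfl

omit [Fintype α] in
theorem un_cons (u : Finset α) (us : List (Finset α)) : un (u :: us) = u ∪ un us := rfl

omit [Fintype α] in
theorem subset_un {u : Finset α} : ∀ {us : List (Finset α)}, u ∈ us → u ⊆ un us
  | [], h => absurd h List.not_mem_nil
  | v :: us, h => by
    rw [un_cons]
    rcases List.mem_cons.1 h with h | h
    · rw [h]; exact Finset.subset_union_left
    · exact (subset_un h).trans Finset.subset_union_right

omit [Fintype α] in
theorem mem_un {x : α} : ∀ {us : List (Finset α)}, x ∈ un us → ∃ u ∈ us, x ∈ u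
  | [], h => absurd h (Finset.notMem_empty x)
  | v :: us, h => by
    rw [un_cons, Finset.mem_union] at h
    rcases h with h | h
    · exact ⟨v, List.mem_cons_self, h⟩
    · obtain ⟨u, hu, hx⟩ := mem_un h
      exact ⟨u, List.mem_cons_of_mem _ hu, hx⟩

/-- moving the points -/
theorem altT_move {T : Finset α} {g : Perm α} (hg : g ∈ ST T) {ts : List α}
    {us : List (Finset α)} (hus : ∀ u ∈ us, Disjoint u T) {d q : ℕ} {Y : Finset α}
    (hY : Disjoint Y T) {y : List (Finset α) → k} (hy : y ∈ ChS k d Y q) :
    altT (rho k α) T (wds (List.zipWith insert (ts.map g) us) y) =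
      sg k g • altT (rho k α) T (wds (List.zipWith insert ts us) y) := by
  have hfix : ∀ u : Finset α, Disjoint u T → ∀ x ∈ u, g x = x := by
    intro u hu x hx
    exact (mem_ST.1 hg) x (Finset.disjoint_left.1 hu hx)
  rw [← altT_rho hg, rho_wds, rho_fix (hfix Y hY) hy]
  congr 2
  clear hy
  induction us generalizing ts with
  | nil => simp
  | cons u us ih =>
    cases ts with
    | nil => simp
    | cons t ts =>
      simp only [List.map_cons, List.zipWith_cons_cons]
      rw [ih fun v hv => hus v (List.mem_cons_of_mem _ hv)]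
      congr 1
      have hu := hfix u (hus u List.mem_cons_self)
      ext x
      rw [mem_mv, Finset.mem_insert, Finset.mem_insert]
      constructor
      · rintro (h | h)
        · left; rw [h]; simp
        · right
          have h1 := hu x h
          have h2 : g⁻¹ x = x := by
            rw [Perm.inv_eq_iff_eq, h1]
          rw [h2]; exact h
      · rintro (h | h)
        · left
          rw [← h]; simp
        · right
          have h1 := hu _ h
          have h2 : g (g⁻¹ x) = x := by simp
          rw [h2] at h1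
          rw [h1]
          exact h

/-- `altT T` as a linear map -/
noncomputable def altL (k : Type*) [Field k] {α : Type*} [Fintype α] [DecidableEq α]
    (T : Finset α) : (List (Finset α) → k) →ₗ[k] (List (Finset α) → k) :=
  ∑ g ∈ ST T, sg k g • rho k α g

theorem altL_eq (T : Finset α) (z : List (Finset α) → k) :
    altT (rho k α) T z = altL k T z := by
  unfold altT altL
  rw [LinearMap.sum_apply]
  rfl

omit [Fintype α] in
theorem card_insert_block {d : ℕ} (hd : 0 < d) {X T : Finset α} (hTX : T ⊆ X) {t : α}
    (ht : t ∈ T) {u : Finset α} (hu : u ⊆ X \ T) (huc : u.card = d - 1) :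
    insert t u ∈ X.powersetCard d := by
  rw [Finset.mem_powersetCard]
  have htu : t ∉ u := fun h => (Finset.mem_sdiff.1 (hu h)).2 ht
  refine ⟨Finset.insert_subset (hTX ht) (hu.trans Finset.sdiff_subset), ?_⟩
  rw [Finset.card_insert_of_notMem htu, huc]
  omega

omit [Fintype α] in
theorem zip_mem {d : ℕ} (hd : 0 < d) {X T : Finset α} (hTX : T ⊆ X) {ts : List α}
    (htT : ∀ t ∈ ts, t ∈ T) {us : List (Finset α)} (hus : Valid (d - 1) (X \ T) us) :
    ∀ c ∈ List.zipWith insert ts us, c ∈ X.powersetCard d := by
  intro c hc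
  obtain ⟨i, hi, rfl⟩ := List.getElem_of_mem hc
  rw [List.getElem_zipWith]
  rw [List.length_zipWith] at hi
  have h1 := hus.1 _ (List.getElem_mem (l := us) (n := i) (by omega))
  exact card_insert_block hd hTX (htT _ (List.getElem_mem _)) h1.1 h1.2

/-- boundaries on the small set become boundaries -/
theorem bdry_kill {d : ℕ} (hd : 0 < d) {X T Y : Finset α} (hTX : T ⊆ X) {ts : List α}
    (hts : ts.Nodup) (htT : ∀ t ∈ ts, t ∈ T) {t4 : α} (ht4 : t4 ∈ T) (ht4' : t4 ∉ ts)
    {us : List (Finset α)} (hlen : us.length = ts.length) (hus : Valid (d - 1) (X \ T) us)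
    (hY : Y ⊆ (X \ T) \ un us) {q : ℕ} {w : List (Finset α) → k}
    (hw : w ∈ ChS k d Y (q + 1)) :
    altT (rho k α) T (wds (List.zipWith insert ts us) (bdL (X.powersetCard d) w)) ∈
      (ChS k d X (q + 1 + ts.length)).map (bdL (X.powersetCard d)) := by
  set F := X.powersetCard d with hF
  set cs := List.zipWith insert ts us with hcs
  have hcF : ∀ c ∈ cs, c ∈ F := zip_mem hd hTX htT hus
  have htsX : ts.toFinset ⊆ T := fun x hx => htT x (List.mem_toFinset.1 hx)
  have hsub : X \ T ⊆ X \ ts.toFinset := Finset.sdiff_subset_sdiff (Finset.Subset.refl X) htsX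
  have hch : wds cs w ∈ ChS k d X (q + 1 + ts.length) := by
    apply Gen_chain hd hts (fun t ht => hTX (htT t ht)) hlen (hus.mono hsub) _ hw
    exact hY.trans (Finset.sdiff_subset_sdiff hsub (Finset.Subset.refl _))
  have h1 := bd_wds cs hcF w
  have h2 : wds cs (bdL F w) = (-1 : k) ^ cs.length • (bdL F (wds cs w) -
      ∑ i ∈ Finset.range cs.length, (-1 : k) ^ i • wds (cs.eraseIdx i) w) := by
    have h3 : bdL F (wds cs w) = (∑ i ∈ Finset.range cs.length,
        (-1 : k) ^ i • wds (cs.eraseIdx i) w) + (-1 : k) ^ cs.length • wds cs (bdL F w) := h1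
    rw [h3, add_sub_cancel_left, smul_smul, ← mul_pow]
    simp
  rw [h2, altL_eq, map_smul, map_sub, map_sum]
  have h4 : ∀ i ∈ Finset.range cs.length,
      altL k T ((-1 : k) ^ i • wds (cs.eraseIdx i) w) = 0 := by
    intro i hi
    rw [Finset.mem_range] at hi
    rw [map_smul, ← altL_eq]
    have hi' : i < ts.length := by
      rw [hcs, List.length_zipWith] at hi; omega
    have hti : ts[i] ∈ T := htT _ (List.getElem_mem _)
    have hne : ts[i] ≠ t4 := fun h => ht4' (h ▸ List.getElem_mem _)
    rw [altT_zero hti ht4 hne, smul_zero]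
    rw [rho_wds, rho_fix (d := d) (q := q + 1) (Y := Y) _ hw]
    · congr 1
      conv_rhs => rw [← List.map_id (cs.eraseIdx i)]
      refine List.map_congr_left fun c hc => ?_
      rw [id]
      apply mv_swap
      rw [List.mem_eraseIdx_iff_getElem] at hc
      obtain ⟨j, hj, hji, rfl⟩ := hc
      have hj1 : j < ts.length := by
        rw [hcs, List.length_zipWith] at hj; omega
      have hj2 : j < us.length := by omega
      have h5 : cs[j] = insert ts[j] us[j] := by
        simp [hcs]
      rw [h5]
      have h6 := (hus.1 us[j] (List.getElem_mem _)).1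
      have h7 : ∀ t ∈ T, t ∉ us[j] := fun t ht h => (Finset.mem_sdiff.1 (h6 h)).2 ht
      have h8 : ts[i] ∉ insert ts[j] us[j] := by
        rw [Finset.mem_insert, not_or]
        refine ⟨fun h => hji ?_, h7 _ hti⟩
        exact ((List.Nodup.getElem_inj_iff hts).1 h).symm
      have h9 : t4 ∉ insert ts[j] us[j] := by
        rw [Finset.mem_insert, not_or]
        refine ⟨fun h => ht4' ?_, h7 _ ht4⟩
        rw [h]; exact List.getElem_mem _
      exact ⟨fun h => absurd h h8, fun h => absurd h h9⟩
    · intro x hx
      have h5 := (Finset.mem_sdiff.1 (Finset.mem_sdiff.1 (hY hx)).1).2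
      apply swap_apply_of_ne_of_ne
      · intro h; exact h5 (h ▸ hti)
      · intro h; exact h5 (h ▸ ht4)
  rw [Finset.sum_eq_zero h4, sub_zero, ← altL_eq]
  apply Submodule.smul_mem
  rw [← bdL_altT hTX]
  exact Submodule.mem_map_of_mem (ChS_altT hTX hch)

omit [Fintype α] [CharZero k] in
theorem bdL_small {d r : ℕ} {X Y : Finset α} (hYX : Y ⊆ X) {w : List (Finset α) → k}
    (hw : w ∈ ChS k d Y r) : bdL (X.powersetCard d) w = bdL (Y.powersetCard d) w := by
  funext l
  symm
  apply bd_subset (Finset.powersetCard_mono hYX)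
  intro B hB hB'
  by_contra h
  have h1 := (hw.2 _ h).1.1 B List.mem_cons_self
  exact hB' (Finset.mem_powersetCard.2 h1)

/-- replacing the class `WW k d Y A` by `WW k d (A ∪ H) A` -/
theorem key_repl {d : ℕ} (hd : 2 ≤ d) {X T Y A H : Finset α} (hTX : T ⊆ X) {ts : List α}
    (hts : ts.Nodup) (htT : ∀ t ∈ ts, t ∈ T) {t4 : α} (ht4 : t4 ∈ T) (ht4' : t4 ∉ ts)
    (hts3 : ts.length = 3) {us : List (Finset α)} (hlen : us.length = 3)
    (hus : Valid (d - 1) (X \ T) us) (hY : Y ⊆ (X \ T) \ un us) (hYc : Y.card = 2 * cc d)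
    (hAY : A ⊆ Y) (hA : A.card = cc d) (hH : H ⊆ Y \ A) (hHc : H.card = cc d - (d - 1)) :
    altT (rho k α) T (wds (List.zipWith insert ts us) (WW k d (A ∪ H) A)) -
      altT (rho k α) T (wds (List.zipWith insert ts us) (WW k d Y A)) ∈
      (ChS k d X (d + 3)).map (bdL (X.powersetCard d)) := by
  obtain ⟨w, hw, hwe⟩ := keyK (k := k) hd hAY hYc hA hH hHc
  have hYX : Y ⊆ X := hY.trans (Finset.sdiff_subset.trans Finset.sdiff_subset)
  have hd1 : d - 1 + 1 = d := by omega
  have hw' : w ∈ ChS k d Y (d - 1 + 1) := by rw [hd1]; exact hw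
  have h1 := bdry_kill (q := d - 1) (by omega) hTX hts htT ht4 ht4' (by omega) hus hY hw'
  rw [bdL_small hYX hw', hwe, wds_sub, altL_eq, map_sub, ← altL_eq, ← altL_eq, hts3, hd1] at h1
  exact h1

theorem elem_boundary {d : ℕ} (hd : 3 ≤ d) {a b c e : α} (hn : [a, b, c, e].Nodup)
    {X : Finset α} (hTX : {a, b, c, e} ⊆ X) (hX : X.card = 4 + 3 * (d - 1) + 2 * cc d)
    {us : List (Finset α)} (hlen : us.length = 3) (hus : Valid (d - 1) (X \ {a, b, c, e}) us)
    {A : Finset α} (hA : A ⊆ (X \ {a, b, c, e}) \ un us) (hAc : A.card = cc d) :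
    altT (rho k α) {a, b, c, e} (wds (List.zipWith insert [a, b, c] us)
      (WW k d ((X \ {a, b, c, e}) \ un us) A)) ∈
        (ChS k d X (d + 3)).map (bdL (X.powersetCard d)) := by
  classical
  set T : Finset α := {a, b, c, e} with hT
  set F := X.powersetCard d with hF
  set Bd := (ChS k d X (d + 3)).map (bdL F) with hBd
  set φ := Bd.mkQ with hφ
  have hφ0 : ∀ v, φ v = 0 ↔ v ∈ Bd := fun v => by
    rw [hφ, Submodule.mkQ_apply, Submodule.Quotient.mk_eq_zero]
  have hφe : ∀ v v', v - v' ∈ Bd → φ v = φ v' := fun v v' h => by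
    rw [← sub_eq_zero, ← map_sub, hφ0]; exact h
  have haT : a ∈ T := by rw [hT]; simp
  have hbT : b ∈ T := by rw [hT]; simp
  have hcT : c ∈ T := by rw [hT]; simp
  have heT : e ∈ T := by rw [hT]; simp
  simp only [List.nodup_cons, List.mem_cons, List.not_mem_nil, or_false, not_or,
    List.nodup_nil, not_false_eq_true, and_true] at hn
  obtain ⟨⟨hab, hac, hae⟩, ⟨hbc, hbe⟩, hce⟩ := hn
  have hTc : T.card = 4 := by
    rw [hT, Finset.card_insert_of_notMem, Finset.card_insert_of_notMem,
      Finset.card_insert_of_notMem, Finset.card_singleton]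
    · simpa using hce
    · simp only [Finset.mem_insert, Finset.mem_singleton, not_or]; exact ⟨hbc, hbe⟩
    · simp only [Finset.mem_insert, Finset.mem_singleton, not_or]; exact ⟨hab, hac, hae⟩
  -- the set `Ω`
  set Ω := (X \ T) \ A with hΩ
  have hAX : A ⊆ X \ T := hA.trans Finset.sdiff_subset
  have hXT : (X \ T).card = 3 * (d - 1) + 2 * cc d := by
    rw [Finset.card_sdiff_of_subset hTX, hX, hTc]; omega
  have hΩc : Ω.card = 3 * (d - 1) + cc d := by
    rw [hΩ, Finset.card_sdiff_of_subset hAX, hXT, hAc]; omega
  have hΩX : Ω ⊆ X \ T := Finset.sdiff_subset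
  have hcc : d + 2 ≤ cc d := by
    have h1 := two_cc d
    have h2 : (d - 1) * 3 ≤ (d - 1) * d := Nat.mul_le_mul_left _ hd
    omega
  -- cardinality of a union of blocks
  have hunc : ∀ {l : List (Finset α)} {Z : Finset α}, Valid (d - 1) Z l →
      (un l).card = l.length * (d - 1) ∧ un l ⊆ Z := by
    intro l
    induction l with
    | nil => intro Z _; exact ⟨by simp [un], Finset.empty_subset _⟩
    | cons u l ih =>
      intro Z h
      rw [valid_cons] at h
      obtain ⟨h1, h2⟩ := ih h.2
      rw [un_cons]
      refine ⟨?_, Finset.union_subset h.1.1 (h2.trans Finset.sdiff_subset)⟩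
      rw [Finset.card_union_of_disjoint, h1, h.1.2, List.length_cons]
      · ring
      · rw [Finset.disjoint_left]
        intro x hx hx'
        exact (Finset.mem_sdiff.1 (h2 hx')).2 hx
  have hdisT : ∀ {l : List (Finset α)}, Valid (d - 1) Ω l → ∀ u ∈ l, Disjoint u T := by
    intro l hl u hu
    rw [Finset.disjoint_left]
    intro x hx hxT
    exact (Finset.mem_sdiff.1 (hΩX ((hl.1 u hu).1 hx))).2 hxT
  -- the function `E`
  let E : List (Finset α) → (List (Finset α) → k) ⧸ Bd := fun l =>
    if l.length = 3 then φ (altT (rho k α) T (wds (List.zipWith insert [a, b, c] l)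
      (WW k d ((X \ T) \ un l) A))) else 0
  have hE3 : ∀ l, l.length = 3 → E l = φ (altT (rho k α) T
      (wds (List.zipWith insert [a, b, c] l) (WW k d ((X \ T) \ un l) A))) :=
    fun l hl => if_pos hl
  -- `WW` on the small set
  have hYc : ∀ {l : List (Finset α)}, Valid (d - 1) Ω l → l.length = 3 →
      A ⊆ (X \ T) \ un l ∧ ((X \ T) \ un l).card = 2 * cc d ∧
      WW k d ((X \ T) \ un l) A ∈ ChS k d ((X \ T) \ un l) (d - 1) := by
    intro l hl hl3
    obtain ⟨h1, h2⟩ := hunc hl
    have h3 : A ⊆ (X \ T) \ un l := by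
      intro x hx
      rw [Finset.mem_sdiff]
      exact ⟨hAX hx, fun h => (Finset.mem_sdiff.1 (h2 h)).2 hx⟩
    have h4 : ((X \ T) \ un l).card = 2 * cc d := by
      rw [Finset.card_sdiff_of_subset (h2.trans hΩX), hXT, h1, hl3]; omega
    refine ⟨h3, h4, WW_mem (by omega) h3 hAc ?_⟩
    rw [Finset.card_sdiff_of_subset h3, h4, hAc]; omega
  have hYT : ∀ l, Disjoint ((X \ T) \ un l) T := by
    intro l
    rw [Finset.disjoint_left]
    intro x hx hxT
    exact (Finset.mem_sdiff.1 (Finset.mem_sdiff.1 hx).1).2 hxT
  -- symmetry for neighbours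
  have hsw1 : ∀ u v w : Finset α, Valid (d - 1) Ω [u, v, w] → E [u, v, w] = E [v, u, w] := by
    intro u v w hv
    rw [hE3 _ rfl, hE3 _ rfl]
    have hun : un [v, u, w] = un [u, v, w] := by
      ext x
      simp only [un_cons, Finset.mem_union]
      tauto
    rw [hun]
    set Y := (X \ T) \ un [u, v, w] with hY
    obtain ⟨-, -, hW⟩ := hYc hv rfl
    have hg : swap a b ∈ ST T := swap_mem_ST haT hbT
    have h1 := altT_move (k := k) (g := swap a b) (ts := [b, a, c]) (us := [v, u, w]) hg
      (fun x hx => hdisT hv x (by simp only [List.mem_cons] at hx ⊢; tauto)) (hYT _) hW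
    have h2 : [b, a, c].map (swap a b) = [a, b, c] := by
      simp only [List.map_cons, List.map_nil, swap_apply_left, swap_apply_right]
      rw [swap_apply_of_ne_of_ne (Ne.symm hac) (Ne.symm hbc)]
    rw [h2, sg_swap hab] at h1
    rw [h1]
    congr 1
    simp only [List.zipWith_cons_cons, List.zipWith_nil_left, wds_cons]
    rw [wd_wd_swap (wds_alt hW.1 _ |> wd_alt) (insert b v) (insert a u)]
    rw [altL_eq, altL_eq, map_neg, smul_neg, neg_smul, neg_neg, one_smul]
  have hsw2 : ∀ u v w : Finset α, Valid (d - 1) Ω [u, v, w] → E [u, v, w] = E [u, w, v] := by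
    intro u v w hv
    rw [hE3 _ rfl, hE3 _ rfl]
    have hun : un [u, w, v] = un [u, v, w] := by
      ext x
      simp only [un_cons, Finset.mem_union]
      tauto
    rw [hun]
    set Y := (X \ T) \ un [u, v, w] with hY
    obtain ⟨-, -, hW⟩ := hYc hv rfl
    have hg : swap b c ∈ ST T := swap_mem_ST hbT hcT
    have h1 := altT_move (k := k) (g := swap b c) (ts := [a, c, b]) (us := [u, w, v]) hg
      (fun x hx => hdisT hv x (by simp only [List.mem_cons] at hx ⊢; tauto)) (hYT _) hW
    have h2 : [a, c, b].map (swap b c) = [a, b, c] := by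
      simp only [List.map_cons, List.map_nil, swap_apply_left, swap_apply_right]
      rw [swap_apply_of_ne_of_ne hab hac]
    rw [h2, sg_swap hbc] at h1
    rw [h1]
    congr 1
    simp only [List.zipWith_cons_cons, List.zipWith_nil_left, wds_cons]
    rw [wd_wd_swap (wds_alt hW.1 _) (insert c w) (insert b v)]
    have h3 : ∀ (m : Finset α) (y : List (Finset α) → k), wd m (-y) = - wd m y := by
      intro m y
      have := wd_smul m (-1 : k) y
      simpa using this
    rw [h3, altL_eq, altL_eq, map_neg, smul_neg, neg_smul, neg_neg, one_smul]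
  have hadj : ∀ (l₁ : List (Finset α)) (u v : Finset α) (l₂ : List (Finset α)),
      Valid (d - 1) Ω (l₁ ++ u :: v :: l₂) → E (l₁ ++ u :: v :: l₂) = E (l₁ ++ v :: u :: l₂) := by
    intro l₁ u v l₂ hv
    by_cases h3 : (l₁ ++ u :: v :: l₂).length = 3
    · simp only [List.length_append, List.length_cons] at h3
      cases l₁ with
      | nil =>
        simp only [List.length_nil] at h3
        obtain ⟨w, rfl⟩ : ∃ w, l₂ = [w] := List.length_eq_one_iff.1 (by omega)
        exact hsw1 u v w hv
      | cons x l₁ =>
        simp only [List.length_cons] at h3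
        have h4 : l₁ = [] := List.length_eq_zero_iff.1 (by omega)
        have h5 : l₂ = [] := List.length_eq_zero_iff.1 (by omega)
        subst h4 h5
        exact hsw2 x u v hv
    · have h4 : (l₁ ++ v :: u :: l₂).length ≠ 3 := by
        simpa only [List.length_append, List.length_cons] using h3
      exact (if_neg h3).trans (if_neg h4).symm
  have hperm : ∀ l l' : List (Finset α), Valid (d - 1) Ω l → l.Perm l' → E l = E l' := by
    have h1 : ∀ l l' : List (Finset α), l.Perm l' → ∀ pre : List (Finset α),
        Valid (d - 1) Ω (pre ++ l) → E (pre ++ l) = E (pre ++ l') := by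
      intro l l' hp
      induction hp with
      | nil => intro pre _; rfl
      | cons x _ ih =>
        intro pre hv
        have h2 := ih (pre ++ [x])
        simp only [List.append_assoc, List.singleton_append] at h2
        exact h2 hv
      | swap x y l =>
        intro pre hv
        exact hadj pre y x l hv
      | trans h12 h23 ih1 ih2 =>
        intro pre hv
        rw [ih1 pre hv]
        exact ih2 pre (hv.perm (List.Perm.append_left pre h12))
    intro l l' hv hp
    exact h1 l l' hp [] hv
  have hrel : ∀ l, Valid (d - 1) Ω l → l.length = 3 + 1 →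
      ∑ i ∈ Finset.range (3 + 1), E (l.eraseIdx i) = 0 := by
    intro l hv hl4
    obtain ⟨u1, u2, u3, u4, rfl⟩ : ∃ u1 u2 u3 u4, l = [u1, u2, u3, u4] := by
      match l, hl4 with
      | [u1, u2, u3, u4], _ => exact ⟨u1, u2, u3, u4, rfl⟩
    set l : List (Finset α) := [u1, u2, u3, u4] with hl
    obtain ⟨hun1, hun2⟩ := hunc hv
    set H := Ω \ un l with hH
    have hHc : H.card = cc d - (d - 1) := by
      rw [hH, Finset.card_sdiff_of_subset hun2, hun1, hΩc, hl]
      simp only [List.length_cons, List.length_nil]
      omega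
    have hHA : Disjoint A H := by
      rw [Finset.disjoint_left]
      intro x hxA hxH
      exact (Finset.mem_sdiff.1 (Finset.mem_sdiff.1 hxH).1).2 hxA
    have hAHd : (A ∪ H) \ A = H := by
      rw [Finset.union_sdiff_left, Finset.sdiff_eq_self_of_disjoint hHA.symm]
    have hZ : WW k d (A ∪ H) A ∈ ChS k d (A ∪ H) (d - 1) :=
      WW_mem (by omega) Finset.subset_union_left hAc (by rw [hAHd, hHc])
    have hAHX : A ∪ H ⊆ X \ T := Finset.union_subset hAX (Finset.sdiff_subset.trans hΩX)
    have hAHX' : A ∪ H ⊆ X := hAHX.trans Finset.sdiff_subset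
    have hZc : bdL F (WW k d (A ∪ H) A) = 0 :=
      WW_cycle (by omega) Finset.subset_union_left hAHX' hAc (by rw [hAHd, hHc])
    have hAHT : Disjoint (A ∪ H) T := by
      rw [Finset.disjoint_left]
      intro x hx hxT
      exact (Finset.mem_sdiff.1 (hAHX hx)).2 hxT
    set Z := WW k d (A ∪ H) A with hZdef
    -- the values of `E`
    have hval : ∀ l' : List (Finset α), l'.Sublist l → l'.length = 3 →
        E l' = φ (altT (rho k α) T (wds (List.zipWith insert [a, b, c] l') Z)) := by
      intro l' hsub hl'
      have hv' : Valid (d - 1) Ω l' := ⟨fun B hB => hv.1 B (hsub.subset hB), hv.2.sublist hsub⟩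
      obtain ⟨h1, h2, h3⟩ := hYc hv' hl'
      have h4 : un l' ⊆ un l := by
        intro x hx
        obtain ⟨u, hu, hxu⟩ := mem_un hx
        exact subset_un (hsub.subset hu) hxu
      rw [hE3 _ hl']
      symm
      apply hφe
      refine key_repl (t4 := e) (by omega) hTX ?_ ?_ heT ?_ rfl hl'
        (hv'.mono hΩX) (Finset.Subset.refl _) h2 h1 hAc ?_ hHc
      · simp only [List.nodup_cons, List.mem_cons, List.not_mem_nil, or_false, not_or,
          List.nodup_nil, not_false_eq_true, and_true]
        exact ⟨⟨hab, hac⟩, hbc⟩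
      · intro t ht
        simp only [List.mem_cons, List.not_mem_nil, or_false] at ht
        rcases ht with rfl | rfl | rfl
        · exact haT
        · exact hbT
        · exact hcT
      · simp only [List.mem_cons, List.not_mem_nil, or_false, not_or]
        exact ⟨Ne.symm hae, Ne.symm hbe, Ne.symm hce⟩
      · intro x hx
        rw [hH, Finset.mem_sdiff, hΩ, Finset.mem_sdiff] at hx
        rw [Finset.mem_sdiff, Finset.mem_sdiff]
        exact ⟨⟨hx.1.1, fun h => hx.2 (h4 h)⟩, hx.1.2⟩
    have hdl : ∀ l' : List (Finset α), l'.Sublist l → ∀ u ∈ l', Disjoint u T :=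
      fun l' hsub u hu => hdisT hv u (hsub.subset hu)
    -- the four terms
    have s0 : [u2, u3, u4].Sublist l := by rw [hl]; exact List.sublist_cons_self _ _
    have s1 : [u1, u3, u4].Sublist l := by
      rw [hl]; exact (List.sublist_cons_self u2 _).cons_cons u1
    have s2 : [u1, u2, u4].Sublist l := by
      rw [hl]; exact ((List.sublist_cons_self u3 _).cons_cons u2).cons_cons u1
    have s3 : [u1, u2, u3].Sublist l := by
      rw [hl]
      exact (((List.nil_sublist [u4]).cons_cons u3).cons_cons u2).cons_cons u1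
    have m0 := altT_move (k := k) (g := swap c e * swap b c * swap a b) (ts := [b, c, e])
      (us := [u2, u3, u4]) (mul_mem_ST (mul_mem_ST (swap_mem_ST hcT heT) (swap_mem_ST hbT hcT))
        (swap_mem_ST haT hbT)) (hdl _ s0) hAHT hZ
    have m1 := altT_move (k := k) (g := swap c e * swap b c) (ts := [a, c, e])
      (us := [u1, u3, u4]) (mul_mem_ST (swap_mem_ST hcT heT) (swap_mem_ST hbT hcT))
        (hdl _ s1) hAHT hZ
    have m2 := altT_move (k := k) (g := swap c e) (ts := [a, b, e])
      (us := [u1, u2, u4]) (swap_mem_ST hcT heT) (hdl _ s2) hAHT hZ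
    have e0 : [b, c, e].map (swap c e * swap b c * swap a b) = [a, b, c] := by
      simp only [List.map_cons, List.map_nil, Perm.mul_apply]
      congr 1
      · rw [swap_apply_right, swap_apply_of_ne_of_ne hab hac, swap_apply_of_ne_of_ne hac hae]
      congr 1
      · rw [swap_apply_of_ne_of_ne (Ne.symm hac) (Ne.symm hbc), swap_apply_right,
          swap_apply_of_ne_of_ne hbc hbe]
      congr 1
      rw [swap_apply_of_ne_of_ne (Ne.symm hae) (Ne.symm hbe),
        swap_apply_of_ne_of_ne (Ne.symm hbe) (Ne.symm hce), swap_apply_right]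
    have e1 : [a, c, e].map (swap c e * swap b c) = [a, b, c] := by
      simp only [List.map_cons, List.map_nil, Perm.mul_apply]
      congr 1
      · rw [swap_apply_of_ne_of_ne hab hac, swap_apply_of_ne_of_ne hac hae]
      congr 1
      · rw [swap_apply_right, swap_apply_of_ne_of_ne hbc hbe]
      congr 1
      rw [swap_apply_of_ne_of_ne (Ne.symm hbe) (Ne.symm hce), swap_apply_right]
    have e2 : [a, b, e].map (swap c e) = [a, b, c] := by
      simp only [List.map_cons, List.map_nil]
      rw [swap_apply_right, swap_apply_of_ne_of_ne hac hae, swap_apply_of_ne_of_ne hbc hbe]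
    rw [e0, sg_mul, sg_mul, sg_swap hce, sg_swap hbc, sg_swap hab] at m0
    rw [e1, sg_mul, sg_swap hce, sg_swap hbc] at m1
    rw [e2, sg_swap hce] at m2
    -- the relation
    have hR : φ (altT (rho k α) T (bdL F (wds (List.zipWith insert [a, b, c, e] l) Z))) = 0 := by
      rw [hφ0, ← bdL_altT hTX]
      apply Submodule.mem_map_of_mem
      apply ChS_altT hTX
      have hts : ([a, b, c, e] : List α).toFinset = T := by
        rw [hT]; ext x; simp
      have hgc := Gen_chain (k := k) (d := d) (by omega) (ts := [a, b, c, e]) (us := l) (X := X)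
        (Y := A ∪ H) (q := d - 1) (y := Z)
        (by simp only [List.nodup_cons, List.mem_cons, List.not_mem_nil, or_false, not_or,
              List.nodup_nil, not_false_eq_true, and_true]
            exact ⟨⟨hab, hac, hae⟩, ⟨hbc, hbe⟩, hce⟩)
        (by intro t ht
            apply hTX
            rw [← hts, List.mem_toFinset]
            exact ht)
        rfl (by rw [hts]; exact hv.mono hΩX)
        (by rw [hts]
            intro x hx
            rw [Finset.mem_sdiff]
            refine ⟨hAHX hx, fun h => ?_⟩
            rcases Finset.mem_union.1 hx with h1 | h1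
            · exact (Finset.mem_sdiff.1 (hun2 h)).2 h1
            · exact (Finset.mem_sdiff.1 h1).2 h) hZ
      have h5 : d - 1 + ([a, b, c, e] : List α).length = d + 3 := by
        simp only [List.length_cons, List.length_nil]; omega
      rw [h5] at hgc
      exact hgc
    have hcF : ∀ x ∈ List.zipWith insert [a, b, c, e] l, x ∈ F := by
      apply zip_mem (by omega) hTX
      · intro t ht
        simp only [List.mem_cons, List.not_mem_nil, or_false] at ht
        rcases ht with rfl | rfl | rfl | rfl
        · exact haT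
        · exact hbT
        · exact hcT
        · exact heT
      · exact hv.mono hΩX
    have hbw := bd_wds (k := k) (List.zipWith insert [a, b, c, e] l) hcF Z
    have hZ0 : bd F Z = 0 := hZc
    have hw0 : wds (List.zipWith insert [a, b, c, e] l) (0 : List (Finset α) → k) = 0 := by
      have := wds_smul (List.zipWith insert [a, b, c, e] l) (0 : k) (0 : List (Finset α) → k)
      simpa using this
    rw [hZ0, hw0, smul_zero, add_zero] at hbw
    have hbw' : bdL F (wds (List.zipWith insert [a, b, c, e] l) Z) =
        wds (List.zipWith insert [b, c, e] [u2, u3, u4]) Z -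
        wds (List.zipWith insert [a, c, e] [u1, u3, u4]) Z +
        wds (List.zipWith insert [a, b, e] [u1, u2, u4]) Z -
        wds (List.zipWith insert [a, b, c] [u1, u2, u3]) Z := by
      change bd F (wds (List.zipWith insert [a, b, c, e] l) Z) = _
      rw [hbw, hl]
      simp only [List.zipWith_cons_cons, List.zipWith_nil_left, List.length_cons,
        List.length_nil, zero_add, Finset.sum_range_succ, Finset.sum_range_zero,
        List.eraseIdx_cons_zero, List.eraseIdx_cons_succ, pow_zero, one_smul, pow_one,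
        neg_smul, Nat.reduceAdd]
      norm_num
      abel
    have hL : ∀ v, φ (altT (rho k α) T v) = (φ.comp (altL k T)) v := fun v => by
      rw [altL_eq]; rfl
    rw [hbw', hL, map_sub, map_add, map_sub, ← hL, ← hL, ← hL, ← hL] at hR
    have n0 : altT (rho k α) T (wds (List.zipWith insert [b, c, e] [u2, u3, u4]) Z) =
        - altT (rho k α) T (wds (List.zipWith insert [a, b, c] [u2, u3, u4]) Z) := by
      rw [m0]; simp
    have n1 : altT (rho k α) T (wds (List.zipWith insert [a, c, e] [u1, u3, u4]) Z) =
        altT (rho k α) T (wds (List.zipWith insert [a, b, c] [u1, u3, u4]) Z) := by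
      rw [m1]; simp
    have n2 : altT (rho k α) T (wds (List.zipWith insert [a, b, e] [u1, u2, u4]) Z) =
        - altT (rho k α) T (wds (List.zipWith insert [a, b, c] [u1, u2, u4]) Z) := by
      rw [m2]; simp
    rw [n0, n1, n2, map_neg, map_neg, ← hval _ s0 rfl, ← hval _ s1 rfl, ← hval _ s2 rfl,
      ← hval _ s3 rfl] at hR
    have hsum : ∑ i ∈ Finset.range (3 + 1), E (l.eraseIdx i) =
        E [u2, u3, u4] + E [u1, u3, u4] + E [u1, u2, u4] + E [u1, u2, u3] := by
      rw [hl]
      simp only [Finset.sum_range_succ, Finset.sum_range_zero,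
        List.eraseIdx_cons_zero, List.eraseIdx_cons_succ, zero_add]
    rw [hsum]
    have h9 : E [u2, u3, u4] + E [u1, u3, u4] + E [u1, u2, u4] + E [u1, u2, u3] =
        - (-E [u2, u3, u4] - E [u1, u3, u4] + -E [u1, u2, u4] - E [u1, u2, u3]) := by abel
    rw [h9, hR, neg_zero]
  have husΩ : Valid (d - 1) Ω us := by
    refine ⟨fun B hB => ⟨?_, (hus.1 B hB).2⟩, hus.2⟩
    intro x hx
    rw [hΩ, Finset.mem_sdiff]
    exact ⟨(hus.1 B hB).1 hx, fun hxA => (Finset.mem_sdiff.1 (hA hxA)).2 (subset_un hB hx)⟩
  have hfin := lemR k (by omega : 0 < d - 1) 3 Ω (by rw [hΩc]; omega) E hperm hrel us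
    husΩ hlen
  rw [hE3 _ hlen, hφ0] at hfin
  exact hfin

end VKB
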