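import Pool.Agent.VKB.Row0
import Pool.Agent.VKB.Dual

/-!
# Exactness in few variables

`few_exact`: `F` all monomials of degree `d` in the `s` variables of `I`, `μ` of degree `p d + a`,
`a + b = s (d - 1)` with `b < d`. The complex is exact at `p` in multidegree `μ` as soon as
`p + #(monomials of degree b) + s ≤ #(monomials of degree d)`.

Paper proof. `F' = F \ pure d I`, `F'.card = F.card - s`, `q = F'.card - p`. Let `z` be a cycle. Its part
`cut d I F' μ z` is an `RCh d I F' μ p`, so by `surj_of_inj` it is a boundary modulo the pure powers,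
and `quot_all` finishes. The hypothesis of `surj_of_inj`: a cycle modulo pure powers in multidegree
`μ' = ∑ m ∈ F', m + topE d I - μ` with `q` factors lifts to a cycle (`lift_all`), which is zero by `row_zero`:
the degree of `μ'` is `F'.card * d + s (d - 1) - p d - a = q d + b`.
Also used: every element of `F` has all exponents `≤ d`, and one of them equal to `d` iff it is pure.
-/

namespace VKB
open VK

variable {k : Type*} [Field k] [CharZero k] {σ : Type*} [DecidableEq σ]

omit [CharZero k] in
/-- the part of a chain on the lists of elements of `F'` with low remainder -/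
theorem cut_RCh {d : ℕ} (I : Finset σ) {F F' : Finset (σ →₀ ℕ)} {μ : σ →₀ ℕ} {p : ℕ}
    {z : List (σ →₀ ℕ) → k} (hz : ECh F μ p z) : RCh d I F' μ p (cut d I F' μ z) := by
  classical
  have key : ∀ l, cut d I F' μ z l ≠ 0 →
      ((∀ b ∈ l, b ∈ F') ∧ Low d I (μ - l.sum)) ∧ z l ≠ 0 := by
    intro l hl
    unfold cut at hl
    split_ifs at hl with h
    · exact ⟨h, hl⟩
    · exact absurd rfl hl
  refine ⟨⟨?_, ?_⟩, fun l hl => (key l hl).1.2⟩
  · intro l₁ a b l₂
    have hiff : ((∀ c ∈ l₁ ++ a :: b :: l₂, c ∈ F') ∧ Low d I (μ - (l₁ ++ a :: b :: l₂).sum)) ↔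
        ((∀ c ∈ l₁ ++ b :: a :: l₂, c ∈ F') ∧ Low d I (μ - (l₁ ++ b :: a :: l₂).sum)) := by
      have hperm : (l₁ ++ a :: b :: l₂).Perm (l₁ ++ b :: a :: l₂) :=
        List.Perm.append_left _ (List.Perm.swap _ _ _)
      rw [hperm.sum_eq]
      constructor
      · rintro ⟨h1, h2⟩
        exact ⟨fun c hc => h1 c (hperm.mem_iff.2 hc), h2⟩
      · rintro ⟨h1, h2⟩
        exact ⟨fun c hc => h1 c (hperm.mem_iff.1 hc), h2⟩
    unfold cut
    by_cases h : (∀ c ∈ l₁ ++ a :: b :: l₂, c ∈ F') ∧ Low d I (μ - (l₁ ++ a :: b :: l₂).sum)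
    · rw [if_pos h, if_pos (hiff.1 h)]
      exact hz.1 l₁ a b l₂
    · rw [if_neg h, if_neg (fun h' => h (hiff.2 h')), neg_zero]
  · intro l hl
    obtain ⟨h1, h2⟩ := key l hl
    have h3 := hz.2 l h2
    exact ⟨h1.1, h3.2.1, h3.2.2⟩

theorem few_exact (I : Finset σ) {d a b p : ℕ} (hd : 2 ≤ d) {F : Finset (σ →₀ ℕ)}
    (hF : ∀ m, m ∈ F ↔ m.support ⊆ I ∧ m.degree = d) {μ : σ →₀ ℕ} (hμ : μ.support ⊆ I)
    (hdeg : μ.degree = p * d + a) (hab : a + b = I.card * (d - 1)) (hb : b < d)
    (hp : p + (Finset.finsuppAntidiag I b).card + I.card ≤ F.card) : EEx k F μ p := by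
  classical
  have hpure : pure d I ⊆ F := by
    intro m hm
    unfold pure at hm
    obtain ⟨i, hi, rfl⟩ := Finset.mem_image.1 hm
    rw [hF]
    refine ⟨?_, ?_⟩
    · intro j hj
      have := Finsupp.support_single_subset hj
      rw [Finset.mem_singleton] at this
      rw [this]; exact hi
    · exact Finsupp.degree_single i d
  have hpc : (pure d I).card = I.card := by
    unfold pure
    apply Finset.card_image_of_injOn
    intro i _ j _ hij
    have : Finsupp.single i d = Finsupp.single j d := hij
    exact (Finsupp.single_left_injective (by omega : d ≠ 0)) this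
  have hcard : (F \ pure d I).card + I.card = F.card := by
    rw [← hpc]
    exact Finset.card_sdiff_add_card_eq_card hpure
  have hpq : p + ((F \ pure d I).card - p) = (F \ pure d I).card := by omega
  have hF'I : ∀ m ∈ F \ pure d I, m.support ⊆ I := fun m hm =>
    ((hF m).1 (Finset.mem_sdiff.1 hm).1).1
  have hsing : ∀ i ∈ I, Finsupp.single i d ∈ F := fun i hi => hpure (by
    unfold pure
    exact Finset.mem_image_of_mem _ hi)
  have hTI : ((∑ m ∈ F \ pure d I, m) + topE d I).support ⊆ I := by
    intro j hj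
    by_contra hjI
    rw [Finsupp.mem_support_iff] at hj
    apply hj
    rw [Finsupp.add_apply, Finsupp.finsetSum_apply]
    have h1 : ∀ m ∈ F \ pure d I, m j = 0 := fun m hm => by
      by_contra h
      exact hjI (hF'I m hm (Finsupp.mem_support_iff.2 h))
    rw [Finset.sum_eq_zero h1]
    unfold topE
    rw [Finsupp.finsetSum_apply]
    rw [Finset.sum_eq_zero, add_zero]
    intro i hi
    rw [Finsupp.single_apply, if_neg]
    rintro rfl
    exact hjI hi
  have hTdeg : ((∑ m ∈ F \ pure d I, m) + topE d I).degree =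
      (F \ pure d I).card * d + I.card * (d - 1) := by
    rw [map_add, map_sum]
    congr 1
    · rw [Finset.sum_congr rfl (fun m hm => ((hF m).1 (Finset.mem_sdiff.1 hm).1).2)]
      rw [Finset.sum_const, smul_eq_mul]
    · unfold topE
      rw [map_sum, Finset.sum_congr rfl (fun i _ => Finsupp.degree_single i (d - 1)),
        Finset.sum_const, smul_eq_mul]
  intro z hz hcyc
  obtain ⟨w', hw', hbd'⟩ := surj_of_inj (k := k) (d := d) (by omega) I hF'I hμ hpq (by
    intro hle z' hz' hz'c l
    obtain ⟨z'', h1, h2, h3⟩ := lift_all (by omega) I hsing hz' hz'c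
    have hμ' : ((∑ m ∈ F \ pure d I, m) + topE d I - μ).support ⊆ I := by
      intro j hj
      apply hTI
      rw [Finsupp.mem_support_iff] at hj ⊢
      rw [Finsupp.tsub_apply] at hj
      omega
    have hdeg' : ((∑ m ∈ F \ pure d I, m) + topE d I - μ).degree =
        ((F \ pure d I).card - p) * d + b := by
      have h4 : ((∑ m ∈ F \ pure d I, m) + topE d I - μ) + μ =
          (∑ m ∈ F \ pure d I, m) + topE d I := tsub_add_cancel_of_le hle
      have h5 := congrArg Finsupp.degree h4
      rw [map_add, hTdeg, hdeg, ← hab] at h5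
      have h6 : (F \ pure d I).card * d = ((F \ pure d I).card - p) * d + p * d := by
        rw [← Nat.add_mul]
        congr 1
        omega
      omega
    have h4 := row_zero I hb hF hμ' hdeg' (by omega) h1 h2
    by_contra h5
    exact h5 (by rw [← h3 l h5]; exact h4 l)) (cut_RCh I hz)
  refine quot_all (by omega) I hsing hz hcyc hw' ?_
  intro l hl hsum hlow
  rw [hbd' l hsum hlow]
  unfold cut
  rw [if_pos ⟨hl, hlow⟩]

end VKB
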