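import Pool.Agent.VK.Main
import Pool.Agent.VKB.Few

/-!
# Invariant cycles with exactly `s` colours

Paper proof: `VK.few_colours` (file `Pool/Agent/VK/Main.lean`) using `few_exact` instead of `pureExact`; take
`F = finsuppAntidiag (X.image c) d`, which contains `content c B` for all blocks `B`.
`Finset.card_finsuppAntidiag_nat_eq_multichoose` counts the monomials.
-/

namespace VKB
open VK Equiv

theorem mem_fsa_iff {σ : Type*} [DecidableEq σ] (I : Finset σ) (d : ℕ) (m : σ →₀ ℕ) :
    m ∈ Finset.finsuppAntidiag I d ↔ m.support ⊆ I ∧ m.degree = d := by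
  rw [Finset.mem_finsuppAntidiag, and_comm]
  constructor
  · rintro ⟨h1, h2⟩
    refine ⟨h1, ?_⟩
    rw [← h2, Finsupp.degree_apply]
    exact Finset.sum_subset h1 fun i _ hi => Finsupp.notMem_support_iff.1 hi
  · rintro ⟨h1, h2⟩
    refine ⟨h1, ?_⟩
    rw [← h2, Finsupp.degree_apply]
    exact (Finset.sum_subset h1 fun i _ hi => Finsupp.notMem_support_iff.1 hi).symm

variable {k : Type*} [Field k] [CharZero k] {α : Type*} [Fintype α] [DecidableEq α]

/-- invariant modulo boundaries, exactly `s` colours -/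
theorem few_colours2 {d p s a : ℕ} (hd : 2 ≤ d) {X : Finset α} (hX : X.card = p * d + a)
    (hs : a ≤ s * (d - 1)) (hs' : s * (d - 1) < a + d)
    (hp : p + Nat.multichoose s (s * (d - 1) - a) + s ≤ Nat.multichoose s d)
    (c : α → ℕ) (hc : (X.image c).card = s)
    {z : List (Finset α) → k} (hz : z ∈ ChS k d X p) (hbd : bdL (X.powersetCard d) z = 0)
    (hinv : ∀ g ∈ ST X, (∀ x, c (g x) = c x) →
      rho k α g z - z ∈ (ChS k d X (p + 1)).map (bdL (X.powersetCard d))) :
    z ∈ (ChS k d X (p + 1)).map (bdL (X.powersetCard d)) := by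
  classical
  set P := X.powersetCard d with hP
  set Bd := (ChS k d X (p + 1)).map (bdL P) with hBd
  set G := (ST X).filter fun g => ∀ x, c (g x) = c x with hG
  have hGX : ∀ g ∈ G, g ∈ ST X := fun g hg => (Finset.mem_filter.1 hg).1
  have hGc : ∀ g ∈ G, ∀ x, c (g x) = c x := fun g hg => (Finset.mem_filter.1 hg).2
  have hG0 : (G.card : k) ≠ 0 := by
    rw [Nat.cast_ne_zero]
    refine (Finset.card_pos.2 ⟨1, ?_⟩).ne'
    rw [hG, Finset.mem_filter]
    exact ⟨one_mem_ST X, fun _ => rfl⟩
  set zb := (G.card : k)⁻¹ • ∑ g ∈ G, rho k α g z with hzb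
  have h1 : zb - z ∈ Bd := by
    have h2 : zb - z = (G.card : k)⁻¹ • ∑ g ∈ G, (rho k α g z - z) := by
      rw [Finset.sum_sub_distrib, Finset.sum_const, smul_sub, ← Nat.cast_smul_eq_nsmul k,
        smul_smul, inv_mul_cancel₀ hG0, one_smul]
    rw [h2]
    exact Submodule.smul_mem _ _ (Submodule.sum_mem _ fun g hg => hinv g (hGX g hg) (hGc g hg))
  have h2 : zb ∈ Bd := by
    have hI : ∀ b ∈ Finset.finsuppAntidiag (X.image c) d, b.degree = d := fun b hb =>
      ((mem_fsa_iff _ _ _).1 hb).2
    have hex : EEx k (Finset.finsuppAntidiag (X.image c) d) (content c X) p := by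
      apply few_exact (X.image c) hd (a := a) (b := s * (d - 1) - a) (mem_fsa_iff _ _)
        (content_support c X)
      · rw [degree_content, hX]
      · rw [hc]
        omega
      · omega
      · rw [Finset.card_finsuppAntidiag_nat_eq_multichoose,
          Finset.card_finsuppAntidiag_nat_eq_multichoose, hc]
        exact hp
    refine Submodule.mem_map.2 (inv_boundary (k := k) (d := d) (p := p) (X := X) c
      (F := Finset.finsuppAntidiag (X.image c) d)
      (fun B hB => (mem_fsa_iff _ _ _).2 ⟨?_, ?_⟩) hI hex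
      (z := zb) ?_ ?_ ?_)
    · exact (content_support c B).trans
        (Finset.image_subset_image (Finset.mem_powersetCard.1 hB).1)
    · rw [degree_content]
      exact (Finset.mem_powersetCard.1 hB).2
    · exact Submodule.smul_mem _ _ (Submodule.sum_mem _ fun g hg => ChS_rho (hGX g hg) hz)
    · rw [hzb, map_smul, map_sum]
      have h3 : ∀ g ∈ G, bdL (X.powersetCard d) (rho k α g z) = 0 := by
        intro g hg
        rw [bdL_rho (hGX g hg), ← hP, hbd, map_zero]
      rw [Finset.sum_congr rfl h3, Finset.sum_const_zero, smul_zero]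
    · intro h hh hhc
      rw [hzb, map_smul, map_sum]
      congr 1
      refine Finset.sum_nbij' (fun g => h * g) (fun g => h⁻¹ * g) ?_ ?_ ?_ ?_ ?_
      · intro g hg
        rw [hG, Finset.mem_filter] at hg ⊢
        refine ⟨mul_mem_ST hh hg.1, fun x => ?_⟩
        rw [Perm.mul_apply, hhc, hg.2]
      · intro g hg
        rw [hG, Finset.mem_filter] at hg ⊢
        refine ⟨mul_mem_ST (inv_mem_ST hh) hg.1, fun x => ?_⟩
        rw [Perm.mul_apply, ← hhc (h⁻¹ (g x)), ← hg.2 x]
        simp
      · intro g _; simp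
      · intro g _; simp
      · intro g _
        exact (rho_mul (rho k α) h g z).symm
  have h3 : z = zb - (zb - z) := by abel
  rw [h3]
  exact Submodule.sub_mem _ h2 h1

end VKB
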