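import Pool.Agent.VKB.TwoB

/-!
# Garnir relations and averages

`X.card = 2 * cc d`, `B = (ChS k d X d).map (bdL (X.powersetCard d))` (boundaries), `W A = WW k d X A` for
`A ⊆ X`, `A.card = cc d`.

Paper proofs.
* `garnir`: for `Y ⊆ X` with `cc + 1` elements `∑ x ∈ Y, W (Y.erase x)` is a cycle invariant under the
  permutations preserving `Y` (`WW_rho`), so it is a boundary by `inv_two_ne`.
* `avg`: for `A, A' ⊆ X` of size `cc` the sum `P A' = ∑ g ∈ ST A, rho g (W A')` is a multiple of `W A` modulo
  `B`. Induction on `n = (A' \ A).card`. If it is `0` then `A' = A` and `rho g (W A) = W (mv g A) = W A`. Otherwise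
  take `a ∈ A \ A'` and apply `∑ g ∈ ST A, rho g` to `garnir` for `Y = insert a A'`:
  `P A' + ∑ x ∈ A' ∩ A, P (swap x a A') + ∑ x ∈ A' \ A, P (insert a A' \ x) ∈ B`. For `x ∈ A' ∩ A` the swap lies in
  `ST A`, so that summand is `P A'` (reindex `g ↦ g * swap x a`); the last sum is
  a multiple of `W A` by induction. So `(1 + (A' ∩ A).card) • P A'` is a multiple of `W A` modulo `B`.
-/

namespace VKB
open VK Equiv

variable {k : Type*} [Field k] [CharZero k] {α : Type*} [Fintype α] [DecidableEq α]

omit [Fintype α] in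
theorem mv_erase (g : Perm α) (Y : Finset α) (x : α) : mv g (Y.erase x) = (mv g Y).erase (g x) := by
  unfold mv
  rw [Finset.map_erase]
  rfl

theorem mv_eq_of_ST {g : Perm α} {A : Finset α} (hg : g ∈ ST A) : mv g A = A :=
  Finset.eq_of_subset_of_card_le (mv_subset hg (Finset.Subset.refl A)) (by rw [mv_card])

/-- right multiplication is a bijection of `ST T` -/
theorem sum_ST_mul_right {V : Type*} [AddCommMonoid V] {T : Finset α} {h : Perm α} (hh : h ∈ ST T)
    (F : Perm α → V) : ∑ g ∈ ST T, F (g * h) = ∑ g ∈ ST T, F g := by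
  refine Finset.sum_nbij' (fun g => g * h) (fun g => g * h⁻¹) ?_ ?_ ?_ ?_ ?_
  · exact fun g hg => mul_mem_ST hg hh
  · exact fun g hg => mul_mem_ST hg (inv_mem_ST hh)
  · intro g _; simp
  · intro g _; simp
  · intro g _; rfl

omit [Fintype α] in
/-- a sum over the points of `Y` does not change when a permutation preserving `Y` is applied -/
theorem sum_erase_mv {V : Type*} [AddCommMonoid V] {g : Perm α} {Y : Finset α} (hY : mv g Y = Y)
    (F : Finset α → V) : ∑ x ∈ Y, F (Y.erase (g x)) = ∑ x ∈ Y, F (Y.erase x) := by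
  refine Finset.sum_nbij' (fun x => g x) (fun x => g⁻¹ x) ?_ ?_ ?_ ?_ ?_
  · intro x hx
    rw [← hY, mem_mv]
    simpa using hx
  · intro x hx
    have h1 : x ∈ mv g Y := by rw [hY]; exact hx
    exact mem_mv.1 h1
  · intro x _; simp
  · intro x _; simp
  · intro x _; rfl

omit [CharZero k] in
/-- the boundaries are stable under the permutations of `X` -/
theorem map_bdL_rho {d p : ℕ} {X : Finset α} {g : Perm α} (hg : g ∈ ST X)
    {z : List (Finset α) → k} (hz : z ∈ (ChS k d X p).map (bdL (X.powersetCard d))) :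
    rho k α g z ∈ (ChS k d X p).map (bdL (X.powersetCard d)) := by
  obtain ⟨w, hw, rfl⟩ := Submodule.mem_map.1 hz
  exact Submodule.mem_map.2 ⟨rho k α g w, ChS_rho hg hw, bdL_rho hg w⟩

theorem garnir {d : ℕ} (hd : 2 ≤ d) {X Y : Finset α} (hYX : Y ⊆ X) (hX : X.card = 2 * cc d)
    (hY : Y.card = cc d + 1) :
    ∑ x ∈ Y, WW k d X (Y.erase x) ∈ (ChS k d X d).map (bdL (X.powersetCard d)) := by
  have hsub : ∀ x, Y.erase x ⊆ X := fun x => (Finset.erase_subset x Y).trans hYX
  have hcard : ∀ x ∈ Y, (Y.erase x).card = cc d := by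
    intro x hx
    rw [Finset.card_erase_of_mem hx, hY]
    omega
  have hsd : ∀ x ∈ Y, cc d - (d - 1) ≤ (X \ Y.erase x).card := by
    intro x hx
    rw [Finset.card_sdiff_of_subset (hsub x), hX, hcard x hx]
    omega
  refine inv_two_ne hd hYX hX (A := Y) (by omega) ?_ ?_ ?_
  · exact Submodule.sum_mem _ fun x hx => WW_mem hd (hsub x) (hcard x hx) (hsd x hx)
  · rw [map_sum]
    exact Finset.sum_eq_zero fun x hx =>
      WW_cycle hd (hsub x) (Finset.Subset.refl X) (hcard x hx) (hsd x hx)
  · intro g hg hgY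
    rw [map_sum, ← sum_erase_mv hgY (fun C => WW k d X C)]
    refine Finset.sum_congr rfl fun x _ => ?_
    rw [WW_rho hg, mv_erase, hgY]

theorem avg {d : ℕ} (hd : 2 ≤ d) {X A : Finset α} (hAX : A ⊆ X) (hX : X.card = 2 * cc d)
    (hA : A.card = cc d) (n : ℕ) : ∀ A', A' ⊆ X → A'.card = cc d → (A' \ A).card = n →
    ∃ c : k, ∑ g ∈ ST A, rho k α g (WW k d X A') - c • WW k d X A ∈
      (ChS k d X d).map (bdL (X.powersetCard d)) := by
  induction n with
  | zero =>
    intro A' hA'X hA'c hn
    have hsub : A' ⊆ A := by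
      rw [Finset.card_eq_zero, Finset.sdiff_eq_empty_iff_subset] at hn
      exact hn
    have hEq : A' = A := Finset.eq_of_subset_of_card_le hsub (by rw [hA, hA'c])
    subst hEq
    refine ⟨((ST A').card : k), ?_⟩
    have h1 : ∑ g ∈ ST A', rho k α g (WW k d X A') = ((ST A').card : k) • WW k d X A' := by
      rw [Finset.sum_congr rfl (g := fun _ => WW k d X A') fun g hg => by
        rw [WW_rho (ST_mono hAX hg), mv_eq_of_ST hg]]
      rw [Finset.sum_const, Nat.cast_smul_eq_nsmul]
    rw [h1, sub_self]
    exact Submodule.zero_mem _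
  | succ n ih =>
    intro A' hA'X hA'c hn
    set B := (ChS k d X d).map (bdL (X.powersetCard d)) with hB
    set P : Finset α → List (Finset α) → k := fun C => ∑ g ∈ ST A, rho k α g (WW k d X C) with hP
    -- a point of `A` outside `A'`
    have hcards : (A \ A').card = (A' \ A).card := by
      have h1 := Finset.card_sdiff_add_card_inter A A'
      have h2 := Finset.card_sdiff_add_card_inter A' A
      rw [Finset.inter_comm A' A] at h2
      omega
    obtain ⟨a, ha⟩ : (A \ A').Nonempty := by
      rw [← Finset.card_pos, hcards, hn]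
      omega
    obtain ⟨haA, haA'⟩ := Finset.mem_sdiff.1 ha
    have hYX : insert a A' ⊆ X := Finset.insert_subset (hAX haA) hA'X
    have hYc : (insert a A').card = cc d + 1 := by rw [Finset.card_insert_of_notMem haA', hA'c]
    have hg := garnir (k := k) hd hYX hX hYc
    -- apply the average
    have hPsum : ∑ x ∈ insert a A', P ((insert a A').erase x) ∈ B := by
      have h1 : ∑ g ∈ ST A, rho k α g (∑ x ∈ insert a A', WW k d X ((insert a A').erase x)) ∈ B :=
        Submodule.sum_mem _ fun g hgA => map_bdL_rho (ST_mono hAX hgA) hg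
      have h2 : ∑ g ∈ ST A, rho k α g (∑ x ∈ insert a A', WW k d X ((insert a A').erase x)) =
          ∑ x ∈ insert a A', P ((insert a A').erase x) := by
        rw [hP]
        simp only [map_sum]
        exact Finset.sum_comm
      rw [← h2]
      exact h1
    rw [Finset.sum_insert haA', Finset.erase_insert haA'] at hPsum
    rw [← Finset.sum_inter_add_sum_sdiff A' A] at hPsum
    have hint : ∀ x ∈ A' ∩ A, P ((insert a A').erase x) = P A' := by
      intro x hx
      obtain ⟨hxA', hxA⟩ := Finset.mem_inter.1 hx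
      have hsw : swap x a ∈ ST A := swap_mem_ST hxA haA
      have hxa : x ≠ a := fun h => haA' (h ▸ hxA')
      have hmv : mv (swap x a) A' = (insert a A').erase x := by
        ext y
        rw [mem_mv, swap_inv, Finset.mem_erase, Finset.mem_insert]
        by_cases h1 : y = x
        · subst h1
          rw [swap_apply_left]
          simp [haA']
        · by_cases h2 : y = a
          · subst h2
            rw [swap_apply_right]
            simp [hxA', h1]
          · rw [swap_apply_of_ne_of_ne h1 h2]
            simp [h1, h2]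
      simp only [hP]
      rw [← hmv, ← WW_rho (ST_mono hAX hsw)]
      rw [← sum_ST_mul_right hsw (fun g => rho k α g (WW k d X A'))]
      exact Finset.sum_congr rfl fun g _ => (rho_mul (rho k α) g (swap x a) _).symm
    rw [Finset.sum_congr rfl hint, Finset.sum_const] at hPsum
    -- the induction hypothesis
    have hex : ∀ x ∈ A' \ A, ∃ c : k, P ((insert a A').erase x) - c • WW k d X A ∈ B := by
      intro x hx
      obtain ⟨hxA', hxA⟩ := Finset.mem_sdiff.1 hx
      refine ih _ ((Finset.erase_subset _ _).trans hYX) ?_ ?_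
      · rw [Finset.card_erase_of_mem (Finset.mem_insert_of_mem hxA'), hYc]
        omega
      · have h1 : (insert a A').erase x \ A = (A' \ A).erase x := by
          ext y
          simp only [Finset.mem_sdiff, Finset.mem_erase, Finset.mem_insert]
          constructor
          · rintro ⟨⟨h1, h2⟩, h3⟩
            rcases h2 with h2 | h2
            · exact absurd (h2 ▸ haA) h3
            · exact ⟨h1, h2, h3⟩
          · rintro ⟨h1, h2, h3⟩
            exact ⟨⟨h1, Or.inr h2⟩, h3⟩
        rw [h1, Finset.card_erase_of_mem hx, hn]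
        omega
    choose! c hc using hex
    have hsumc : ∑ x ∈ A' \ A, P ((insert a A').erase x) -
        (∑ x ∈ A' \ A, c x) • WW k d X A ∈ B := by
      rw [Finset.sum_smul, ← Finset.sum_sub_distrib]
      exact Submodule.sum_mem _ hc
    set m : ℕ := (A' ∩ A).card with hm
    have hm0 : ((m : k) + 1) ≠ 0 := by
      have : ((m + 1 : ℕ) : k) ≠ 0 := Nat.cast_ne_zero.2 (Nat.succ_ne_zero m)
      push_cast at this
      exact this
    refine ⟨-((m : k) + 1)⁻¹ * ∑ x ∈ A' \ A, c x, ?_⟩
    have hkey : P A' + (m • P A' + ∑ x ∈ A' \ A, P ((insert a A').erase x)) -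
        (∑ x ∈ A' \ A, P ((insert a A').erase x) - (∑ x ∈ A' \ A, c x) • WW k d X A) ∈ B :=
      Submodule.sub_mem _ hPsum hsumc
    have hkey2 := Submodule.smul_mem B ((m : k) + 1)⁻¹ hkey
    have h3 : ((m : k) + 1)⁻¹ • (P A' + (m • P A' + ∑ x ∈ A' \ A, P ((insert a A').erase x)) -
        (∑ x ∈ A' \ A, P ((insert a A').erase x) - (∑ x ∈ A' \ A, c x) • WW k d X A)) =
        P A' - (-((m : k) + 1)⁻¹ * ∑ x ∈ A' \ A, c x) • WW k d X A := by
      rw [← Nat.cast_smul_eq_nsmul k m (P A')]
      have h4 : P A' + ((m : k) • P A' + ∑ x ∈ A' \ A, P ((insert a A').erase x)) -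
          (∑ x ∈ A' \ A, P ((insert a A').erase x) - (∑ x ∈ A' \ A, c x) • WW k d X A) =
          ((m : k) + 1) • P A' + (∑ x ∈ A' \ A, c x) • WW k d X A := by
        rw [add_smul, one_smul]
        abel
      rw [h4, smul_add, smul_smul, smul_smul, inv_mul_cancel₀ hm0, one_smul, neg_mul, neg_smul,
        sub_neg_eq_add]
    rw [h3] at hkey2
    exact hkey2

end VKB
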