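import Pool.Agent.VKB.Elem
import Pool.Agent.VKB.AntiA

/-!
# The antisymmetric lemma at `a = 2 d - 1`, `p = d + 2`

Paper proof of `thmX`: `anti_boundary2` for `altT T z` (antisymmetric by `rho_altT`, a cycle), which gives
`altT T (altT T z) = (ST T).card • altT T z`-type statements; directly: apply it with `z := altT T z`. Write
`T = {a, b, c, e}`, `t = e`, `T.erase e = {a, b, c}`. `hq1` from `qex` and `set_exact` (`q = d - 2`, `a = 2 d - 1`,
`Bnd d (2 d - 1) = d + 1`). `hq2` from `qgen` with `ts = [a, b, c]`, the set `X.erase e`,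
`S Y = {WW k d Y A | A ⊆ Y, A.card = cc d}` and `span_WW` (`Y.card = 2 cc d`, `q = d - 1`); the
elements of `Gen` are chains on `X` (`Gen_chain`) and `altT T` of them is a boundary by `elem_boundary`.
-/

namespace VKB
open VK Equiv

variable {k : Type*} [Field k] [CharZero k] {α : Type*} [Fintype α] [DecidableEq α]

omit [Fintype α] in
/-- the union of a valid list -/
theorem un_valid {e : ℕ} : ∀ (us : List (Finset α)) (Z : Finset α), Valid e Z us →
    un us ⊆ Z ∧ (un us).card = us.length * e := by
  intro us
  induction us with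
  | nil =>
    intro Z _
    simp [un]
  | cons B us ih =>
    intro Z h
    rw [valid_cons] at h
    obtain ⟨⟨h1, h2⟩, h3⟩ := h
    obtain ⟨h4, h5⟩ := ih _ h3
    have h6 : un (B :: us) = B ∪ un us := rfl
    rw [h6]
    refine ⟨Finset.union_subset h1 (h4.trans Finset.sdiff_subset), ?_⟩
    rw [Finset.card_union_of_disjoint, h2, h5, List.length_cons]
    · ring
    · rw [Finset.disjoint_left]
      intro x hx hx'
      exact (Finset.mem_sdiff.1 (h4 hx')).2 hx

omit [CharZero k] [Fintype α] in
theorem ChS_mono {d p : ℕ} {X Y : Finset α} (h : X ⊆ Y) : ChS k d X p ≤ ChS k d Y p := by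
  intro z hz
  refine ⟨hz.1, fun l hl => ?_⟩
  exact ⟨(hz.2 l hl).1.mono h, (hz.2 l hl).2⟩

/-- `Bnd d (2 d - 1) ≥ d - 1` in the form used -/
theorem Bnd_2d {d : ℕ} (hd : 2 ≤ d) : d - 1 < Bnd d (2 * d - 1) := by
  obtain ⟨e, rfl⟩ : ∃ e, d = e + 2 := ⟨d - 2, by omega⟩
  have h1 : 2 * (e + 2) - 1 = (e + 1) + (e + 1) + 1 := by omega
  unfold Bnd
  rw [h1, Finset.sum_range_succ, Finset.sum_range_add]
  have h2 : ∀ x ∈ Finset.range (e + 1), ((e + 1) + x) / (e + 2 - 1) = 1 := by
    intro x hx
    rw [Finset.mem_range] at hx
    have h3 : e + 2 - 1 = e + 1 := by omega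
    rw [h3]
    rw [Nat.add_div_left _ (by omega), Nat.div_eq_of_lt hx]
  have h4 : ((e + 1) + (e + 1)) / (e + 2 - 1) = 2 := by
    have h3 : e + 2 - 1 = e + 1 := by omega
    rw [h3]
    have h5 : e + 1 + (e + 1) = (e + 1) * 2 := by ring
    rw [h5, Nat.mul_div_cancel_left _ (by omega)]
  rw [Finset.sum_congr rfl h2, h4, Finset.sum_const, Finset.card_range, smul_eq_mul, mul_one]
  omega

/-- **the antisymmetric lemma at `a = 2 d - 1`, `p = d + 2`** -/
theorem thmX {d : ℕ} (hd : 3 ≤ d) {X T : Finset α} (hTX : T ⊆ X) (hT : T.card = 4)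
    (hX : X.card = (d + 2) * d + (2 * d - 1)) {z : List (Finset α) → k}
    (hz : z ∈ ChS k d X (d + 2)) (hbd : bdL (X.powersetCard d) z = 0) :
    altT (rho k α) T z ∈ (ChS k d X (d + 3)).map (bdL (X.powersetCard d)) := by
  classical
  -- the four points
  obtain ⟨e, T', heT', rfl, hT'⟩ := Finset.card_eq_succ.1 hT
  obtain ⟨a, b, c, hab, hac, hbc, rfl⟩ := Finset.card_eq_three.1 hT'
  have hea : e ≠ a := fun h => heT' (by rw [h]; simp)
  have heb : e ≠ b := fun h => heT' (by rw [h]; simp)
  have hec : e ≠ c := fun h => heT' (by rw [h]; simp)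
  have hTeq : ({a, b, c, e} : Finset α) = insert e {a, b, c} := by
    ext x
    simp only [Finset.mem_insert, Finset.mem_singleton]
    tauto
  set T : Finset α := insert e {a, b, c} with hTdef
  have heT : e ∈ T := Finset.mem_insert_self _ _
  have hTe : T.erase e = {a, b, c} := Finset.erase_insert heT'
  have hnd : [a, b, c, e].Nodup := by
    simp only [List.nodup_cons, List.mem_cons, List.not_mem_nil, or_false, not_or, not_false_eq_true,
      List.nodup_nil, and_true]
    exact ⟨⟨hab, hac, hea.symm⟩, ⟨hbc, heb.symm⟩, hec.symm⟩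
  have htoF : [a, b, c].toFinset = ({a, b, c} : Finset α) := by
    ext x
    simp
  have hXe : X.erase e \ ({a, b, c} : Finset α) = X \ {a, b, c, e} := by
    ext x
    simp only [Finset.mem_sdiff, Finset.mem_erase, Finset.mem_insert, Finset.mem_singleton]
    tauto
  have h2cc := two_cc d
  have hdd : (d - 1) * d + 2 * (d - 1) + 2 = d * d + d := by
    obtain ⟨f, rfl⟩ : ∃ f, d = f + 1 := ⟨d - 1, by omega⟩
    simp only [Nat.add_sub_cancel]
    ring
  have hX' : X.card = 4 + 3 * (d - 1) + 2 * cc d := by
    rw [hX]
    have h1 : (d + 2) * d = d * d + 2 * d := by ring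
    omega
  have hXec : (X.erase e).card + 1 = X.card := Finset.card_erase_add_one (hTX heT)
  set P := X.powersetCard d with hP
  set Bd := (ChS k d X (d + 3)).map (bdL P) with hBd
  have hz1 : altT (rho k α) T z ∈ ChS k d X (d + 2) := ChS_altT hTX hz
  refine anti_boundary2 (k := k) (d := d) (p := d + 2) (X := X) (T := T) hTX heT ?_ ?_ hz1 ?_
    (fun g hg => rho_altT (rho k α) hg z)
  · -- `hq1`
    apply qex T X (d + 2) hTX
    intro Y hY hYc q hq
    rw [hT] at hYc hq
    apply set_exact d (2 * d - 1) q
    · have h1 := Bnd_2d (d := d) (by omega)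
      omega
    · obtain ⟨f, rfl⟩ : ∃ f, d = f + 2 := ⟨d - 2, by omega⟩
      have h1 : q = f := by omega
      subst h1
      have h2 : (q + 2 + 2) * (q + 2) = q * (q + 2) + 4 * (q + 2) := by ring
      omega
  · -- `hq2`
    intro y hy hybd
    rw [hTe] at hy hybd ⊢
    let S : Finset α → Set (List (Finset α) → k) := fun Y =>
      {v | ∃ A, A ⊆ Y ∧ A.card = cc d ∧ v = WW k d Y A}
    obtain ⟨w, s, hw, hs, hws⟩ := qgen (k := k) (d := d) (by omega) S [a, b, c] (X.erase e) (d + 2)
      (by
        simp only [List.nodup_cons, List.mem_cons, List.not_mem_nil, or_false, not_or,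
          not_false_eq_true, List.nodup_nil, and_true]
        exact ⟨⟨hab, hac⟩, hbc⟩)
      (by
        intro t ht
        rw [Finset.mem_erase]
        have h1 : t ∈ ({a, b, c} : Finset α) := by rw [← htoF]; exact List.mem_toFinset.2 ht
        exact ⟨fun h => heT' (h ▸ h1), hTX (Finset.mem_insert_of_mem h1)⟩)
      (by
        intro Y hY hYc q hq z hz hbd
        have hq' : q = d - 1 := by
          have : [a, b, c].length = 3 := rfl
          omega
        have hYc' : Y.card = 2 * cc d := by
          have : [a, b, c].length = 3 := rfl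
          rw [this] at hYc
          have h1 : (d + 2) * d = d * d + 2 * d := by ring
          omega
        subst hq'
        have h1 : d - 1 + 1 = d := by omega
        rw [h1]
        exact span_WW (by omega) hYc' hz hbd)
      y (by rw [htoF]; exact hy) (by rw [htoF]; exact hybd)
    rw [htoF] at hw hws
    -- elements of `Gen`
    have hgen : ∀ s ∈ Gen k d S [a, b, c] (X.erase e),
        s ∈ ChS k d X (d + 2) ∧ altT (rho k α) T s ∈ Bd := by
      intro s hs
      refine Submodule.span_induction (p := fun s _ => s ∈ ChS k d X (d + 2) ∧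
        altT (rho k α) T s ∈ Bd) ?_ ?_ ?_ ?_ hs
      · rintro v ⟨us, hlen, hus, y, ⟨A, hAY, hAc, rfl⟩, rfl⟩
        have hus' := hus
        have hlen' := hlen
        rw [htoF, hXe] at hus hAY
        rw [htoF, hXe]
        obtain ⟨hun, hunc⟩ := un_valid us _ hus
        have hc4 : (X \ {a, b, c, e}).card + 4 = X.card := by
          have h1 : (({a, b, c, e} : Finset α)).card = 4 := by rw [hTeq]; exact hT
          rw [← h1]
          exact Finset.card_sdiff_add_card_eq_card (by rw [hTeq]; exact hTX)
        have hYc : ((X \ {a, b, c, e}) \ un us).card = 2 * cc d := by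
          have h1 := Finset.card_sdiff_add_card_eq_card hun
          have h2 : [a, b, c].length = 3 := rfl
          rw [hunc, hlen, h2] at h1
          omega
        have hYA : cc d - (d - 1) ≤ (((X \ {a, b, c, e}) \ un us) \ A).card := by
          have h1 := Finset.card_sdiff_add_card_eq_card hAY
          omega
        refine ⟨?_, ?_⟩
        · have h1 : wds (List.zipWith insert [a, b, c] us)
              (WW k d ((X \ {a, b, c, e}) \ un us) A) ∈
                ChS k d (X.erase e) ((d - 1) + [a, b, c].length) := by
            refine Gen_chain (by omega) (X := X.erase e) (Y := (X \ {a, b, c, e}) \ un us)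
              ?_ ?_ hlen hus' ?_ (WW_mem (by omega) hAY hAc hYA)
            · simp only [List.nodup_cons, List.mem_cons, List.not_mem_nil, or_false, not_or,
                not_false_eq_true, List.nodup_nil, and_true]
              exact ⟨⟨hab, hac⟩, hbc⟩
            · intro t ht
              rw [Finset.mem_erase]
              have h1 : t ∈ ({a, b, c} : Finset α) := by rw [← htoF]; exact List.mem_toFinset.2 ht
              exact ⟨fun h => heT' (h ▸ h1), hTX (Finset.mem_insert_of_mem h1)⟩
            · rw [htoF, hXe]
          have h2 : (d - 1) + [a, b, c].length = d + 2 := by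
            have : [a, b, c].length = 3 := rfl
            omega
          rw [h2] at h1
          exact ChS_mono (Finset.erase_subset _ _) h1
        · have h1 := elem_boundary (k := k) hd hnd (X := X) (by rw [hTeq]; exact hTX) hX' hlen hus
            hAY hAc
          rw [hTeq] at h1 ⊢
          exact h1
      · refine ⟨Submodule.zero_mem _, ?_⟩
        have h1 : altT (rho k α) T (0 : List (Finset α) → k) = 0 := by
          unfold altT
          exact Finset.sum_eq_zero fun g _ => by rw [map_zero, smul_zero]
        rw [h1]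
        exact Submodule.zero_mem _
      · rintro x y _ _ ⟨hx1, hx2⟩ ⟨hy1, hy2⟩
        refine ⟨Submodule.add_mem _ hx1 hy1, ?_⟩
        have h1 : altT (rho k α) T (x + y) = altT (rho k α) T x + altT (rho k α) T y := by
          unfold altT
          rw [← Finset.sum_add_distrib]
          exact Finset.sum_congr rfl fun g _ => by rw [map_add, smul_add]
        rw [h1]
        exact Submodule.add_mem _ hx2 hy2
      · rintro r x _ ⟨hx1, hx2⟩
        refine ⟨Submodule.smul_mem _ _ hx1, ?_⟩
        have h1 : altT (rho k α) T (r • x) = r • altT (rho k α) T x := by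
          unfold altT
          rw [Finset.smul_sum]
          exact Finset.sum_congr rfl fun g _ => by rw [map_smul, smul_comm]
        rw [h1]
        exact Submodule.smul_mem _ _ hx2
    obtain ⟨hs1, hs2⟩ := hgen s hs
    exact ⟨w, s, hw, hs1, hws, hs2⟩
  · -- a cycle
    rw [bdL_altT hTX, ← hP, hbd]
    unfold altT
    exact Finset.sum_eq_zero fun g _ => by rw [map_zero, smul_zero]

end VKB
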