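import Pool.Agent.VKB.Bound
import Pool.Agent.VKB.Few2
import Pool.Agent.VKB.ThmX

/-!
# Exactness of the squarefree model below `BB d a`

Paper proofs.
* `set_exact2`: induction on `a` (the case `a = 0` is void), strong induction on `p`, as in `VK.set_exact`.
  Let `s = a / (d - 1) + 1`, `X.card = p d + (a + 1)`, `p < BB d (a + 1)`. Apply `rep_lemma` with `n = s + 1`.
  (ha): fewer than `s` colours: `VK.few_colours` with `m = s - 1 = a / (d - 1)`; exactly `s` colours:
  `few_colours2` with `LL_use`. (hb): `T.card = s + 1`. If `p < BB d a + s`: `anti_boundary`, `qex`, the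
  induction hypotheses (`q = p - s - 1` at `a + 1`, `q = p - s` at `a`) as in `VK.set_exact`.
  (If `d - 1` divides `a + 1`, then `a + 1 = s (d - 1)`, `few_colours2` also applies to `s + 1` colours, and
  `rep_lemma` with `n = s + 2` needs only `p < BB d a + s + 1`.)
  Otherwise `a = 2 (d - 1)`, `s = 3` and `p = BB d a + 3 ≤ LL d a + 3 = d + 2` (`BB_le_LL`, `LL_two`). For `q = p - 3` we
  have `q ≤ d - 1`. If `q < BB d a` we are in the first case, so `BB d a = q`; if `p = d + 2` use `thmX`
  (`d ≥ 3`; for `d = 2` we have `p < LL 2 3 = 3`, so `p < s`, impossible since `p = BB d a + 3`). If `p < d + 2` then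
  `q < d - 1 = Bnd d (2 d - 2)` and `VK.set_exact` gives the exactness needed in place of the induction
  hypothesis for `a`.
-/

namespace VKB
open VK Equiv

variable {k : Type*} [Field k] [CharZero k] {α : Type*} [Fintype α] [DecidableEq α]

/-- **exactness of the squarefree model** -/
theorem set_exact2 (d : ℕ) (hd : 2 ≤ d) : ∀ (a p : ℕ), p < BB d a → ∀ X : Finset α,
    X.card = p * d + a → Ex k d X p := by
  classical
  intro a
  induction a with
  | zero =>
    intro p hp
    rw [BB_zero] at hp
    exact absurd hp (Nat.not_lt_zero p)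
  | succ a iha =>
    intro p
    induction p using Nat.strong_induction_on with
    | _ p ihp =>
    intro hp X hX z hz hbd
    have hd1 : 0 < d - 1 := by omega
    obtain ⟨m, hm⟩ : ∃ m, a / (d - 1) = m := ⟨_, rfl⟩
    have hm1 : m * (d - 1) ≤ a := hm ▸ Nat.div_mul_le_self a (d - 1)
    have hm2 : a < (m + 1) * (d - 1) := by
      rw [← hm, Nat.mul_comm]
      exact Nat.lt_mul_div_succ a hd1
    have hm3 : (m + 1) * (d - 1) = m * (d - 1) + (d - 1) := by ring
    have hpB : p < BB d (a + 1) := hp
    have hpL : p < LL d (a + 1) := lt_of_lt_of_le hp (BB_le_LL hd (a + 1))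
    rw [BB_succ, hm] at hp
    have hp2 : p < BB d a + (m + 1) + if a = 2 * (d - 1) ∨ (d - 1) ∣ (a + 1) then 1 else 0 :=
      lt_of_lt_of_le hp (min_le_right _ _)
    set P := X.powersetCard d with hP
    have hbd' : bdL P z = 0 := by
      funext l
      exact hbd l
    set Z := ChS k d X p ⊓ LinearMap.ker (bdL P) with hZ
    set Bd := (ChS k d X (p + 1)).map (bdL P) with hBd
    have hzZ : z ∈ Z := ⟨hz, hbd'⟩
    have hZg : ∀ g ∈ ST X, ∀ z ∈ Z, rho k α g z ∈ Z := by
      rintro g hg z ⟨h1, h2⟩
      refine ⟨ChS_rho hg h1, ?_⟩
      rw [SetLike.mem_coe, LinearMap.mem_ker] at h2 ⊢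
      rw [hP, bdL_rho hg, ← hP, h2, map_zero]
    have hBg : ∀ g ∈ ST X, ∀ z ∈ Bd, rho k α g z ∈ Bd := by
      rintro g hg z ⟨w, hw, rfl⟩
      refine ⟨rho k α g w, ChS_rho hg hw, ?_⟩
      rw [hP, bdL_rho hg]
    -- the general case of antisymmetrisation over `N + 1` points
    have genN : ∀ N : ℕ, ∀ T : Finset α, T ⊆ X → T.card = N + 1 → ∀ z ∈ Z,
        (∀ q, q + N = p → ∀ Y : Finset α, Y.card = q * d + a → Ex k d Y q) →
          altT (rho k α) T z ∈ Bd := by
      rintro N T hTX hT z ⟨h1, h2⟩ hex
      rw [SetLike.mem_coe, LinearMap.mem_ker] at h2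
      have hTne : T.Nonempty := Finset.card_pos.1 (by omega)
      refine Submodule.mem_map.2 (anti_boundary (k := k) (d := d) (p := p) hTX hTne ?_ ?_
        (z := altT (rho k α) T z) (ChS_altT hTX h1) ?_ (fun g hg => rho_altT (rho k α) hg z))
      · apply qex T X p hTX
        intro Y hY hYc q hq
        rw [hT] at hYc hq
        apply ihp q (by omega) (by omega)
        have h3 : p * d = q * d + (N + 1) * d := by rw [← hq]; ring
        omega
      · intro t ht
        have hTt : (T.erase t).card = N := by
          rw [Finset.card_erase_of_mem ht, hT]; rfl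
        have hXt : (X.erase t).card = p * d + a := by
          rw [Finset.card_erase_of_mem (hTX ht), hX]; rfl
        apply qex (T.erase t) (X.erase t) p (Finset.erase_subset_erase t hTX)
        intro Y hY hYc q hq
        rw [hTt] at hYc hq
        rw [hXt] at hYc
        apply hex q hq
        have h3 : p * d = q * d + N * d := by rw [← hq]; ring
        omega
      · rw [bdL_altT hTX, ← hP, h2]
        unfold altT
        exact Finset.sum_eq_zero fun g _ => by rw [map_zero, smul_zero]
    have h3L := LL_use hd hpL
    rw [hm] at h3L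
    have key : z ∈ Bd := by
      by_cases hdiv : (d - 1) ∣ (a + 1)
      · -- `a + 1 = (m + 1) (d - 1)`
        have ha1 : a + 1 = (m + 1) * (d - 1) := by
          obtain ⟨c, hc⟩ := hdiv
          rw [Nat.mul_comm] at hc
          have h4 : c = m + 1 := by
            apply le_antisymm
            · by_contra hlt
              have h5 : (m + 2) * (d - 1) ≤ c * (d - 1) := Nat.mul_le_mul_right _ (by omega)
              have h6 : (m + 2) * (d - 1) = (m + 1) * (d - 1) + (d - 1) := by ring
              omega
            · by_contra hlt
              have h5 : c * (d - 1) ≤ m * (d - 1) := Nat.mul_le_mul_right _ (by omega)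
              omega
          rw [hc, h4]
        rw [if_pos (Or.inr hdiv)] at hp2
        refine rep_lemma (rho k α) (Z := Z) (B := Bd) (X := X) hZg hBg (m + 3) ?_ ?_ z hzZ
        · rintro c hc z ⟨h1, h2⟩ hinv
          rw [SetLike.mem_coe, LinearMap.mem_ker] at h2
          rcases Nat.lt_or_ge (X.image c).card (m + 1) with hc1 | hc1
          · exact few_colours hX hm1 c hc1 h1 h2 hinv
          rcases Nat.lt_or_ge (X.image c).card (m + 2) with hc3 | hc3
          · have hc2 : (X.image c).card = m + 1 := by omega
            exact few_colours2 hd hX (by omega) (by omega) h3L c hc2 h1 h2 hinv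
          · have hc2 : (X.image c).card = m + 2 := by omega
            have h6 : (m + 2) * (d - 1) = (m + 1) * (d - 1) + (d - 1) := by ring
            refine few_colours2 hd hX (by omega) (by omega) ?_ c hc2 h1 h2 hinv
            rw [show (m + 2) * (d - 1) - (a + 1) = d - 1 by omega]
            rw [show (m + 1) * (d - 1) - (a + 1) = 0 by omega, Nat.multichoose_zero_right] at h3L
            obtain ⟨e, rfl⟩ : ∃ e, d = e + 1 := ⟨d - 1, by omega⟩
            rw [Nat.add_sub_cancel, show m + 2 = m + 1 + 1 from rfl, Nat.multichoose_succ_succ]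
            omega
        · intro T hTX hT z hz'
          exact genN (m + 2) T hTX hT z hz' fun q hq Y hY => iha q (by omega) Y hY
      replace hp2 : p < BB d a + (m + 1) + if a = 2 * (d - 1) then 1 else 0 := by
        refine lt_of_lt_of_le hp2 (Nat.add_le_add_left ?_ _)
        by_cases ha2 : a = 2 * (d - 1)
        · rw [if_pos ha2]
          split_ifs <;> omega
        · rw [if_neg ha2, if_neg (not_or.2 ⟨ha2, hdiv⟩)]
      refine rep_lemma (rho k α) (Z := Z) (B := Bd) (X := X) hZg hBg (m + 2) ?_ ?_ z hzZ
      · rintro c hc z ⟨h1, h2⟩ hinv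
        rw [SetLike.mem_coe, LinearMap.mem_ker] at h2
        rcases Nat.lt_or_ge (X.image c).card (m + 1) with hc1 | hc1
        · exact few_colours hX hm1 c hc1 h1 h2 hinv
        · have hc2 : (X.image c).card = m + 1 := by omega
          exact few_colours2 hd hX (by omega) (by omega) h3L c hc2 h1 h2 hinv
      · rintro T hTX hT z ⟨h1, h2⟩
        rw [SetLike.mem_coe, LinearMap.mem_ker] at h2
        have gen : (∀ q, q + (m + 1) = p → ∀ Y : Finset α, Y.card = q * d + a → Ex k d Y q) →
            altT (rho k α) T z ∈ Bd :=
          genN (m + 1) T hTX hT z ⟨h1, LinearMap.mem_ker.2 h2⟩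
        rcases Nat.lt_or_ge p (BB d a + (m + 1)) with hpa | hpa
        · exact gen fun q hq Y hY => iha q (by omega) Y hY
        · have ha2 : a = 2 * (d - 1) := by
            by_contra hne
            rw [if_neg hne] at hp2
            omega
          rw [if_pos ha2] at hp2
          have hm' : m = 2 := by
            rw [← hm, ha2]
            exact Nat.mul_div_cancel _ hd1
          subst hm'
          have hLd : BB d a ≤ d - 1 := by
            have h3 := BB_le_LL hd a
            rw [ha2, LL_two hd] at h3
            rwa [ha2]
          rcases Nat.lt_or_ge p (d + 2) with hpd | hpd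
          · apply gen
            intro q hq Y hY z hz hbd
            have hB : Bnd d a = d - 1 := by
              rw [ha2, Bnd, two_mul, Finset.sum_range_add]
              rw [Finset.sum_eq_zero, zero_add, Finset.sum_congr rfl (g := fun _ => 1)]
              · simp
              · intro i hi
                rw [Finset.mem_range] at hi
                rw [Nat.add_div_left _ hd1, Nat.div_eq_of_lt hi]
              · intro i hi
                rw [Finset.mem_range] at hi
                exact Nat.div_eq_of_lt hi
            exact set_exact d a q (by omega) Y hY z hz hbd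
          · have hpd' : p = d + 2 := by omega
            have hd3 : 3 ≤ d := by
              by_contra hlt
              have hd2 : d = 2 := by omega
              subst hd2
              have ha3 : a + 1 = 3 := by omega
              rw [ha3, BB_two 0] at hpL
              omega
            subst hpd'
            have hX' : X.card = (d + 2) * d + (2 * d - 1) := by
              rw [hX]; omega
            exact thmX hd3 hTX hT hX' h1 (by rw [← hP]; exact h2)
    obtain ⟨w, hw, hw'⟩ := key
    exact ⟨w, hw, fun l => congrFun hw' l⟩

/-- **exactness of the exponent model** -/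
theorem expo_exact2 {σ : Type*} [Fintype σ] [DecidableEq σ] (d a p : ℕ) (hd : 2 ≤ d)
    (hp : p < BB d a) (μ : σ →₀ ℕ) (hμ : μ.degree = p * d + a) (F : Finset (σ →₀ ℕ))
    (hF : ∀ b, b ∈ F ↔ b.degree = d) : EEx k F μ p := by
  classical
  set X : Finset (Σ i : σ, Fin (μ i)) := Finset.univ with hX
  have h1 : content (fun x : (Σ i : σ, Fin (μ i)) => x.1) X = μ := by
    ext i
    rw [content_apply, hX]
    have h2 : (Finset.univ.filter fun x : (Σ i : σ, Fin (μ i)) => x.1 = i) =
        (Finset.univ : Finset (Fin (μ i))).image (fun j => (⟨i, j⟩ : Σ i : σ, Fin (μ i))) := by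
      ext ⟨j, x⟩
      simp only [Finset.mem_filter, Finset.mem_univ, true_and, Finset.mem_image]
      constructor
      · intro h
        subst h
        exact ⟨x, rfl⟩
      · rintro ⟨y, hy⟩
        exact (congrArg Sigma.fst hy).symm
    rw [h2, Finset.card_image_of_injective, Finset.card_univ, Fintype.card_fin]
    intro x y hxy
    simpa using hxy
  rw [← h1]
  apply eex_of_ex _ (d := d)
  · intro B hB
    rw [hF, degree_content]
    exact (Finset.mem_powersetCard.1 hB).2
  · exact fun b hb => (hF b).1 hb
  · apply set_exact2 d hd a p hp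
    rw [← degree_content (fun x : (Σ i : σ, Fin (μ i)) => x.1), h1, hμ]

end VKB
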