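import Pool.Agent.VK.Koszul
import Pool.Agent.VKB.Main

/-!
# The Koszul cohomology

Paper proof: `Pool/Agent/VK/Koszul.lean` with `expo_exact2` in place of `expo_exact` (copy the proofs of
`cycle_is_boundary` and `vanishing`; the only use of the bound in `cycle_is_boundary` is
the exactness of the exponent model).
-/

open TensorProduct

namespace VKB
open VK

/-- **vanishing**, on the level of elements -/
theorem cycle_is_boundary2 (n d p : ℕ) (m : ℤ) (hd2 : 2 ≤ d) (hp : p < BB d m.toNat) {x : KosAlg n d}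
    (hx : x ∈ chains n d p m) (hdx : ctr (mulMap (piece n (d : ℤ))) x = 0) :
    ∃ y ∈ chains n d (p + 1) (m - d), ctr (mulMap (piece n (d : ℤ))) y = x := by
  classical
  set a := m.toNat with ha
  have hapos : 0 < a := by
    by_contra h
    have h0 : a = 0 := by omega
    rw [h0, BB_zero] at hp
    exact absurd hp (Nat.not_lt_zero p)
  have hma : m = (a : ℤ) := by omega
  set F := FF n d with hF
  set Z : List (Fin (n + 1) →₀ ℕ) → PolyS n := fun l => Psi (dual n d) l x with hZ
  have hZA : Alt Z := Psi_alt _ x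
  have hZp : ∀ l, Z l ∈ piece n m := fun l => (Psi_chains l p hx).1
  have hZl : ∀ l, Z l ≠ 0 → l.length = p := fun l => (Psi_chains l p hx).2
  have hZF : ∀ l, Z l ≠ 0 → ∀ b ∈ l, b ∈ F := fun l hl =>
    Psi_mem_F (fun b hb => dual_zero hb) l x hl
  have hZd : ∀ l, ∑ b ∈ F, MvPolynomial.monomial b (1 : ℂ) * Z (b :: l) = 0 := by
    intro l
    have h1 := Psi_ctr F (fun b => MvPolynomial.monomial b (1 : ℂ)) (dual n d) x l
    rw [← mulMap_eq, hdx, map_zero] at h1
    exact h1.symm
  -- the sum of a list of exponents from `F`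
  have hsum : ∀ l : List (Fin (n + 1) →₀ ℕ), (∀ b ∈ l, b ∈ F) →
      l.sum.degree = l.length * d := by
    intro l
    induction l with
    | nil => intro _; simp
    | cons b l ih =>
      intro h
      rw [List.sum_cons, map_add, ih fun c hc => h c (List.mem_cons_of_mem _ hc),
        mem_FF.1 (h b List.mem_cons_self), List.length_cons]
      ring
  -- multigraded components
  let zc : (Fin (n + 1) →₀ ℕ) → List (Fin (n + 1) →₀ ℕ) → ℂ := fun μ l =>
    if l.sum ≤ μ then MvPolynomial.coeff (μ - l.sum) (Z l) else 0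
  have hzc0 : ∀ μ l, zc μ l ≠ 0 → l.sum ≤ μ ∧ MvPolynomial.coeff (μ - l.sum) (Z l) ≠ 0 := by
    intro μ l h
    by_cases h1 : l.sum ≤ μ
    · have h2 : zc μ l = MvPolynomial.coeff (μ - l.sum) (Z l) := if_pos h1
      rw [h2] at h
      exact ⟨h1, h⟩
    · exact absurd (if_neg h1) h
  have hzcZ : ∀ μ l, zc μ l ≠ 0 → Z l ≠ 0 := by
    intro μ l h h1
    apply (hzc0 μ l h).2
    rw [h1, MvPolynomial.coeff_zero]
  have hzcE : ∀ μ, ECh F μ p (zc μ) := by
    intro μ
    constructor
    · intro l₁ b c l₂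
      have h1 : (l₁ ++ b :: c :: l₂).sum = (l₁ ++ c :: b :: l₂).sum :=
        (perm_swap l₁ b c l₂).sum_eq
      change (if (l₁ ++ b :: c :: l₂).sum ≤ μ then _ else _) =
        - (if (l₁ ++ c :: b :: l₂).sum ≤ μ then _ else _)
      rw [h1, hZA l₁ b c l₂]
      split_ifs
      · rw [MvPolynomial.coeff_neg]
      · rw [neg_zero]
    · intro l hl
      have h1 := hzcZ μ l hl
      exact ⟨hZF l h1, (hzc0 μ l hl).1, hZl l h1⟩
  have hzcbd : ∀ μ l, bd F (zc μ) l = 0 := by
    intro μ l
    by_cases hl : l.sum ≤ μ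
    · have h1 := congrArg (MvPolynomial.coeff (μ - l.sum)) (hZd l)
      rw [MvPolynomial.coeff_sum, MvPolynomial.coeff_zero] at h1
      rw [← h1]
      unfold bd
      refine Finset.sum_congr rfl fun b _ => ?_
      rw [MvPolynomial.coeff_monomial_mul', one_mul]
      change (if (b :: l).sum ≤ μ then _ else _) = _
      rw [List.sum_cons]
      by_cases hb : b + l.sum ≤ μ
      · rw [if_pos hb, if_pos (le_tsub_of_add_le_right hb), tsub_add_eq_tsub_tsub_swap]
      · rw [if_neg hb, if_neg]
        intro h2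
        apply hb
        have h3 := add_le_add_left h2 l.sum
        rwa [tsub_add_cancel_of_le hl] at h3
    · refine Finset.sum_eq_zero fun b _ => if_neg fun h => hl ?_
      rw [List.sum_cons] at h
      exact le_trans le_add_self h
  -- the multigraded components of the primitive
  have hw : ∀ μ, ∃ w : List (Fin (n + 1) →₀ ℕ) → ℂ, ECh F μ (p + 1) w ∧
      (∀ l, bd F w l = zc μ l) ∧ (μ.degree ≠ p * d + a → ∀ l, w l = 0) := by
    intro μ
    by_cases hμ : μ.degree = p * d + a
    · obtain ⟨w, hw, hw'⟩ := expo_exact2 (k := ℂ) d a p hd2 hp μ hμ F (fun b => mem_FF) (zc μ)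
        (hzcE μ) (hzcbd μ)
      exact ⟨w, hw, hw', fun h => absurd hμ h⟩
    · refine ⟨fun _ => 0, ⟨Alt.zero, fun l hl => absurd rfl hl⟩, ?_, fun _ _ => rfl⟩
      intro l
      rw [bd_zero]
      by_contra h
      have h1 : zc μ l ≠ 0 := Ne.symm h
      have h2 := hzcE μ |>.2 l h1
      have h3 := piece_coeff (hZp l) (hzc0 μ l h1).2
      have h4 : (μ - l.sum).degree + l.sum.degree = μ.degree := by
        rw [← map_add, tsub_add_cancel_of_le h2.2.1]
      rw [hsum l h2.1, h2.2.2] at h4
      apply hμ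
      omega
  choose w hwE hwbd hw0 using hw
  set Q := FF n (p * d + a) with hQ
  let W : List (Fin (n + 1) →₀ ℕ) → PolyS n := fun l =>
    ∑ μ ∈ Q, MvPolynomial.monomial (μ - l.sum) (w μ l)
  have hWc : ∀ l ν, MvPolynomial.coeff ν (W l) = w (ν + l.sum) l := by
    intro l ν
    change MvPolynomial.coeff ν (∑ μ ∈ Q, MvPolynomial.monomial (μ - l.sum) (w μ l)) = _
    rw [MvPolynomial.coeff_sum]
    by_cases h0 : w (ν + l.sum) l = 0
    · rw [h0]
      refine Finset.sum_eq_zero fun μ _ => ?_
      rw [MvPolynomial.coeff_monomial]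
      split_ifs with h1
      · by_contra h2
        have h3 := ((hwE μ).2 l h2).2.1
        rw [← h1, tsub_add_cancel_of_le h3] at h0
        exact h2 h0
      · rfl
    · rw [Finset.sum_eq_single (ν + l.sum)]
      · rw [MvPolynomial.coeff_monomial, add_tsub_cancel_right, if_pos rfl]
      · intro μ _ hμ
        rw [MvPolynomial.coeff_monomial]
        split_ifs with h1
        · by_contra h2
          have h3 := ((hwE μ).2 l h2).2.1
          apply hμ
          rw [← h1, tsub_add_cancel_of_le h3]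
        · rfl
      · intro h1
        exfalso
        apply h1
        rw [hQ, mem_FF]
        by_contra h2
        exact h0 (hw0 _ h2 l)
  have hWA : Alt W := by
    intro l₁ b c l₂
    ext ν
    rw [MvPolynomial.coeff_neg, hWc, hWc, (perm_swap l₁ b c l₂).sum_eq, (hwE _).1 l₁ b c l₂]
  have hWp : ∀ l, l.length = p + 1 → W l ∈ piece n (m - d) := by
    intro l hl
    refine Submodule.sum_mem _ fun μ hμ => ?_
    by_cases h0 : w μ l = 0
    · rw [h0, map_zero]; exact Submodule.zero_mem _
    · have h1 := (hwE μ).2 l h0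
      have h4 : (μ - l.sum).degree + l.sum.degree = μ.degree := by
        rw [← map_add, tsub_add_cancel_of_le h1.2.1]
      rw [hsum l h1.1, hl, mem_FF.1 hμ] at h4
      have h5 : (p + 1) * d = p * d + d := by ring
      unfold piece
      rw [if_pos (by omega), MvPolynomial.mem_homogeneousSubmodule]
      apply MvPolynomial.isHomogeneous_monomial
      omega
  have hWd : ∀ l, ∑ b ∈ F, MvPolynomial.monomial b (1 : ℂ) * W (b :: l) = Z l := by
    intro l
    ext ν
    rw [MvPolynomial.coeff_sum]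
    have h1 : ∀ b ∈ F, MvPolynomial.coeff ν (MvPolynomial.monomial b (1 : ℂ) * W (b :: l)) =
        w (ν + l.sum) (b :: l) := by
      intro b _
      rw [MvPolynomial.coeff_monomial_mul', one_mul]
      split_ifs with hb
      · rw [hWc, List.sum_cons, ← add_assoc, tsub_add_cancel_of_le hb]
      · by_contra h2
        have h3 := ((hwE _).2 _ (Ne.symm h2)).2.1
        rw [List.sum_cons] at h3
        exact hb (le_of_add_le_add_right h3)
    rw [Finset.sum_congr rfl h1]
    have h2 := hwbd (ν + l.sum) l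
    unfold bd at h2
    rw [h2]
    change (if l.sum ≤ ν + l.sum then _ else _) = _
    rw [if_pos le_add_self, add_tsub_cancel_right]
  -- conclusion
  have hid := sum_dual (n := n) (d := d)
  have hT1 := Theta_Psi (F := F) (e := fun b => (1 : PolyS n) ⊗ₜ[ℂ] mon n d b)
    (f := dual n d) hid p (chains_le_Ep hx)
  have hT2 := ctr_Theta (F := F) (e := fun b => (1 : PolyS n) ⊗ₜ[ℂ] mon n d b)
    (φ := mulMap (piece n (d : ℤ))) (X := fun b => MvPolynomial.monomial b (1 : ℂ))
    (fun b hb => mulMap_mon hb) p W hWA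
  have hWd' : (fun l => ∑ b ∈ F, MvPolynomial.monomial b (1 : ℂ) * W (b :: l)) =
      fun l => Psi (dual n d) l x := by
    funext l
    exact hWd l
  rw [hWd', hT1, smul_smul] at hT2
  set y := Theta F (fun b => (1 : PolyS n) ⊗ₜ[ℂ] mon n d b) (p + 1) W with hy
  have hyC : y ∈ chains n d (p + 1) (m - d) := Theta_chains (p + 1) W hWp
  set c : ℂ := ((p + 1 : ℕ) : ℂ) * ((p.factorial : ℕ) : ℂ) with hc
  have hc0 : c ≠ 0 := by
    rw [hc]
    apply mul_ne_zero
    · rw [Nat.cast_ne_zero]; omega
    · rw [Nat.cast_ne_zero]; exact Nat.factorial_ne_zero p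
  have hyx : ctr (mulMap (piece n (d : ℤ))) y = (MvPolynomial.C c : PolyS n) • x := by
    rw [hT2, hc, map_mul, map_natCast, map_natCast]
  refine ⟨(MvPolynomial.C c⁻¹ : PolyS n) • y, chains_smul _ hyC, ?_⟩
  rw [map_smul, hyx, smul_smul, ← map_mul, inv_mul_cancel₀ hc0, map_one, one_smul]

theorem vanishing2 (n : ℕ) (b : ℤ) (d p : ℕ) (q : ℤ) (hd : 2 ≤ d)
    (hp : p < BB d (q * d + b).toNat) : Subsingleton (KoszulCohomology n b d p q) := by
  have key : ∀ x ∈ cycles (mulMap (piece n (d : ℤ)))
      (fun v : piece n (d : ℤ) => (1 : PolyS n) ⊗ₜ[ℂ] v) (piece n (q * d + b) : Set (PolyS n)) p,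
      x ∈ boundaries (mulMap (piece n (d : ℤ)))
      (fun v : piece n (d : ℤ) => (1 : PolyS n) ⊗ₜ[ℂ] v)
      (piece n ((q - 1) * d + b) : Set (PolyS n)) p := by
    rintro x ⟨hx1, hx2⟩
    obtain ⟨y, hy, hyx⟩ := cycle_is_boundary2 n d p (q * d + b) hd hp hx1 hx2
    have h1 : q * (d : ℤ) + b - d = (q - 1) * d + b := by ring
    rw [h1] at hy
    exact ⟨y, hy, hyx⟩
  unfold KoszulCohomology KoszulHomology Homology
  refine ⟨fun a b => ?_⟩
  induction a using QuotientAddGroup.induction_on with
  | H x =>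
  induction b using QuotientAddGroup.induction_on with
  | H y =>
  rw [QuotientAddGroup.eq, AddSubgroup.mem_addSubgroupOf]
  exact key _ (SetLike.coe_mem _)

/-- the quartic Veronese embedding of every projective space satisfies `N_9` -/
theorem quartic (n p : ℕ) (q : ℤ) (hp : p ≤ 9) (hq : 2 ≤ q) :
    Subsingleton (KoszulCohomology n 0 4 p q) := by
  apply vanishing2 n 0 4 p q (by norm_num)
  have h1 : BB 4 8 ≤ BB 4 (q * ((4 : ℕ) : ℤ) + 0).toNat := by
    apply BB_mono (by norm_num)
    push_cast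
    omega
  rw [BB_four.1] at h1
  omega

/-- property `N_(d+5)` -/
theorem veronese (n d p : ℕ) (q : ℤ) (hd : 4 ≤ d) (hp : p ≤ d + 5) (hq : 2 ≤ q) :
    Subsingleton (KoszulCohomology n 0 d p q) := by
  apply vanishing2 n 0 d p q (by omega)
  have h1 : BB d (2 * d) ≤ BB d (q * (d : ℤ) + 0).toNat := by
    apply BB_mono (by omega)
    have h2 : (2 : ℤ) * (d : ℤ) ≤ q * (d : ℤ) := mul_le_mul_of_nonneg_right hq (Int.natCast_nonneg d)
    generalize q * (d : ℤ) = z at h2
    omega
  rw [BB_2d hd] at h1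
  omega

end VKB
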