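import Pool.Agent.VK.Koszul

/-!
# From vanishing Koszul cohomology to exactness of the exponent model

Paper proof (converse of `cycle_is_boundary` in `Pool/Agent/VK/Koszul.lean`). Let `a = q d + b ≥ 0`, `μ` of degree `p d + a` and
`z` a cycle of the exponent model. Put `Z l = z l • x^(μ - l.sum)` if `l.sum ≤ μ` (and `0` otherwise) and
`x = Theta F e p Z` with `F = FF n d`, `e b = 1 ⊗ mon n d b` (as in that file). `x` is a cycle: it lies in
`chains n d p a` and its contraction is `Theta F e (p - 1)` of `l ↦ ∑ b, x^b Z (b :: l)` up to a factor (`ctr_Theta`), which is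
zero because `∑ b, z (b :: l) = 0`. By hypothesis `x = ctr y` with `y ∈ chains n d (p + 1) (a - d)`. Let
`w l` be the coefficient of `x^(μ - l.sum)` in `Psi (dual n d) l y` for `l` of length `p + 1` with `l.sum ≤ μ` and all entries in `F`,
and `0` otherwise. `Psi` of the contraction of `y` is `∑ b ∈ F, x^b Psi (b :: l) y` up to a factor, and `Psi (dual) l x` is
`p! Z l` up to sign (`Psi` of `Theta`; the proofs in `Pool/Agent/VK/ExtAlg.lean` show how). Comparing the
coefficients of `x^(μ - l.sum)` gives `bd F w = c z` with `c ≠ 0`.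
-/

namespace VKB
open VK
open TensorProduct

/-- `Psi` of `Theta` -/
theorem Psi_Theta {S : Type} [CommRing S] {M : Type} [AddCommGroup M] [Module S M] {β : Type*}
    [DecidableEq β] {F : Finset β} {e : β → M} {f : β → M →ₗ[S] S}
    (hfe : ∀ b ∈ F, ∀ c ∈ F, f b (e c) = if c = b then 1 else 0) :
    ∀ (p : ℕ) (z : List β → S), Alt z → ∀ l : List β, l.length = p → (∀ b ∈ l, b ∈ F) →
      Psi f l (Theta F e p z) = ((p.factorial : ℕ) : S) * z l := by
  intro p
  induction p with
  | zero =>
    intro z _ l hl _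
    rw [List.length_eq_zero_iff] at hl
    subst hl
    rw [Psi_nil, Theta_zero, ExteriorAlgebra.algebraMap_leftInverse, Nat.factorial_zero,
      Nat.cast_one, one_mul]
  | succ p ih =>
    intro z hz l hl hF
    cases l with
    | nil => simp at hl
    | cons b l =>
      have hb : b ∈ F := hF b List.mem_cons_self
      rw [Psi_cons, ctr_Theta (X := fun c => if c = b then (1 : S) else 0)
        (fun c hc => hfe b hb c hc) p z hz, map_smul, smul_eq_mul]
      have h1 : (fun l' : List β => ∑ c ∈ F, (if c = b then (1 : S) else 0) * z (c :: l')) =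
          fun l' => z (b :: l') := by
        funext l'
        rw [Finset.sum_eq_single b]
        · rw [if_pos rfl, one_mul]
        · intro c _ hc
          rw [if_neg hc, zero_mul]
        · intro h
          exact absurd hb h
      rw [h1, ih _ (hz.cons b) l (by simpa using hl) (fun c hc => hF c (List.mem_cons_of_mem _ hc)),
        Nat.factorial_succ, Nat.cast_mul, mul_assoc]

theorem dual_mon {n d : ℕ} {b c : Fin (n + 1) →₀ ℕ} (hc : c ∈ FF n d)
    [Decidable (c = b)] :
    dual n d b ((1 : PolyS n) ⊗ₜ[ℂ] mon n d c) = if c = b then 1 else 0 := by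
  classical
  rw [dual_tmul, one_mul, mon_coe hc, MvPolynomial.coeff_monomial]
  split_ifs
  · rw [map_one]
  · rw [map_zero]

theorem eex_of_subsingleton (n : ℕ) (b : ℤ) (d p : ℕ) (q : ℤ) (hd : 1 ≤ d)
    (h : Subsingleton (KoszulCohomology n b d p q)) {a : ℕ} (ha : q * d + b = a)
    {μ : Fin (n + 1) →₀ ℕ} (hμ : μ.degree = p * d + a) : EEx ℂ (FF n d) μ p := by
  classical
  intro z hz hbd
  set F := FF n d with hF
  have hsum : ∀ l : List (Fin (n + 1) →₀ ℕ), (∀ b ∈ l, b ∈ F) →
      l.sum.degree = l.length * d := by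
    intro l
    induction l with
    | nil => intro _; simp
    | cons b l ih =>
      intro h
      rw [List.sum_cons, map_add, ih fun c hc => h c (List.mem_cons_of_mem _ hc),
        mem_FF.1 (h b List.mem_cons_self), List.length_cons]
      ring
  let Z : List (Fin (n + 1) →₀ ℕ) → PolyS n := fun l => MvPolynomial.monomial (μ - l.sum) (z l)
  have hZA : Alt Z := by
    intro l₁ b c l₂
    change MvPolynomial.monomial (μ - (l₁ ++ b :: c :: l₂).sum) (z (l₁ ++ b :: c :: l₂)) =
      - MvPolynomial.monomial (μ - (l₁ ++ c :: b :: l₂).sum) (z (l₁ ++ c :: b :: l₂))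
    rw [(perm_swap l₁ b c l₂).sum_eq, hz.1 l₁ b c l₂, map_neg]
  have hZp : ∀ l, l.length = p → Z l ∈ piece n (a : ℤ) := by
    intro l hl
    change MvPolynomial.monomial (μ - l.sum) (z l) ∈ _
    by_cases h0 : z l = 0
    · rw [h0, map_zero]; exact Submodule.zero_mem _
    · have h1 := hz.2 l h0
      have h4 : (μ - l.sum).degree + l.sum.degree = μ.degree := by
        rw [← map_add, tsub_add_cancel_of_le h1.2.1]
      rw [hsum l h1.1, hl] at h4
      rw [mem_piece_nat]
      apply MvPolynomial.isHomogeneous_monomial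
      omega
  have hZd : ∀ l, ∑ b ∈ F, MvPolynomial.monomial b (1 : ℂ) * Z (b :: l) = 0 := by
    intro l
    have h1 : ∀ b ∈ F, MvPolynomial.monomial b (1 : ℂ) * Z (b :: l) =
        MvPolynomial.monomial (μ - l.sum) (z (b :: l)) := by
      intro b _
      change MvPolynomial.monomial b (1 : ℂ) *
        MvPolynomial.monomial (μ - (b :: l).sum) (z (b :: l)) = _
      by_cases h0 : z (b :: l) = 0
      · rw [h0, map_zero, map_zero, mul_zero]
      · have h2 := (hz.2 _ h0).2.1
        rw [List.sum_cons] at h2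
        rw [MvPolynomial.monomial_mul, one_mul, List.sum_cons, add_comm b l.sum,
          tsub_add_eq_tsub_tsub]
        rw [add_tsub_cancel_of_le (le_tsub_of_add_le_right h2)]
    rw [Finset.sum_congr rfl h1, ← map_sum]
    have h2 := hbd l
    unfold bd at h2
    rw [h2, map_zero]
  set e : (Fin (n + 1) →₀ ℕ) → PolyS n ⊗[ℂ] Forms n d := fun b => (1 : PolyS n) ⊗ₜ[ℂ] mon n d b
    with he
  set x : KosAlg n d := Theta F e p Z with hx
  have hxC : x ∈ chains n d p (a : ℤ) := Theta_chains p Z hZp
  have hdx : ctr (mulMap (piece n (d : ℤ))) x = 0 := by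
    rw [hx]
    cases p with
    | zero => rw [Theta_zero, ctr_algebraMap]
    | succ p =>
      rw [ctr_Theta (F := F) (e := e) (φ := mulMap (piece n (d : ℤ)))
        (X := fun b => MvPolynomial.monomial b (1 : ℂ)) (fun b hb => mulMap_mon hb) p Z hZA]
      have h1 : (fun l => ∑ b ∈ F, MvPolynomial.monomial b (1 : ℂ) * Z (b :: l)) =
          fun _ => (0 : PolyS n) := by
        funext l
        exact hZd l
      rw [h1]
      have h2 : Theta F e p (fun _ => (0 : PolyS n)) = 0 := by
        have h3 := Theta_sum F e (∅ : Finset Unit) (fun _ => (0 : PolyS n)) p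
          (fun _ _ => (0 : PolyS n))
        simpa using h3
      rw [h2, smul_zero]
  -- the primitive
  have hy : ∃ y ∈ chains n d (p + 1) ((q - 1) * d + b), ctr (mulMap (piece n (d : ℤ))) y = x := by
    have hxc : x ∈ cycles (mulMap (piece n (d : ℤ)))
        (fun v : piece n (d : ℤ) => (1 : PolyS n) ⊗ₜ[ℂ] v) (piece n (q * d + b) : Set (PolyS n))
        p := by
      refine ⟨?_, hdx⟩
      rw [ha]
      exact hxC
    unfold KoszulCohomology KoszulHomology Homology at h
    have h1 := h.elim (QuotientAddGroup.mk (⟨0, AddSubgroup.zero_mem _⟩ : cycles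
      (mulMap (piece n (d : ℤ))) (fun v : piece n (d : ℤ) => (1 : PolyS n) ⊗ₜ[ℂ] v)
      (piece n (q * d + b) : Set (PolyS n)) p))
      (QuotientAddGroup.mk (⟨x, hxc⟩ : cycles
      (mulMap (piece n (d : ℤ))) (fun v : piece n (d : ℤ) => (1 : PolyS n) ⊗ₜ[ℂ] v)
      (piece n (q * d + b) : Set (PolyS n)) p))
    rw [QuotientAddGroup.eq, AddSubgroup.mem_addSubgroupOf] at h1
    obtain ⟨y, hy1, hy2⟩ := h1
    refine ⟨y, hy1, ?_⟩
    change ctr (mulMap (piece n (d : ℤ))) y = _ at hy2
    rw [hy2]
    simp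
  obtain ⟨y, hyC, hyx⟩ := hy
  set Y : List (Fin (n + 1) →₀ ℕ) → PolyS n := fun l => Psi (dual n d) l y with hY
  have hYA : Alt Y := Psi_alt _ y
  have hYl : ∀ l, Y l ≠ 0 → l.length = p + 1 := fun l => (Psi_chains l (p + 1) hyC).2
  have hYF : ∀ l, Y l ≠ 0 → ∀ b ∈ l, b ∈ F := fun l hl =>
    Psi_mem_F (fun b hb => dual_zero hb) l y hl
  have hYd : ∀ l, ∑ b ∈ F, MvPolynomial.monomial b (1 : ℂ) * Y (b :: l) =
      Psi (dual n d) l x := by
    intro l
    have h1 := Psi_ctr F (fun b => MvPolynomial.monomial b (1 : ℂ)) (dual n d) y l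
    rw [← mulMap_eq, hyx] at h1
    exact h1.symm
  let w : List (Fin (n + 1) →₀ ℕ) → ℂ := fun l =>
    if l.sum ≤ μ then MvPolynomial.coeff (μ - l.sum) (Y l) else 0
  have hw0 : ∀ l, w l ≠ 0 → l.sum ≤ μ ∧ Y l ≠ 0 := by
    intro l h
    by_cases h1 : l.sum ≤ μ
    · refine ⟨h1, fun h2 => h ?_⟩
      change (if l.sum ≤ μ then _ else _) = _
      rw [if_pos h1, h2, MvPolynomial.coeff_zero]
    · exact absurd (if_neg h1) h
  have hwE : ECh F μ (p + 1) w := by
    constructor
    · intro l₁ b c l₂
      have h1 : (l₁ ++ b :: c :: l₂).sum = (l₁ ++ c :: b :: l₂).sum :=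
        (perm_swap l₁ b c l₂).sum_eq
      change (if (l₁ ++ b :: c :: l₂).sum ≤ μ then _ else _) =
        - (if (l₁ ++ c :: b :: l₂).sum ≤ μ then _ else _)
      rw [h1, hYA l₁ b c l₂]
      split_ifs
      · rw [MvPolynomial.coeff_neg]
      · rw [neg_zero]
    · intro l hl
      have h1 := hw0 l hl
      exact ⟨hYF l h1.2, h1.1, hYl l h1.2⟩
  have hwbd : ∀ l, bd F w l = if l.sum ≤ μ then
      MvPolynomial.coeff (μ - l.sum) (Psi (dual n d) l x) else 0 := by
    intro l
    by_cases hl : l.sum ≤ μ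
    · rw [if_pos hl, ← hYd l, MvPolynomial.coeff_sum]
      unfold bd
      refine Finset.sum_congr rfl fun b _ => ?_
      rw [MvPolynomial.coeff_monomial_mul', one_mul]
      change (if (b :: l).sum ≤ μ then _ else _) = _
      rw [List.sum_cons]
      by_cases hb : b + l.sum ≤ μ
      · rw [if_pos hb, if_pos (le_tsub_of_add_le_right hb), tsub_add_eq_tsub_tsub_swap]
      · rw [if_neg hb, if_neg]
        intro h2
        apply hb
        have h3 := add_le_add_left h2 l.sum
        rwa [tsub_add_cancel_of_le hl] at h3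
    · rw [if_neg hl]
      refine Finset.sum_eq_zero fun b _ => if_neg fun h => hl ?_
      rw [List.sum_cons] at h
      exact le_trans le_add_self h
  have hmain : ∀ l, bd F w l = ((p.factorial : ℕ) : ℂ) * z l := by
    intro l
    rw [hwbd l]
    by_cases h1 : l.length = p ∧ ∀ b ∈ l, b ∈ F
    · have h2 := Psi_Theta (F := F) (e := e) (f := dual n d)
        (fun b _ c hc => dual_mon hc) p Z hZA l h1.1 h1.2
      rw [← hx] at h2
      rw [h2]
      by_cases hl : l.sum ≤ μ
      · rw [if_pos hl, ← map_natCast (MvPolynomial.C : ℂ →+* PolyS n),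
          MvPolynomial.coeff_C_mul]
        change _ * MvPolynomial.coeff (μ - l.sum) (MvPolynomial.monomial (μ - l.sum) (z l)) = _
        rw [MvPolynomial.coeff_monomial, if_pos rfl]
      · rw [if_neg hl]
        have h3 : z l = 0 := by
          by_contra h4
          exact hl (hz.2 l h4).2.1
        rw [h3, mul_zero]
    · have h3 : z l = 0 := by
        by_contra h4
        exact h1 ⟨(hz.2 l h4).2.2, (hz.2 l h4).1⟩
      have h4 : Psi (dual n d) l x = 0 := by
        by_contra h5
        exact h1 ⟨(Psi_chains l p hxC).2 h5, Psi_mem_F (fun b hb => dual_zero hb) l x h5⟩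
      rw [h4, h3, mul_zero, MvPolynomial.coeff_zero, ite_self]
  have hc0 : ((p.factorial : ℕ) : ℂ) ≠ 0 := Nat.cast_ne_zero.2 (Nat.factorial_ne_zero p)
  refine ⟨fun l => ((p.factorial : ℕ) : ℂ)⁻¹ * w l, ⟨hwE.1.mul _, ?_⟩, ?_⟩
  · intro l hl
    exact hwE.2 l fun h0 => hl (by simp only [h0, mul_zero])
  · intro l
    have h1 : bd F (fun l => ((p.factorial : ℕ) : ℂ)⁻¹ * w l) l =
        ((p.factorial : ℕ) : ℂ)⁻¹ * bd F w l := by
      unfold bd
      rw [Finset.mul_sum]
    rw [h1, hmain, ← mul_assoc, inv_mul_cancel₀ hc0, one_mul]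

end VKB
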