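import Pool.Agent.VK.SetModel

/-!
# A combinatorial lemma

`E` is a symmetric function of `m` pairwise disjoint `e`-subsets of `Ω` such that for all `m + 1` pairwise
disjoint `e`-subsets the sum of the values of `E` after leaving out one of them is zero. If
`Ω` has at least `(m + 1) e + m` elements then `E = 0`.

Paper proof. Induction on `m`. `m = 0`: the relation for one `e`-subset says `E [] = 0`. Let `m ≥ 1`. For
`v ⊆ Ω` with `v.card = e - 1` and `a ≠ b` in `Ω \ v` put `E' l = E (insert a v :: l) - E (insert b v :: l)` on `Ω' = Ω \ (v ∪ {a, b})`.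
The relations for `insert a v :: l` and `insert b v :: l` (`l` valid in `Ω'` of length `m`) have the same
first term `E l`, so `E'` satisfies the hypothesis for `m - 1`, and
`Ω'.card = Ω.card - e - 1 ≥ m e + (m - 1)`. So `E (insert a v :: l) = E (insert b v :: l)` whenever
`insert a v :: l` and `insert b v :: l` are valid; changing one element at a time,
`E (u :: l) = E (u' :: l)` whenever `u :: l` and `u' :: l` are valid (induction on `(u \ u').card`).
Now let `l` be valid of length `m`. There is an `e`-subset `u₀` of `Ω` disjoint from all blocks of `l`.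
In the relation for `u₀ :: l` every term equals `E l`: leaving out `u_i` gives, up to order,
`u₀ :: (l without u_i)`, and `E (u₀ :: l without u_i) = E (u_i :: l without u_i) = E l`. So
`(m + 1) • E l = 0`.
-/

namespace VKB
open VK

variable {α : Type*} [DecidableEq α]

omit [DecidableEq α] in
theorem valid_sublist {e : ℕ} {Ω : Finset α} {l l' : List (Finset α)} (h : Valid e Ω l)
    (hs : l'.Sublist l) : Valid e Ω l' :=
  ⟨fun B hB => h.1 B (hs.subset hB), h.2.sublist hs⟩

theorem valid_cons' {e : ℕ} {Ω : Finset α} {B : Finset α} {l : List (Finset α)}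
    (hB : B ⊆ Ω) (hc : B.card = e) (hl : Valid e Ω l) (hd : ∀ C ∈ l, Disjoint B C) :
    Valid e Ω (B :: l) := by
  refine ⟨?_, List.pairwise_cons.2 ⟨hd, hl.2⟩⟩
  intro C hC
  rcases List.mem_cons.1 hC with h | h
  · rw [h]; exact ⟨hB, hc⟩
  · exact hl.1 C h

theorem valid_cons_iff {e : ℕ} {Ω : Finset α} {B : Finset α} {l : List (Finset α)} :
    Valid e Ω (B :: l) ↔ B ⊆ Ω ∧ B.card = e ∧ Valid e Ω l ∧ ∀ C ∈ l, Disjoint B C := by
  constructor
  · intro h
    have h1 := h.1 B List.mem_cons_self
    exact ⟨h1.1, h1.2, valid_sublist h (List.sublist_cons_self B l), (List.pairwise_cons.1 h.2).1⟩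
  · rintro ⟨h1, h2, h3, h4⟩
    exact valid_cons' h1 h2 h3 h4

/-- the relation for `B :: l` -/
theorem rel_cons {M : Type*} [AddCommGroup M] (E : List (Finset α) → M) (B : Finset α)
    (l : List (Finset α)) (m : ℕ) :
    ∑ i ∈ Finset.range (m + 1), E ((B :: l).eraseIdx i) =
      E l + ∑ i ∈ Finset.range m, E (B :: l.eraseIdx i) := by
  rw [Finset.sum_range_succ', add_comm]
  simp

theorem exists_block {e : ℕ} {Ω : Finset α} (l : List (Finset α)) (hl : Valid e Ω l)
    (h : (l.length + 1) * e ≤ Ω.card) :
    ∃ u, u ⊆ Ω ∧ u.card = e ∧ ∀ C ∈ l, Disjoint u C := by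
  have h1 : (l.toFinset.biUnion id).card ≤ l.length * e := by
    calc (l.toFinset.biUnion id).card ≤ ∑ C ∈ l.toFinset, (id C).card := Finset.card_biUnion_le
      _ ≤ ∑ C ∈ l.toFinset, e := Finset.sum_le_sum (fun C hC => by
          rw [List.mem_toFinset] at hC
          exact (hl.1 C hC).2.le)
      _ = l.toFinset.card * e := by rw [Finset.sum_const, smul_eq_mul]
      _ ≤ l.length * e := Nat.mul_le_mul_right _ (List.toFinset_card_le l)
  have h2 : e ≤ (Ω \ l.toFinset.biUnion id).card := by
    have := Finset.le_card_sdiff (l.toFinset.biUnion id) Ω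
    have h3 : (l.length + 1) * e = l.length * e + e := by ring
    omega
  obtain ⟨u, hu, hc⟩ := Finset.exists_subset_card_eq h2
  refine ⟨u, hu.trans Finset.sdiff_subset, hc, ?_⟩
  intro C hC
  rw [Finset.disjoint_left]
  intro x hx hxC
  have := (Finset.mem_sdiff.1 (hu hx)).2
  apply this
  rw [Finset.mem_biUnion]
  exact ⟨C, List.mem_toFinset.2 hC, hxC⟩

theorem lemR (k : Type*) [Field k] [CharZero k] {M : Type*} [AddCommGroup M] [Module k M] {e : ℕ} (he : 0 < e) (m : ℕ) (Ω : Finset α) (hΩ : (m + 1) * e + m ≤ Ω.card)
    (E : List (Finset α) → M) (hperm : ∀ l l', Valid e Ω l → l.Perm l' → E l = E l')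
    (hrel : ∀ l, Valid e Ω l → l.length = m + 1 →
      ∑ i ∈ Finset.range (m + 1), E (l.eraseIdx i) = 0) :
    ∀ l, Valid e Ω l → l.length = m → E l = 0 := by
  induction m generalizing Ω E with
  | zero =>
    intro l hl hlen
    obtain rfl := List.length_eq_zero_iff.1 hlen
    obtain ⟨u, hu, hc, -⟩ := exists_block (e := e) (Ω := Ω) [] (valid_nil e Ω) (by simpa using hΩ)
    have := hrel [u] (valid_cons' hu hc (valid_nil e Ω) (by simp)) (by simp)
    simpa using this
  | succ m ih =>
    -- exchange of one element
    have claimA : ∀ (v : Finset α) (a b : α), v ⊆ Ω → v.card + 1 = e → a ∈ Ω → b ∈ Ω → a ∉ v →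
        b ∉ v → a ≠ b → ∀ l, Valid e (Ω \ insert a (insert b v)) l → l.length = m →
        E (insert a v :: l) = E (insert b v :: l) := by
      intro v a b hv hvc ha hb hav hbv hab l hl hlen
      have key : ∀ (c : α), c ∈ Ω → c ∉ v → (c = a ∨ c = b) → ∀ l,
          Valid e (Ω \ insert a (insert b v)) l → Valid e Ω (insert c v :: l) := by
        intro c hc hcv hcab l hl
        refine valid_cons' ?_ ?_ (hl.mono Finset.sdiff_subset) ?_
        · intro x hx
          rcases Finset.mem_insert.1 hx with h | h
          · rw [h]; exact hc
          · exact hv h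
        · rw [Finset.card_insert_of_notMem hcv]; exact hvc
        · intro C hC
          rw [Finset.disjoint_left]
          intro x hx hxC
          have h1 := (hl.1 C hC).1 hxC
          rw [Finset.mem_sdiff] at h1
          apply h1.2
          rcases Finset.mem_insert.1 hx with h | h
          · rcases hcab with h2 | h2
            · rw [h, h2]; exact Finset.mem_insert_self _ _
            · rw [h, h2]; exact Finset.mem_insert_of_mem (Finset.mem_insert_self _ _)
          · exact Finset.mem_insert_of_mem (Finset.mem_insert_of_mem h)
      have hsub : insert a (insert b v) ⊆ Ω := by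
        intro x hx
        rcases Finset.mem_insert.1 hx with h | h
        · rw [h]; exact ha
        · rcases Finset.mem_insert.1 h with h | h
          · rw [h]; exact hb
          · exact hv h
      have hcard : (insert a (insert b v)).card = v.card + 2 := by
        rw [Finset.card_insert_of_notMem, Finset.card_insert_of_notMem hbv]
        intro h
        rcases Finset.mem_insert.1 h with h | h
        · exact hab h
        · exact hav h
      have hΩ' : (m + 1) * e + m ≤ (Ω \ insert a (insert b v)).card := by
        rw [Finset.card_sdiff_of_subset hsub, hcard]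
        have : (m + 1 + 1) * e = (m + 1) * e + e := by ring
        omega
      have := ih (Ω \ insert a (insert b v)) hΩ'
        (fun l => E (insert a v :: l) - E (insert b v :: l)) ?_ ?_ l hl hlen
      · exact sub_eq_zero.1 this
      · intro l1 l2 h1 h12
        show E (insert a v :: l1) - E (insert b v :: l1) =
          E (insert a v :: l2) - E (insert b v :: l2)
        rw [hperm _ _ (key a ha hav (Or.inl rfl) l1 h1) (h12.cons _),
          hperm _ _ (key b hb hbv (Or.inr rfl) l1 h1) (h12.cons _)]
      · intro l1 h1 hlen1
        have e1 := hrel (insert a v :: l1) (key a ha hav (Or.inl rfl) l1 h1) (by simp [hlen1])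
        have e2 := hrel (insert b v :: l1) (key b hb hbv (Or.inr rfl) l1 h1) (by simp [hlen1])
        rw [rel_cons] at e1 e2
        rw [Finset.sum_sub_distrib]
        have e3 : (∑ i ∈ Finset.range (m + 1), E (insert a v :: l1.eraseIdx i)) = - E l1 := by
          rw [eq_neg_iff_add_eq_zero, add_comm]; exact e1
        have e4 : (∑ i ∈ Finset.range (m + 1), E (insert b v :: l1.eraseIdx i)) = - E l1 := by
          rw [eq_neg_iff_add_eq_zero, add_comm]; exact e2
        rw [e3, e4, sub_self]
    -- exchange of the first block
    have claimB : ∀ (n : ℕ) (u u' : Finset α) (l : List (Finset α)), (u \ u').card = n →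
        Valid e Ω (u :: l) → Valid e Ω (u' :: l) → l.length = m → E (u :: l) = E (u' :: l) := by
      intro n
      induction n with
      | zero =>
        intro u u' l hn h1 h2 _
        rw [valid_cons_iff] at h1 h2
        have h3 : u ⊆ u' := Finset.sdiff_eq_empty_iff_subset.1 (Finset.card_eq_zero.1 hn)
        have h4 : u = u' := Finset.eq_of_subset_of_card_le h3 (by rw [h1.2.1, h2.2.1])
        rw [h4]
      | succ n ihn =>
        intro u u' l hn h1 h2 hlen
        have h1' := valid_cons_iff.1 h1
        have h2' := valid_cons_iff.1 h2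
        obtain ⟨a, ha⟩ : (u \ u').Nonempty := by
          rw [← Finset.card_pos]; omega
        have hcard : (u \ u').card = (u' \ u).card := by
          have e1 := Finset.card_sdiff_add_card_inter u u'
          have e2 := Finset.card_sdiff_add_card_inter u' u
          rw [Finset.inter_comm u' u] at e2
          have := h1'.2.1
          have := h2'.2.1
          omega
        obtain ⟨b, hb⟩ : (u' \ u).Nonempty := by
          rw [← Finset.card_pos]; omega
        rw [Finset.mem_sdiff] at ha hb
        have hab : a ≠ b := fun h => ha.2 (h ▸ hb.1)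
        set v := u.erase a with hv
        have hav : a ∉ v := Finset.notMem_erase a u
        have hbv : b ∉ v := fun h => hb.2 (Finset.mem_of_mem_erase h)
        have hins : insert a v = u := Finset.insert_erase ha.1
        have hvu : v ⊆ u := Finset.erase_subset a u
        have hvc : v.card + 1 = e := by
          rw [← h1'.2.1]; exact Finset.card_erase_add_one ha.1
        have hl : Valid e (Ω \ insert a (insert b v)) l := by
          refine ⟨?_, h1'.2.2.1.2⟩
          intro C hC
          refine ⟨?_, (h1'.2.2.1.1 C hC).2⟩
          intro x hx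
          rw [Finset.mem_sdiff]
          refine ⟨(h1'.2.2.1.1 C hC).1 hx, ?_⟩
          intro hx2
          have hd1 := Finset.disjoint_left.1 (h1'.2.2.2 C hC)
          have hd2 := Finset.disjoint_left.1 (h2'.2.2.2 C hC)
          rcases Finset.mem_insert.1 hx2 with h | h
          · exact hd1 (h ▸ ha.1) hx
          · rcases Finset.mem_insert.1 h with h | h
            · exact hd2 (h ▸ hb.1) hx
            · exact hd1 (hvu h) hx
        have hA := claimA v a b (hvu.trans h1'.1) hvc (h1'.1 ha.1) (h2'.1 hb.1) hav hbv hab l hl
          hlen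
        rw [hins] at hA
        rw [hA]
        apply ihn (insert b v) u' l ?_ ?_ h2 hlen
        · have e1 : insert b v \ u' = (u \ u').erase a := by
            ext x
            simp only [Finset.mem_sdiff, Finset.mem_insert, Finset.mem_erase, hv]
            constructor
            · rintro ⟨h | h, h3⟩
              · exact absurd (h ▸ hb.1) h3
              · exact ⟨h.1, h.2, h3⟩
            · rintro ⟨h3, h4, h5⟩
              exact ⟨Or.inr ⟨h3, h4⟩, h5⟩
          rw [e1, Finset.card_erase_of_mem (Finset.mem_sdiff.2 ha), hn]
          rfl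
        · refine valid_cons' ?_ ?_ h1'.2.2.1 ?_
          · intro x hx
            rcases Finset.mem_insert.1 hx with h | h
            · rw [h]; exact h2'.1 hb.1
            · exact h1'.1 (hvu h)
          · rw [Finset.card_insert_of_notMem hbv]; exact hvc
          · intro C hC
            rw [Finset.disjoint_left]
            intro x hx hxC
            rcases Finset.mem_insert.1 hx with h | h
            · exact Finset.disjoint_left.1 (h2'.2.2.2 C hC) (h ▸ hb.1) hxC
            · exact Finset.disjoint_left.1 (h1'.2.2.2 C hC) (hvu h) hxC
    intro l hl hlen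
    obtain ⟨u, hu, hc, hd⟩ := exists_block l hl (by rw [hlen]; omega)
    have hul : Valid e Ω (u :: l) := valid_cons' hu hc hl hd
    have e1 := hrel (u :: l) hul (by simp [hlen])
    rw [rel_cons] at e1
    have e2 : ∀ i ∈ Finset.range (m + 1), E (u :: l.eraseIdx i) = E l := by
      intro i hi
      rw [Finset.mem_range] at hi
      have hi' : i < l.length := by omega
      have hp : (l[i] :: l.eraseIdx i).Perm l := List.getElem_cons_eraseIdx_perm hi'
      have hv1 : Valid e Ω (l[i] :: l.eraseIdx i) := hl.perm hp.symm
      have hv2 : Valid e Ω (u :: l.eraseIdx i) :=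
        valid_sublist hul ((List.eraseIdx_sublist l i).cons_cons u)
      rw [claimB _ u l[i] (l.eraseIdx i) rfl hv2 hv1 (by
        rw [List.length_eraseIdx_of_lt hi', hlen]; rfl)]
      exact hperm _ _ hv1 hp
    rw [Finset.sum_congr rfl e2, Finset.sum_const, Finset.card_range] at e1
    have e3 : ((m : k) + 2) • E l = 0 := by
      have : ((m : k) + 2) • E l = E l + (m + 1) • E l := by
        rw [← Nat.cast_smul_eq_nsmul k (m + 1) (E l)]
        push_cast
        have h5 : ((m : k) + 2) = 1 + ((m : k) + 1) := by ring
        rw [h5, add_smul, one_smul]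
      rw [this]; exact e1
    rcases smul_eq_zero.1 e3 with h | h
    · exfalso
      have : ((m + 2 : ℕ) : k) = 0 := by push_cast; exact h
      rw [Nat.cast_eq_zero] at this
      omega
    · exact h

end VKB
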