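import Pool.Agent.VKB.Quot

/-!
# Monomial classes (nonvanishing)

`F` all monomials of degree `d` on `I`, `f` a monomial on `I` with all exponents `< d`. Let `N` be a set of elements
of `F \ pure d I` which contains all `m ∈ F` with `m ≤ f` and such that for every `m ∈ N` some exponent of `m + f` is
`≥ d`. Then `(∧ N) ⊗ f` is a cycle modulo the pure powers which is not a boundary.

Paper proof. `μ = ∑ m ∈ N, m + f`, `p = N.card`, `F' = F \ pure d I`, `z = kap k N.toList`. It is an `RCh d I F' μ p`.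
It is an `RCyc`: `z (c :: l) ≠ 0` means that `c :: l` is a permutation of `N.toList`, so
`μ - l.sum = f + c` is not low. Lift it to a cycle `z'` (`lift_all`). If `EEx k F μ p` then `z' = bd F w`; at
`l = N.toList`: `1 = z l = z' l = ∑ c ∈ F, w (c :: l)`. If `w (c :: l) ≠ 0` then `c ≤ μ - l.sum = f`, so `c ∈ N` and `c :: l` is not
duplicate free, so `w (c :: l) = 0` by `Alt.dup`. Contradiction.
-/

namespace VKB
open VK

variable {k : Type*} [Field k] [CharZero k] {σ : Type*} [DecidableEq σ]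

theorem not_EEx (I : Finset σ) {d : ℕ} (hd : 2 ≤ d) {F : Finset (σ →₀ ℕ)}
    (hF : ∀ m, m ∈ F ↔ m.support ⊆ I ∧ m.degree = d) {f : σ →₀ ℕ} (hf : f.support ⊆ I)
    (hfd : ∀ i ∈ I, f i < d) {N : Finset (σ →₀ ℕ)} (hN : N ⊆ F \ pure d I)
    (hNf : ∀ m ∈ F, m ≤ f → m ∈ N) (hNa : ∀ m ∈ N, ∃ i ∈ I, d ≤ m i + f i) :
    ¬ EEx k F ((∑ m ∈ N, m) + f) N.card := by
  classical
  intro hEEx
  have hNF : N ⊆ F := hN.trans Finset.sdiff_subset
  have hmemN : ∀ {m : σ →₀ ℕ}, m ∈ N.toList ↔ m ∈ N := fun {m} => Finset.mem_toList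
  have hsumN : N.toList.sum = ∑ m ∈ N, m := Finset.sum_toList N
  have hperm : ∀ {l : List (σ →₀ ℕ)}, kap k N.toList l ≠ 0 →
      (∀ b ∈ l, b ∈ N) ∧ l.sum = ∑ m ∈ N, m ∧ l.length = N.card := by
    intro l hl
    have hp := kap_ne_zero hl
    refine ⟨fun b hb => hmemN.1 (hp.mem_iff.1 hb), ?_, ?_⟩
    · rw [hp.sum_eq, hsumN]
    · rw [hp.length_eq, Finset.length_toList]
  -- the class is a chain modulo the pure powers
  have hch : RCh d I (F \ pure d I) ((∑ m ∈ N, m) + f) N.card (kap k N.toList) := by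
    refine ⟨⟨kap_alt _, fun l hl => ?_⟩, fun l hl => ?_⟩
    · obtain ⟨h1, h2, h3⟩ := hperm hl
      refine ⟨fun b hb => hN (h1 b hb), ?_, h3⟩
      rw [h2]
      exact le_self_add
    · obtain ⟨-, h2, -⟩ := hperm hl
      intro i hi
      rw [h2, add_tsub_cancel_left]
      exact hfd i hi
  -- and a cycle
  have hcyc : RCyc d I (F \ pure d I) ((∑ m ∈ N, m) + f) (kap k N.toList) := by
    intro l hl hlow
    rw [bd]
    refine Finset.sum_eq_zero fun b _ => ?_
    by_contra hne
    obtain ⟨h1, h2, -⟩ := hperm hne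
    obtain ⟨i, hi, hdi⟩ := hNa b (h1 b List.mem_cons_self)
    have h3 : ((∑ m ∈ N, m) + f) - l.sum = b + f := by
      rw [← h2, List.sum_cons, add_right_comm, add_tsub_cancel_right]
    have h4 := hlow i hi
    rw [h3, Finsupp.add_apply] at h4
    omega
  have hsingle : ∀ i ∈ I, Finsupp.single i d ∈ F := by
    intro i hi
    rw [hF]
    refine ⟨?_, Finsupp.degree_single i d⟩
    exact Finsupp.support_single_subset.trans (Finset.singleton_subset_iff.2 hi)
  obtain ⟨z', hz', hz0, hzz⟩ := lift_all (by omega : 0 < d) I hsingle hch hcyc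
  obtain ⟨w, hw, hwz⟩ := hEEx z' hz' hz0
  have hkap : kap k N.toList N.toList = 1 := kap_self (k := k) (Finset.nodup_toList N)
  have h1 : bd F w N.toList = 1 := by
    rw [hwz, hzz _ (by rw [hkap]; exact one_ne_zero), hkap]
  have h2 : bd F w N.toList = 0 := by
    rw [bd]
    refine Finset.sum_eq_zero fun c hc => ?_
    by_contra hne
    obtain ⟨-, h3, -⟩ := hw.2 _ hne
    rw [List.sum_cons, hsumN, add_comm] at h3
    have h4 : c ≤ f := (add_le_add_iff_left _).1 h3
    have h5 : c ∈ N := hNf c hc h4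
    refine hne (hw.1.dup fun hnd => ?_)
    rw [List.nodup_cons] at hnd
    exact hnd.1 (hmemN.2 h5)
  rw [h1] at h2
  exact one_ne_zero h2

end VKB
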