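import Pool.Agent.VKB.KosC
import Pool.Agent.VKB.NonV
import Pool.Agent.VKB.Count

/-!
# The exact range

`a = q d + b`, `a' = (n + 1) (d - 1) - a`. Claim: `K_{p,q}(ℙ^n, b; d) ≠ 0` iff `0 ≤ a ≤ (n + 1) (d - 1)` and
`LL d a ≤ p` and `p + LL d a' + (n + 1) ≤ multichoose (n + 1) d = (n + d).choose d`. The `if` part holds for all `n`, `d ≥ 2`; the
`only if` part whenever `BB d a = LL d a` for all `a ≤ n (d - 1)`.

Paper proofs.
* `nonvanish`: `I = univ`. For `a ≥ 1` write `a = (s - 1) (d - 1) + r` with `1 ≤ r ≤ d - 1`, `s ≤ n + 1` (for `a = 0`: `s = 1`, `r = 0`), `J` a set of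
  `s - 1` variables, `i ∉ J`. By `card_div` and `card_ann` there is a set `N` with `p` elements between
  `{m ∈ F : m ≤ ff}` (contained in the next set by `div_ann`; not pure since exponents are `< d`) and
  `{m ∈ F \ pure : some exponent of m + ff is ≥ d}`. `not_EEx` and `eex_of_subsingleton`.
* `lower`: for `a ≤ n (d - 1)` this is `expo_exact2` (`BB d a = LL d a`), otherwise `few_exact` with `I = univ`,
  `b = (n + 1) (d - 1) - a ≤ d - 2`, `s = n + 1` (`LL_use` with `a - 1`).
* `upper`: `q = multichoose (n + 1) d - (n + 1) - p`; if this is negative use `EEx_large`, otherwise `EEx_dual`, `degree_dual` and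
  `lower` for `a'`.
* `vanish`: if `a < 0` then `piece n a = ⊥` and there are no nonzero chains. If `a > (n + 1) (d - 1)`: `pureExact`. From exactness
  of the exponent model in all multidegrees to the vanishing of the cohomology: as in `Kos2.lean` (extract the
  lemma which takes the exactness of the exponent model as a hypothesis).
-/

namespace VKB
open VK

theorem nonr_ff_apply {σ : Type*} [DecidableEq σ] (d : ℕ) (J : Finset σ) (i : σ) (r : ℕ) (j : σ) :
    ff d J i r j = (if j ∈ J then d - 1 else 0) + if i = j then r else 0 := by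
  unfold ff
  rw [Finsupp.add_apply, Finsupp.finsetSum_apply, Finsupp.single_apply]
  congr 1
  simp only [Finsupp.single_apply]
  rw [Finset.sum_ite_eq']

theorem nonr_ff_degree {σ : Type*} [DecidableEq σ] (d : ℕ) (J : Finset σ) (i : σ) (r : ℕ) :
    (ff d J i r).degree = J.card * (d - 1) + r := by
  unfold ff
  rw [map_add, map_sum, Finsupp.degree_single,
    Finset.sum_congr rfl (fun i _ => Finsupp.degree_single i (d - 1)), Finset.sum_const,
    smul_eq_mul]

theorem nonvanish (n : ℕ) (b : ℤ) (d p : ℕ) (q : ℤ) (hd : 2 ≤ d) {a : ℕ} (ha : q * d + b = a)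
    (ha' : a ≤ (n + 1) * (d - 1)) (h1 : LL d a ≤ p)
    (h2 : p + LL d ((n + 1) * (d - 1) - a) + (n + 1) ≤ Nat.multichoose (n + 1) d) :
    ¬ Subsingleton (KoszulCohomology n b d p q) := by
  classical
  intro hsub
  obtain ⟨c, r, hcr, hcn, hr⟩ : ∃ c r, a = c * (d - 1) + r ∧ c ≤ n ∧ r ≤ d - 1 := by
    obtain ⟨e, rfl⟩ : ∃ e, d = e + 1 := ⟨d - 1, by omega⟩
    rw [Nat.add_sub_cancel] at ha' ⊢
    rcases Nat.eq_zero_or_pos a with rfl | hapos
    · exact ⟨0, 0, by omega, Nat.zero_le _, Nat.zero_le _⟩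
    · have he : 0 < e := by omega
      have hdm := Nat.div_add_mod (a - 1) e
      have hlt := Nat.mod_lt (a - 1) he
      refine ⟨(a - 1) / e, (a - 1) % e + 1, ?_, ?_, by omega⟩
      · rw [mul_comm]
        omega
      · have h3 : (a - 1) / e < n + 1 := by
          rw [Nat.div_lt_iff_lt_mul he]
          omega
        omega
  have hcu : c < (Finset.univ : Finset (Fin (n + 1))).card := by
    rw [Finset.card_univ, Fintype.card_fin]
    omega
  obtain ⟨J, _, hJ⟩ := Finset.exists_subset_card_eq (s := (Finset.univ : Finset (Fin (n + 1))))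
    (n := c) hcu.le
  obtain ⟨i, _, hi⟩ := Finset.exists_mem_notMem_of_card_lt_card (s := J)
    (t := (Finset.univ : Finset (Fin (n + 1)))) (by rw [hJ]; exact hcu)
  have hI : insert i J ⊆ (Finset.univ : Finset (Fin (n + 1))) := Finset.subset_univ _
  have hF : ∀ m, m ∈ FF n d ↔ m.support ⊆ (Finset.univ : Finset (Fin (n + 1))) ∧
      m.degree = d := by
    intro m
    rw [mem_FF]
    exact ⟨fun h => ⟨Finset.subset_univ _, h⟩, fun h => h.2⟩
  have hFcard : (FF n d).card = Nat.multichoose (n + 1) d := by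
    unfold FF
    rw [Finset.card_finsuppAntidiag_nat_eq_multichoose, Finset.card_univ, Fintype.card_fin]
  have hfd : ∀ j ∈ (Finset.univ : Finset (Fin (n + 1))), ff d J i r j < d := by
    intro j _
    rw [nonr_ff_apply]
    by_cases hj : j ∈ J
    · have hij : i ≠ j := fun h => hi (h ▸ hj)
      rw [if_pos hj, if_neg hij]
      omega
    · rw [if_neg hj]
      split_ifs <;> omega
  have hA := card_div hd hi hI hr hF
  have hB := card_ann hd hi hI hr hF
  rw [hJ, ← hcr] at hA hB
  rw [Finset.card_univ, Fintype.card_fin, hFcard] at hB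
  have hAB : ((FF n d).filter fun m => m ≤ ff d J i r) ⊆
      ((FF n d \ pure d Finset.univ).filter fun m => ∃ j ∈ (Finset.univ : Finset (Fin (n + 1))),
        d ≤ m j + ff d J i r j) := by
    intro m hm
    obtain ⟨hmF, hmf⟩ := Finset.mem_filter.1 hm
    rw [Finset.mem_filter, Finset.mem_sdiff]
    refine ⟨⟨hmF, ?_⟩, div_ann hd hi hI hr ((hF m).1 hmF).2 hmf⟩
    intro hpure
    unfold pure at hpure
    obtain ⟨j, _, rfl⟩ := Finset.mem_image.1 hpure
    have h3 := hmf j
    rw [Finsupp.single_eq_same] at h3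
    exact absurd (hfd j (Finset.mem_univ _)) (not_lt.2 h3)
  obtain ⟨N, hAN, hNB, hNc⟩ := Finset.exists_subsuperset_card_eq hAB (n := p)
    (by rw [hA]; exact h1) (by omega)
  have hN1 : N ⊆ FF n d \ pure d Finset.univ := fun m hm => (Finset.mem_filter.1 (hNB hm)).1
  have hno := not_EEx (k := ℂ) Finset.univ hd hF (f := ff d J i r) (Finset.subset_univ _) hfd hN1
    (fun m hm hmf => hAN (Finset.mem_filter.2 ⟨hm, hmf⟩))
    (fun m hm => (Finset.mem_filter.1 (hNB hm)).2)
  rw [hNc] at hno
  refine hno (eex_of_subsingleton n b d p q (by omega) hsub ha ?_)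
  rw [map_add, map_sum, nonr_ff_degree, hJ, ← hcr,
    Finset.sum_congr rfl (fun m hm => mem_FF.1 (Finset.mem_sdiff.1 (hN1 hm)).1),
    Finset.sum_const, smul_eq_mul, hNc]

end VKB
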