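import Pool.Agent.VKB.QDef

/-!
# Dividing by one pure power: lifting cycles

Paper proof. `e = x_i^d ∈ F`, `F' = F.erase e`, `J' = insert i J`. Given a `J'`-cycle `z` over `F'`, let
`g l = bd F' z l` if `l.sum ≤ μ` and `Low d J (μ - l.sum)`, and `0` otherwise (nonzero only if
`μ i - l.sum i ≥ d`, and `g l = bd F z l` for all these `l` since `z` vanishes on lists containing `e`), and
`z' = z - wd e g`. Then for allowed `l`: `bd F z' l = bd F z l - g l + wd e (bd F g) l` by `bd_wd`, the first two
cancel, and `bd F g = 0` at the lists `l'` with `(e :: l').sum ≤ μ` and low remainder, since there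
`g (b :: l') = bd F' z (b :: l')` for all `b` (if `(b :: l').sum ≤ μ` fails both sides are `0`) and `bd_bd`.
-/

namespace VKB
open VK

variable {k : Type*} [Field k] [CharZero k] {σ : Type*} [DecidableEq σ]

/-- one variable, lifting cycles -/
theorem lift_step {d : ℕ} (hd : 0 < d) {J : Finset σ} {i : σ} (hi : i ∉ J)
    {F : Finset (σ →₀ ℕ)} (hF : Finsupp.single i d ∈ F) {μ : σ →₀ ℕ} {p : ℕ}
    {z : List (σ →₀ ℕ) → k} (hz : RCh d (insert i J) (F.erase (Finsupp.single i d)) μ p z)
    (hcyc : RCyc d (insert i J) (F.erase (Finsupp.single i d)) μ z) :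
    ∃ z' : List (σ →₀ ℕ) → k, RCh d J F μ p z' ∧ RCyc d J F μ z' ∧
      ∀ l, z l ≠ 0 → z' l = z l := by
  classical
  set e : σ →₀ ℕ := Finsupp.single i d with he
  obtain ⟨⟨hzA, hzS⟩, hzL⟩ := hz
  -- `e` has no coordinate in `J`
  have hej : ∀ j ∈ J, e j = 0 := by
    intro j hj
    have hij : j ≠ i := fun h => hi (h ▸ hj)
    rw [he, Finsupp.single_eq_of_ne hij]
  -- `z` vanishes on the lists containing `e`
  have hze : ∀ l : List (σ →₀ ℕ), e ∈ l → z l = 0 := by
    intro l hl
    by_contra h
    exact Finset.notMem_erase e F ((hzS l h).1 e hl)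
  set g : List (σ →₀ ℕ) → k := fun l =>
    if l.sum ≤ μ ∧ Low d J (μ - l.sum) then bd (F.erase e) z l else 0 with hg
  have hgA : Alt g := by
    refine (hzA.bd (F.erase e)).ite (fun l => l.sum ≤ μ ∧ Low d J (μ - l.sum)) ?_
    intro l₁ a b l₂
    simp only [(perm_swap l₁ a b l₂).sum_eq]
  have hbe : ∀ l, bd F z l = bd (F.erase e) z l := by
    intro l
    unfold bd
    rw [← Finset.add_sum_erase F _ hF, hze (e :: l) List.mem_cons_self, zero_add]
  -- the support of `g`
  have hgs : ∀ l, g l ≠ 0 → (∀ b ∈ l, b ∈ F.erase e) ∧ l.length + 1 = p ∧ e + l.sum ≤ μ ∧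
      Low d J (μ - (e + l.sum)) := by
    intro l hl
    have h1 : l.sum ≤ μ ∧ Low d J (μ - l.sum) := by
      by_contra h
      exact hl (if_neg h)
    have h2 : bd (F.erase e) z l ≠ 0 := by
      intro h
      apply hl
      simp only [hg, if_pos h1, h]
    obtain ⟨b, hb, h3⟩ : ∃ b ∈ F.erase e, z (b :: l) ≠ 0 := by
      by_contra h
      push Not at h
      exact h2 (Finset.sum_eq_zero h)
    have h4 := hzS _ h3
    have h5 : ¬ Low d (insert i J) (μ - l.sum) := fun h => h2 (hcyc l h1.1 h)
    have h6 : d ≤ (μ - l.sum) i := by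
      by_contra h
      apply h5
      intro j hj
      rcases Finset.mem_insert.1 hj with h' | h'
      · rw [h']; omega
      · exact h1.2 j h'
    refine ⟨fun c hc => h4.1 c (List.mem_cons_of_mem _ hc), by simpa using h4.2.2, ?_, ?_⟩
    · intro j
      have h7 := h1.1 j
      rw [Finsupp.add_apply]
      by_cases hj : j = i
      · rw [hj, he, Finsupp.single_eq_same]
        rw [Finsupp.tsub_apply] at h6
        rw [hj] at h7
        omega
      · rw [he, Finsupp.single_eq_of_ne hj, zero_add]
        exact h7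
    · intro j hj
      have h7 := h1.2 j hj
      rw [Finsupp.tsub_apply] at h7
      rw [Finsupp.tsub_apply, Finsupp.add_apply, hej j hj, zero_add]
      exact h7
  have hws : ∀ l, wd e g l ≠ 0 → (∀ b ∈ l, b ∈ F) ∧ l.sum ≤ μ ∧ l.length = p ∧
      Low d J (μ - l.sum) ∧ e ∈ l := by
    intro l hl
    obtain ⟨l₁, l₂, rfl, h2⟩ := wd_ne_zero hl
    obtain ⟨h3, h4, h5, h6⟩ := hgs _ h2
    have hp : (l₁ ++ e :: l₂).Perm (e :: (l₁ ++ l₂)) := List.perm_middle
    have hs : (l₁ ++ e :: l₂).sum = e + (l₁ ++ l₂).sum := by rw [hp.sum_eq, List.sum_cons]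
    refine ⟨?_, ?_, ?_, ?_, ?_⟩
    · intro b hb
      rw [hp.mem_iff, List.mem_cons] at hb
      rcases hb with h | h
      · rw [h]; exact hF
      · exact Finset.mem_of_mem_erase (h3 b h)
    · rw [hs]; exact h5
    · rw [hp.length_eq, List.length_cons, h4]
    · rw [hs]; exact h6
    · rw [hp.mem_iff]; exact List.mem_cons_self
  refine ⟨fun l => z l - wd e g l, ⟨⟨hzA.sub (wd_alt hgA), ?_⟩, ?_⟩, ?_, ?_⟩
  · intro l hl
    by_cases h : wd e g l = 0
    · have h1 : z l ≠ 0 := by
        intro h'
        apply hl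
        simp only [h, h', sub_zero]
      have h2 := hzS l h1
      exact ⟨fun b hb => Finset.mem_of_mem_erase (h2.1 b hb), h2.2⟩
    · have h2 := hws l h
      exact ⟨h2.1, h2.2.1, h2.2.2.1⟩
  · intro l hl
    by_cases h : wd e g l = 0
    · have h1 : z l ≠ 0 := by
        intro h'
        apply hl
        simp only [h, h', sub_zero]
      exact fun j hj => hzL l h1 j (Finset.mem_insert_of_mem hj)
    · exact (hws l h).2.2.2.1
  · intro l hls hlow
    have h1 : g l = bd (F.erase e) z l := if_pos ⟨hls, hlow⟩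
    have h2 : wd e (bd F g) l = 0 := by
      by_contra h
      obtain ⟨l₁, l₂, rfl, h3⟩ := wd_ne_zero h
      apply h3
      have hp : (l₁ ++ e :: l₂).Perm (e :: (l₁ ++ l₂)) := List.perm_middle
      have hs : (l₁ ++ e :: l₂).sum = e + (l₁ ++ l₂).sum := by rw [hp.sum_eq, List.sum_cons]
      set l' := l₁ ++ l₂ with hl'
      rw [hs] at hls hlow
      -- low remainder of `l'`
      have hlow' : ∀ b : σ →₀ ℕ, Low d J (μ - (b + l'.sum)) := by
        intro b j hj
        have h4 := hlow j hj
        rw [Finsupp.tsub_apply, Finsupp.add_apply, hej j hj, zero_add] at h4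
        rw [Finsupp.tsub_apply, Finsupp.add_apply]
        omega
      have h5 : ∀ b, g (b :: l') = bd (F.erase e) z (b :: l') := by
        intro b
        by_cases hb : (b :: l').sum ≤ μ
        · refine if_pos ⟨hb, ?_⟩
          rw [List.sum_cons]
          exact hlow' b
        · have h6 : g (b :: l') = 0 := if_neg fun h => hb h.1
          rw [h6]
          symm
          refine Finset.sum_eq_zero fun c _ => ?_
          by_contra h7
          apply hb
          have h8 := (hzS _ h7).2.1
          rw [List.sum_cons] at h8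
          exact le_trans (le_add_of_nonneg_left bot_le) h8
      have h9 : g (e :: l') = 0 := by
        rw [h5]
        exact Finset.sum_eq_zero fun c _ =>
          hze _ (List.mem_cons_of_mem _ List.mem_cons_self)
      have h10 : bd F g l' = bd (F.erase e) (bd (F.erase e) z) l' := by
        have h11 : bd F g l' = g (e :: l') + ∑ b ∈ F.erase e, g (b :: l') := by
          unfold bd
          rw [← Finset.add_sum_erase F _ hF]
        rw [h11, h9, zero_add]
        exact Finset.sum_congr rfl fun b _ => h5 b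
      rw [h10]
      exact bd_bd hzA _ _
    rw [bd_sub, bd_wd hF, h2, sub_zero, hbe, h1, sub_self]
  · intro l hl
    have h1 : wd e g l = 0 := by
      by_contra h
      exact hl (hze l (hws l h).2.2.2.2)
    simp only [h1, sub_zero]

end VKB
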