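import Pool.Agent.VKB.QuotA
import Pool.Agent.VKB.QuotB

/-!
# Dividing by all pure powers

Paper proofs: induction on `I` (`insert i J`), with `F \ pure d (insert i J) = (F \ pure d J).erase (single i d)`.
* `quot_all`: given `w'` for `insert i J`, apply `quot_step` to `cut d J (F \ pure d J) μ z`, which is a
  `J`-cycle over `F \ pure d J`: at a `J`-low `l` with `l.sum ≤ μ` one has `z (e_j :: l) = 0` for `j ∈ J` because
  `(e_j :: l).sum ≤ μ` fails, and all `b :: l` are low. For `J = ∅` everything is low, `pure d ∅ = ∅`, and for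
  lists with `l.sum ≤ μ` false both sides vanish.
* `lift_all`: `lift_step` repeatedly.
-/

namespace VKB
open VK

variable {k : Type*} [Field k] [CharZero k] {σ : Type*} [DecidableEq σ]

private theorem pure_empty (d : ℕ) : pure d (∅ : Finset σ) = ∅ := by
  simp [pure]

private theorem mem_pure {d : ℕ} {I : Finset σ} {b : σ →₀ ℕ} :
    b ∈ pure d I ↔ ∃ i ∈ I, Finsupp.single i d = b := by
  simp [pure]

private theorem sdiff_pure_insert {d : ℕ} {J : Finset σ} {i : σ} {F : Finset (σ →₀ ℕ)} :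
    F \ pure d (insert i J) = (F \ pure d J).erase (Finsupp.single i d) := by
  ext b
  simp only [Finset.mem_sdiff, Finset.mem_erase, mem_pure, Finset.mem_insert]
  constructor
  · rintro ⟨h1, h2⟩
    refine ⟨fun h => h2 ⟨i, Or.inl rfl, h.symm⟩, h1, ?_⟩
    rintro ⟨j, hj, h⟩
    exact h2 ⟨j, Or.inr hj, h⟩
  · rintro ⟨h1, h2, h3⟩
    refine ⟨h2, ?_⟩
    rintro ⟨j, rfl | hj, h⟩
    · exact h1 h.symm
    · exact h3 ⟨j, hj, h⟩

private theorem single_mem_sdiff {d : ℕ} (hd : 0 < d) {J : Finset σ} {i : σ} (hi : i ∉ J)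
    {F : Finset (σ →₀ ℕ)} (hF : Finsupp.single i d ∈ F) :
    Finsupp.single i d ∈ F \ pure d J := by
  rw [Finset.mem_sdiff, mem_pure]
  refine ⟨hF, ?_⟩
  rintro ⟨j, hj, h⟩
  have := (Finsupp.single_eq_single_iff j i d d).1 h
  rcases this with h1 | h1
  · exact hi (h1.1 ▸ hj)
  · exact hd.ne' h1.1

omit [CharZero k] in
private theorem cut_pos {d : ℕ} {J : Finset σ} {F : Finset (σ →₀ ℕ)} {μ : σ →₀ ℕ}
    {z : List (σ →₀ ℕ) → k} {l : List (σ →₀ ℕ)} (h1 : ∀ b ∈ l, b ∈ F)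
    (h2 : Low d J (μ - l.sum)) : cut d J F μ z l = z l := by
  rw [cut, if_pos ⟨h1, h2⟩]

private theorem cut_ne {d : ℕ} {J : Finset σ} {F : Finset (σ →₀ ℕ)} {μ : σ →₀ ℕ}
    {z : List (σ →₀ ℕ) → k} {l : List (σ →₀ ℕ)} (h : cut d J F μ z l ≠ 0) :
    (∀ b ∈ l, b ∈ F) ∧ Low d J (μ - l.sum) ∧ cut d J F μ z l = z l := by
  by_cases h' : (∀ b ∈ l, b ∈ F) ∧ Low d J (μ - l.sum)
  · exact ⟨h'.1, h'.2, cut_pos h'.1 h'.2⟩
  · rw [cut, if_neg h'] at h
    exact (h rfl).elim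

private theorem cut_alt {d : ℕ} {J : Finset σ} {F : Finset (σ →₀ ℕ)} {μ : σ →₀ ℕ}
    {z : List (σ →₀ ℕ) → k} (hz : Alt z) : Alt (cut d J F μ z) := by
  intro l₁ a b l₂
  have hp : (l₁ ++ a :: b :: l₂).Perm (l₁ ++ b :: a :: l₂) :=
    (List.Perm.swap b a l₂).append_left l₁
  have hs : (l₁ ++ a :: b :: l₂).sum = (l₁ ++ b :: a :: l₂).sum := hp.sum_eq
  by_cases h : (∀ x ∈ l₁ ++ a :: b :: l₂, x ∈ F) ∧ Low d J (μ - (l₁ ++ a :: b :: l₂).sum)
  · have h' : (∀ x ∈ l₁ ++ b :: a :: l₂, x ∈ F) ∧ Low d J (μ - (l₁ ++ b :: a :: l₂).sum) :=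
      ⟨fun x hx => h.1 x (hp.mem_iff.2 hx), hs ▸ h.2⟩
    rw [cut_pos h.1 h.2, cut_pos h'.1 h'.2]
    exact hz l₁ a b l₂
  · have h' : ¬ ((∀ x ∈ l₁ ++ b :: a :: l₂, x ∈ F) ∧ Low d J (μ - (l₁ ++ b :: a :: l₂).sum)) :=
      fun h' => h ⟨fun x hx => h'.1 x (hp.mem_iff.1 hx), hs ▸ h'.2⟩
    rw [cut, cut, if_neg h, if_neg h', neg_zero]

omit [DecidableEq σ] in
private theorem low_mono {d : ℕ} {J : Finset σ} {ν ν' : σ →₀ ℕ} (h : Low d J ν) (hle : ν' ≤ ν) :
    Low d J ν' := fun i hi => (hle i).trans_lt (h i hi)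

private theorem cut_RCh {d : ℕ} {J : Finset σ} {F F' : Finset (σ →₀ ℕ)} {μ : σ →₀ ℕ} {p : ℕ}
    {z : List (σ →₀ ℕ) → k} (hz : ECh F μ p z) : RCh d J F' μ p (cut d J F' μ z) := by
  refine ⟨⟨cut_alt hz.1, fun l hl => ?_⟩, fun l hl => (cut_ne hl).2.1⟩
  obtain ⟨h1, -, h3⟩ := cut_ne hl
  rw [h3] at hl
  exact ⟨h1, (hz.2 l hl).2⟩

private theorem cut_RCyc {d : ℕ} {J : Finset σ} {F : Finset (σ →₀ ℕ)} {μ : σ →₀ ℕ} {p : ℕ}
    {z : List (σ →₀ ℕ) → k} (hz : ECh F μ p z) (hcyc : ∀ l, bd F z l = 0) :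
    RCyc d J (F \ pure d J) μ (cut d J (F \ pure d J) μ z) := by
  intro l hl hlow
  by_cases hm : ∀ b ∈ l, b ∈ F \ pure d J
  · rw [← hcyc l, bd, bd]
    rw [← Finset.sum_sdiff (Finset.sdiff_subset : F \ pure d J ⊆ F)]
    have h0 : ∑ b ∈ F \ (F \ pure d J), z (b :: l) = 0 := by
      refine Finset.sum_eq_zero fun b hb => ?_
      rw [Finset.mem_sdiff, Finset.mem_sdiff, not_and, not_not] at hb
      obtain ⟨j, hj, rfl⟩ := mem_pure.1 (hb.2 hb.1)
      by_contra hne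
      have h1 := (hz.2 _ hne).2.1
      rw [List.sum_cons] at h1
      have h2 := h1 j
      have h3 := hlow j hj
      rw [Finsupp.add_apply, Finsupp.single_eq_same] at h2
      rw [Finsupp.tsub_apply] at h3
      omega
    rw [h0, zero_add]
    refine Finset.sum_congr rfl fun b hb => cut_pos ?_ ?_
    · intro x hx
      rcases List.mem_cons.1 hx with rfl | hx
      · exact hb
      · exact hm x hx
    · refine low_mono hlow ?_
      rw [List.sum_cons]
      exact tsub_le_tsub_left (le_add_self) μ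
  · refine Finset.sum_eq_zero fun b _ => ?_
    by_contra hne
    exact hm fun x hx => (cut_ne hne).1 x (List.mem_cons_of_mem _ hx)

/-- a cycle in multidegree `μ` which is a boundary modulo all pure powers is a boundary -/
theorem quot_all {d : ℕ} (hd : 0 < d) (I : Finset σ) {F : Finset (σ →₀ ℕ)}
    (hF : ∀ i ∈ I, Finsupp.single i d ∈ F) {μ : σ →₀ ℕ} {p : ℕ}
    {z : List (σ →₀ ℕ) → k} (hz : ECh F μ p z) (hcyc : ∀ l, bd F z l = 0)
    {w' : List (σ →₀ ℕ) → k} (hw' : RCh d I (F \ pure d I) μ (p + 1) w')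
    (hbd : ∀ l : List (σ →₀ ℕ), (∀ b ∈ l, b ∈ F \ pure d I) → l.sum ≤ μ →
      Low d I (μ - l.sum) → bd (F \ pure d I) w' l = z l) :
    ∃ w : List (σ →₀ ℕ) → k, ECh F μ (p + 1) w ∧ ∀ l, bd F w l = z l := by
  classical
  induction I using Finset.induction_on generalizing w' with
  | empty =>
    rw [pure_empty, Finset.sdiff_empty] at hw' hbd
    refine ⟨w', hw'.1, fun l => ?_⟩
    by_cases h1 : (∀ b ∈ l, b ∈ F) ∧ l.sum ≤ μ
    · exact hbd l h1.1 h1.2 fun i hi => absurd hi (Finset.notMem_empty i)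
    · have hzl : z l = 0 := by
        by_contra hne
        exact h1 ⟨(hz.2 l hne).1, (hz.2 l hne).2.1⟩
      rw [hzl]
      refine Finset.sum_eq_zero fun b _ => ?_
      by_contra hne
      obtain ⟨h2, h3, -⟩ := hw'.1.2 _ hne
      refine h1 ⟨fun x hx => h2 x (List.mem_cons_of_mem _ hx), le_trans ?_ h3⟩
      rw [List.sum_cons]
      exact le_add_self
  | insert i J hi ih =>
    have he := single_mem_sdiff hd hi (hF i (Finset.mem_insert_self i J))
    rw [sdiff_pure_insert] at hw' hbd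
    obtain ⟨w1, hw1, hw1'⟩ := quot_step hd hi he (cut_RCh (J := J) (F' := F \ pure d J) (d := d) hz)
      (cut_RCyc hz hcyc) hw' (by
        intro l h1 h2 h3
        rw [hbd l h1 h2 h3, cut_pos (fun b hb => Finset.mem_of_mem_erase (h1 b hb))
          (fun j hj => h3 j (Finset.mem_insert_of_mem hj))])
    refine ih (fun j hj => hF j (Finset.mem_insert_of_mem hj)) hw1 ?_
    intro l h1 h2 h3
    rw [hw1' l h2 h3, cut_pos h1 h3]

/-- a cycle modulo all pure powers lifts to a cycle -/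
theorem lift_all {d : ℕ} (hd : 0 < d) (I : Finset σ) {F : Finset (σ →₀ ℕ)}
    (hF : ∀ i ∈ I, Finsupp.single i d ∈ F) {μ : σ →₀ ℕ} {p : ℕ}
    {z : List (σ →₀ ℕ) → k} (hz : RCh d I (F \ pure d I) μ p z)
    (hcyc : RCyc d I (F \ pure d I) μ z) :
    ∃ z' : List (σ →₀ ℕ) → k, ECh F μ p z' ∧ (∀ l, bd F z' l = 0) ∧
      ∀ l, z l ≠ 0 → z' l = z l := by
  classical
  induction I using Finset.induction_on generalizing z with
  | empty =>
    rw [pure_empty, Finset.sdiff_empty] at hz hcyc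
    refine ⟨z, hz.1, fun l => ?_, fun l _ => rfl⟩
    by_cases h1 : l.sum ≤ μ
    · exact hcyc l h1 fun i hi => absurd hi (Finset.notMem_empty i)
    · refine Finset.sum_eq_zero fun b _ => ?_
      by_contra hne
      obtain ⟨-, h3, -⟩ := hz.1.2 _ hne
      refine h1 (le_trans ?_ h3)
      rw [List.sum_cons]
      exact le_add_self
  | insert i J hi ih =>
    have he := single_mem_sdiff hd hi (hF i (Finset.mem_insert_self i J))
    rw [sdiff_pure_insert] at hz hcyc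
    obtain ⟨z1, h1, h2, h3⟩ := lift_step hd hi he hz hcyc
    obtain ⟨z2, h4, h5, h6⟩ := ih (fun j hj => hF j (Finset.mem_insert_of_mem hj)) h1 h2
    refine ⟨z2, h4, h5, fun l hl => ?_⟩
    have h7 := h3 l hl
    rw [h6 l (h7 ▸ hl), h7]

end VKB
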