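import Pool.Agent.VKB.QDef

/-!
# Dividing by one pure power: boundaries

Paper proof. Write `e = x_i^d ∈ F`, `F' = F.erase e`, `J' = insert i J`, `i ∉ J`. A list is `J`-low
if `Low d J (μ - l.sum)`. If `l` is `J'`-low then `e :: l` is not `≤ μ`, so `z (e :: l) = 0`.
Given `z` (a `J`-cycle over `F`) and `w'` with `bd F' w' = z` on the `J'`-low lists of
elements of `F'`. Let `z1 = z - bdJ w'` where `bdJ` is `bd F` cut down to the `J`-low lists (it is
again a `J`-cycle). `z1` vanishes on the `J'`-low lists of elements of `F'`. Let `v l = z1 l` for the lists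
`l` of elements of `F'` (so `μ i - l.sum i ≥ d` where `v l ≠ 0`) and `0` otherwise, `W = wd e v`; then
`z1 - bdJ W` is a `J`-cycle which vanishes on all lists without `e`, and then
`0 = bd F (z1 - bdJ W) l = (z1 - bdJ W) (e :: l)` for all `l` without `e` with `e :: l` allowed (`l` is then
`J`-low), so `z1 = bdJ W` (alternating functions: a list containing `e` can be permuted to `e :: l`,
`Alt.middle`). The answer is `w = w' + W`.
-/

namespace VKB
open VK

variable {k : Type*} [Field k] [CharZero k] {σ : Type*} [DecidableEq σ]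

omit [DecidableEq σ] in
private theorem Low.mono {d : ℕ} {J J' : Finset σ} (h : J ⊆ J') {ν : σ →₀ ℕ} (hl : Low d J' ν) :
    Low d J ν := fun i hi => hl i (h hi)

omit [DecidableEq σ] in
private theorem Low.le {d : ℕ} {J : Finset σ} {ν ν' : σ →₀ ℕ} (h : ν' ≤ ν) (hl : Low d J ν) :
    Low d J ν' := fun i hi => lt_of_le_of_lt (h i) (hl i hi)

private theorem Low.cons {d : ℕ} {J : Finset σ} {μ b : σ →₀ ℕ} {l : List (σ →₀ ℕ)}
    (hl : Low d J (μ - l.sum)) : Low d J (μ - (b :: l).sum) := by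
  apply hl.le
  rw [List.sum_cons]
  intro j
  simp only [Finsupp.coe_tsub, Pi.sub_apply, Finsupp.coe_add, Pi.add_apply]
  omega

omit [CharZero k] in
private theorem RCh.mono {d : ℕ} {J J' : Finset σ} {F F' : Finset (σ →₀ ℕ)} {μ : σ →₀ ℕ} {p : ℕ}
    {z : List (σ →₀ ℕ) → k} (hJ : J' ⊆ J) (hF : F ⊆ F') (hz : RCh d J F μ p z) :
    RCh d J' F' μ p z :=
  ⟨⟨hz.1.1, fun l hl => ⟨fun b hb => hF ((hz.1.2 l hl).1 b hb), (hz.1.2 l hl).2⟩⟩,
    fun l hl => (hz.2 l hl).mono hJ⟩

omit [CharZero k] [DecidableEq σ] in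
private theorem RCh.add {d : ℕ} {J : Finset σ} {F : Finset (σ →₀ ℕ)} {μ : σ →₀ ℕ} {p : ℕ}
    {z z' : List (σ →₀ ℕ) → k} (hz : RCh d J F μ p z) (hz' : RCh d J F μ p z') :
    RCh d J F μ p (fun l => z l + z' l) := by
  refine ⟨⟨hz.1.1.add hz'.1.1, fun l hl => ?_⟩, fun l hl => ?_⟩
  · by_cases h : z l = 0
    · apply hz'.1.2
      intro h'
      apply hl
      change z l + z' l = 0
      rw [h, h', add_zero]
    · exact hz.1.2 l h
  · by_cases h : z l = 0
    · apply hz'.2
      intro h'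
      apply hl
      change z l + z' l = 0
      rw [h, h', add_zero]
    · exact hz.2 l h

omit [CharZero k] [DecidableEq σ] in
private theorem RCh.sub {d : ℕ} {J : Finset σ} {F : Finset (σ →₀ ℕ)} {μ : σ →₀ ℕ} {p : ℕ}
    {z z' : List (σ →₀ ℕ) → k} (hz : RCh d J F μ p z) (hz' : RCh d J F μ p z') :
    RCh d J F μ p (fun l => z l - z' l) := by
  refine ⟨⟨hz.1.1.sub hz'.1.1, fun l hl => ?_⟩, fun l hl => ?_⟩
  · by_cases h : z l = 0
    · apply hz'.1.2
      intro h'
      apply hl
      change z l - z' l = 0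
      rw [h, h', sub_zero]
    · exact hz.1.2 l h
  · by_cases h : z l = 0
    · apply hz'.2
      intro h'
      apply hl
      change z l - z' l = 0
      rw [h, h', sub_zero]
    · exact hz.2 l h

open Classical in
/-- the boundary cut down to the low lists -/
private noncomputable def bdJ (d : ℕ) (J : Finset σ) (F : Finset (σ →₀ ℕ)) (μ : σ →₀ ℕ)
    (w : List (σ →₀ ℕ) → k) (l : List (σ →₀ ℕ)) : k :=
  if Low d J (μ - l.sum) then bd F w l else 0

omit [CharZero k] [DecidableEq σ] in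
private theorem bdJ_ch {d : ℕ} {J : Finset σ} {F : Finset (σ →₀ ℕ)} {μ : σ →₀ ℕ} {p : ℕ}
    {w : List (σ →₀ ℕ) → k} (hw : RCh d J F μ (p + 1) w) : RCh d J F μ p (bdJ d J F μ w) := by
  classical
  refine ⟨⟨?_, fun l hl => ?_⟩, fun l hl => ?_⟩
  · have h := (hw.1.1.bd F).ite (fun l => Low d J (μ - l.sum)) (fun l₁ a b l₂ => by
      rw [(perm_swap l₁ a b l₂).sum_eq])
    intro l₁ a b l₂
    have h1 := h l₁ a b l₂
    unfold bdJ
    convert h1 using 2
  · unfold bdJ at hl
    split_ifs at hl with h1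
    · unfold bd at hl
      obtain ⟨b, -, hb⟩ := Finset.exists_ne_zero_of_sum_ne_zero hl
      have h2 := hw.1.2 _ hb
      refine ⟨fun c hc => h2.1 c (List.mem_cons_of_mem _ hc), ?_, ?_⟩
      · have h3 := h2.2.1
        rw [List.sum_cons] at h3
        exact le_trans le_add_self h3
      · have h3 := h2.2.2
        rw [List.length_cons] at h3
        omega
    · exact absurd rfl hl
  · unfold bdJ at hl
    split_ifs at hl with h1
    · exact h1
    · exact absurd rfl hl

private theorem bdJ_cyc {d : ℕ} {J : Finset σ} {F : Finset (σ →₀ ℕ)} {μ : σ →₀ ℕ} {p : ℕ}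
    {w : List (σ →₀ ℕ) → k} (hw : RCh d J F μ p w) : RCyc d J F μ (bdJ d J F μ w) := by
  intro l _ hlow
  have h1 : bd F (bdJ d J F μ w) l = bd F (bd F w) l := by
    unfold bd
    refine Finset.sum_congr rfl fun b _ => ?_
    unfold bdJ
    rw [if_pos (hlow.cons)]
    rfl
  rw [h1]
  exact bd_bd hw.1.1 F l

omit [CharZero k] [DecidableEq σ] in
private theorem RCyc.sub {d : ℕ} {J : Finset σ} {F : Finset (σ →₀ ℕ)} {μ : σ →₀ ℕ}
    {z z' : List (σ →₀ ℕ) → k} (hz : RCyc d J F μ z) (hz' : RCyc d J F μ z') :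
    RCyc d J F μ (fun l => z l - z' l) := by
  intro l h1 h2
  rw [bd_sub, hz l h1 h2, hz' l h1 h2, sub_zero]

/-- a `J`-cycle which vanishes on the lists without `e` is zero -/
private theorem cyc_zero {d : ℕ} {J : Finset σ} {i : σ} (hi : i ∉ J)
    {F : Finset (σ →₀ ℕ)} (hF : Finsupp.single i d ∈ F) {μ : σ →₀ ℕ} {p : ℕ}
    {z : List (σ →₀ ℕ) → k} (hz : RCh d J F μ p z) (hcyc : RCyc d J F μ z)
    (h0 : ∀ l, Finsupp.single i d ∉ l → z l = 0) (l : List (σ →₀ ℕ)) : z l = 0 := by
  classical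
  set e : σ →₀ ℕ := Finsupp.single i d with he
  have key : ∀ l, z (e :: l) = 0 := by
    intro l
    by_contra h
    have hnd : (e :: l).Nodup := by
      by_contra h'
      exact h (hz.1.1.dup h')
    have hel : e ∉ l := (List.nodup_cons.1 hnd).1
    have h1 := hz.1.2 _ h
    have h2 := hz.2 _ h
    have hs := h1.2.1
    rw [List.sum_cons] at hs
    have hle : l.sum ≤ μ := le_trans le_add_self hs
    have hlow : Low d J (μ - l.sum) := by
      intro j hj
      have hji : j ≠ i := fun hji => hi (hji ▸ hj)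
      have h3 := h2 j hj
      rw [List.sum_cons] at h3
      simp only [Finsupp.coe_tsub, Pi.sub_apply, Finsupp.coe_add, Pi.add_apply] at h3 ⊢
      rw [he, Finsupp.single_eq_of_ne hji, zero_add] at h3
      exact h3
    have h4 := hcyc l hle hlow
    unfold bd at h4
    rw [← Finset.add_sum_erase F _ hF, Finset.sum_eq_zero, add_zero] at h4
    · exact h h4
    · intro b hb
      apply h0
      intro hmem
      rcases List.mem_cons.1 hmem with h5 | h5
      · exact (Finset.mem_erase.1 hb).1 h5.symm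
      · exact hel h5
  by_cases hel : e ∈ l
  · obtain ⟨l₁, l₂, rfl⟩ := List.append_of_mem hel
    rw [hz.1.1.middle, key, mul_zero]
  · exact h0 l hel

/-- one variable -/
theorem quot_step {d : ℕ} (hd : 0 < d) {J : Finset σ} {i : σ} (hi : i ∉ J)
    {F : Finset (σ →₀ ℕ)} (hF : Finsupp.single i d ∈ F) {μ : σ →₀ ℕ} {p : ℕ}
    {z : List (σ →₀ ℕ) → k} (hz : RCh d J F μ p z) (hcyc : RCyc d J F μ z)
    {w' : List (σ →₀ ℕ) → k}
    (hw' : RCh d (insert i J) (F.erase (Finsupp.single i d)) μ (p + 1) w')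
    (hbd : ∀ l : List (σ →₀ ℕ), (∀ b ∈ l, b ∈ F.erase (Finsupp.single i d)) → l.sum ≤ μ →
      Low d (insert i J) (μ - l.sum) → bd (F.erase (Finsupp.single i d)) w' l = z l) :
    ∃ w : List (σ →₀ ℕ) → k, RCh d J F μ (p + 1) w ∧
      ∀ l : List (σ →₀ ℕ), l.sum ≤ μ → Low d J (μ - l.sum) → bd F w l = z l := by
  classical
  set e : σ →₀ ℕ := Finsupp.single i d with he
  have hw : RCh d J F μ (p + 1) w' :=
    hw'.mono (Finset.subset_insert i J) (Finset.erase_subset _ _)
  have hbdF : ∀ l, bd F w' l = bd (F.erase e) w' l := by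
    intro l
    unfold bd
    rw [← Finset.add_sum_erase F _ hF]
    have h : w' (e :: l) = 0 := by
      by_contra h
      have h1 := (hw'.1.2 _ h).1 e List.mem_cons_self
      exact (Finset.mem_erase.1 h1).1 rfl
    rw [h, zero_add]
  -- the first correction
  set z1 : List (σ →₀ ℕ) → k := fun l => z l - bdJ d J F μ w' l with hz1
  have hz1c : RCh d J F μ p z1 := hz.sub (bdJ_ch hw)
  have hz1y : RCyc d J F μ z1 := hcyc.sub (bdJ_cyc hw)
  have hz1v : ∀ l, (∀ b ∈ l, b ∈ F.erase e) → z1 l ≠ 0 → d ≤ (μ - l.sum) i := by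
    intro l hl h
    by_contra hlt
    push Not at hlt
    have h1 := hz1c.1.2 l h
    have h2 := hz1c.2 l h
    have h3 : Low d (insert i J) (μ - l.sum) := by
      intro j hj
      rcases Finset.mem_insert.1 hj with h4 | h4
      · rw [h4]; exact hlt
      · exact h2 j h4
    apply h
    change z l - bdJ d J F μ w' l = 0
    unfold bdJ
    rw [if_pos h2, hbdF, hbd l hl h1.2.1 h3, sub_self]
  -- the second correction
  set v : List (σ →₀ ℕ) → k := fun l => if (∀ b ∈ l, b ∈ F.erase e) then z1 l else 0 with hv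
  have hvalt : Alt v := hz1c.1.1.ite (fun l => ∀ b ∈ l, b ∈ F.erase e) (fun l₁ a b l₂ => by
    have h := (perm_swap l₁ a b l₂)
    exact ⟨fun h1 c hc => h1 c (h.mem_iff.2 hc), fun h1 c hc => h1 c (h.mem_iff.1 hc)⟩)
  have hvne : ∀ l, v l ≠ 0 → (∀ b ∈ l, b ∈ F.erase e) ∧ z1 l ≠ 0 := by
    intro l hl
    by_cases h : ∀ b ∈ l, b ∈ F.erase e
    · refine ⟨h, ?_⟩
      have h1 : v l = z1 l := if_pos h
      rw [h1] at hl
      exact hl
    · exact absurd (if_neg h) hl
  have hW : RCh d J F μ (p + 1) (wedge e v) := by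
    have main : ∀ l, wedge e v l ≠ 0 → ((∀ b ∈ l, b ∈ F) ∧ l.sum ≤ μ ∧ l.length = p + 1) ∧
        Low d J (μ - l.sum) := by
      intro l hl
      obtain ⟨l₁, l₂, rfl, h2⟩ := wedge_ne_zero hl
      obtain ⟨h3, h4⟩ := hvne _ h2
      have h5 := hz1c.1.2 _ h4
      have h6 := hz1c.2 _ h4
      have h7 := hz1v _ h3 h4
      have hp : (l₁ ++ e :: l₂).Perm (e :: (l₁ ++ l₂)) := List.perm_middle
      refine ⟨⟨?_, ?_, ?_⟩, ?_⟩
      · intro b hb
        rw [hp.mem_iff, List.mem_cons] at hb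
        rcases hb with h | h
        · rw [h]; exact hF
        · exact h5.1 b h
      · rw [hp.sum_eq, List.sum_cons]
        intro j
        have h8 := h5.2.1 j
        rw [Finsupp.add_apply]
        by_cases hj : j = i
        · rw [hj, he, Finsupp.single_eq_same]
          rw [hj] at h8
          simp only [Finsupp.coe_tsub, Pi.sub_apply] at h7
          omega
        · rw [he, Finsupp.single_eq_of_ne hj, zero_add]
          exact h8
      · rw [hp.length_eq, List.length_cons, h5.2.2]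
      · rw [hp.sum_eq]
        exact h6.cons
    exact ⟨⟨wedge_alt hvalt, fun l hl => (main l hl).1⟩, fun l hl => (main l hl).2⟩
  set z2 : List (σ →₀ ℕ) → k := fun l => z1 l - bdJ d J F μ (wedge e v) l with hz2
  have hz2c : RCh d J F μ p z2 := hz1c.sub (bdJ_ch hW)
  have hz2y : RCyc d J F μ z2 := hz1y.sub (bdJ_cyc hW)
  have hz20 : ∀ l, z2 l = 0 := by
    apply cyc_zero hi hF hz2c hz2y
    intro l hel
    by_contra h
    have h1 := hz2c.1.2 l h
    have h2 := hz2c.2 l h
    have h3 : ∀ b ∈ l, b ∈ F.erase e := fun b hb =>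
      Finset.mem_erase.2 ⟨fun hbe => hel (by rw [← he, ← hbe]; exact hb), h1.1 b hb⟩
    apply h
    change z1 l - bdJ d J F μ (wedge e v) l = 0
    unfold bdJ
    rw [if_pos h2, bd_wedge hF]
    have h4 : wedge e (bd F v) l = 0 := by
      by_contra h5
      obtain ⟨l₁, l₂, h6, -⟩ := wedge_ne_zero h5
      apply hel
      rw [h6]
      exact List.mem_append_right _ List.mem_cons_self
    have h5 : v l = z1 l := if_pos h3
    rw [h4, h5, sub_zero, sub_self]
  refine ⟨fun l => w' l + wedge e v l, hw.add hW, ?_⟩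
  intro l hl hlow
  have h1 : z l - bdJ d J F μ w' l - bdJ d J F μ (wedge e v) l = 0 := hz20 l
  unfold bdJ at h1
  rw [if_pos hlow, if_pos hlow] at h1
  rw [bd_add]
  linear_combination -h1

end VKB
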