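import Pool.Agent.VKB.Main
import Pool.Agent.VKB.Kos2
import Pool.Agent.VKB.DualS

/-!
# The exact range

`a = q d + b`, `a' = (n + 1) (d - 1) - a`. Claim: `K_{p,q}(ℙ^n, b; d) ≠ 0` iff `0 ≤ a ≤ (n + 1) (d - 1)` and
`LL d a ≤ p` and `p + LL d a' + (n + 1) ≤ multichoose (n + 1) d = (n + d).choose d`. The `if` part holds for all `n`, `d ≥ 2`; the
`only if` part whenever `BB d a = LL d a` for all `a ≤ n (d - 1)`.

Paper proofs.
* `nonvanish`: `I = univ`. For `a ≥ 1` write `a = (s - 1) (d - 1) + r` with `1 ≤ r ≤ d - 1`, `s ≤ n + 1` (for `a = 0`: `s = 1`, `r = 0`), `J` a set of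
  `s - 1` variables, `i ∉ J`. By `card_div` and `card_ann` there is a set `N` with `p` elements between
  `{m ∈ F : m ≤ ff}` (contained in the next set by `div_ann`; not pure since exponents are `< d`) and
  `{m ∈ F \ pure : some exponent of m + ff is ≥ d}`. `not_EEx` and `eex_of_subsingleton`.
* `lower`: for `a ≤ n (d - 1)` this is `expo_exact2` (`BB d a = LL d a`), otherwise `few_exact` with `I = univ`,
  `b = (n + 1) (d - 1) - a ≤ d - 2`, `s = n + 1` (`LL_use` with `a - 1`).
* `upper`: `q = multichoose (n + 1) d - (n + 1) - p`; if this is negative use `EEx_large`, otherwise `EEx_dual`, `degree_dual` and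
  `lower` for `a'`.
* `vanish`: if `a < 0` then `piece n a = ⊥` and there are no nonzero chains. If `a > (n + 1) (d - 1)`: `pureExact`. From exactness
  of the exponent model in all multidegrees to the vanishing of the cohomology: as in `Kos2.lean` (extract the
  lemma which takes the exactness of the exponent model as a hypothesis).
-/

namespace VKB
open VK

theorem mem_FF_univ {n d : ℕ} (m : Fin (n + 1) →₀ ℕ) :
    m ∈ FF n d ↔ m.support ⊆ (Finset.univ : Finset (Fin (n + 1))) ∧ m.degree = d := by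
  rw [mem_FF]
  exact ⟨fun h => ⟨Finset.subset_univ _, h⟩, fun h => h.2⟩

theorem card_FF (n d : ℕ) : (FF n d).card = Nat.multichoose (n + 1) d := by
  have h1 : FF n d = Finset.finsuppAntidiag (Finset.univ : Finset (Fin (n + 1))) d := by
    ext m
    rw [mem_FF_univ, mem_fsa_iff]
  rw [h1, Finset.card_finsuppAntidiag_nat_eq_multichoose, Finset.card_univ, Fintype.card_fin]

theorem lower {n d a p : ℕ} (hd : 2 ≤ d) (hs : ∀ a, a ≤ n * (d - 1) → BB d a = LL d a)
    (ha : a ≤ (n + 1) * (d - 1)) (hp : p < LL d a) {μ : Fin (n + 1) →₀ ℕ}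
    (hμ : μ.degree = p * d + a) : EEx ℂ (FF n d) μ p := by
  rcases Nat.lt_or_ge (n * (d - 1)) a with h | h
  swap
  · exact expo_exact2 (k := ℂ) d a p hd (by rw [hs a h]; exact hp) μ hμ (FF n d) fun b => mem_FF
  obtain ⟨c, rfl⟩ : ∃ c, a = c + 1 := ⟨a - 1, by omega⟩
  have h1 : c / (d - 1) = n := Nat.div_eq_of_lt_le (by omega) (by omega)
  have h2 := LL_use hd hp
  rw [h1] at h2
  have h3 : (n + 1) * (d - 1) = n * (d - 1) + (d - 1) := Nat.succ_mul _ _
  refine few_exact (k := ℂ) Finset.univ (a := c + 1) (b := (n + 1) * (d - 1) - (c + 1)) hd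
    mem_FF_univ (Finset.subset_univ _) hμ ?_ ?_ ?_
  · rw [Finset.card_univ, Fintype.card_fin]
    omega
  · omega
  · rw [Finset.card_finsuppAntidiag_nat_eq_multichoose, card_FF, Finset.card_univ,
      Fintype.card_fin]
    exact h2

theorem upper {n d a p : ℕ} (hd : 2 ≤ d) (hs : ∀ a, a ≤ n * (d - 1) → BB d a = LL d a)
    (ha : a ≤ (n + 1) * (d - 1))
    (hp : Nat.multichoose (n + 1) d < p + LL d ((n + 1) * (d - 1) - a) + (n + 1))
    {μ : Fin (n + 1) →₀ ℕ} (hμ : μ.degree = p * d + a) : EEx ℂ (FF n d) μ p := by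
  have hI : (Finset.univ : Finset (Fin (n + 1))).card = n + 1 := by
    rw [Finset.card_univ, Fintype.card_fin]
  rcases Nat.lt_or_ge (Nat.multichoose (n + 1) d) (p + (n + 1)) with h | h
  · refine EEx_large (k := ℂ) Finset.univ hd mem_FF_univ (Finset.subset_univ _) ?_
    rw [hI, card_FF]
    exact h
  obtain ⟨q, hq⟩ : ∃ q, p + q + (n + 1) = Nat.multichoose (n + 1) d :=
    ⟨Nat.multichoose (n + 1) d - (n + 1) - p, by omega⟩
  have hpq : p + q + (Finset.univ : Finset (Fin (n + 1))).card = (FF n d).card := by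
    rw [hI, card_FF, hq]
  refine EEx_dual (k := ℂ) Finset.univ hd mem_FF_univ (Finset.subset_univ _) hpq ?_
  intro hle
  have h1 := (degree_dual Finset.univ hd mem_FF_univ hpq hμ (by rw [hI]; exact ha) hle).1
  rw [hI] at h1
  exact lower hd hs (Nat.sub_le _ _) (by omega) h1

end VKB
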