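import Pool.Agent.VKB.Kos2
import Pool.Agent.VKB.NonR
import Pool.Agent.VKB.RangeA
import Pool.Agent.VKB.Sharp

/-!
# The exact range

`a = q d + b`, `a' = (n + 1) (d - 1) - a`. Claim: `K_{p,q}(ℙ^n, b; d) ≠ 0` iff `0 ≤ a ≤ (n + 1) (d - 1)` and
`LL d a ≤ p` and `p + LL d a' + (n + 1) ≤ multichoose (n + 1) d = (n + d).choose d`. The `if` part holds for all `n`, `d ≥ 2`; the
`only if` part whenever `BB d a = LL d a` for all `a ≤ n (d - 1)`.

Paper proofs.
* `nonvanish`: `I = univ`. For `a ≥ 1` write `a = (s - 1) (d - 1) + r` with `1 ≤ r ≤ d - 1`, `s ≤ n + 1` (for `a = 0`: `s = 1`, `r = 0`), `J` a set of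
  `s - 1` variables, `i ∉ J`. By `card_div` and `card_ann` there is a set `N` with `p` elements between
  `{m ∈ F : m ≤ ff}` (contained in the next set by `div_ann`; not pure since exponents are `< d`) and
  `{m ∈ F \ pure : some exponent of m + ff is ≥ d}`. `not_EEx` and `eex_of_subsingleton`.
* `lower`: for `a ≤ n (d - 1)` this is `expo_exact2` (`BB d a = LL d a`), otherwise `few_exact` with `I = univ`,
  `b = (n + 1) (d - 1) - a ≤ d - 2`, `s = n + 1` (`LL_use` with `a - 1`).
* `upper`: `q = multichoose (n + 1) d - (n + 1) - p`; if this is negative use `EEx_large`, otherwise `EEx_dual`, `degree_dual` and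
  `lower` for `a'`.
* `vanish`: if `a < 0` then `piece n a = ⊥` and there are no nonzero chains. If `a > (n + 1) (d - 1)`: `pureExact`. From exactness
  of the exponent model in all multidegrees to the vanishing of the cohomology: as in `Kos2.lean` (extract the
  lemma which takes the exactness of the exponent model as a hypothesis).
-/

namespace VKB
open VK

/-- from exactness of the exponent model to the vanishing, on the level of elements -/
theorem range_cycle (n d p : ℕ) {m : ℤ} {a : ℕ} (hma : m = (a : ℤ))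
    (hE : ∀ μ : Fin (n + 1) →₀ ℕ, μ.degree = p * d + a → EEx ℂ (FF n d) μ p) {x : KosAlg n d}
    (hx : x ∈ chains n d p m) (hdx : ctr (mulMap (piece n (d : ℤ))) x = 0) :
    ∃ y ∈ chains n d (p + 1) (m - d), ctr (mulMap (piece n (d : ℤ))) y = x := by
  classical
  set F := FF n d with hF
  set Z : List (Fin (n + 1) →₀ ℕ) → PolyS n := fun l => Psi (dual n d) l x with hZ
  have hZA : Alt Z := Psi_alt _ x
  have hZp : ∀ l, Z l ∈ piece n m := fun l => (Psi_chains l p hx).1
  have hZl : ∀ l, Z l ≠ 0 → l.length = p := fun l => (Psi_chains l p hx).2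
  have hZF : ∀ l, Z l ≠ 0 → ∀ b ∈ l, b ∈ F := fun l hl =>
    Psi_mem_F (fun b hb => dual_zero hb) l x hl
  have hZd : ∀ l, ∑ b ∈ F, MvPolynomial.monomial b (1 : ℂ) * Z (b :: l) = 0 := by
    intro l
    have h1 := Psi_ctr F (fun b => MvPolynomial.monomial b (1 : ℂ)) (dual n d) x l
    rw [← mulMap_eq, hdx, map_zero] at h1
    exact h1.symm
  -- the sum of a list of exponents from `F`
  have hsum : ∀ l : List (Fin (n + 1) →₀ ℕ), (∀ b ∈ l, b ∈ F) →
      l.sum.degree = l.length * d := by
    intro l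
    induction l with
    | nil => intro _; simp
    | cons b l ih =>
      intro h
      rw [List.sum_cons, map_add, ih fun c hc => h c (List.mem_cons_of_mem _ hc),
        mem_FF.1 (h b List.mem_cons_self), List.length_cons]
      ring
  -- multigraded components
  let zc : (Fin (n + 1) →₀ ℕ) → List (Fin (n + 1) →₀ ℕ) → ℂ := fun μ l =>
    if l.sum ≤ μ then MvPolynomial.coeff (μ - l.sum) (Z l) else 0
  have hzc0 : ∀ μ l, zc μ l ≠ 0 → l.sum ≤ μ ∧ MvPolynomial.coeff (μ - l.sum) (Z l) ≠ 0 := by
    intro μ l h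
    by_cases h1 : l.sum ≤ μ
    · have h2 : zc μ l = MvPolynomial.coeff (μ - l.sum) (Z l) := if_pos h1
      rw [h2] at h
      exact ⟨h1, h⟩
    · exact absurd (if_neg h1) h
  have hzcZ : ∀ μ l, zc μ l ≠ 0 → Z l ≠ 0 := by
    intro μ l h h1
    apply (hzc0 μ l h).2
    rw [h1, MvPolynomial.coeff_zero]
  have hzcE : ∀ μ, ECh F μ p (zc μ) := by
    intro μ
    constructor
    · intro l₁ b c l₂
      have h1 : (l₁ ++ b :: c :: l₂).sum = (l₁ ++ c :: b :: l₂).sum :=
        (perm_swap l₁ b c l₂).sum_eq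
      change (if (l₁ ++ b :: c :: l₂).sum ≤ μ then _ else _) =
        - (if (l₁ ++ c :: b :: l₂).sum ≤ μ then _ else _)
      rw [h1, hZA l₁ b c l₂]
      split_ifs
      · rw [MvPolynomial.coeff_neg]
      · rw [neg_zero]
    · intro l hl
      have h1 := hzcZ μ l hl
      exact ⟨hZF l h1, (hzc0 μ l hl).1, hZl l h1⟩
  have hzcbd : ∀ μ l, bd F (zc μ) l = 0 := by
    intro μ l
    by_cases hl : l.sum ≤ μ
    · have h1 := congrArg (MvPolynomial.coeff (μ - l.sum)) (hZd l)
      rw [MvPolynomial.coeff_sum, MvPolynomial.coeff_zero] at h1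
      rw [← h1]
      unfold bd
      refine Finset.sum_congr rfl fun b _ => ?_
      rw [MvPolynomial.coeff_monomial_mul', one_mul]
      change (if (b :: l).sum ≤ μ then _ else _) = _
      rw [List.sum_cons]
      by_cases hb : b + l.sum ≤ μ
      · rw [if_pos hb, if_pos (le_tsub_of_add_le_right hb), tsub_add_eq_tsub_tsub_swap]
      · rw [if_neg hb, if_neg]
        intro h2
        apply hb
        have h3 := add_le_add_left h2 l.sum
        rwa [tsub_add_cancel_of_le hl] at h3
    · refine Finset.sum_eq_zero fun b _ => if_neg fun h => hl ?_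
      rw [List.sum_cons] at h
      exact le_trans le_add_self h
  -- the multigraded components of the primitive
  have hw : ∀ μ, ∃ w : List (Fin (n + 1) →₀ ℕ) → ℂ, ECh F μ (p + 1) w ∧
      (∀ l, bd F w l = zc μ l) ∧ (μ.degree ≠ p * d + a → ∀ l, w l = 0) := by
    intro μ
    by_cases hμ : μ.degree = p * d + a
    · obtain ⟨w, hw, hw'⟩ := hE μ hμ (zc μ) (hzcE μ) (hzcbd μ)
      exact ⟨w, hw, hw', fun h => absurd hμ h⟩
    · refine ⟨fun _ => 0, ⟨Alt.zero, fun l hl => absurd rfl hl⟩, ?_, fun _ _ => rfl⟩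
      intro l
      rw [bd_zero]
      by_contra h
      have h1 : zc μ l ≠ 0 := Ne.symm h
      have h2 := hzcE μ |>.2 l h1
      have h3 := piece_coeff (hZp l) (hzc0 μ l h1).2
      have h4 : (μ - l.sum).degree + l.sum.degree = μ.degree := by
        rw [← map_add, tsub_add_cancel_of_le h2.2.1]
      rw [hsum l h2.1, h2.2.2] at h4
      apply hμ
      omega
  choose w hwE hwbd hw0 using hw
  set Q := FF n (p * d + a) with hQ
  let W : List (Fin (n + 1) →₀ ℕ) → PolyS n := fun l =>
    ∑ μ ∈ Q, MvPolynomial.monomial (μ - l.sum) (w μ l)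
  have hWc : ∀ l ν, MvPolynomial.coeff ν (W l) = w (ν + l.sum) l := by
    intro l ν
    change MvPolynomial.coeff ν (∑ μ ∈ Q, MvPolynomial.monomial (μ - l.sum) (w μ l)) = _
    rw [MvPolynomial.coeff_sum]
    by_cases h0 : w (ν + l.sum) l = 0
    · rw [h0]
      refine Finset.sum_eq_zero fun μ _ => ?_
      rw [MvPolynomial.coeff_monomial]
      split_ifs with h1
      · by_contra h2
        have h3 := ((hwE μ).2 l h2).2.1
        rw [← h1, tsub_add_cancel_of_le h3] at h0
        exact h2 h0
      · rfl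
    · rw [Finset.sum_eq_single (ν + l.sum)]
      · rw [MvPolynomial.coeff_monomial, add_tsub_cancel_right, if_pos rfl]
      · intro μ _ hμ
        rw [MvPolynomial.coeff_monomial]
        split_ifs with h1
        · by_contra h2
          have h3 := ((hwE μ).2 l h2).2.1
          apply hμ
          rw [← h1, tsub_add_cancel_of_le h3]
        · rfl
      · intro h1
        exfalso
        apply h1
        rw [hQ, mem_FF]
        by_contra h2
        exact h0 (hw0 _ h2 l)
  have hWA : Alt W := by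
    intro l₁ b c l₂
    ext ν
    rw [MvPolynomial.coeff_neg, hWc, hWc, (perm_swap l₁ b c l₂).sum_eq, (hwE _).1 l₁ b c l₂]
  have hWp : ∀ l, l.length = p + 1 → W l ∈ piece n (m - d) := by
    intro l hl
    refine Submodule.sum_mem _ fun μ hμ => ?_
    by_cases h0 : w μ l = 0
    · rw [h0, map_zero]; exact Submodule.zero_mem _
    · have h1 := (hwE μ).2 l h0
      have h4 : (μ - l.sum).degree + l.sum.degree = μ.degree := by
        rw [← map_add, tsub_add_cancel_of_le h1.2.1]
      rw [hsum l h1.1, hl, mem_FF.1 hμ] at h4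
      have h5 : (p + 1) * d = p * d + d := by ring
      unfold piece
      rw [if_pos (by omega), MvPolynomial.mem_homogeneousSubmodule]
      apply MvPolynomial.isHomogeneous_monomial
      omega
  have hWd : ∀ l, ∑ b ∈ F, MvPolynomial.monomial b (1 : ℂ) * W (b :: l) = Z l := by
    intro l
    ext ν
    rw [MvPolynomial.coeff_sum]
    have h1 : ∀ b ∈ F, MvPolynomial.coeff ν (MvPolynomial.monomial b (1 : ℂ) * W (b :: l)) =
        w (ν + l.sum) (b :: l) := by
      intro b _
      rw [MvPolynomial.coeff_monomial_mul', one_mul]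
      split_ifs with hb
      · rw [hWc, List.sum_cons, ← add_assoc, tsub_add_cancel_of_le hb]
      · by_contra h2
        have h3 := ((hwE _).2 _ (Ne.symm h2)).2.1
        rw [List.sum_cons] at h3
        exact hb (le_of_add_le_add_right h3)
    rw [Finset.sum_congr rfl h1]
    have h2 := hwbd (ν + l.sum) l
    unfold bd at h2
    rw [h2]
    change (if l.sum ≤ ν + l.sum then _ else _) = _
    rw [if_pos le_add_self, add_tsub_cancel_right]
  -- conclusion
  have hid := sum_dual (n := n) (d := d)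
  have hT1 := Theta_Psi (F := F) (e := fun b => (1 : PolyS n) ⊗ₜ[ℂ] mon n d b)
    (f := dual n d) hid p (chains_le_Ep hx)
  have hT2 := ctr_Theta (F := F) (e := fun b => (1 : PolyS n) ⊗ₜ[ℂ] mon n d b)
    (φ := mulMap (piece n (d : ℤ))) (X := fun b => MvPolynomial.monomial b (1 : ℂ))
    (fun b hb => mulMap_mon hb) p W hWA
  have hWd' : (fun l => ∑ b ∈ F, MvPolynomial.monomial b (1 : ℂ) * W (b :: l)) =
      fun l => Psi (dual n d) l x := by
    funext l
    exact hWd l
  rw [hWd', hT1, smul_smul] at hT2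
  set y := Theta F (fun b => (1 : PolyS n) ⊗ₜ[ℂ] mon n d b) (p + 1) W with hy
  have hyC : y ∈ chains n d (p + 1) (m - d) := Theta_chains (p + 1) W hWp
  set c : ℂ := ((p + 1 : ℕ) : ℂ) * ((p.factorial : ℕ) : ℂ) with hc
  have hc0 : c ≠ 0 := by
    rw [hc]
    apply mul_ne_zero
    · rw [Nat.cast_ne_zero]; omega
    · rw [Nat.cast_ne_zero]; exact Nat.factorial_ne_zero p
  have hyx : ctr (mulMap (piece n (d : ℤ))) y = (MvPolynomial.C c : PolyS n) • x := by
    rw [hT2, hc, map_mul, map_natCast, map_natCast]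
  refine ⟨(MvPolynomial.C c⁻¹ : PolyS n) • y, chains_smul _ hyC, ?_⟩
  rw [map_smul, hyx, smul_smul, ← map_mul, inv_mul_cancel₀ hc0, map_one, one_smul]

theorem chains_neg {n d p : ℕ} {m : ℤ} (hm : m < 0) {x : KosAlg n d} (hx : x ∈ chains n d p m) :
    x = 0 := by
  unfold chains wedgeSpan at hx
  induction hx using AddSubgroup.closure_induction with
  | mem x h =>
    obtain ⟨s, hs, w, rfl⟩ := h
    unfold piece at hs
    rw [if_neg (by omega)] at hs
    have h1 : s = 0 := (Submodule.mem_bot ℂ).1 hs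
    rw [h1, zero_smul]
  | zero => rfl
  | add x y _ _ hx hy => rw [hx, hy, add_zero]
  | neg x _ hx => rw [hx, neg_zero]

theorem range_subsingleton (n : ℕ) (b : ℤ) (d p : ℕ) (q : ℤ)
    (h : ∀ x : KosAlg n d, x ∈ chains n d p (q * d + b) →
      ctr (mulMap (piece n (d : ℤ))) x = 0 →
      ∃ y ∈ chains n d (p + 1) (q * d + b - d), ctr (mulMap (piece n (d : ℤ))) y = x) :
    Subsingleton (KoszulCohomology n b d p q) := by
  have key : ∀ x ∈ cycles (mulMap (piece n (d : ℤ)))
      (fun v : piece n (d : ℤ) => (1 : PolyS n) ⊗ₜ[ℂ] v) (piece n (q * d + b) : Set (PolyS n)) p,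
      x ∈ boundaries (mulMap (piece n (d : ℤ)))
      (fun v : piece n (d : ℤ) => (1 : PolyS n) ⊗ₜ[ℂ] v)
      (piece n ((q - 1) * d + b) : Set (PolyS n)) p := by
    rintro x ⟨hx1, hx2⟩
    obtain ⟨y, hy, hyx⟩ := h x hx1 hx2
    have h1 : q * (d : ℤ) + b - d = (q - 1) * d + b := by ring
    rw [h1] at hy
    exact ⟨y, hy, hyx⟩
  unfold KoszulCohomology KoszulHomology Homology
  refine ⟨fun a b => ?_⟩
  induction a using QuotientAddGroup.induction_on with
  | H x =>
  induction b using QuotientAddGroup.induction_on with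
  | H y =>
  rw [QuotientAddGroup.eq, AddSubgroup.mem_addSubgroupOf]
  exact key _ (SetLike.coe_mem _)

/-- the exact range -/
theorem exact_range (n d : ℕ) (hd : 2 ≤ d) (hs : ∀ a, a ≤ n * (d - 1) → BB d a = LL d a)
    (b : ℤ) (p : ℕ) (q : ℤ) :
    Subsingleton (KoszulCohomology n b d p q) ↔
      ¬ (0 ≤ q * d + b ∧ q * d + b ≤ (n + 1) * (d - 1) ∧ LL d (q * d + b).toNat ≤ p ∧
        p + LL d ((n + 1) * (d - 1) - (q * d + b)).toNat + (n + 1) ≤ Nat.multichoose (n + 1) d) := by
  have hcast : ((n + 1 : ℤ)) * ((d : ℤ) - 1) = (((n + 1) * (d - 1) : ℕ) : ℤ) := by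
    push_cast [Nat.cast_sub (show 1 ≤ d by omega)]
    ring
  rw [hcast]
  constructor
  · rintro h ⟨h0, h1, h2, h3⟩
    obtain ⟨a, ha⟩ := Int.eq_ofNat_of_zero_le h0
    rw [ha] at h1 h2 h3
    have ha' : a ≤ (n + 1) * (d - 1) := by exact_mod_cast h1
    have e1 : (((n + 1) * (d - 1) : ℕ) : ℤ) - (a : ℤ) = (((n + 1) * (d - 1) - a : ℕ) : ℤ) := by
      rw [Nat.cast_sub ha']
    rw [e1, Int.toNat_natCast] at h3
    rw [Int.toNat_natCast] at h2
    exact nonvanish n b d p q hd ha ha' h2 h3 h
  · intro h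
    apply range_subsingleton
    intro x hx hdx
    rcases lt_or_ge (q * (d : ℤ) + b) 0 with hneg | hpos
    · refine ⟨0, AddSubgroup.zero_mem _, ?_⟩
      rw [map_zero, chains_neg hneg hx]
    obtain ⟨a, ha⟩ := Int.eq_ofNat_of_zero_le hpos
    refine range_cycle n d p ha ?_ hx hdx
    intro μ hμ
    rcases Nat.lt_or_ge ((n + 1) * (d - 1)) a with hbig | hsmall
    · refine pureExact Finset.univ d (FF n d) (fun i _ => ?_) (fun b hb => mem_FF.1 hb) p μ
        (Finset.subset_univ _) ?_
      · rw [mem_FF, Finsupp.degree_single]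
      · rw [Finset.card_univ, Fintype.card_fin, hμ]
        omega
    rw [ha] at h
    have e1 : (((n + 1) * (d - 1) : ℕ) : ℤ) - (a : ℤ) = (((n + 1) * (d - 1) - a : ℕ) : ℤ) := by
      rw [Nat.cast_sub hsmall]
    rw [e1, Int.toNat_natCast, Int.toNat_natCast] at h
    rcases Nat.lt_or_ge p (LL d a) with h1 | h1
    · exact lower hd hs hsmall h1 hμ
    · refine upper hd hs hsmall ?_ hμ
      by_contra h2
      apply h
      refine ⟨by omega, by exact_mod_cast hsmall, h1, by omega⟩

end VKB
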