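import Pool.Agent.VKB.Kap

/-!
# The row `q = 0`

Let `F` be the set of all monomials of degree `d` in the variables of `I` and `b < d`. A cycle of the
Koszul complex with `q` factors and coefficients of degree `b` is zero as soon as `q` is at least the
number of monomials of degree `b`.

Paper proof (lexicographic argument). Choose `ω : (σ →₀ ℕ) → ℕ` additive and injective on the
monomials of degree `≤ d` on `I` (for instance `ω m = ∑ i, m i * (d + 1) ^ (e i)` for an enumeration
`e` of `I`); only `ω (m + m') = ω m + ω m'` and injectivity on the degree `d` and on the degree `b`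
monomials on `I` are used.
Suppose `z ≠ 0`. Claim: for every set `E` of monomials of degree `b` which is upwards closed for `ω`
there is a list `π` with `π.length = E.card`, `z (π ++ l') ≠ 0` for some `l'`, and for all `l'` with
`z (π ++ l') ≠ 0` the remainder `μ - (π ++ l').sum` is not in `E`. Induction on `E.card`: let `E = E₀ ∪ {g}`
with `g` the `ω`-smallest element of `E`; take `π` for `E₀` (`π.length < q`), and let `m` be the element
of `F` with `z (π ++ m :: l') ≠ 0` for some `l'` and `ω m` largest. Put `π' = π ++ [m]`. If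
`z (π ++ m :: l') ≠ 0` had remainder `g`, look at `0 = bd F z (π ++ l') = ± ∑ c ∈ F, z (π ++ c :: l')`
(`Alt.middle`): a term with `c ≠ m` which is nonzero has `ω c < ω m` (maximality and injectivity), and its
remainder `g'` satisfies `g' + c = g + m`, so `ω g' > ω g`, so `g' ∈ E₀` since `E` is upwards closed,
contradicting the choice of `π`. So the term `c = m` vanishes, a contradiction.
For `E` = all monomials of degree `b` this contradicts that remainders have degree `b` and support in `I`.
-/

namespace VKB
open VK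

variable {k : Type*} [Field k] [CharZero k] {σ : Type*} [DecidableEq σ]

/-- an additive injective weight -/
theorem exists_weight (I : Finset σ) (D : ℕ) : ∃ ω : (σ →₀ ℕ) →+ ℕ,
    ∀ m m' : σ →₀ ℕ, m.support ⊆ I → m'.support ⊆ I → m.degree ≤ D → m'.degree ≤ D →
      ω m = ω m' → m = m' := by
  induction I using Finset.induction with
  | empty =>
    refine ⟨0, fun m m' h1 h2 _ _ _ => ?_⟩
    rw [Finset.subset_empty, Finsupp.support_eq_empty] at h1 h2
    rw [h1, h2]
  | insert a s ha ih =>
    obtain ⟨ω, hω⟩ := ih
    refine ⟨Finsupp.applyAddHom a + (D + 1) • ω.comp (Finsupp.eraseAddHom a), ?_⟩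
    intro m m' h1 h2 h3 h4 h5
    have h6 : m a + (D + 1) * ω (m.erase a) = m' a + (D + 1) * ω (m'.erase a) := h5
    have key : ∀ n : σ →₀ ℕ, n.degree ≤ D → n.support ⊆ insert a s →
        n a ≤ D ∧ (n.erase a).support ⊆ s ∧ (n.erase a).degree ≤ D := by
      intro n h7 h8
      refine ⟨(Finsupp.le_degree a n).trans h7, ?_, ?_⟩
      · intro i hi
        rw [Finsupp.support_erase, Finset.mem_erase] at hi
        exact (Finset.mem_insert.1 (h8 hi.2)).resolve_left hi.1
      · refine le_trans ?_ h7
        conv_rhs => rw [← Finsupp.single_add_erase a n]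
        rw [map_add]
        exact Nat.le_add_left _ _
    obtain ⟨k1, k2, k3⟩ := key m h3 h1
    obtain ⟨l1, l2, l3⟩ := key m' h4 h2
    have h7 : m a = m' a := by
      have := congrArg (fun x => x % (D + 1)) h6
      simp only [Nat.add_mul_mod_self_left] at this
      rwa [Nat.mod_eq_of_lt (Nat.lt_succ_of_le k1), Nat.mod_eq_of_lt (Nat.lt_succ_of_le l1)] at this
    have h8 : m.erase a = m'.erase a := by
      apply hω _ _ k2 l2 k3 l3
      rw [h7] at h6
      exact Nat.eq_of_mul_eq_mul_left (Nat.succ_pos D) (Nat.add_left_cancel h6)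
    rw [← Finsupp.single_add_erase a m, ← Finsupp.single_add_erase a m', h7, h8]

/-- **row 0** -/
theorem row_zero (I : Finset σ) {d b q : ℕ} (hb : b < d) {F : Finset (σ →₀ ℕ)}
    (hF : ∀ m, m ∈ F ↔ m.support ⊆ I ∧ m.degree = d) {μ : σ →₀ ℕ} (hμ : μ.support ⊆ I)
    (hdeg : μ.degree = q * d + b) (hq : (Finset.finsuppAntidiag I b).card ≤ q)
    {z : List (σ →₀ ℕ) → k} (hz : ECh F μ q z) (hbd : ∀ l, bd F z l = 0) : ∀ l, z l = 0 := by
  classical
  obtain ⟨ω, hω⟩ := exists_weight I (max d b)
  set B := Finset.finsuppAntidiag I b with hB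
  have hdegsum : ∀ l : List (σ →₀ ℕ), (∀ m ∈ l, m ∈ F) → l.sum.degree = l.length * d := by
    intro l
    induction l with
    | nil => intro _; simp
    | cons m l ih =>
      intro h
      rw [List.sum_cons, map_add, ih fun x hx => h x (List.mem_cons_of_mem _ hx),
        ((hF m).1 (h m List.mem_cons_self)).2, List.length_cons]
      ring
  have hrem : ∀ l, z l ≠ 0 → μ - l.sum ∈ B ∧ (μ - l.sum) + l.sum = μ := by
    intro l hl
    obtain ⟨h1, h2, h3⟩ := hz.2 l hl
    have h4 : (μ - l.sum) + l.sum = μ := tsub_add_cancel_of_le h2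
    have h5 : (μ - l.sum).support ⊆ I :=
      (Finsupp.support_mono (tsub_le_self : μ - l.sum ≤ μ)).trans hμ
    refine ⟨?_, h4⟩
    rw [hB, Finset.mem_finsuppAntidiag]
    refine ⟨?_, h5⟩
    have h6 : (μ - l.sum).degree + l.sum.degree = μ.degree := by rw [← map_add, h4]
    rw [hdegsum l h1, h3, hdeg] at h6
    have h7 : I.sum (μ - l.sum) = (μ - l.sum).degree := by
      rw [Finsupp.degree_apply]
      symm
      apply Finset.sum_subset h5
      intro i _ hi
      exact Finsupp.notMem_support_iff.1 hi
    rw [h7]
    omega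
  have hBd : ∀ g ∈ B, g.support ⊆ I ∧ g.degree ≤ max d b := by
    intro g hg
    rw [hB, Finset.mem_finsuppAntidiag] at hg
    refine ⟨hg.2, ?_⟩
    have h7 : I.sum g = g.degree := by
      rw [Finsupp.degree_apply]
      symm
      apply Finset.sum_subset hg.2
      intro i _ hi
      exact Finsupp.notMem_support_iff.1 hi
    rw [← h7, hg.1]
    exact le_max_right _ _
  by_contra hne
  push Not at hne
  have claim : ∀ n, ∀ E : Finset (σ →₀ ℕ), E ⊆ B → E.card = n →
      (∀ g ∈ E, ∀ g' ∈ B, ω g < ω g' → g' ∈ E) →
      ∃ π : List (σ →₀ ℕ), π.length = n ∧ (∃ l', z (π ++ l') ≠ 0) ∧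
        ∀ l', z (π ++ l') ≠ 0 → μ - (π ++ l').sum ∉ E := by
    intro n
    induction n with
    | zero =>
      intro E _ hE _
      refine ⟨[], rfl, hne, fun l' _ => ?_⟩
      rw [Finset.card_eq_zero.1 hE]
      exact Finset.notMem_empty _
    | succ n ih =>
      intro E hEB hE hup
      have hEne : E.Nonempty := Finset.card_pos.1 (by omega)
      obtain ⟨g, hg, hgmin⟩ := Finset.exists_min_image E ω hEne
      obtain ⟨π, hπ, ⟨l₀, hl₀⟩, hπ3⟩ := ih (E.erase g) ((Finset.erase_subset _ _).trans hEB)
        (by rw [Finset.card_erase_of_mem hg, hE]; rfl) (by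
          intro h hh g' hg' hlt
          refine Finset.mem_erase.2 ⟨?_, hup h (Finset.mem_of_mem_erase hh) g' hg' hlt⟩
          rintro rfl
          exact absurd (hgmin h (Finset.mem_of_mem_erase hh)) (not_le.2 hlt))
      have hnq : n < q := by
        have := Finset.card_le_card hEB
        omega
      set M := F.filter fun m => ∃ l'', z (π ++ m :: l'') ≠ 0 with hM
      have hMne : M.Nonempty := by
        obtain ⟨h1, -, h3⟩ := hz.2 _ hl₀
        rw [List.length_append, hπ] at h3
        match l₀, hl₀, h1, h3 with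
        | [], _, _, h3 => exact absurd h3 (by simp; omega)
        | m :: l'', hl₀, h1, _ =>
          exact ⟨m, Finset.mem_filter.2 ⟨h1 m (by simp), l'', hl₀⟩⟩
      obtain ⟨m, hm, hmmax⟩ := Finset.exists_max_image M ω hMne
      have hmM := hm
      rw [hM, Finset.mem_filter] at hm
      obtain ⟨hmF, l₁, hl₁⟩ := hm
      refine ⟨π ++ [m], by rw [List.length_append, hπ]; rfl,
        ⟨l₁, by rw [List.append_assoc]; exact hl₁⟩, ?_⟩
      intro l' hl' hmem
      rw [List.append_assoc, List.singleton_append] at hl' hmem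
      have hg1 : μ - (π ++ m :: l').sum = g := by
        by_contra hne'
        exact hπ3 _ hl' (Finset.mem_erase.2 ⟨hne', hmem⟩)
      -- another term of the boundary
      have hex : ∃ c ∈ F, c ≠ m ∧ z (π ++ c :: l') ≠ 0 := by
        by_contra hno
        push Not at hno
        have h0 := hbd (π ++ l')
        unfold bd at h0
        rw [Finset.sum_eq_single m] at h0
        · apply hl'
          rw [hz.1.middle, h0, mul_zero]
        · intro c hc hcm
          have h1 := hno c hc hcm
          rw [hz.1.middle] at h1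
          exact (mul_eq_zero.1 h1).resolve_left (pow_ne_zero _ (neg_ne_zero.2 one_ne_zero))
        · intro h
          exact absurd hmF h
      obtain ⟨c, hcF, hcm, hc⟩ := hex
      have hcM : c ∈ M := Finset.mem_filter.2 ⟨hcF, l', hc⟩
      have hle : ω c ≤ ω m := hmmax c hcM
      have hlt : ω c < ω m := by
        refine lt_of_le_of_ne hle fun h => hcm ?_
        refine hω c m ((hF c).1 hcF).1 ((hF m).1 hmF).1 ?_ ?_ h
        · rw [((hF c).1 hcF).2]; exact le_max_left _ _
        · rw [((hF m).1 hmF).2]; exact le_max_left _ _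
      obtain ⟨hB1, hs1⟩ := hrem _ hc
      obtain ⟨hB2, hs2⟩ := hrem _ hl'
      have e1 := congrArg ω hs1
      have e2 := congrArg ω hs2
      rw [hg1] at e2
      simp only [List.sum_append, List.sum_cons, map_add] at e1 e2
      have hlt2 : ω g < ω (μ - (π ++ c :: l').sum) := by
        simp only [List.sum_append, List.sum_cons]
        omega
      have hE1 := hup g hg _ hB1 hlt2
      refine hπ3 _ hc (Finset.mem_erase.2 ⟨?_, hE1⟩)
      intro h
      rw [h] at hlt2
      exact lt_irrefl _ hlt2
  obtain ⟨π, -, ⟨l', hl'⟩, h3⟩ := claim _ B (Finset.Subset.refl _) rfl fun _ _ g' hg' _ => hg'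
  exact h3 l' hl' (hrem _ hl').1

end VKB
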