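import Pool.Agent.VKB.Quot

/-!
# Two variables

`F` = all monomials of degree `d` in the variables `i ≠ j`, `cc d = d (d - 1) / 2 + (d - 1)`, in
multidegrees of degree `2 * cc d = (d - 1) d + 2 (d - 1)`, with `d - 1` factors. Up to boundaries there
is exactly one cycle `zet`, in multidegree `(cc, cc)`.

`zet d i j = bd F (kap M)` with `M = [x^d, x^(d-1) y, …, x y^(d-1)]` (`x` the variable `i`, `y` the
variable `j`): a list `l` is in the support iff `m :: l` is a permutation of `M` for some `m`.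

Paper proofs.
* `zet` is a cycle by `bd_bd`; `M.sum = (cc + 1, cc - (d - 1))` and every `m ∈ M` has `m i ≥ 1`, so
  `l.sum = M.sum - m ≤ (cc, cc - (d - 1))` on the support: `zet_ECh`.
* Put `I = {i, j}`, `F' = F \ pure d I = {x^a y^(d-a) : 1 ≤ a ≤ d - 1}`, `F'.card = d - 1`. An `RCh d I F' μ (d - 1)`
  is supported on the permutations of `F'.toList`, whose sum is `(d (d - 1) / 2, d (d - 1) / 2)`; the
  remainder has degree `2 (d - 1)` and both coordinates `< d`, so it is `(d - 1, d - 1)` and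
  `μ = (cc, cc)`. So for `μ ≠ (cc, cc)` there are no such chains and `quot_all` (with `w' = 0`) gives
  `two_exact`. For `μ = (cc, cc)` the part `cut d I F' μ z` is a multiple of the part of `zet`
  (`Alt.perm_eq`; `zet` at a list of `F'` is `± 1`, namely `kap M (x^d :: l)`), and `quot_all` for
  `z - c • zet` with `w' = 0` gives `two_cycle`.
-/

namespace VKB
open VK

variable {k : Type*} [Field k] [CharZero k] {σ : Type*} [DecidableEq σ]

/-- `d (d - 1) / 2 + (d - 1)` -/
def cc (d : ℕ) : ℕ := (∑ i ∈ Finset.range d, i) + (d - 1)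

theorem two_cc (d : ℕ) : 2 * cc d = (d - 1) * d + 2 * (d - 1) := by
  have h := Finset.sum_range_id_mul_two d
  rw [cc, mul_add, mul_comm 2 (∑ i ∈ Finset.range d, i), h, mul_comm d]

theorem le_cc (d : ℕ) : d - 1 ≤ cc d := Nat.le_add_left _ _

/-- the monomial `x_i^a x_j^b` -/
noncomputable def mon2 (i j : σ) (a b : ℕ) : σ →₀ ℕ := Finsupp.single i a + Finsupp.single j b

/-- the list `[x^d, x^(d-1) y, …, x y^(d-1)]` -/
noncomputable def listM (d : ℕ) (i j : σ) : List (σ →₀ ℕ) :=
  (List.range d).map fun a => mon2 i j (d - a) a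

/-- the cycle -/
noncomputable def zet (k : Type*) [Field k] {σ : Type*} [DecidableEq σ] (d : ℕ) (i j : σ) :
    List (σ →₀ ℕ) → k :=
  bd (Finset.finsuppAntidiag {i, j} d) (kap k (listM d i j))

omit [DecidableEq σ] in
private theorem mon2_fst {i j : σ} (hij : i ≠ j) (a b : ℕ) : mon2 i j a b i = a := by
  rw [mon2, Finsupp.add_apply, Finsupp.single_eq_same, Finsupp.single_eq_of_ne hij, add_zero]

omit [DecidableEq σ] in
private theorem mon2_snd {i j : σ} (hij : i ≠ j) (a b : ℕ) : mon2 i j a b j = b := by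
  rw [mon2, Finsupp.add_apply, Finsupp.single_eq_same, Finsupp.single_eq_of_ne hij.symm, zero_add]

omit [DecidableEq σ] in
private theorem mon2_oth {i j s : σ} (h1 : s ≠ i) (h2 : s ≠ j) (a b : ℕ) :
    mon2 i j a b s = 0 := by
  rw [mon2, Finsupp.add_apply, Finsupp.single_eq_of_ne h1, Finsupp.single_eq_of_ne h2, add_zero]

omit [DecidableEq σ] in
private theorem mon2_add (i j : σ) (a b a' b' : ℕ) :
    mon2 i j a b + mon2 i j a' b' = mon2 i j (a + a') (b + b') := by
  rw [mon2, mon2, mon2, Finsupp.single_add, Finsupp.single_add]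
  abel

private theorem eq_mon2 {i j : σ} (hij : i ≠ j) {b : σ →₀ ℕ} (hs : b.support ⊆ {i, j}) :
    b = mon2 i j (b i) (b j) := by
  ext s
  by_cases h1 : s = i
  · rw [h1, mon2_fst hij]
  · by_cases h2 : s = j
    · rw [h2, mon2_snd hij]
    · rw [mon2_oth h1 h2]
      by_contra h
      have := hs (Finsupp.mem_support_iff.2 h)
      rw [Finset.mem_insert, Finset.mem_singleton] at this
      rcases this with h3 | h3
      · exact h1 h3
      · exact h2 h3

private theorem mem_F {i j : σ} (hij : i ≠ j) {d : ℕ} {b : σ →₀ ℕ} :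
    b ∈ Finset.finsuppAntidiag {i, j} d ↔ b i + b j = d ∧ b.support ⊆ {i, j} := by
  rw [Finset.mem_finsuppAntidiag, Finset.sum_pair hij]

private theorem mon2_supp {i j : σ} (a b : ℕ) : (mon2 i j a b).support ⊆ {i, j} := by
  intro s hs
  rw [Finset.mem_insert, Finset.mem_singleton]
  by_contra h
  rw [not_or] at h
  exact (Finsupp.mem_support_iff.1 hs) (mon2_oth h.1 h.2 a b)

private theorem mon2_mem {i j : σ} (hij : i ≠ j) {d a b : ℕ} (h : a + b = d) :
    mon2 i j a b ∈ Finset.finsuppAntidiag {i, j} d := by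
  rw [mem_F hij, mon2_fst hij, mon2_snd hij]
  exact ⟨h, mon2_supp a b⟩

omit [DecidableEq σ] in
private theorem sum_mon2 (i j : σ) (f g : ℕ → ℕ) (n : ℕ) :
    ((List.range n).map fun a => mon2 i j (f a) (g a)).sum =
      mon2 i j (∑ a ∈ Finset.range n, f a) (∑ a ∈ Finset.range n, g a) := by
  induction n with
  | zero =>
    simp [mon2]
  | succ n ih =>
    rw [List.range_succ, List.map_append, List.sum_append, ih, Finset.sum_range_succ,
      Finset.sum_range_succ, List.map_singleton, List.sum_singleton, mon2_add]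

private theorem sum_refl (d : ℕ) :
    ∑ a ∈ Finset.range d, (d - a) = (∑ a ∈ Finset.range d, a) + d := by
  have h := Finset.sum_range_reflect (fun a => a + 1) d
  have h1 : ∑ a ∈ Finset.range d, (d - a) = ∑ j ∈ Finset.range d, (d - 1 - j + 1) := by
    refine Finset.sum_congr rfl fun a ha => ?_
    have := Finset.mem_range.1 ha
    omega
  rw [h1, h, Finset.sum_add_distrib]
  simp

omit [DecidableEq σ] in
/-- the sum of the list `M` -/
private theorem listM_sum {d : ℕ} (hd : 2 ≤ d) (i j : σ) :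
    (listM d i j).sum = mon2 i j (cc d + 1) (cc d - (d - 1)) := by
  rw [listM, sum_mon2 i j (fun a => d - a) (fun a => a), sum_refl, cc]
  congr 1
  · omega
  · omega

/-- the list without the pure power -/
private noncomputable def listN (d : ℕ) (i j : σ) : List (σ →₀ ℕ) :=
  (List.range (d - 1)).map fun a => mon2 i j (d - (a + 1)) (a + 1)

omit [DecidableEq σ] in
private theorem listM_eq {d : ℕ} (hd : 2 ≤ d) (i j : σ) :
    listM d i j = mon2 i j d 0 :: listN d i j := by
  obtain ⟨n, rfl⟩ : ∃ n, d = n + 1 := ⟨d - 1, by omega⟩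
  rw [listM, listN, List.range_succ_eq_map, List.map_cons, List.map_map, Nat.add_sub_cancel]
  rfl

omit [DecidableEq σ] in
private theorem listM_nodup (d : ℕ) {i j : σ} (hij : i ≠ j) : (listM d i j).Nodup := by
  refine List.Nodup.map ?_ List.nodup_range
  intro a b h
  have := congrArg (fun f => f j) h
  simpa only [mon2_snd hij] using this

omit [DecidableEq σ] in
private theorem listN_sum {d : ℕ} (hd : 2 ≤ d) {i j : σ} :
    (listN d i j).sum = mon2 i j (cc d - (d - 1)) (cc d - (d - 1)) := by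
  have h1 := listM_sum hd i j
  rw [listM_eq hd, List.sum_cons] at h1
  have h2 : mon2 i j (cc d + 1) (cc d - (d - 1)) =
      mon2 i j d 0 + mon2 i j (cc d - (d - 1)) (cc d - (d - 1)) := by
    rw [mon2_add]
    have := le_cc d
    congr 1
    · omega
    · omega
  rw [h2] at h1
  exact add_left_cancel h1

omit [DecidableEq σ] in
private theorem mem_listM {d : ℕ} {i j : σ} {b : σ →₀ ℕ} (hb : b ∈ listM d i j) :
    ∃ a, a < d ∧ b = mon2 i j (d - a) a := by
  rw [listM, List.mem_map] at hb
  obtain ⟨a, ha, rfl⟩ := hb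
  exact ⟨a, List.mem_range.1 ha, rfl⟩

theorem zet_ECh {d : ℕ} (hd : 2 ≤ d) {i j : σ} (hij : i ≠ j) :
    ECh (Finset.finsuppAntidiag {i, j} d) (mon2 i j (cc d) (cc d - (d - 1))) (d - 1)
      (zet k d i j) := by
  refine ⟨(kap_alt _).bd _, fun l hl => ?_⟩
  obtain ⟨b, -, hb⟩ := Finset.exists_ne_zero_of_sum_ne_zero hl
  have hp := kap_ne_zero hb
  have hbM : b ∈ listM d i j := hp.mem_iff.1 List.mem_cons_self
  refine ⟨fun x hx => ?_, ?_, ?_⟩
  · obtain ⟨a, ha, rfl⟩ := mem_listM (hp.mem_iff.1 (List.mem_cons_of_mem b hx))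
    exact mon2_mem hij (by omega)
  · have hs := hp.sum_eq
    rw [List.sum_cons, listM_sum hd] at hs
    obtain ⟨a, ha, rfl⟩ := mem_listM hbM
    intro s
    have h1 := congrArg (fun f => f s) hs
    simp only [Finsupp.add_apply] at h1
    by_cases h2 : s = i
    · subst h2
      rw [mon2_fst hij, mon2_fst hij] at h1
      rw [mon2_fst hij]
      omega
    · by_cases h3 : s = j
      · subst h3
        rw [mon2_snd hij, mon2_snd hij] at h1
        rw [mon2_snd hij]
        omega
      · rw [mon2_oth h2 h3, mon2_oth h2 h3] at h1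
        omega
  · have h1 := hp.length_eq
    rw [List.length_cons, listM, List.length_map, List.length_range] at h1
    omega

theorem zet_ECh' {d : ℕ} (hd : 2 ≤ d) {i j : σ} (hij : i ≠ j) :
    ECh (Finset.finsuppAntidiag {i, j} d) (mon2 i j (cc d) (cc d)) (d - 1) (zet k d i j) := by
  have h := zet_ECh (k := k) hd hij
  refine ⟨h.1, fun l hl => ?_⟩
  obtain ⟨h1, h2, h3⟩ := h.2 l hl
  refine ⟨h1, h2.trans ?_, h3⟩
  intro s
  by_cases h2 : s = i
  · rw [h2, mon2_fst hij, mon2_fst hij]
  · by_cases h3 : s = j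
    · rw [h3, mon2_snd hij, mon2_snd hij]
      omega
    · rw [mon2_oth h2 h3, mon2_oth h2 h3]

theorem zet_cycle {d : ℕ} {i j : σ} (l : List (σ →₀ ℕ)) :
    bd (Finset.finsuppAntidiag {i, j} d) (zet k d i j) l = 0 :=
  bd_bd (kap_alt _) _ l

private theorem mem_pure' {d : ℕ} {I : Finset σ} {b : σ →₀ ℕ} :
    b ∈ pure d I ↔ ∃ i ∈ I, Finsupp.single i d = b := by
  simp [pure]

private theorem pure_mem {d : ℕ} {i j : σ} (hij : i ≠ j) {s : σ} (hs : s ∈ ({i, j} : Finset σ)) :
    Finsupp.single s d ∈ Finset.finsuppAntidiag {i, j} d := by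
  rw [Finset.mem_insert, Finset.mem_singleton] at hs
  rcases hs with rfl | rfl
  · have : Finsupp.single s d = mon2 s j d 0 := by rw [mon2, Finsupp.single_zero, add_zero]
    rw [this]
    exact mon2_mem hij (by omega)
  · have : Finsupp.single s d = mon2 i s 0 d := by rw [mon2, Finsupp.single_zero, zero_add]
    rw [this]
    exact mon2_mem hij (by omega)

/-- the elements of `F'` -/
private theorem mem_listN {d : ℕ} {i j : σ} (hij : i ≠ j) {b : σ →₀ ℕ}
    (hb : b ∈ Finset.finsuppAntidiag {i, j} d \ pure d {i, j}) : b ∈ listN d i j := by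
  rw [Finset.mem_sdiff, mem_F hij, mem_pure'] at hb
  obtain ⟨⟨h1, h2⟩, h3⟩ := hb
  have h4 := eq_mon2 hij h2
  have h5 : b i ≠ 0 := by
    intro h
    apply h3
    refine ⟨j, by simp, ?_⟩
    rw [h4, h, mon2, Finsupp.single_zero, zero_add]
    congr 1
    omega
  have h6 : b j ≠ 0 := by
    intro h
    apply h3
    refine ⟨i, by simp, ?_⟩
    rw [h4, h, mon2, Finsupp.single_zero, add_zero]
    congr 1
    omega
  rw [listN, List.mem_map]
  refine ⟨b j - 1, List.mem_range.2 (by omega), ?_⟩
  rw [h4, mon2_snd hij]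
  congr 1
  · omega
  · omega

/-- the lists of `d - 1` distinct elements of `F'` -/
private theorem perm_listN {d : ℕ} {i j : σ} (hij : i ≠ j) {l : List (σ →₀ ℕ)}
    (hl : ∀ b ∈ l, b ∈ Finset.finsuppAntidiag {i, j} d \ pure d {i, j}) (hnd : l.Nodup)
    (hlen : l.length = d - 1) : l.Perm (listN d i j) := by
  refine (List.subperm_of_subset hnd fun b hb => mem_listN hij (hl b hb)).perm_of_length_le ?_
  rw [listN, List.length_map, List.length_range, hlen]

/-- a chain is zero on the relevant lists as soon as it is zero at `listN` -/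
private theorem van {d : ℕ} {i j : σ} (hij : i ≠ j) {μ : σ →₀ ℕ} {z : List (σ →₀ ℕ) → k}
    (hz : ECh (Finset.finsuppAntidiag {i, j} d) μ (d - 1) z) (h0 : z (listN d i j) = 0)
    {l : List (σ →₀ ℕ)}
    (hl : ∀ b ∈ l, b ∈ Finset.finsuppAntidiag {i, j} d \ pure d {i, j}) : z l = 0 := by
  by_contra hne
  have hnd : l.Nodup := by
    by_contra h
    exact hne (hz.1.dup h)
  have hp := perm_listN hij hl hnd (hz.2 l hne).2.2
  exact ((hz.1.perm_ne hp).1 hne) h0

omit [CharZero k] [DecidableEq σ] in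
private theorem zero_RCh (d : ℕ) (J : Finset σ) (F : Finset (σ →₀ ℕ)) (μ : σ →₀ ℕ) (p : ℕ) :
    RCh d J F μ p (fun _ => (0 : k)) :=
  ⟨⟨Alt.zero, fun _ h => absurd rfl h⟩, fun _ h => absurd rfl h⟩

/-- exactness outside `(cc, cc)` -/
theorem two_exact {d : ℕ} (hd : 2 ≤ d) {i j : σ} (hij : i ≠ j) {μ : σ →₀ ℕ}
    (hμ : μ.support ⊆ {i, j}) (hdeg : μ.degree = 2 * cc d) (hne : μ ≠ mon2 i j (cc d) (cc d)) :
    EEx k (Finset.finsuppAntidiag {i, j} d) μ (d - 1) := by
  intro z hz hcyc
  refine quot_all (by omega) {i, j} (fun s hs => pure_mem hij hs) hz hcyc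
    (zero_RCh d {i, j} _ μ (d - 1 + 1)) ?_
  intro l hl hsum hlow
  rw [bd_zero]
  by_contra hne'
  have hzl : z l ≠ 0 := fun h => hne' h.symm
  have hnd : l.Nodup := by
    by_contra h
    exact hzl (hz.1.dup h)
  have hp := perm_listN hij hl hnd (hz.2 l hzl).2.2
  rw [hp.sum_eq, listN_sum hd] at hsum hlow
  apply hne
  have h1 := hsum i
  have h2 := hsum j
  have h3 := hlow i (by simp)
  have h4 := hlow j (by simp)
  rw [Finsupp.tsub_apply] at h3 h4
  rw [mon2_fst hij] at h1 h3
  rw [mon2_snd hij] at h2 h4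
  have h5 : μ i + μ j = 2 * cc d := by
    rw [← hdeg]
    conv_rhs => rw [eq_mon2 hij hμ, mon2, map_add, Finsupp.degree_single, Finsupp.degree_single]
  have h6 := le_cc d
  rw [eq_mon2 hij hμ]
  congr 1
  · omega
  · omega

omit [CharZero k] in
private theorem zet_listN {d : ℕ} (hd : 2 ≤ d) {i j : σ} (hij : i ≠ j) :
    zet k d i j (listN d i j) = 1 := by
  rw [zet, bd, Finset.sum_eq_single (mon2 i j d 0)]
  · rw [← listM_eq hd]
    exact kap_self (listM_nodup d hij)
  · intro b _ hb
    by_contra h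
    have hp := kap_ne_zero h
    rw [listM_eq hd] at hp
    have hs := hp.sum_eq
    rw [List.sum_cons, List.sum_cons] at hs
    exact hb (add_right_cancel hs)
  · intro h
    exact absurd (mon2_mem hij (by omega)) h

/-- the cycles in multidegree `(cc, cc)` -/
theorem two_cycle {d : ℕ} (hd : 2 ≤ d) {i j : σ} (hij : i ≠ j) {z : List (σ →₀ ℕ) → k}
    (hz : ECh (Finset.finsuppAntidiag {i, j} d) (mon2 i j (cc d) (cc d)) (d - 1) z)
    (hbd : ∀ l, bd (Finset.finsuppAntidiag {i, j} d) z l = 0) :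
    ∃ c : k, ∃ w : List (σ →₀ ℕ) → k,
      ECh (Finset.finsuppAntidiag {i, j} d) (mon2 i j (cc d) (cc d)) d w ∧
      ∀ l, bd (Finset.finsuppAntidiag {i, j} d) w l = z l - c * zet k d i j l := by
  set c := z (listN d i j) with hc
  have hζ := zet_ECh' (k := k) hd hij
  have hz' : ECh (Finset.finsuppAntidiag {i, j} d) (mon2 i j (cc d) (cc d)) (d - 1)
      (fun l => z l - c * zet k d i j l) := by
    refine ⟨hz.1.sub (hζ.1.mul c), fun l hl => ?_⟩
    by_cases h : z l = 0
    · have h1 : zet k d i j l ≠ 0 := by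
        intro h1
        apply hl
        change z l - c * zet k d i j l = 0
        rw [h, h1, mul_zero, sub_zero]
      exact hζ.2 l h1
    · exact hz.2 l h
  have hcyc : ∀ l, bd (Finset.finsuppAntidiag {i, j} d) (fun l => z l - c * zet k d i j l) l = 0 := by
    intro l
    rw [bd_sub, bd_mul, hbd, zet_cycle, mul_zero, sub_zero]
  have h0 : z (listN d i j) - c * zet k d i j (listN d i j) = 0 := by
    rw [zet_listN hd hij, mul_one, hc, sub_self]
  obtain ⟨w, hw, hw'⟩ := quot_all (by omega) {i, j} (fun s hs => pure_mem hij hs) hz' hcyc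
    (zero_RCh d {i, j} _ _ (d - 1 + 1)) (by
      intro l hl _ _
      rw [bd_zero]
      exact (van hij hz' h0 hl).symm)
  refine ⟨c, w, ?_, hw'⟩
  rwa [Nat.sub_add_cancel (by omega : 1 ≤ d)] at hw

end VKB
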