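import Pool.Agent.VK.Transfer
import Pool.Agent.VKB.TwoVar

/-!
# The classes `WW k d X A`

`A ⊆ X` with `A.card = cc d`. `col A` gives the elements of `A` the colour `0`, all others the colour `1`,
and `WW k d X A` is the chain on `X` which is invariant under the permutations preserving `A` and
whose push-forward to two variables is `zet k d 0 1` (it is `lift k d X (col A) (zet k d 0 1)`).

Paper proofs. `content (col A) X = (A.card, (X \ A).card)`. `zet k d 0 1` is an `ECh` in multidegree
`(cc, cc - (d - 1))`, hence in every larger one; `Ch_lift`, `push_lift`, `lift_inv` give the first facts;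
`bdL WW = 0` by `push_inj` and `bd_push`. For `g ∈ ST X` the function `rho g (WW X A)` is invariant for
`col (mv g A)` with the same push-forward (reindex the lists by `mv g`), so it is `WW X (mv g A)` by
`push_inj` (or directly: `cnt` only depends on the contents, so does `lift`). `push_WW'`: the realisations
of a list of exponents by blocks of `X'` on which `WW k d X A` is nonzero are the valid ones in `X`.
-/

namespace VKB
open VK Equiv

variable {k : Type*} [Field k] [CharZero k] {α : Type*} [Fintype α] [DecidableEq α]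

/-- the colouring -/
def col (A : Finset α) (x : α) : ℕ := if x ∈ A then 0 else 1

/-- the class -/
noncomputable def WW (k : Type*) [Field k] {α : Type*} [DecidableEq α] (d : ℕ) (X A : Finset α) :
    List (Finset α) → k :=
  lift k d X (col A) (zet k d (0 : ℕ) 1)

theorem content_col {X A : Finset α} (hAX : A ⊆ X) :
    content (col A) X = mon2 (0 : ℕ) 1 A.card (X \ A).card := by
  rw [← content_sdiff (col A) hAX, mon2]
  congr 1
  · have h : ∀ x ∈ A, Finsupp.single (col A x) 1 = Finsupp.single (0 : ℕ) (1 : ℕ) := by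
      intro x hx
      rw [col, if_pos hx]
    rw [content, Finset.sum_congr rfl h, Finset.sum_const, Finsupp.smul_single, smul_eq_mul,
      mul_one]
  · have h : ∀ x ∈ X \ A, Finsupp.single (col A x) 1 = Finsupp.single (1 : ℕ) (1 : ℕ) := by
      intro x hx
      rw [col, if_neg (Finset.mem_sdiff.1 hx).2]
    rw [content, Finset.sum_congr rfl h, Finset.sum_const, Finsupp.smul_single, smul_eq_mul,
      mul_one]

omit [Fintype α] [Field k] [CharZero k] in
private theorem col_eq {A A' : Finset α} {x y : α} : col A x = col A' y ↔ (x ∈ A ↔ y ∈ A') := by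
  unfold col
  by_cases h1 : x ∈ A <;> by_cases h2 : y ∈ A' <;> simp [h1, h2]

/-- a permutation in `ST X` preserves the colours iff it preserves `A` -/
theorem col_iff {A : Finset α} {g : Perm α} : (∀ x, col A (g x) = col A x) ↔ mv g A = A := by
  constructor
  · intro h
    ext x
    rw [mem_mv]
    have h1 := col_eq.1 (h (g⁻¹ x))
    rw [← Perm.mul_apply, mul_inv_cancel, Perm.one_apply] at h1
    exact h1.symm
  · intro h x
    rw [col_eq]
    conv_lhs => rw [← h, mem_mv, ← Perm.mul_apply, inv_mul_cancel, Perm.one_apply]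

private theorem zet_ECh_content {d : ℕ} (hd : 2 ≤ d) {X A : Finset α} (hAX : A ⊆ X)
    (hA : A.card = cc d) (hX : cc d - (d - 1) ≤ (X \ A).card) :
    ECh (Finset.finsuppAntidiag {0, 1} d) (content (col A) X) (d - 1)
      (zet k d (0 : ℕ) 1) := by
  have h := zet_ECh (k := k) hd (i := (0 : ℕ)) (j := 1) (by decide)
  refine ⟨h.1, fun l hl => ?_⟩
  obtain ⟨h1, h2, h3⟩ := h.2 l hl
  refine ⟨h1, h2.trans ?_, h3⟩
  rw [content_col hAX, hA, mon2, mon2]
  exact add_le_add le_rfl (Finsupp.single_mono hX)

omit [CharZero k] [Fintype α] in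
private theorem WW_valid {d : ℕ} {X A : Finset α} {l : List (Finset α)}
    (h : WW k d X A l ≠ 0) : Valid d X l := (lift_ne_zero h).1

private theorem antidiag_degree {d : ℕ} {b : ℕ →₀ ℕ}
    (hb : b ∈ Finset.finsuppAntidiag ({0, 1} : Finset ℕ) d) : b.degree = d := by
  obtain ⟨h1, h2⟩ := Finset.mem_finsuppAntidiag.1 hb
  rw [← h1, Finsupp.degree_apply]
  exact Finset.sum_subset h2 fun i _ hi => Finsupp.notMem_support_iff.1 hi

omit [Fintype α] in
private theorem content_mem {d : ℕ} (X A : Finset α) :
    ∀ B ∈ X.powersetCard d, content (col A) B ∈ Finset.finsuppAntidiag ({0, 1} : Finset ℕ) d := by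
  intro B hB
  have hB2 := (Finset.mem_powersetCard.1 hB).2
  have hsup : (content (col A) B).support ⊆ ({0, 1} : Finset ℕ) := by
    intro i hi
    obtain ⟨x, _, hx⟩ := Finset.mem_image.1 (content_support _ _ hi)
    rw [← hx]
    unfold col
    split_ifs <;> simp
  refine Finset.mem_finsuppAntidiag.2 ⟨?_, hsup⟩
  rw [← hB2, ← degree_content (col A) B, Finsupp.degree_apply]
  exact (Finset.sum_subset hsup fun i _ hi => Finsupp.notMem_support_iff.1 hi).symm

theorem WW_mem {d : ℕ} (hd : 2 ≤ d) {X A : Finset α} (hAX : A ⊆ X) (hA : A.card = cc d)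
    (hX : cc d - (d - 1) ≤ (X \ A).card) : WW k d X A ∈ ChS k d X (d - 1) :=
  Ch_lift (zet_ECh_content hd hAX hA hX)

/-- `WW k d X A` is a chain on every larger set -/
theorem WW_mem' {d : ℕ} (hd : 2 ≤ d) {X X' A : Finset α} (hAX : A ⊆ X) (hXX' : X ⊆ X')
    (hA : A.card = cc d) (hX : cc d - (d - 1) ≤ (X \ A).card) :
    WW k d X A ∈ ChS k d X' (d - 1) := by
  have h : Ch d X (d - 1) (WW k d X A) := WW_mem hd hAX hA hX
  exact ⟨h.1, fun l hl => ⟨(h.2 l hl).1.mono hXX', (h.2 l hl).2⟩⟩

omit [CharZero k] [Fintype α] in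
private theorem bd_WW {d : ℕ} {X X' A : Finset α} (hXX' : X ⊆ X') (l : List (Finset α)) :
    bd (X'.powersetCard d) (WW k d X A) l = bd (X.powersetCard d) (WW k d X A) l := by
  symm
  refine bd_subset (Finset.powersetCard_mono hXX') _ _ fun B _ hB' => ?_
  by_contra h
  apply hB'
  have h1 := (WW_valid h).1 B List.mem_cons_self
  exact Finset.mem_powersetCard.2 h1

theorem WW_cycle {d : ℕ} (hd : 2 ≤ d) {X X' A : Finset α} (hAX : A ⊆ X) (hXX' : X ⊆ X')
    (hA : A.card = cc d) (hX : cc d - (d - 1) ≤ (X \ A).card) :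
    bdL (X'.powersetCard d) (WW k d X A) = 0 := by
  have hE := zet_ECh_content (k := k) hd hAX hA hX
  have hpush : push (X.powersetCard d) (col A) (WW k d X A) = zet k d (0 : ℕ) 1 := by
    funext L
    exact push_lift (fun b hb => antidiag_degree hb) hE L
  funext l
  change bd (X'.powersetCard d) (WW k d X A) l = 0
  rw [bd_WW hXX']
  refine push_inj (d := d) (X := X) (col A) (z := bd (X.powersetCard d) (WW k d X A)) ?_ ?_ ?_ l
  · intro l hl
    obtain ⟨B, _, hB⟩ := Finset.exists_ne_zero_of_sum_ne_zero hl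
    have h1 := WW_valid hB
    rw [valid_cons] at h1
    exact h1.2.mono Finset.sdiff_subset
  · intro g hg hgc
    have h4 : bd (X.powersetCard d) (WW k d X A) = bdL (X.powersetCard d) (WW k d X A) := rfl
    rw [h4, ← bdL_rho hg]
    congr 1
    exact lift_inv _ hg hgc
  · intro L
    rw [← bd_push (col A) (content_mem X A), hpush]
    exact zet_cycle L

omit [Fintype α] [CharZero k] [Field k] in
private theorem content_col_mv (A B : Finset α) (g : Perm α) :
    content (col (mv g A)) (mv g B) = content (col A) B := by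
  unfold content mv
  rw [Finset.sum_map]
  refine Finset.sum_congr rfl fun x _ => ?_
  have h : col (A.map g.toEmbedding) (g.toEmbedding x) = col A x := by
    rw [col_eq]
    exact Finset.mem_map' _
  rw [h]

omit [Fintype α] [CharZero k] [Field k] in
private theorem valid_mv {d : ℕ} {X : Finset α} {l : List (Finset α)} (g : Perm α)
    (h : Valid d X l) : Valid d (mv g X) (l.map (mv g)) := by
  constructor
  · intro B hB
    rw [List.mem_map] at hB
    obtain ⟨C, hC, rfl⟩ := hB
    exact ⟨Finset.map_subset_map.2 (h.1 C hC).1, by rw [mv_card]; exact (h.1 C hC).2⟩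
  · rw [List.pairwise_map]
    exact h.2.imp fun hab => mv_disjoint g hab

omit [Fintype α] [CharZero k] [Field k] in
private theorem valid_mv_iff {d : ℕ} {X : Finset α} {l : List (Finset α)} (g : Perm α) :
    Valid d (mv g X) (l.map (mv g)) ↔ Valid d X l := by
  refine ⟨fun h => ?_, valid_mv g⟩
  have h1 := valid_mv g⁻¹ h
  rw [mv_inv_mv] at h1
  have h2 := map_mv_inv g⁻¹ l
  rw [inv_inv] at h2
  rwa [h2] at h1

omit [Fintype α] [CharZero k] [Field k] in
private theorem map_content_mv (A : Finset α) (g : Perm α) (l : List (Finset α)) :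
    (l.map (mv g)).map (content (col (mv g A))) = l.map (content (col A)) := by
  rw [List.map_map]
  exact List.map_congr_left fun B _ => content_col_mv A B g

omit [Fintype α] [CharZero k] [Field k] in
private theorem mem_real_mv {d : ℕ} {X A : Finset α} (g : Perm α) {L : List (ℕ →₀ ℕ)}
    {l : List (Finset α)} (h : l ∈ real (X.powersetCard d) (col A) L) :
    l.map (mv g) ∈ real ((mv g X).powersetCard d) (col (mv g A)) L := by
  rw [mem_real] at h ⊢
  refine ⟨fun B hB => ?_, ?_⟩
  · rw [List.mem_map] at hB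
    obtain ⟨C, hC, rfl⟩ := hB
    have h1 := Finset.mem_powersetCard.1 (h.1 C hC)
    exact Finset.mem_powersetCard.2 ⟨Finset.map_subset_map.2 h1.1, by rw [mv_card]; exact h1.2⟩
  · rw [map_content_mv]
    exact h.2

omit [Fintype α] [CharZero k] in
private theorem cnt_mv {d : ℕ} (X A : Finset α) (g : Perm α) (L : List (ℕ →₀ ℕ)) :
    cnt k d (mv g X) (col (mv g A)) L = cnt k d X (col A) L := by
  classical
  unfold cnt push
  symm
  have hmap : ∀ l : List (Finset α), (l.map (mv g)).map (mv g⁻¹) = l := by
    intro l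
    have h2 := map_mv_inv g⁻¹ l
    rwa [inv_inv] at h2
  refine Finset.sum_nbij' (fun l => l.map (mv g)) (fun l => l.map (mv g⁻¹)) ?_ ?_ ?_ ?_ ?_
  · exact fun l hl => mem_real_mv g hl
  · intro l hl
    have h := mem_real_mv g⁻¹ hl
    rwa [mv_inv_mv, mv_inv_mv] at h
  · exact fun l _ => hmap l
  · exact fun l _ => map_mv_inv g l
  · intro l _
    exact if_congr (valid_mv_iff g).symm rfl rfl

/-- any permutation acts by moving both sets -/
theorem WW_rho' {d : ℕ} {X A : Finset α} (g : Perm α) :
    rho k α g (WW k d X A) = WW k d (mv g X) (mv g A) := by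
  classical
  funext l
  rw [rho_apply]
  obtain ⟨l', rfl⟩ : ∃ l', l = l'.map (mv g) := ⟨l.map (mv g⁻¹), (map_mv_inv g l).symm⟩
  have h1 : (l'.map (mv g)).map (mv g⁻¹) = l' := by
    have h2 := map_mv_inv g⁻¹ l'
    rwa [inv_inv] at h2
  rw [h1]
  unfold WW lift
  rw [map_content_mv, cnt_mv]
  exact if_congr (valid_mv_iff g).symm rfl rfl

theorem WW_rho {d : ℕ} {X A : Finset α} {g : Perm α} (hg : g ∈ ST X) :
    rho k α g (WW k d X A) = WW k d X (mv g A) := by
  have h : mv g X = X := by
    refine Finset.eq_of_subset_of_card_le (mv_subset hg (Finset.Subset.refl X)) ?_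
    rw [mv_card]
  rw [WW_rho', h]

theorem push_WW {d : ℕ} (hd : 2 ≤ d) {X X' A : Finset α} (hAX : A ⊆ X) (hXX' : X ⊆ X')
    (hA : A.card = cc d) (hX : cc d - (d - 1) ≤ (X \ A).card) :
    push (X'.powersetCard d) (col A) (WW k d X A) = zet k d (0 : ℕ) 1 := by
  have hE := zet_ECh_content (k := k) hd hAX hA hX
  funext L
  have h1 : push (X.powersetCard d) (col A) (WW k d X A) L = zet k d (0 : ℕ) 1 L :=
    push_lift (fun b hb => antidiag_degree hb) hE L
  rw [← h1]
  unfold push
  symm
  refine Finset.sum_subset ?_ ?_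
  · intro l hl
    rw [mem_real] at hl ⊢
    exact ⟨fun B hB => Finset.powersetCard_mono hXX' (hl.1 B hB), hl.2⟩
  · intro l hl hl'
    by_contra h
    apply hl'
    rw [mem_real] at hl ⊢
    exact ⟨fun B hB => Finset.mem_powersetCard.2 ((WW_valid h).1 B hB), hl.2⟩

end VKB
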